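import Pool.Agent.Work.MP_440970_an.CX.Defs
import Pool.Agent.Work.MP_440970_an.Bd.B01

/-! Bundle of small proof modules (one section per former module). -/

section

/-!
# Uniform bounds of the approximating fields
-/

open MeasureTheory Complex Set Filter Topology
open scoped ENNReal ComplexConjugate

set_option autoImplicit false

namespace Pool.Agent.Work.MP_440970_an

/-- radial factor -/
noncomputable def ApB_P (s r : ℝ) : ℝ := (Real.sqrt (s ^ 2 + r ^ 2) ^ 3)⁻¹

lemma ApB_rpow (s r : ℝ) (hr : 0 < r) : (s ^ 2 + r ^ 2) ^ (-(3 / 2) : ℝ) = ApB_P s r := by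
  have h : 0 < s ^ 2 + r ^ 2 := by positivity
  have h2 : Real.sqrt (s ^ 2 + r ^ 2) ^ 3 = (s ^ 2 + r ^ 2) ^ (3 / 2 : ℝ) := by
    rw [Real.sqrt_eq_rpow, ← Real.rpow_natCast ((s ^ 2 + r ^ 2) ^ (1 / 2 : ℝ)) 3,
      ← Real.rpow_mul h.le]
    norm_num
  rw [ApB_P, Real.rpow_neg h.le, h2]

lemma ApB_sq_ge (s r : ℝ) : r ≤ Real.sqrt (s ^ 2 + r ^ 2) := by
  apply Real.le_sqrt_of_sq_le
  nlinarith [sq_nonneg s]

lemma ApB_sq_ge' (s r : ℝ) : s ≤ Real.sqrt (s ^ 2 + r ^ 2) := by
  apply Real.le_sqrt_of_sq_le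
  nlinarith [sq_nonneg r]

lemma ApB_pos (s r : ℝ) (hr : 0 < r) : 0 < ApB_P s r := by
  have h := ApB_sq_ge s r
  have h2 : 0 < Real.sqrt (s ^ 2 + r ^ 2) := by linarith
  unfold ApB_P
  positivity

lemma ApB_le (s r : ℝ) (hr : 0 < r) : ApB_P s r ≤ (r ^ 3)⁻¹ := by
  unfold ApB_P
  apply inv_anti₀ (by positivity)
  exact pow_le_pow_left₀ hr.le (ApB_sq_ge s r) 3

lemma ApB_diff (s s' r : ℝ) (hr : 0 < r) (hs : 0 ≤ s) (hss : s ≤ s') :
    |ApB_P s r - ApB_P s' r| * r ≤ 3 * (s' - s) * (r ^ 3)⁻¹ := by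
  have hs' : 0 ≤ s' := hs.trans hss
  set u := Real.sqrt (s ^ 2 + r ^ 2) with hu
  set v := Real.sqrt (s' ^ 2 + r ^ 2) with hv
  have hur : r ≤ u := ApB_sq_ge s r
  have hvr : r ≤ v := ApB_sq_ge s' r
  have hus : s ≤ u := ApB_sq_ge' s r
  have hvs : s' ≤ v := ApB_sq_ge' s' r
  have hu2 : u ^ 2 = s ^ 2 + r ^ 2 := Real.sq_sqrt (by positivity)
  have hv2 : v ^ 2 = s' ^ 2 + r ^ 2 := Real.sq_sqrt (by positivity)
  have hu0 : 0 < u := hr.trans_le hur
  have hv0 : 0 < v := hr.trans_le hvr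
  have huv : u ≤ v := Real.sqrt_le_sqrt (by nlinarith)
  have hd : v - u ≤ s' - s := by
    have h1 : (v - u) * (v + u) = (s' - s) * (s' + s) := by nlinarith
    have h2 : (v - u) * (v + u) ≤ (s' - s) * (v + u) := by
      rw [h1]
      exact mul_le_mul_of_nonneg_left (by linarith) (by linarith)
    exact le_of_mul_le_mul_right h2 (by linarith)
  have hP : ApB_P s r - ApB_P s' r = (v - u) * ((u ^ 3)⁻¹ * v⁻¹ + (u ^ 2)⁻¹ * (v ^ 2)⁻¹ +
      u⁻¹ * (v ^ 3)⁻¹) := by
    unfold ApB_P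
    rw [← hu, ← hv]
    field_simp
    ring
  have e1 : (u ^ 3)⁻¹ ≤ (r ^ 3)⁻¹ := inv_anti₀ (by positivity) (pow_le_pow_left₀ hr.le hur 3)
  have e2 : (u ^ 2)⁻¹ ≤ (r ^ 2)⁻¹ := inv_anti₀ (by positivity) (pow_le_pow_left₀ hr.le hur 2)
  have e3 : u⁻¹ ≤ r⁻¹ := inv_anti₀ hr hur
  have f1 : (v ^ 3)⁻¹ ≤ (r ^ 3)⁻¹ := inv_anti₀ (by positivity) (pow_le_pow_left₀ hr.le hvr 3)
  have f2 : (v ^ 2)⁻¹ ≤ (r ^ 2)⁻¹ := inv_anti₀ (by positivity) (pow_le_pow_left₀ hr.le hvr 2)
  have f3 : v⁻¹ ≤ r⁻¹ := inv_anti₀ hr hvr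
  have g1 : (u ^ 3)⁻¹ * v⁻¹ ≤ (r ^ 3)⁻¹ * r⁻¹ := mul_le_mul e1 f3 (by positivity) (by positivity)
  have g2 : (u ^ 2)⁻¹ * (v ^ 2)⁻¹ ≤ (r ^ 2)⁻¹ * (r ^ 2)⁻¹ :=
    mul_le_mul e2 f2 (by positivity) (by positivity)
  have g3 : u⁻¹ * (v ^ 3)⁻¹ ≤ r⁻¹ * (r ^ 3)⁻¹ := mul_le_mul e3 f1 (by positivity) (by positivity)
  have hW : (u ^ 3)⁻¹ * v⁻¹ + (u ^ 2)⁻¹ * (v ^ 2)⁻¹ + u⁻¹ * (v ^ 3)⁻¹ ≤ 3 * (r ^ 4)⁻¹ := by
    have : (r ^ 3)⁻¹ * r⁻¹ + (r ^ 2)⁻¹ * (r ^ 2)⁻¹ + r⁻¹ * (r ^ 3)⁻¹ = 3 * (r ^ 4)⁻¹ := by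
      field_simp
      ring
    linarith
  rw [hP, abs_of_nonneg (by
    apply mul_nonneg (by linarith)
    positivity)]
  calc (v - u) * ((u ^ 3)⁻¹ * v⁻¹ + (u ^ 2)⁻¹ * (v ^ 2)⁻¹ + u⁻¹ * (v ^ 3)⁻¹) * r
      ≤ (s' - s) * (3 * (r ^ 4)⁻¹) * r := by
        apply mul_le_mul_of_nonneg_right _ hr.le
        exact mul_le_mul hd hW (by positivity) (by linarith)
    _ = 3 * (s' - s) * (r ^ 3)⁻¹ := by
        field_simp

lemma ApB_hs (s : ℝ) (z : ℂ) (hz : 0 < ‖z‖) : hs s z = ((s * ApB_P s ‖z‖ : ℝ) : ℂ) := by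
  rw [hs, ApB_rpow s ‖z‖ hz]

lemma ApB_ks (s : ℝ) (z : ℂ) (hz : 0 < ‖z‖) : ks s z = z * ((ApB_P s ‖z‖ : ℝ) : ℂ) := by
  rw [ks, ApB_rpow s ‖z‖ hz]

lemma ApB_F1 (n : ℕ) (c s : ℕ → ℝ) (z : ℂ) (hz : 0 < ‖z‖) :
    ‖(Fs n c s z).1‖ = |∑ i ∈ Finset.range n, c i * (s i * ApB_P (s i) ‖z‖)| := by
  have : (Fs n c s z).1 = ((∑ i ∈ Finset.range n, c i * (s i * ApB_P (s i) ‖z‖) : ℝ) : ℂ) := by
    simp only [Fs]
    push_cast
    refine Finset.sum_congr rfl fun i _ => ?_
    rw [ApB_hs _ _ hz]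
    push_cast
    ring
  rw [this, Complex.norm_real, Real.norm_eq_abs]

lemma ApB_F2 (n : ℕ) (c s : ℕ → ℝ) (z : ℂ) (hz : 0 < ‖z‖) :
    ‖(Fs n c s z).2‖ = |∑ i ∈ Finset.range n, c i * ApB_P (s i) ‖z‖| * ‖z‖ := by
  have : (Fs n c s z).2 = z * ((∑ i ∈ Finset.range n, c i * ApB_P (s i) ‖z‖ : ℝ) : ℂ) := by
    simp only [Fs]
    push_cast
    rw [Finset.mul_sum]
    refine Finset.sum_congr rfl fun i _ => ?_
    rw [ApB_ks _ _ hz]
    ring
  rw [this, norm_mul, Complex.norm_real, Real.norm_eq_abs, mul_comm]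

lemma ApB_split (M : ℕ) (f : ℕ → ℝ) :
    ∑ i ∈ Finset.range (3 + M), f i =
      f 0 + f 1 + f 2 + ∑ j ∈ Finset.range M, f (j + 3) := by
  rw [Finset.sum_range_add]
  congr 1
  · simp [Finset.sum_range_succ]
  · refine Finset.sum_congr rfl fun i _ => ?_
    rw [add_comm]

lemma ApB_absfar (M : ℕ) (f : ℕ → ℝ) (K : ℝ) (h : ∀ j < M, |f (j + 3)| ≤ K) :
    |∑ j ∈ Finset.range M, f (j + 3)| ≤ M * K := by
  calc |∑ j ∈ Finset.range M, f (j + 3)| ≤ ∑ j ∈ Finset.range M, |f (j + 3)| :=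
        Finset.abs_sum_le_sum_abs _ _
    _ ≤ ∑ _j ∈ Finset.range M, K :=
        Finset.sum_le_sum fun j hj => h j (Finset.mem_range.1 hj)
    _ = M * K := by simp

theorem claimApB (hT : ClaimTay) (hM : ClaimApM) (hC : ClaimApC) : ClaimApB := by
  intro β ν M v hM3 hv
  obtain ⟨C1, hC1, hc1⟩ := hC β ν M v (by omega)
  obtain ⟨CT, hCT, hct⟩ := hT M (M + 2) (by omega) (by positivity)
  set B : ℝ := |β| + |ν| with hB
  have hB0 : 0 ≤ B := by positivity
  have hMM : (1 : ℝ) ≤ (M : ℝ) := by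
    exact_mod_cast (by omega : 1 ≤ M)
  set K1 : ℝ := 4 * B + M * (C1 * M) with hK1
  set K2 : ℝ := 3 * B + M * C1 with hK2
  set K3 : ℝ := CT * (B + 2 ^ M * B + B + M * (C1 * M ^ M)) with hK3
  have hK10 : 0 ≤ K1 := by positivity
  have hK20 : 0 ≤ K2 := by positivity
  have hK30 : 0 ≤ K3 := by positivity
  refine ⟨K1 + K2 + K3 + 1, by positivity, ?_⟩
  intro n z hn hz
  have hr : 0 < ‖z‖ := norm_pos_iff.2 hz
  set r := ‖z‖ with hrdef
  have hn' : (1 : ℝ) ≤ (n : ℝ) := by exact_mod_cast hn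
  have hn0 : (0 : ℝ) < (n : ℝ) := by linarith
  have hinv : 1 / (n : ℝ) ≤ 1 := by
    rw [div_le_one hn0]
    exact hn'
  have hr3 : 0 < (r ^ 3)⁻¹ := by positivity
  have hc0 : |cn β ν v M n 0| ≤ |β| * n + |ν| := by
    simp only [cn]
    calc |β * n + ν| ≤ |β * n| + |ν| := abs_add_le _ _
      _ = |β| * n + |ν| := by rw [abs_mul, abs_of_pos hn0]
  have hc0' : |β| * n + |ν| ≤ B * n := by
    rw [hB, add_mul]
    nlinarith [abs_nonneg ν]
  constructor
  · -- first components
    rw [ApB_F1 _ _ _ _ hr, ← hrdef, ApB_split]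
    have t0 : |cn β ν v M n 0 * (sn n 0 * ApB_P (sn n 0) r)| ≤ B * (r ^ 3)⁻¹ := by
      have hs0 : sn n 0 = 1 / n := rfl
      rw [abs_mul, abs_mul, abs_of_pos (ApB_pos _ r hr), hs0,
        abs_of_pos (show (0 : ℝ) < 1 / (n : ℝ) by positivity)]
      calc |cn β ν v M n 0| * (1 / n * ApB_P (1 / n) r)
          ≤ (B * n) * (1 / n * (r ^ 3)⁻¹) := by
            apply mul_le_mul (hc0.trans hc0') _ (by have := ApB_pos (1 / n) r hr; positivity)
              (by positivity)
            exact mul_le_mul_of_nonneg_left (ApB_le _ r hr) (by positivity)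
        _ = B * (r ^ 3)⁻¹ := by field_simp
    have t1 : |cn β ν v M n 1 * (sn n 1 * ApB_P (sn n 1) r)| ≤ 2 * B * (r ^ 3)⁻¹ := by
      have hs1 : sn n 1 = 2 / n := rfl
      have hcc : |cn β ν v M n 1| = |β| * n := by
        simp only [cn]
        rw [abs_neg, abs_mul, abs_of_pos hn0]
      rw [abs_mul, abs_mul, abs_of_pos (ApB_pos _ r hr), hs1,
        abs_of_pos (show (0 : ℝ) < 2 / (n : ℝ) by positivity), hcc]
      calc |β| * n * (2 / n * ApB_P (2 / n) r)
          ≤ (B * n) * (2 / n * (r ^ 3)⁻¹) := by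
            apply mul_le_mul _ _ (by have := ApB_pos (2 / n) r hr; positivity)
              (by positivity)
            · apply mul_le_mul_of_nonneg_right _ hn0.le
              rw [hB]
              linarith [abs_nonneg ν]
            · exact mul_le_mul_of_nonneg_left (ApB_le _ r hr) (by positivity)
        _ = 2 * B * (r ^ 3)⁻¹ := by field_simp
    have t2 : |cn β ν v M n 2 * (sn n 2 * ApB_P (sn n 2) r)| ≤ B * (r ^ 3)⁻¹ := by
      have hs2 : sn n 2 = 1 := rfl
      have hcc : |cn β ν v M n 2| = |ν| := by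
        simp only [cn]
        rw [abs_neg]
      rw [abs_mul, abs_mul, abs_of_pos (ApB_pos _ r hr), hs2, abs_one, one_mul, hcc]
      apply mul_le_mul _ (ApB_le _ r hr) (ApB_pos _ r hr).le hB0
      rw [hB]
      linarith [abs_nonneg β]
    have t3 : |∑ j ∈ Finset.range M, cn β ν v M n (j + 3) *
        (sn n (j + 3) * ApB_P (sn n (j + 3)) r)| ≤ M * (C1 * M * (r ^ 3)⁻¹) := by
      refine ApB_absfar M (fun i => cn β ν v M n i * (sn n i * ApB_P (sn n i) r)) _ ?_
      intro j hj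
      have hs3 : sn n (j + 3) = n * (1 + j) := rfl
      have hjM : (1 : ℝ) + j ≤ M := by
        have : 1 + j ≤ M := by omega
        exact_mod_cast this
      show |cn β ν v M n (j + 3) * (sn n (j + 3) * ApB_P (sn n (j + 3)) r)| ≤ _
      rw [abs_mul, abs_mul, abs_of_pos (ApB_pos _ r hr), hs3,
        abs_of_pos (show (0 : ℝ) < (n : ℝ) * (1 + j) by positivity)]
      calc |cn β ν v M n (j + 3)| * (n * (1 + j) * ApB_P (n * (1 + j)) r)
          ≤ (C1 / n) * (n * M * (r ^ 3)⁻¹) := by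
            apply mul_le_mul (hc1 n hn j hj) _
              (by have := ApB_pos (n * (1 + j)) r hr; positivity) (by positivity)
            apply mul_le_mul _ (ApB_le _ r hr) (ApB_pos _ r hr).le (by positivity)
            exact mul_le_mul_of_nonneg_left hjM hn0.le
        _ = C1 * M * (r ^ 3)⁻¹ := by field_simp
    have key : |cn β ν v M n 0 * (sn n 0 * ApB_P (sn n 0) r) +
        cn β ν v M n 1 * (sn n 1 * ApB_P (sn n 1) r) +
        cn β ν v M n 2 * (sn n 2 * ApB_P (sn n 2) r) +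
        ∑ j ∈ Finset.range M, cn β ν v M n (j + 3) *
        (sn n (j + 3) * ApB_P (sn n (j + 3)) r)| ≤ K1 * (r ^ 3)⁻¹ := by
      refine (abs_add_le _ _).trans ?_
      refine (add_le_add (abs_add_three _ _ _) le_rfl).trans ?_
      calc _ ≤ B * (r ^ 3)⁻¹ + 2 * B * (r ^ 3)⁻¹ + B * (r ^ 3)⁻¹ +
            M * (C1 * M * (r ^ 3)⁻¹) :=
            add_le_add (add_le_add (add_le_add t0 t1) t2) t3
        _ = K1 * (r ^ 3)⁻¹ := by rw [hK1]; ring
    refine key.trans ?_
    apply mul_le_mul_of_nonneg_right _ hr3.le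
    linarith
  · -- second components
    rcases le_total r (n : ℝ) with hrn | hrn
    · rw [ApB_F2 _ _ _ _ hr, ← hrdef, ApB_split]
      have hs0 : sn n 0 = 1 / n := rfl
      have hs1 : sn n 1 = 2 / n := rfl
      have hs2 : sn n 2 = 1 := rfl
      have d1 := ApB_diff (1 / n) (2 / n) r hr (by positivity) (by
        apply div_le_div_of_nonneg_right _ hn0.le
        norm_num)
      have d2 := ApB_diff (1 / n) 1 r hr (by positivity) hinv
      have hnear : cn β ν v M n 0 * ApB_P (sn n 0) r + cn β ν v M n 1 * ApB_P (sn n 1) r +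
          cn β ν v M n 2 * ApB_P (sn n 2) r =
          β * n * (ApB_P (1 / n) r - ApB_P (2 / n) r) +
          ν * (ApB_P (1 / n) r - ApB_P 1 r) := by
        rw [hs0, hs1, hs2]
        simp only [cn]
        ring
      have t3 : |∑ j ∈ Finset.range M, cn β ν v M n (j + 3) * ApB_P (sn n (j + 3)) r| ≤
          M * (C1 / n * (r ^ 3)⁻¹) := by
        refine ApB_absfar M (fun i => cn β ν v M n i * ApB_P (sn n i) r) _ ?_
        intro j hj
        show |cn β ν v M n (j + 3) * ApB_P (sn n (j + 3)) r| ≤ _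
        rw [abs_mul, abs_of_pos (ApB_pos _ r hr)]
        exact mul_le_mul (hc1 n hn j hj) (ApB_le _ r hr) (ApB_pos _ r hr).le (by positivity)
      have n1 : |β * n * (ApB_P (1 / n) r - ApB_P (2 / n) r)| * r ≤ |β| * 3 * (r ^ 3)⁻¹ := by
        rw [abs_mul, abs_mul, abs_of_pos hn0, mul_assoc]
        calc |β| * n * (|ApB_P (1 / n) r - ApB_P (2 / n) r| * r)
            ≤ |β| * n * (3 * (2 / n - 1 / n) * (r ^ 3)⁻¹) :=
              mul_le_mul_of_nonneg_left d1 (by positivity)
          _ = |β| * 3 * (r ^ 3)⁻¹ := by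
              field_simp
              ring
      have n2 : |ν * (ApB_P (1 / n) r - ApB_P 1 r)| * r ≤ |ν| * 3 * (r ^ 3)⁻¹ := by
        rw [abs_mul, mul_assoc]
        calc |ν| * (|ApB_P (1 / n) r - ApB_P 1 r| * r)
            ≤ |ν| * (3 * (1 - 1 / n) * (r ^ 3)⁻¹) :=
              mul_le_mul_of_nonneg_left d2 (by positivity)
          _ ≤ |ν| * (3 * 1 * (r ^ 3)⁻¹) := by
              apply mul_le_mul_of_nonneg_left _ (abs_nonneg ν)
              apply mul_le_mul_of_nonneg_right _ hr3.le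
              have : 0 < 1 / (n : ℝ) := by positivity
              linarith
          _ = |ν| * 3 * (r ^ 3)⁻¹ := by ring
      have n3 : |∑ j ∈ Finset.range M, cn β ν v M n (j + 3) * ApB_P (sn n (j + 3)) r| * r ≤
          M * C1 * (r ^ 3)⁻¹ := by
        calc _ ≤ M * (C1 / n * (r ^ 3)⁻¹) * n :=
              mul_le_mul t3 hrn hr.le (by positivity)
          _ = M * C1 * (r ^ 3)⁻¹ := by field_simp
      rw [hnear]
      have key : |β * n * (ApB_P (1 / n) r - ApB_P (2 / n) r) +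
          ν * (ApB_P (1 / n) r - ApB_P 1 r) +
          ∑ j ∈ Finset.range M, cn β ν v M n (j + 3) * ApB_P (sn n (j + 3)) r| * r ≤
          K2 * (r ^ 3)⁻¹ := by
        calc _ ≤ (|β * n * (ApB_P (1 / n) r - ApB_P (2 / n) r)| +
              |ν * (ApB_P (1 / n) r - ApB_P 1 r)| +
              |∑ j ∈ Finset.range M, cn β ν v M n (j + 3) * ApB_P (sn n (j + 3)) r|) * r :=
              mul_le_mul_of_nonneg_right (abs_add_three _ _ _) hr.le
          _ = |β * n * (ApB_P (1 / n) r - ApB_P (2 / n) r)| * r +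
              |ν * (ApB_P (1 / n) r - ApB_P 1 r)| * r +
              |∑ j ∈ Finset.range M, cn β ν v M n (j + 3) * ApB_P (sn n (j + 3)) r| * r := by
              ring
          _ ≤ |β| * 3 * (r ^ 3)⁻¹ + |ν| * 3 * (r ^ 3)⁻¹ + M * C1 * (r ^ 3)⁻¹ :=
              add_le_add (add_le_add n1 n2) n3
          _ = K2 * (r ^ 3)⁻¹ := by rw [hK2, hB]; ring
      refine key.trans ?_
      apply mul_le_mul_of_nonneg_right _ hr3.le
      linarith
    · have hr1 : 1 ≤ r := hn'.trans hrn
      obtain ⟨hpos, hmom⟩ := hM β ν M v (by omega) hv n hn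
      have hdep : ∀ i < 3 + M, 0 < sn n i ∧ sn n i ≤ ((M : ℝ) + 2) * ‖z‖ := by
        intro i hi
        refine ⟨hpos i, ?_⟩
        rw [← hrdef]
        match i, hi with
        | 0, _ =>
          show 1 / (n : ℝ) ≤ _
          nlinarith
        | 1, _ =>
          show 2 / (n : ℝ) ≤ _
          have : 2 / (n : ℝ) = 2 * (1 / n) := by ring
          rw [this]
          nlinarith
        | 2, _ =>
          show (1 : ℝ) ≤ _
          nlinarith
        | (j + 3), hj =>
          show (n : ℝ) * (1 + j) ≤ _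
          have hjM : (1 : ℝ) + j ≤ M := by
            have : 1 + j ≤ M := by omega
            exact_mod_cast this
          calc (n : ℝ) * (1 + j) ≤ r * M :=
                mul_le_mul hrn hjM (by positivity) hr.le
            _ ≤ ((M : ℝ) + 2) * r := by nlinarith
      have hF := (hct (3 + M) (cn β ν v M n) (sn n) z hz hdep hmom).2
      rw [← hrdef, ApB_split] at hF
      -- the powers
      have hM0 : M ≠ 0 := by omega
      have hx0 : 0 ≤ 1 / (n : ℝ) / r := by positivity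
      have hx1 : 1 / (n : ℝ) / r ≤ 1 := by
        rw [div_le_one hr]
        linarith
      have hpx : (1 / (n : ℝ) / r) ^ M ≤ 1 / (n : ℝ) / r := pow_le_of_le_one hx0 hx1 hM0
      have u0 : |cn β ν v M n 0| * (sn n 0 / r) ^ M ≤ B * r⁻¹ := by
        have hs0 : sn n 0 = 1 / n := rfl
        rw [hs0]
        calc |cn β ν v M n 0| * (1 / (n : ℝ) / r) ^ M ≤ (B * n) * (1 / (n : ℝ) / r) :=
              mul_le_mul (hc0.trans hc0') hpx (by positivity) (by positivity)
          _ = B * r⁻¹ := by field_simp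
      have u1 : |cn β ν v M n 1| * (sn n 1 / r) ^ M ≤ 2 ^ M * B * r⁻¹ := by
        have hs1 : sn n 1 = 2 / n := rfl
        have hcc : |cn β ν v M n 1| = |β| * n := by
          simp only [cn]
          rw [abs_neg, abs_mul, abs_of_pos hn0]
        have h2 : (2 / (n : ℝ) / r) ^ M = 2 ^ M * (1 / (n : ℝ) / r) ^ M := by
          rw [← mul_pow]
          congr 1
          ring
        rw [hs1, hcc, h2]
        calc |β| * n * (2 ^ M * (1 / (n : ℝ) / r) ^ M)
            ≤ (B * n) * (2 ^ M * (1 / (n : ℝ) / r)) := by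
              apply mul_le_mul _ _ (by positivity) (by positivity)
              · apply mul_le_mul_of_nonneg_right _ hn0.le
                rw [hB]
                linarith [abs_nonneg ν]
              · exact mul_le_mul_of_nonneg_left hpx (by positivity)
          _ = 2 ^ M * B * r⁻¹ := by field_simp
      have u2 : |cn β ν v M n 2| * (sn n 2 / r) ^ M ≤ B * r⁻¹ := by
        have hs2 : sn n 2 = 1 := rfl
        have hcc : |cn β ν v M n 2| = |ν| := by
          simp only [cn]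
          rw [abs_neg]
        rw [hs2, hcc, one_div]
        apply mul_le_mul _ _ (by positivity) hB0
        · rw [hB]
          linarith [abs_nonneg β]
        · exact pow_le_of_le_one (by positivity) (inv_le_one_of_one_le₀ hr1) hM0
      have u3 : ∑ j ∈ Finset.range M, |cn β ν v M n (j + 3)| * (sn n (j + 3) / r) ^ M ≤
          M * (C1 * M ^ M * r⁻¹) := by
        calc _ ≤ ∑ _j ∈ Finset.range M, (C1 * M ^ M * r⁻¹) := by
              refine Finset.sum_le_sum fun j hj => ?_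
              have hj := Finset.mem_range.1 hj
              have hjM : (1 : ℝ) + j ≤ M := by
                have : 1 + j ≤ M := by omega
                exact_mod_cast this
              have hs3 : sn n (j + 3) = n * (1 + j) := rfl
              have h3 : ((n : ℝ) * (1 + j) / r) ^ M = (1 + j) ^ M * (n / r) ^ M := by
                rw [← mul_pow]
                congr 1
                ring
              have hy1 : (n : ℝ) / r ≤ 1 := by
                rw [div_le_one hr]
                exact hrn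
              have hy : ((n : ℝ) / r) ^ M ≤ n / r := pow_le_of_le_one (by positivity) hy1 hM0
              rw [hs3, h3]
              calc |cn β ν v M n (j + 3)| * ((1 + j) ^ M * (n / r) ^ M)
                  ≤ (C1 / n) * (M ^ M * (n / r)) := by
                    apply mul_le_mul (hc1 n hn j hj) _ (by positivity) (by positivity)
                    apply mul_le_mul _ hy (by positivity) (by positivity)
                    exact pow_le_pow_left₀ (by positivity) hjM M
                _ = C1 * M ^ M * r⁻¹ := by field_simp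
          _ = M * (C1 * M ^ M * r⁻¹) := by simp
      have hsum : |cn β ν v M n 0| * (sn n 0 / r) ^ M + |cn β ν v M n 1| * (sn n 1 / r) ^ M +
          |cn β ν v M n 2| * (sn n 2 / r) ^ M +
          ∑ j ∈ Finset.range M, |cn β ν v M n (j + 3)| * (sn n (j + 3) / r) ^ M ≤
          (B + 2 ^ M * B + B + M * (C1 * M ^ M)) * r⁻¹ := by
        calc _ ≤ B * r⁻¹ + 2 ^ M * B * r⁻¹ + B * r⁻¹ + M * (C1 * M ^ M * r⁻¹) :=
              add_le_add (add_le_add (add_le_add u0 u1) u2) u3
          _ = _ := by ring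
      have key : ‖(Fs (3 + M) (cn β ν v M n) (sn n) z).2‖ ≤ K3 * (r ^ 3)⁻¹ := by
        refine hF.trans ?_
        calc _ ≤ CT * (r ^ 2)⁻¹ * ((B + 2 ^ M * B + B + M * (C1 * M ^ M)) * r⁻¹) :=
              mul_le_mul_of_nonneg_left hsum (by positivity)
          _ = K3 * (r ^ 3)⁻¹ := by
              rw [hK3]
              field_simp
      refine key.trans ?_
      apply mul_le_mul_of_nonneg_right _ hr3.le
      linarith

end Pool.Agent.Work.MP_440970_an

end

section

/-!
# Block CX, item CX7: the far charges are small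
-/

namespace Pool.Agent.Work.MP_440970_an

theorem ApC_pow (n k : ℕ) (hn : 1 ≤ n) (hk : 1 ≤ k) :
    0 ≤ (1 / (n : ℝ)) ^ k ∧ (1 / (n : ℝ)) ^ k ≤ 1 / n ∧ (n : ℝ) * (1 / (n : ℝ)) ^ k ≤ 1 := by
  have hn0 : (0 : ℝ) < n := by exact_mod_cast hn
  have hn1 : (1 : ℝ) ≤ n := by exact_mod_cast hn
  have h1 : (1 : ℝ) / n ≤ 1 := by
    rw [div_le_one hn0]
    exact hn1
  have h0 : (0 : ℝ) ≤ 1 / n := by positivity
  have h2 : (1 / (n : ℝ)) ^ k ≤ 1 / n := by
    calc (1 / (n : ℝ)) ^ k ≤ (1 / (n : ℝ)) ^ 1 := pow_le_pow_of_le_one h0 h1 hk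
      _ = 1 / n := pow_one _
  refine ⟨by positivity, h2, ?_⟩
  calc (n : ℝ) * (1 / (n : ℝ)) ^ k ≤ n * (1 / n) := mul_le_mul_of_nonneg_left h2 hn0.le
    _ = 1 := by field_simp

theorem ApC_term (β ν w : ℝ) (n k : ℕ) (hn : 1 ≤ n) :
    |((β * n + ν) * (1 / (n : ℝ)) ^ k - β * n * (2 / (n : ℝ)) ^ k - ν) * (1 / (n : ℝ)) ^ k * w|
      ≤ (2 + 2 ^ k) * (|β| + |ν|) * |w| * (1 / n) := by
  have hn0 : (0 : ℝ) < n := by exact_mod_cast hn
  rcases Nat.eq_zero_or_pos k with rfl | hk
  · have : ((β * n + ν) * (1 / (n : ℝ)) ^ 0 - β * n * (2 / (n : ℝ)) ^ 0 - ν) = 0 := by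
      simp
    rw [this]
    simp only [zero_mul, abs_zero]
    positivity
  · obtain ⟨h0, h1, h2⟩ := ApC_pow n k hn hk
    set q : ℝ := (1 / (n : ℝ)) ^ k with hq
    have h3 : (2 / (n : ℝ)) ^ k = 2 ^ k * q := by
      rw [hq, ← mul_pow]
      congr 1
      ring
    have h4 : 0 ≤ (n : ℝ) * q := mul_nonneg hn0.le h0
    have h5 : q ≤ 1 := by
      have hn1 : (1 : ℝ) ≤ n := by exact_mod_cast hn
      have : (1 : ℝ) / n ≤ 1 := by
        rw [div_le_one hn0]
        exact hn1
      linarith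
    have hb : |(β * n + ν) * q - β * n * (2 / (n : ℝ)) ^ k - ν| ≤ (2 + 2 ^ k) * (|β| + |ν|) := by
      rw [h3]
      have e : (β * n + ν) * q - β * n * (2 ^ k * q) - ν =
          β * (n * q) + ν * q + (-(β * 2 ^ k * (n * q))) + -ν := by ring
      rw [e]
      have a1 : |β * (n * q)| ≤ |β| := by
        rw [abs_mul, abs_of_nonneg h4]
        exact mul_le_of_le_one_right (abs_nonneg _) h2
      have a2 : |ν * q| ≤ |ν| := by
        rw [abs_mul, abs_of_nonneg h0]
        exact mul_le_of_le_one_right (abs_nonneg _) h5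
      have a3 : |(-(β * 2 ^ k * (n * q)))| ≤ 2 ^ k * |β| := by
        rw [abs_neg, abs_mul, abs_mul, abs_of_nonneg h4,
          abs_of_nonneg (by positivity : (0 : ℝ) ≤ 2 ^ k), mul_comm |β|]
        exact mul_le_of_le_one_right (by positivity) h2
      have a4 : |(-ν)| = |ν| := abs_neg _
      have t1 := abs_add_le (β * (n * q) + ν * q + (-(β * 2 ^ k * (n * q)))) (-ν)
      have t2 := abs_add_le (β * (n * q) + ν * q) (-(β * 2 ^ k * (n * q)))
      have t3 := abs_add_le (β * (n * q)) (ν * q)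
      have p1 : (0 : ℝ) ≤ 2 ^ k * |ν| := by positivity
      have p2 := abs_nonneg β
      nlinarith
    rw [abs_mul, abs_mul, abs_of_nonneg h0]
    calc |(β * n + ν) * q - β * n * (2 / (n : ℝ)) ^ k - ν| * q * |w|
        ≤ ((2 + 2 ^ k) * (|β| + |ν|)) * (1 / n) * |w| := by
          refine mul_le_mul_of_nonneg_right ?_ (abs_nonneg _)
          exact mul_le_mul hb h1 h0 (by positivity)
      _ = _ := by ring

theorem claimApC : ClaimApC := by
  intro β ν M v _
  have hs : 0 ≤ ∑ j ∈ Finset.range M, ∑ k ∈ Finset.range M,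
      (2 + 2 ^ k) * (|β| + |ν|) * |v k j| := by positivity
  refine ⟨1 + ∑ j ∈ Finset.range M, ∑ k ∈ Finset.range M,
      (2 + 2 ^ k) * (|β| + |ν|) * |v k j|, by linarith, ?_⟩
  intro n hn j hj
  have hn0 : (0 : ℝ) < n := by exact_mod_cast hn
  have h1 : |cn β ν v M n (j + 3)| ≤ ∑ k ∈ Finset.range M,
      (2 + 2 ^ k) * (|β| + |ν|) * |v k j| * (1 / (n : ℝ)) := by
    have : cn β ν v M n (j + 3) = -∑ k ∈ Finset.range M,
      ((β * n + ν) * (1 / (n : ℝ)) ^ k - β * n * (2 / (n : ℝ)) ^ k - ν) * (1 / (n : ℝ)) ^ k *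
        v k j := rfl
    rw [this, abs_neg]
    refine (Finset.abs_sum_le_sum_abs _ _).trans (Finset.sum_le_sum fun k _ => ?_)
    exact ApC_term β ν (v k j) n k hn
  rw [← Finset.sum_mul] at h1
  have h2 : ∑ k ∈ Finset.range M, (2 + 2 ^ k) * (|β| + |ν|) * |v k j| ≤
      ∑ j ∈ Finset.range M, ∑ k ∈ Finset.range M, (2 + 2 ^ k) * (|β| + |ν|) * |v k j| :=
    Finset.single_le_sum
      (f := fun j => ∑ k ∈ Finset.range M, (2 + 2 ^ k) * (|β| + |ν|) * |v k j|)
      (fun i _ => by positivity) (Finset.mem_range.mpr hj)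
  refine h1.trans ?_
  have h3 : (0 : ℝ) ≤ 1 / (n : ℝ) := by positivity
  have h4 := mul_le_mul_of_nonneg_right (h2.trans (le_add_of_nonneg_left zero_le_one)) h3
  refine h4.trans (le_of_eq ?_)
  ring

end Pool.Agent.Work.MP_440970_an

end

section

open MeasureTheory Complex Set Filter Topology
open scoped ENNReal ComplexConjugate

namespace Pool.Agent.Work.MP_440970_an

/-- the weight -/
noncomputable def ApL_w (r x : ℝ) : ℝ := (x ^ 2 + r ^ 2) ^ (-(3 / 2) : ℝ)

lemma ApL_rpow (a : ℝ) (ha : 0 < a) : a ^ (-(3 / 2) : ℝ) = (Real.sqrt a ^ 3)⁻¹ := by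
  rw [Real.rpow_neg ha.le, Real.sqrt_eq_rpow, ← Real.rpow_natCast, ← Real.rpow_mul ha.le]
  norm_num

lemma ApL_w_zero (r : ℝ) (hr : 0 < r) : ApL_w r 0 = (r ^ 3)⁻¹ := by
  unfold ApL_w
  rw [ApL_rpow _ (by positivity)]
  have : Real.sqrt (0 ^ 2 + r ^ 2) = r := by
    rw [zero_pow two_ne_zero, zero_add, Real.sqrt_sq hr.le]
  rw [this]

lemma ApL_w_one (r : ℝ) : ApL_w r 1 = (Real.sqrt (1 + r ^ 2) ^ 3)⁻¹ := by
  unfold ApL_w
  rw [ApL_rpow _ (by positivity), one_pow]

lemma ApL_w_nonneg (r x : ℝ) : 0 ≤ ApL_w r x := by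
  unfold ApL_w
  exact Real.rpow_nonneg (by positivity) _

lemma ApL_w_le (r x : ℝ) (hx : 1 ≤ x) : ApL_w r x ≤ 1 ∧ x * ApL_w r x ≤ 1 := by
  have hpos : 0 < x ^ 2 + r ^ 2 := by positivity
  unfold ApL_w
  rw [ApL_rpow _ hpos]
  set q := Real.sqrt (x ^ 2 + r ^ 2) with hq
  have hxq : x ≤ q := by
    rw [hq]
    apply Real.le_sqrt_of_sq_le
    nlinarith [sq_nonneg r]
  have h1 : 1 ≤ q := le_trans hx hxq
  have hq0 : 0 < q := by linarith
  have h3 : 1 ≤ q ^ 3 := one_le_pow₀ h1
  refine ⟨inv_le_one_of_one_le₀ h3, ?_⟩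
  rw [← div_eq_mul_inv, div_le_one (by positivity)]
  calc x ≤ q := hxq
    _ = q ^ 1 := (pow_one q).symm
    _ ≤ q ^ 3 := pow_le_pow_right₀ h1 (by norm_num)

lemma ApL_deriv (r : ℝ) (hr : 0 < r) : HasDerivAt (ApL_w r) 0 0 := by
  have h1 : HasDerivAt (fun x : ℝ => x ^ 2 + r ^ 2) 0 0 := by
    have := (hasDerivAt_pow 2 (0 : ℝ)).add_const (r ^ 2)
    simpa using this
  have h2 := h1.rpow_const (p := (-(3 / 2) : ℝ)) (Or.inl (by positivity))
  have h3 : HasDerivAt (fun y : ℝ => (y ^ 2 + r ^ 2) ^ (-(3 / 2) : ℝ)) 0 0 := by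
    simpa using h2
  exact h3

lemma ApL_slope (r : ℝ) (hr : 0 < r) (k : ℝ) (hk : 0 < k) :
    Tendsto (fun n : ℕ => (n : ℝ) * (ApL_w r (k / n) - ApL_w r 0)) atTop (𝓝 0) := by
  have h1 := (ApL_deriv r hr).tendsto_slope_zero
  have h2 : Tendsto (fun n : ℕ => k / (n : ℝ)) atTop (𝓝[≠] 0) := by
    rw [tendsto_nhdsWithin_iff]
    refine ⟨tendsto_const_div_atTop_nhds_zero_nat k, ?_⟩
    filter_upwards [eventually_ge_atTop 1] with n hn
    have : (0 : ℝ) < n := by exact_mod_cast hn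
    exact (div_pos hk this).ne'
  have h3 := (h1.comp h2).const_mul k
  rw [mul_zero] at h3
  refine h3.congr' ?_
  filter_upwards [eventually_ge_atTop 1] with n hn
  have hn0 : (n : ℝ) ≠ 0 := by
    have : (0 : ℝ) < n := by exact_mod_cast hn
    exact this.ne'
  simp only [Function.comp, zero_add, smul_eq_mul]
  field_simp

lemma ApL_w_tendsto (r : ℝ) (hr : 0 < r) (k : ℝ) :
    Tendsto (fun n : ℕ => ApL_w r (k / n)) atTop (𝓝 (ApL_w r 0)) :=
  (ApL_deriv r hr).continuousAt.tendsto.comp (tendsto_const_div_atTop_nhds_zero_nat k)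

lemma ApL_far (M : ℕ) (C r : ℝ) (hC : 0 < C) (c : ℕ → ℕ → ℝ)
    (hc : ∀ n : ℕ, 1 ≤ n → ∀ j < M, |c n j| ≤ C / n) (g : ℕ → ℕ → ℝ)
    (hg : ∀ n : ℕ, 1 ≤ n → ∀ j < M, |g n j| ≤ 1) :
    Tendsto (fun n : ℕ => ∑ j ∈ Finset.range M, c n j * g n j) atTop (𝓝 0) := by
  rw [show (0 : ℝ) = ∑ j ∈ Finset.range M, (0 : ℝ) by simp]
  refine tendsto_finsetSum _ fun j hj => ?_
  have hj' := Finset.mem_range.1 hj
  refine squeeze_zero_norm' (a := fun n : ℕ => C / (n : ℝ)) ?_
    (tendsto_const_div_atTop_nhds_zero_nat C)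
  filter_upwards [eventually_ge_atTop 1] with n hn
  rw [Real.norm_eq_abs, abs_mul]
  calc |c n j| * |g n j| ≤ (C / n) * 1 := by
        apply mul_le_mul (hc n hn j hj') (hg n hn j hj') (abs_nonneg _)
        positivity
    _ = C / n := mul_one _

lemma ApL_one_le (n j : ℕ) (hn : 1 ≤ n) : (1 : ℝ) ≤ n * (1 + j) := by
  have h1 : (1 : ℝ) ≤ n := by exact_mod_cast hn
  have h2 : (0 : ℝ) ≤ j := by positivity
  nlinarith

lemma ApL_split (M : ℕ) (f : ℕ → ℂ) : ∑ i ∈ Finset.range (3 + M), f i =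
    (f 0 + f 1 + f 2) + ∑ j ∈ Finset.range M, f (j + 3) := by
  induction M with
  | zero => simp [Finset.sum_range_succ]
  | succ n ih =>
    rw [← add_assoc, Finset.sum_range_succ, ih, Finset.sum_range_succ _ n, add_assoc, add_comm 3 n]

/-- [CX9] limits of the approximating fields -/
theorem claimApL (hC : ClaimApC) : ClaimApL := by
  intro β ν M v hM z hz
  obtain ⟨C, hCp, hC⟩ := hC β ν M v hM
  set r := ‖z‖ with hr
  have hr0 : 0 < r := norm_pos_iff.2 hz
  have hinv : Tendsto (fun n : ℕ => ν / (n : ℝ)) atTop (𝓝 0) :=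
    tendsto_const_div_atTop_nhds_zero_nat ν
  constructor
  · -- first component
    have e1 : ∀ n : ℕ, (Fs (3 + M) (cn β ν v M n) (sn n) z).1 =
        ((((β * n + ν) * (1 / n * ApL_w r (1 / n)) + (-(β * n)) * (2 / n * ApL_w r (2 / n)) +
          (-ν) * (1 * ApL_w r 1)) + ∑ j ∈ Finset.range M, cn β ν v M n (j + 3) *
            (n * (1 + j) * ApL_w r (n * (1 + j))) : ℝ) : ℂ) := by
      intro n
      simp only [Fs]
      rw [ApL_split]
      push_cast
      congr 1
      · simp only [hs, cn, sn, ApL_w, hr]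
        push_cast
        ring
      · refine Finset.sum_congr rfl fun j _ => ?_
        simp [hs, sn, ApL_w, hr]
    have h1 : Tendsto (fun n : ℕ => (β * n + ν) * (1 / n * ApL_w r (1 / n))) atTop
        (𝓝 (β * ApL_w r 0)) := by
      have := (hinv.const_add β).mul (ApL_w_tendsto r hr0 1)
      rw [add_zero] at this
      refine this.congr' ?_
      filter_upwards [eventually_ge_atTop 1] with n hn
      have : (n : ℝ) ≠ 0 := by positivity
      field_simp
    have h2 : Tendsto (fun n : ℕ => (-(β * n)) * (2 / n * ApL_w r (2 / n))) atTop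
        (𝓝 (-(2 * β) * ApL_w r 0)) := by
      have := (ApL_w_tendsto r hr0 2).const_mul (-(2 * β))
      refine this.congr' ?_
      filter_upwards [eventually_ge_atTop 1] with n hn
      have : (n : ℝ) ≠ 0 := by positivity
      field_simp
    have h3 := ApL_far M C r hCp (fun n j => cn β ν v M n (j + 3)) hC
      (fun n j => n * (1 + j) * ApL_w r (n * (1 + j))) (by
        intro n hn j _
        have h := ApL_one_le n j hn
        rw [abs_of_nonneg (mul_nonneg (by linarith) (ApL_w_nonneg _ _))]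
        exact (ApL_w_le r _ h).2)
    have h4 := ((h1.add h2).add_const ((-ν) * (1 * ApL_w r 1))).add h3
    have e2 : β * ApL_w r 0 + -(2 * β) * ApL_w r 0 + (-ν) * (1 * ApL_w r 1) + 0 = g0 β ν r := by
      rw [ApL_w_zero r hr0, ApL_w_one, g0]
      ring
    rw [e2] at h4
    have h5 := (continuous_ofReal.tendsto _).comp h4
    exact h5.congr fun n => (e1 n).symm
  · -- second component
    have e1 : ∀ n : ℕ, (Fs (3 + M) (cn β ν v M n) (sn n) z).2 =
        z * ((((β * n + ν) * ApL_w r (1 / n) + (-(β * n)) * ApL_w r (2 / n) +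
          (-ν) * ApL_w r 1) + ∑ j ∈ Finset.range M, cn β ν v M n (j + 3) *
            ApL_w r (n * (1 + j)) : ℝ) : ℂ) := by
      intro n
      simp only [Fs]
      rw [ApL_split]
      push_cast
      rw [mul_add, Finset.mul_sum]
      congr 1
      · simp only [ks, cn, sn, ApL_w, hr]
        push_cast
        ring
      · refine Finset.sum_congr rfl fun j _ => ?_
        simp only [ks, sn, ApL_w, hr]
        push_cast
        ring
    have h1 : Tendsto (fun n : ℕ => (β * n + ν) * ApL_w r (1 / n) +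
        (-(β * n)) * ApL_w r (2 / n)) atTop (𝓝 (ν * ApL_w r 0)) := by
      have a1 := (ApL_w_tendsto r hr0 1).const_mul ν
      have a2 := (ApL_slope r hr0 1 one_pos).const_mul β
      have a3 := (ApL_slope r hr0 2 two_pos).const_mul β
      have a4 := (a1.add a2).sub a3
      simp only [mul_zero, add_zero, sub_zero] at a4
      refine a4.congr fun n => ?_
      ring
    have h3 := ApL_far M C r hCp (fun n j => cn β ν v M n (j + 3)) hC
      (fun n j => ApL_w r (n * (1 + j))) (by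
        intro n hn j _
        have h := ApL_one_le n j hn
        rw [abs_of_nonneg (ApL_w_nonneg _ _)]
        exact (ApL_w_le r _ h).1)
    have h4 := (h1.add_const ((-ν) * ApL_w r 1)).add h3
    have h5 := ((continuous_ofReal.tendsto _).comp h4).const_mul z
    have e2 : z * ((ν * ApL_w r 0 + (-ν) * ApL_w r 1 + 0 : ℝ) : ℂ) =
        z / (r : ℂ) * ((h0 ν r : ℝ) : ℂ) := by
      rw [ApL_w_zero r hr0, ApL_w_one, h0]
      have hrc : (r : ℂ) ≠ 0 := by exact_mod_cast hr0.ne'
      have hs : ((Real.sqrt (1 + r ^ 2) : ℝ) : ℂ) ≠ 0 := by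
        have : 0 < Real.sqrt (1 + r ^ 2) := Real.sqrt_pos.2 (by positivity)
        exact_mod_cast this.ne'
      push_cast
      field_simp
      ring
    rw [e2] at h5
    exact h5.congr fun n => (e1 n).symm

end Pool.Agent.Work.MP_440970_an

end

section

/-! Item CX6: the approximating charges have vanishing moments. -/

open MeasureTheory Complex Set Filter Topology
open scoped ENNReal ComplexConjugate

namespace Pool.Agent.Work.MP_440970_an

theorem ApM_far (β ν : ℝ) (M : ℕ) (v : ℕ → ℕ → ℝ) (hv : IsVdm M v) (n : ℕ) (hn : 1 ≤ n) (i : ℕ)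
    (hi : i < M) :
    ∑ j ∈ Finset.range M, cn β ν v M n (j + 3) * sn n (j + 3) ^ i =
      -((β * n + ν) * (1 / (n : ℝ)) ^ i - β * n * (2 / (n : ℝ)) ^ i - ν) := by
  have hn' : (n : ℝ) ≠ 0 := by
    have : 0 < n := hn
    exact_mod_cast this.ne'
  set m : ℕ → ℝ := fun k => (β * n + ν) * (1 / (n : ℝ)) ^ k - β * n * (2 / (n : ℝ)) ^ k - ν with hm
  have h1 : ∀ j, cn β ν v M n (j + 3) * sn n (j + 3) ^ i =
      ∑ k ∈ Finset.range M, -(m k * (1 / (n : ℝ)) ^ k * (n : ℝ) ^ i) *
        (v k j * (1 + (j : ℝ)) ^ i) := by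
    intro j
    have e1 : cn β ν v M n (j + 3) =
      -∑ k ∈ Finset.range M, m k * (1 / (n : ℝ)) ^ k * v k j := rfl
    have e2 : sn n (j + 3) = n * (1 + (j : ℝ)) := rfl
    rw [e1, e2, mul_pow, neg_mul, Finset.sum_mul, ← Finset.sum_neg_distrib]
    refine Finset.sum_congr rfl fun k _ => ?_
    ring
  have h2 : ∑ j ∈ Finset.range M, cn β ν v M n (j + 3) * sn n (j + 3) ^ i =
      ∑ k ∈ Finset.range M, -(m k * (1 / (n : ℝ)) ^ k * (n : ℝ) ^ i) *
        (if i = k then 1 else 0) := by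
    simp only [h1]
    rw [Finset.sum_comm]
    refine Finset.sum_congr rfl fun k hk => ?_
    rw [← Finset.mul_sum, hv k (Finset.mem_range.1 hk) i hi]
  rw [h2]
  simp only [mul_ite, mul_one, mul_zero]
  rw [Finset.sum_ite_eq]
  rw [if_pos (Finset.mem_range.2 hi), mul_assoc, ← mul_pow, one_div_mul_cancel hn', one_pow,
    mul_one]

theorem claimApM : ClaimApM := by
  intro β ν M v _ hv n hn
  have hn' : (0 : ℝ) < n := by exact_mod_cast hn
  constructor
  · intro i
    match i with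
    | 0 => exact div_pos one_pos hn'
    | 1 => exact div_pos two_pos hn'
    | 2 => exact one_pos
    | (j + 3) =>
      have e2 : sn n (j + 3) = n * (1 + (j : ℝ)) := rfl
      rw [e2]
      positivity
  · intro i hi
    rw [Finset.sum_range_add]
    have h3 : ∑ x ∈ Finset.range M, cn β ν v M n (3 + x) * sn n (3 + x) ^ i =
        ∑ j ∈ Finset.range M, cn β ν v M n (j + 3) * sn n (j + 3) ^ i :=
      Finset.sum_congr rfl fun j _ => by rw [add_comm 3 j]
    rw [h3, ApM_far β ν M v hv n hn i hi]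
    simp only [Finset.sum_range_succ, Finset.sum_range_zero, zero_add]
    have e0 : cn β ν v M n 0 = β * n + ν := rfl
    have e1 : cn β ν v M n 1 = -(β * n) := rfl
    have e2 : cn β ν v M n 2 = -ν := rfl
    have f0 : sn n 0 = 1 / n := rfl
    have f1 : sn n 1 = 2 / n := rfl
    have f2 : sn n 2 = 1 := rfl
    rw [e0, e1, e2, f0, f1, f2, one_pow]
    ring

end Pool.Agent.Work.MP_440970_an

end

section

/-!
# [CX13] one cell
-/

open MeasureTheory Complex Set Filter Topology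
open scoped ENNReal ComplexConjugate

namespace Pool.Agent.Work.MP_440970_an

theorem CellN_AA0 (r : ℝ) : 0 ≤ AA (1 / 3) (9 / 10) r := by
  unfold AA
  positivity

/-- weighted mean inequality -/
theorem CellN_pow {A t : ℝ} (hA : 0 ≤ A) (ht : 0 < t) :
    A ^ (13 / 70 : ℝ) ≤ 57 / 70 * t ^ 13 + 13 / 70 * (A / t ^ 57) := by
  have ha : 0 < t ^ 70 := pow_pos ht 70
  have h1 : 0 ≤ A / t ^ 70 := by positivity
  have h2 : (1 + (A / t ^ 70 - 1)) ^ (13 / 70 : ℝ) ≤ 1 + 13 / 70 * (A / t ^ 70 - 1) :=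
    rpow_one_add_le_one_add_mul_self (by linarith) (by norm_num) (by norm_num)
  have h3 : 1 + (A / t ^ 70 - 1) = A / t ^ 70 := by ring
  rw [h3, Real.div_rpow hA ha.le] at h2
  have h4 : (t ^ 70) ^ (13 / 70 : ℝ) = t ^ 13 := by
    rw [← Real.rpow_natCast, ← Real.rpow_mul ht.le, ← Real.rpow_natCast]
    congr 1
    norm_num
  rw [h4, div_le_iff₀ (pow_pos ht 13)] at h2
  refine h2.trans_eq ?_
  have h5 : t ^ 70 = t ^ 13 * t ^ 57 := by ring
  rw [h5]
  field_simp
  ring

theorem CellN_cont (r : ℝ) (hr : 0 < r) : ContinuousAt (fun r => AA (1 / 3) (9 / 10) r) r := by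
  unfold AA g0 h0
  have h1 : r ^ 3 ≠ 0 := by positivity
  have h2 : r ^ 2 ≠ 0 := by positivity
  have h3 : Real.sqrt (1 + r ^ 2) ^ 3 ≠ 0 := by positivity
  fun_prop (disch := assumption)

theorem claimCellN (hP : ClaimPrim) : ClaimCellN := by
  intro a b t ha hab ht
  obtain ⟨G, hG⟩ : ∃ G : ℝ → ℝ, G = fun r => (57 / 70 * t ^ 13 - 1) * (r ^ 2 / 2) +
      13 / 70 * (Pr r / t ^ 57) := ⟨_, rfl⟩
  have hcA : ContinuousOn (fun r => AA (1 / 3) (9 / 10) r) (uIcc a b) := by
    intro r hr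
    rw [uIcc_of_le hab.le] at hr
    exact (CellN_cont r (lt_of_lt_of_le ha hr.1)).continuousWithinAt
  have hcf : ContinuousOn fN (uIcc a b) := by
    unfold fN
    exact ((hcA.rpow_const fun r _ => Or.inr (by norm_num)).sub continuousOn_const).mul
      continuousOn_id
  have hcg : ContinuousOn (fun r => (57 / 70 * t ^ 13 - 1) * r +
      13 / 70 * (AA (1 / 3) (9 / 10) r * r / t ^ 57)) (uIcc a b) := by
    exact (continuousOn_const.mul continuousOn_id).add
      (continuousOn_const.mul ((hcA.mul continuousOn_id).div_const _))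
  have hd : ∀ r ∈ uIcc a b, HasDerivAt G ((57 / 70 * t ^ 13 - 1) * r +
      13 / 70 * (AA (1 / 3) (9 / 10) r * r / t ^ 57)) r := by
    intro r hr
    rw [uIcc_of_le hab.le] at hr
    have hr0 : 0 < r := lt_of_lt_of_le ha hr.1
    rw [hG]
    have h1 : HasDerivAt (fun r : ℝ => r ^ 2 / 2) r r := by
      have := (hasDerivAt_pow 2 r).div_const 2
      refine this.congr_deriv ?_
      norm_num
    exact (h1.const_mul _).add (((hP r hr0).div_const _).const_mul _)
  have h1 := intervalIntegral.integral_eq_sub_of_hasDerivAt hd hcg.intervalIntegrable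
  have h2 : ∫ r in a..b, fN r ≤ ∫ r in a..b, ((57 / 70 * t ^ 13 - 1) * r +
      13 / 70 * (AA (1 / 3) (9 / 10) r * r / t ^ 57)) := by
    refine intervalIntegral.integral_mono_on hab.le hcf.intervalIntegrable
      hcg.intervalIntegrable fun r hr => ?_
    have hr0 : 0 < r := lt_of_lt_of_le ha hr.1
    have h3 := CellN_pow (CellN_AA0 r) ht
    unfold fN
    have h4 := mul_le_mul_of_nonneg_right h3 hr0.le
    have h5 : 13 / 70 * (AA (1 / 3) (9 / 10) r / t ^ 57) * r =
        13 / 70 * (AA (1 / 3) (9 / 10) r * r / t ^ 57) := by ring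
    linarith
  refine h2.trans_eq ?_
  rw [h1, hG]
  ring

end Pool.Agent.Work.MP_440970_an

end

section

/-!
# Block CX: the cells of the one-dimensional inequality (data and kernel check)
-/

open MeasureTheory Complex Set Filter Topology
open scoped ENNReal ComplexConjugate

namespace Pool.Agent.Work.MP_440970_an

/-- `r = (w - 1/w)/2` -/
def Cells_r (w : ℚ) : ℚ := (w - 1 / w) / 2

/-- `sqrt (1 + r²) = (w + 1/w)/2` -/
def Cells_c (w : ℚ) : ℚ := (w + 1 / w) / 2

/-- the primitive at `r = (w - 1/w)/2` -/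
def Cells_P (r c : ℚ) : ℚ :=
  r * r / 2 + 2 / (3 * r) + 9 / (5 * c) - 1 / (36 * (r * r * (r * r)))
    - 3 * (1 + 2 * (r * r)) / (5 * r * c) - 81 / (200 * (c * c))
    - 81 / (200 * (r * r)) - 81 * r / (50 * c)

/-- upper bound of the integral over a cell -/
def Cells_E (w w' t : ℚ) : ℚ :=
  (57 / 70 * t ^ 13 - 1) * (Cells_r w' * Cells_r w' - Cells_r w * Cells_r w) / 2 +
    13 / 70 * (Cells_P (Cells_r w') (Cells_c w') - Cells_P (Cells_r w) (Cells_c w)) / t ^ 57

/-- the check of one cell; `w = W / 2^36`, `t = T / 2^17` -/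
def Cells_ok (W W' T : ℕ) (e : ℤ) : Bool :=
  decide (W < W') && decide (0 < T) &&
    decide (Cells_E ((W : ℚ) / 68719476736) ((W' : ℚ) / 68719476736) ((T : ℚ) / 131072) ≤
      (e : ℚ) / 1000000000)

/-- the check of a list of cells -/
def Cells_okL : ℕ → List (ℕ × ℕ × ℤ) → Bool
  | _, [] => true
  | W, (W', T, e) :: L => Cells_ok W W' T e && Cells_okL W' L

/-- last endpoint -/
def Cells_end : ℕ → List (ℕ × ℕ × ℤ) → ℕ
  | W, [] => W
  | _, (W', _, _) :: L => Cells_end W' L

/-- sum of the bounds -/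
def Cells_sum : List (ℕ × ℕ × ℤ) → ℤ
  | [] => 0
  | (_, _, e) :: L => e + Cells_sum L

/-- the data -/
def Cells_data : List (ℕ × ℕ × ℤ) := [
  (68719551872, 428760, 2378),
  (68719624192, 401427, 3555),
  (68719735808, 380356, 4972),
  (68719896576, 363475, 6628),
  (68720116736, 349527, 8520),
  (68720408576, 337702, 10707),
  (68720783360, 327468, 13125),
  (68721252352, 318499, 15762),
  (68721831936, 310527, 18776),
  (68722528256, 303377, 21811),
  (68723363840, 296914, 25387),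
  (68724342784, 291019, 28909),
  (68725489664, 285617, 32993),
  (68726816768, 280620, 37250),
  (68728340480, 275984, 41791),
  (68730060800, 271681, 46164),
  (68732010496, 267671, 51259),
  (68734205952, 263902, 56607),
  (68736647168, 260362, 61784),
  (68739366912, 257029, 67630),
  (68742381568, 253871, 73707),
  (68745691136, 250883, 79615),
  (68749328384, 248049, 86152),
  (68753358848, 245335, 94050),
  (68757684224, 242752, 99474),
  (68762402816, 240302, 107027),
  (68767514624, 237955, 114403),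
  (68773085184, 235699, 123065),
  (68779048960, 233535, 130097),
  (68785471488, 231463, 138410),
  (68792352768, 229472, 146553),
  (68799823872, 227546, 157297),
  (68807688192, 225691, 163719),
  (68816207872, 223903, 175447),
  (68825251840, 222168, 184260),
  (68834820096, 220499, 192925),
  (68845043712, 218885, 204064),
  (68855791616, 217325, 212413),
  (68867325952, 215810, 225766),
  (68879384576, 214339, 233791),
  (68892229632, 212915, 246744),
  (68905598976, 211536, 254488),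
  (68920016896, 210190, 272021),
  (68934959104, 208876, 279432),
  (68950687744, 207607, 291627),
  (68967202816, 206372, 303636),
  (68984766464, 205162, 320239),
  (69003116544, 203977, 331827),
  (69021990912, 202834, 338566),
  (69041913856, 201725, 354578),
  (69062885376, 200634, 370336),
  (69084905472, 199564, 385851),
  (69107449856, 198525, 392035),
  (69131567104, 197508, 416261),
  (69156208640, 196512, 422142),
  (69182423040, 195537, 445807),
  (69209161728, 194583, 451412),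
  (69236948992, 193660, 465784),
  (69266833408, 192742, 497383),
  (69296193536, 191852, 485204),
  (69327650816, 190991, 516323),
  (69361205248, 190123, 546915),
  (69394759680, 189276, 543120),
  (69430411264, 188451, 573160),
  (69466062848, 187646, 569293),
  (69503811584, 186862, 598806),
  (69543657472, 186077, 627843),
  (69583503360, 185311, 623663),
  (69625446400, 184566, 652213),
  (69669486592, 183822, 680312),
  (69713526784, 183098, 675859),
  (69759664128, 182393, 703503),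
  (69807898624, 181691, 730719),
  (69856133120, 181007, 726023),
  (69908561920, 180328, 784102),
  (69960990720, 179654, 778990),
  (70015516672, 178998, 804967),
  (70070042624, 178360, 799858),
  (70128762880, 177727, 855938),
  (70187483136, 177100, 850444),
  (70248300544, 176490, 875260),
  (70311215104, 175886, 899699),
  (70376226816, 175289, 923768),
  (70443335680, 174699, 947470),
  (70510444544, 174124, 941464),
  (70581747712, 173557, 993983),
  (70653050880, 172996, 987639),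
  (70728548352, 172443, 1039081),
  (70804045824, 171897, 1032413),
  (70883737600, 171359, 1082796),
  (70963429376, 170828, 1075815),
  (71047315456, 170305, 1125156),
  (71131201536, 169790, 1117873),
  (71219281920, 169282, 1166189),
  (71307362304, 168781, 1158614),
  (71399636992, 168289, 1205921),
  (71496105984, 167793, 1252366),
  (71592574976, 167305, 1244015),
  (71693238272, 166825, 1289470),
  (71793901568, 166354, 1280859),
  (71898759168, 165890, 1325339),
  (72003616768, 165434, 1316473),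
  (72112668672, 164985, 1359991),
  (72225914880, 164536, 1402678),
  (72339161088, 164094, 1393093),
  (72456601600, 163660, 1434837),
  (72578236416, 163227, 1475759),
  (72699871232, 162800, 1465483),
  (72825700352, 162382, 1505481),
  (72955723776, 161964, 1544669),
  (73089941504, 161547, 1583045),
  (73224159232, 161139, 1571658),
  (73358376960, 160743, 1560528),
  (73500983296, 160350, 1646176),
  (73643589632, 159957, 1634159),
  (73794584576, 159567, 1717516),
  (73945579520, 159178, 1704629),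
  (74104963072, 158792, 1785695),
  (74255958016, 158419, 1679000),
  (74423730176, 158048, 1851473),
  (74583113728, 157679, 1745352),
  (74750885888, 157323, 1823319),
  (74927046656, 156960, 1899463),
  (75103207424, 156599, 1884362),
  (75279368192, 156251, 1869572),
  (75463917568, 155905, 1943091),
  (75656855552, 155554, 2014789),
  (75849793536, 155207, 1998113),
  (76042731520, 154871, 1981776),
  (76244058112, 154539, 2050900),
  (76445384704, 154209, 2033813),
  (76655099904, 153883, 2100775),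
  (76864815104, 153560, 2082962),
  (77082918912, 153242, 2147784),
  (77309411328, 152920, 2210821),
  (77527515136, 152608, 2110415),
  (77762396160, 152300, 2252903),
  (77997277184, 151991, 2232664),
  (78248935424, 151680, 2370176),
  (78483816448, 151378, 2191974),
  (78735474688, 151085, 2327422),
  (79003910144, 150781, 2458964),
  (79255568384, 150486, 2283481),
  (79524003840, 150201, 2412999),
  (79792439296, 149914, 2389955),
  (80077651968, 149628, 2514609),
  (80362864640, 149341, 2489590),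
  (80648077312, 149063, 2465055),
  (80933289984, 148792, 2440984),
  (81235279872, 148522, 2558866),
  (81554046976, 148245, 2672887),
  (81856036864, 147976, 2505990),
  (82174803968, 147715, 2618135),
  (82510348288, 147447, 2726454),
  (82845892608, 147181, 2696763),
  (83181436928, 146922, 2667640),
  (83516981248, 146671, 2639060),
  (83869302784, 146421, 2740856),
  (84238401536, 146166, 2838857),
  (84607500288, 145912, 2806180),
  (84976599040, 145666, 2774116),
  (85362475008, 145421, 2866597),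
  (85748350976, 145178, 2832838),
  (86134226944, 144942, 2799696),
  (86536880128, 144707, 2886755),
  (86939533312, 144474, 2851957),
  (87375740928, 144239, 3051124),
  (87811948544, 144000, 3011760),
  (88248156160, 143768, 2973117),
  (88684363776, 143543, 2935162),
  (89120571392, 143324, 2897868),
  (89590333440, 143102, 3079845),
  (90060095488, 142879, 3038077),
  (90529857536, 142661, 2997031),
  (91033174016, 142442, 3166387),
  (91536490496, 142221, 3120869),
  (92039806976, 142007, 3076126),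
  (92543123456, 141798, 3032123),
  (93079994368, 141588, 3186602),
  (93616865280, 141376, 3138156),
  (94153736192, 141170, 3090492),
  (94690607104, 140970, 3043573),
  (95261032448, 140768, 3183222),
  (95831457792, 140566, 3131870),
  (96401883136, 140368, 3081295),
  (97005862912, 140170, 3208282),
  (97609842688, 139971, 3153246),
  (98213822464, 139778, 3099008),
  (98851356672, 139583, 3213208),
  (99488890880, 139388, 3154470),
  (100126425088, 139198, 3096542),
  (100763959296, 139012, 3039383),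
  (101435047936, 138826, 3138439),
  (102106136576, 138639, 3076731),
  (102777225216, 138456, 3015798),
  (103481868288, 138273, 3101847),
  (104220065792, 138085, 3179289),
  (104891154432, 137906, 2828519),
  (105629351936, 137730, 3044361),
  (106367549440, 137550, 2974874),
  (107105746944, 137374, 2906154),
  (107911053312, 137193, 3092893),
  (108649250816, 137016, 2764783),
  (109454557184, 136842, 2940280),
  (110192754688, 136672, 2626304),
  (110998061056, 136505, 2790677),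
  (111803367424, 136334, 2713728),
  (112675782656, 136159, 2853923),
  (113481089024, 135988, 2555676),
  (114353504256, 135819, 2684265),
  (115158810624, 135654, 2400462),
  (116031225856, 135491, 2517558),
  (116903641088, 135324, 2431962),
  (117776056320, 135161, 2347080),
  (118715580416, 134994, 2433542),
  (119587995648, 134829, 2172971),
  (120527519744, 134668, 2247572),
  (121467043840, 134503, 2152318),
  (122406567936, 134340, 2057846),
  (123346092032, 134180, 1964144),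
  (124285616128, 134023, 1871205),
  (125225140224, 133868, 1779024),
  (126231773184, 133710, 1804711),
  (127238406144, 133550, 1700695),
  (128245039104, 133392, 1597625),
  (129251672064, 133236, 1495513),
  (130258305024, 133083, 1394380),
  (131332046848, 132927, 1377041),
  (132338679808, 132774, 1188579),
  (133412421632, 132624, 1159907),
  (134486163456, 132472, 1049790),
  (135627014144, 132318, 996356),
  (136700755968, 132168, 827167),
  (137841606656, 132020, 763212),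
  (139049566208, 131867, 680342),
  (140123308032, 131722, 496242),
  (141331267584, 131581, 438687),
  (142539227136, 131436, 314589),
  (143747186688, 131295, 193344),
  (145089363968, 131151, 76368),
  (146431541248, 131005, -65237),
  (147773718528, 130865, -202231),
  (149115895808, 130732, -334371),
  (150592290816, 130599, -514289),
  (152068685824, 130467, -660943),
  (153545080832, 130344, -800223),
  (155289911296, 130219, -1114736),
  (157034741760, 130096, -1285678),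
  (158913789952, 129981, -1560538),
  (161061273600, 129868, -1986002),
  (163342974976, 129763, -2320345),
  (166161547264, 129664, -3122840),
  (169651208192, 129573, -4186222),
  (175691005952, 129495, -7835669),
  (186025771008, 129480, -14232158),
  (191394480128, 129543, -7455485),
  (196226318336, 129609, -6625012),
  (200655503360, 129676, -5959210),
  (205084688384, 129743, -5825386),
  (209379655680, 129809, -5506622),
  (213943058432, 129874, -5688091),
  (218238025728, 129938, -5196266),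
  (223069863936, 130000, -5662194),
  (227633266688, 130061, -5170662),
  (232733540352, 130119, -5579374),
  (237833814016, 130177, -5374642),
  (242934087680, 130231, -5177044),
  (248571232256, 130283, -5501362),
  (254476812288, 130335, -5526310),
  (260650827776, 130385, -5531498),
  (267093278720, 130432, -5518727),
  (273804165120, 130478, -5489793),
  (281051922432, 130521, -5650786),
  (288836550656, 130563, -5769002),
  (296889614336, 130603, -5663577),
  (305479548928, 130641, -5725022),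
  (314874789888, 130677, -5916841),
  (324806901760, 130712, -5894848),
  (335544320000, 130745, -5991888),
  (346818609152, 130775, -5903088),
  (359703511040, 130805, -6304624),
  (373125283840, 130832, -6115109),
  (388157669376, 130858, -6357688),
  (404263796736, 130882, -6297697),
  (422517407744, 130905, -6567814),
  (442381631488, 130926, -6542229),
  (464393338880, 130945, -6606397),
  (489626271744, 130963, -6853425),
  (518080430080, 130979, -6938603),
  (550829555712, 130994, -7109940),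
  (588410519552, 131008, -7195111),
  (632433934336, 131020, -7352450),
  (686121025536, 131030, -7701450),
  (750545534976, 131040, -7799385),
  (831076171776, 131048, -8060828),
  (935229128704, 131055, -8378797),
  (1075889307648, 131060, -8753189),
  (1277752770560, 131065, -9206699),
  (1599875317760, 131068, -9892217),
  (2201170739200, 131070, -10731017)]

set_option maxRecDepth 100000 in
theorem Cells_check : Cells_okL 68719509504 Cells_data = true := by decide +kernel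

/-- the first endpoint, the last endpoint, the sum -/
theorem Cells_endW : Cells_end 68719509504 Cells_data = 2201170739200 := by decide +kernel

theorem Cells_sumE : Cells_sum Cells_data = 28403660 := by decide +kernel

/-! ### Soundness -/

/-- the real point `r` at `W / 2^36` -/
noncomputable def Cells_pt (W : ℕ) : ℝ := ((Cells_r ((W : ℚ) / 68719476736) : ℚ) : ℝ)

theorem Cells_sqrt {w : ℚ} (hw : 0 < w) :
    Real.sqrt (1 + ((Cells_r w : ℚ) : ℝ) ^ 2) = ((Cells_c w : ℚ) : ℝ) := by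
  have h0 : (0 : ℝ) < (w : ℝ) := by exact_mod_cast hw
  have h1 : (0 : ℝ) ≤ ((Cells_c w : ℚ) : ℝ) := by
    unfold Cells_c
    push_cast
    positivity
  rw [Real.sqrt_eq_iff_mul_self_eq (by positivity) h1]
  unfold Cells_c Cells_r
  push_cast
  field_simp
  ring

theorem Cells_Pr {w : ℚ} (hw : 0 < w) :
    Pr ((Cells_r w : ℚ) : ℝ) = ((Cells_P (Cells_r w) (Cells_c w) : ℚ) : ℝ) := by
  unfold Pr
  rw [Cells_sqrt hw]
  have h2 : 1 + ((Cells_r w : ℚ) : ℝ) ^ 2 = ((Cells_c w : ℚ) : ℝ) ^ 2 := by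
    rw [← Cells_sqrt hw, Real.sq_sqrt (by positivity)]
  rw [h2]
  unfold Cells_P
  push_cast
  ring

theorem Cells_pos {W : ℕ} (hW : 68719476736 < W) : 0 < Cells_pt W := by
  unfold Cells_pt Cells_r
  have h0 : (68719476736 : ℝ) < (W : ℝ) := by exact_mod_cast hW
  push_cast
  have h1 : (1 : ℝ) < (W : ℝ) / 68719476736 := by rw [lt_div_iff₀ (by norm_num)]; linarith
  have h2 : 1 / ((W : ℝ) / 68719476736) < 1 := by rw [div_lt_one (by linarith)]; exact h1
  linarith

theorem Cells_lt {W W' : ℕ} (hW : 68719476736 < W) (h : W < W') : Cells_pt W < Cells_pt W' := by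
  unfold Cells_pt Cells_r
  have h0 : (68719476736 : ℝ) < (W : ℝ) := by exact_mod_cast hW
  have h00 : (W : ℝ) < (W' : ℝ) := by exact_mod_cast h
  push_cast
  have h1 : (0 : ℝ) < (W : ℝ) / 68719476736 := by positivity
  have h2 : (W : ℝ) / 68719476736 < (W' : ℝ) / 68719476736 := by gcongr
  have h3 : 1 / ((W' : ℝ) / 68719476736) < 1 / ((W : ℝ) / 68719476736) :=
    one_div_lt_one_div_of_lt h1 h2
  linarith

theorem Cells_one (hC : ClaimCellN) {W W' T : ℕ} {e : ℤ} (hW : 68719476736 < W)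
    (h : Cells_ok W W' T e = true) :
    W < W' ∧ ∫ r in Cells_pt W..Cells_pt W', fN r ≤ (e : ℝ) / 1000000000 := by
  unfold Cells_ok at h
  simp only [Bool.and_eq_true, decide_eq_true_eq] at h
  obtain ⟨⟨h1, h2⟩, h3⟩ := h
  refine ⟨h1, ?_⟩
  have ht : (0 : ℝ) < (T : ℝ) / 131072 := by
    have : (0 : ℝ) < (T : ℝ) := by exact_mod_cast h2
    positivity
  have h4 := hC _ _ _ (Cells_pos hW) (Cells_lt hW h1) ht
  refine h4.trans ?_
  have hw : (0 : ℚ) < (W : ℚ) / 68719476736 := by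
    have : (0 : ℚ) < (W : ℚ) := by exact_mod_cast (by omega : 0 < W)
    positivity
  have hw' : (0 : ℚ) < (W' : ℚ) / 68719476736 := by
    have : (0 : ℚ) < (W' : ℚ) := by exact_mod_cast (by omega : 0 < W')
    positivity
  have h5 : ((Cells_E ((W : ℚ) / 68719476736) ((W' : ℚ) / 68719476736) ((T : ℚ) / 131072) : ℚ) : ℝ)
      ≤ (((e : ℚ) / 1000000000 : ℚ) : ℝ) := by exact_mod_cast h3
  unfold Cells_E at h5
  unfold Cells_pt
  rw [Cells_Pr hw, Cells_Pr hw']
  push_cast at h5 ⊢
  refine le_trans (le_of_eq ?_) h5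
  ring

theorem Cells_ii (hI : ClaimIntN) {a b : ℝ} (ha : 0 < a) (hab : a ≤ b) :
    IntervalIntegrable fN volume a b := by
  rw [intervalIntegrable_iff_integrableOn_Ioc_of_le hab]
  exact hI.mono_set fun x hx => lt_of_lt_of_le ha hx.1.le

theorem Cells_list (hC : ClaimCellN) (hI : ClaimIntN) : ∀ (L : List (ℕ × ℕ × ℤ)) (W : ℕ),
    68719476736 < W → Cells_okL W L = true →
    W ≤ Cells_end W L ∧
    ∫ r in Cells_pt W..Cells_pt (Cells_end W L), fN r ≤ (Cells_sum L : ℝ) / 1000000000 := by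
  intro L
  induction L with
  | nil =>
    intro W hW _
    simp [Cells_end, Cells_sum]
  | cons q L ih =>
    obtain ⟨W', T, e⟩ := q
    intro W hW h
    simp only [Cells_okL, Bool.and_eq_true] at h
    obtain ⟨h1, h2⟩ := Cells_one hC hW h.1
    obtain ⟨h3, h4⟩ := ih W' (hW.trans h1) h.2
    simp only [Cells_end, Cells_sum]
    refine ⟨by omega, ?_⟩
    have e1 : Cells_pt W' ≤ Cells_pt (Cells_end W' L) := by
      rcases h3.eq_or_lt with h | h
      · rw [← h]
      · exact (Cells_lt (hW.trans h1) h).le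
    rw [← intervalIntegral.integral_add_adjacent_intervals
      (Cells_ii hI (Cells_pos hW) (Cells_lt hW h1).le)
      (Cells_ii hI (Cells_pos (hW.trans h1)) e1)]
    push_cast
    linarith

/-- [CX16] the one-dimensional inequality -/
theorem claimNumJ (hI : ClaimIntN) (hC : ClaimCellN) (hIn : ClaimInnerN) (hT : ClaimTailN) :
    ClaimNumJ := by
  unfold ClaimNumJ NumJ
  have hf : (fun r : ℝ => (AA (1 / 3) (9 / 10) r ^ ((13 / 35 : ℝ) / 2) - 1) * r) = fN := by
    funext r
    unfold fN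
    norm_num
  have hgoal : ∫ r in Ioi (0 : ℝ), (AA (1 / 3) (9 / 10) r ^ ((13 / 35 : ℝ) / 2) - 1) * r =
      ∫ r in Ioi (0 : ℝ), fN r := by rw [← hf]
  rw [hgoal]
  have hW : (68719476736 : ℕ) < 68719509504 := by norm_num
  have h0 := Cells_list hC hI Cells_data 68719509504 hW Cells_check
  rw [Cells_endW, Cells_sumE] at h0
  obtain ⟨hle, h1⟩ := h0
  set ρ := Cells_pt 68719509504 with hρ
  set R := Cells_pt 2201170739200 with hR
  have hρ0 : 0 < ρ := Cells_pos hW
  have hρR : ρ < R := Cells_lt hW (by norm_num)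
  have hρ1 : ρ ≤ ((2 : ℝ) / 3) ^ 35 := by
    rw [hρ]
    unfold Cells_pt Cells_r
    push_cast
    norm_num
  have h2 := hIn ρ (2 / 3) hρ0 (hρ1.trans (by norm_num)) (by norm_num) hρ1
  have h3 := hT R (hρ0.trans hρR)
  have hs1 : ∫ r in Ioi (0 : ℝ), fN r = (∫ r in Ioc 0 ρ, fN r) + ∫ r in Ioi ρ, fN r := by
    rw [← setIntegral_union (Ioc_disjoint_Ioi le_rfl) measurableSet_Ioi
      (hI.mono_set Ioc_subset_Ioi_self) (hI.mono_set (Ioi_subset_Ioi hρ0.le)),
      Ioc_union_Ioi_eq_Ioi hρ0.le]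
  have hs2 : ∫ r in Ioi ρ, fN r = (∫ r in ρ..R, fN r) + ∫ r in Ioi R, fN r := by
    rw [intervalIntegral.integral_of_le hρR.le, ← setIntegral_union (Ioc_disjoint_Ioi le_rfl)
      measurableSet_Ioi ((hI.mono_set (Ioi_subset_Ioi hρ0.le)).mono_set Ioc_subset_Ioi_self)
      (hI.mono_set (Ioi_subset_Ioi (hρ0.trans hρR).le)), Ioc_union_Ioi_eq_Ioi hρR.le]
  have hRw : (0 : ℚ) < ((2201170739200 : ℕ) : ℚ) / 68719476736 := by norm_num
  have h4 : (105 / 62 * (2 / 3) ^ 31 + (28403660) / 1000000000 +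
      13 / 70 * (Cells_r (((2201170739200 : ℕ) : ℚ) / 68719476736) ^ 2 / 2 - 141 / 50 -
        Cells_P (Cells_r (((2201170739200 : ℕ) : ℚ) / 68719476736))
          (Cells_c (((2201170739200 : ℕ) : ℚ) / 68719476736))) : ℚ) < 0 := by
    unfold Cells_r Cells_c Cells_P
    norm_num
  have key : ∀ x y : ℚ, (105 / 62 * (2 / 3) ^ 31 + 28403660 / 1000000000 +
      13 / 70 * (x ^ 2 / 2 - 141 / 50 - y) : ℚ) < 0 →
      105 / 62 * (2 / 3 : ℝ) ^ 31 + 28403660 / 1000000000 +
        13 / 70 * ((x : ℝ) ^ 2 / 2 - 141 / 50 - (y : ℝ)) < 0 := by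
    intro x y h
    have h' := (Rat.cast_lt (K := ℝ)).2 h
    push_cast at h'
    exact h'
  have h5 := key _ _ h4
  have h6 : Pr R = ((Cells_P (Cells_r (((2201170739200 : ℕ) : ℚ) / 68719476736))
          (Cells_c (((2201170739200 : ℕ) : ℚ) / 68719476736)) : ℚ) : ℝ) := by
    rw [hR]
    exact Cells_Pr hRw
  have h7 : R = ((Cells_r (((2201170739200 : ℕ) : ℚ) / 68719476736) : ℚ) : ℝ) := rfl
  rw [hs1, hs2]
  rw [h6] at h3
  rw [← h7] at h5
  push_cast at h1
  linarith

end Pool.Agent.Work.MP_440970_an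

end

section

open MeasureTheory Complex Set Filter Topology
open scoped ENNReal ComplexConjugate

namespace Pool.Agent.Work.MP_440970_an

lemma Cl_negconj {M : ℕ} {A : ℝ} {f : ℂ → ℂ} (hf : Nice M A f) :
    Nice M A fun z => -conj (f z) := by
  have := CsF_Nice_smul (CsF_Nice_conj hf) (-1)
  simpa using this

lemma Cl_add (hB : ClaimBb) {M : ℕ} (hM : 3 ≤ M) {F G : ℂ → ℂ × ℂ} (hF : InCl M F)
    (hG : InCl M G) : InCl M (F + G) := by
  obtain ⟨⟨A1, hF1, hF2⟩, hF3, hF4⟩ := hF
  obtain ⟨⟨A2, hG1, hG2⟩, hG3, hG4⟩ := hG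
  refine ⟨⟨A1 + A2, CsF_Nice_add hF1 hG1, CsF_Nice_add hF2 hG2⟩, fun z => ?_, fun z => ?_⟩
  · refine (CsF_bb_add hB (CsF_Nice_W hM hF1) (CsF_Nice_W hM hG1) z).trans ?_
    rw [hF3, hG3]
    rfl
  · have h1 : (fun a => -conj ((F + G) a).2) = fun a => -conj (F a).2 + -conj (G a).2 := by
      funext a
      change -conj ((F a).2 + (G a).2) = _
      rw [map_add]
      ring
    rw [h1]
    refine (CsF_bb_add hB (CsF_Nice_W hM (Cl_negconj hF2)) (CsF_Nice_W hM (Cl_negconj hG2))
      z).trans ?_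
    rw [hF4, hG4]
    change conj (F z).1 + conj (G z).1 = conj ((F z).1 + (G z).1)
    rw [map_add]

lemma Cl_smul (hB : ClaimBb) {M : ℕ} (c : ℂ) {F : ℂ → ℂ × ℂ} (hF : InCl M F) :
    InCl M (c • F) := by
  obtain ⟨⟨A1, hF1, hF2⟩, hF3, hF4⟩ := hF
  refine ⟨⟨_, CsF_Nice_smul hF1 c, CsF_Nice_smul hF2 c⟩, fun z => ?_, fun z => ?_⟩
  · refine (hB.2.1 c _ hF1.smooth z).trans ?_
    rw [hF3]
    rfl
  · have h1 : (fun a => -conj ((c • F) a).2) = fun a => conj c * -conj (F a).2 := by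
      funext a
      change -conj (c * (F a).2) = _
      rw [map_mul]
      ring
    rw [h1]
    refine (hB.2.1 (conj c) _ (Cl_negconj hF2).smooth z).trans ?_
    rw [hF4]
    change conj c * conj (F z).1 = conj (c * (F z).1)
    rw [map_mul]

lemma Cl_zero (hB : ClaimBb) (M : ℕ) : InCl M 0 := by
  refine ⟨⟨0, CsF_Nice_zero M, CsF_Nice_zero M⟩, CsF_bb_zero hB, fun z => ?_⟩
  have h1 : (fun a : ℂ => -conj ((0 : ℂ → ℂ × ℂ) a).2) = fun _ => (0 : ℂ) := by
    funext a
    simp
  rw [h1, CsF_bb_zero hB]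
  simp

lemma Cl_dil (hB : ClaimBb) {M : ℕ} {F : ℂ → ℂ × ℂ} (hF : InCl M F) (b : ℂ) {u : ℝ}
    (hu : 0 < u) : InCl M fun z => F ((z - b) / u) := by
  obtain ⟨⟨A1, hF1, hF2⟩, hF3, hF4⟩ := hF
  refine ⟨⟨_, CsF_Nice_dil hF1 b hu, CsF_Nice_dil hF2 b hu⟩, fun z => ?_, fun z => ?_⟩
  · refine (hB.2.2 b u (fun a => (F a).1) hu hF1.smooth z).trans ?_
    rw [hF3]
  · refine (hB.2.2 b u (fun a => -conj (F a).2) hu (Cl_negconj hF2).smooth z).trans ?_
    rw [hF4]

lemma Cl_Jq (hB : ClaimBb) {M : ℕ} {F : ℂ → ℂ × ℂ} (hF : InCl M F) : InCl M (Jq F) := by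
  obtain ⟨⟨A1, hF1, hF2⟩, hF3, hF4⟩ := hF
  refine ⟨⟨A1, Cl_negconj hF2, CsF_Nice_conj hF1⟩, fun z => hF4 z, fun z => ?_⟩
  have h1 : (fun a => -conj (Jq F a).2) = fun a => (-1 : ℂ) * (F a).1 := by
    funext a
    change -conj (conj (F a).1) = _
    rw [conj_conj]
    ring
  rw [h1]
  refine (hB.2.1 (-1) _ hF1.smooth z).trans ?_
  rw [hF3]
  change (-1 : ℂ) * (F z).2 = conj (-conj (F z).2)
  rw [map_neg, conj_conj]
  ring

/-- [CX1]. -/
theorem claimCl (hB : ClaimBb) : ClaimCl := by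
  intro M hM
  refine ⟨{ carrier := {F | InCl M F}
            add_mem' := fun {F G} hF hG => Cl_add hB hM hF hG
            zero_mem' := Cl_zero hB M
            smul_mem' := fun c {F} hF => Cl_smul hB c hF }, fun F => Iff.rfl, ?_, ?_⟩
  · intro F hF b u hu
    exact Cl_dil hB hF b hu
  · intro F hF
    exact Cl_Jq hB hF

end Pool.Agent.Work.MP_440970_an

end

section

/-!
# [CX14] the neighbourhood of zero
-/

open MeasureTheory Complex Set Filter Topology
open scoped ENNReal ComplexConjugate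

namespace Pool.Agent.Work.MP_440970_an

theorem InnerN_AA0 (r : ℝ) : 0 ≤ AA (1 / 3) (9 / 10) r := by
  unfold AA
  positivity

theorem InnerN_inv3 {r : ℝ} (hr : 0 < r) : 1 / Real.sqrt (1 + r ^ 2) ^ 3 ≤ 1 / r ^ 3 := by
  have h1 : r ≤ Real.sqrt (1 + r ^ 2) := Real.le_sqrt_of_sq_le (by linarith)
  exact one_div_le_one_div_of_le (by positivity) (pow_le_pow_left₀ hr.le h1 3)

theorem InnerN_near {r : ℝ} (hr : 0 < r) (hr1 : r ≤ 1) :
    AA (1 / 3) (9 / 10) r ≤ 6 * (1 / r ^ 6) := by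
  have h1 := InnerN_inv3 hr
  have h2 : 0 < 1 / Real.sqrt (1 + r ^ 2) ^ 3 := by positivity
  have h3 : g0 (1 / 3) (9 / 10) r = -(1 / 3 * (1 / r ^ 3)) -
      9 / 10 * (1 / Real.sqrt (1 + r ^ 2) ^ 3) := by
    unfold g0
    ring
  have h4 : h0 (9 / 10) r = 9 / 10 * (1 / r ^ 2 - r * (1 / Real.sqrt (1 + r ^ 2) ^ 3)) := by
    unfold h0
    ring
  have h5 : r * (1 / Real.sqrt (1 + r ^ 2) ^ 3) ≤ 1 / r ^ 2 := by
    calc r * (1 / Real.sqrt (1 + r ^ 2) ^ 3) ≤ r * (1 / r ^ 3) :=
          mul_le_mul_of_nonneg_left h1 hr.le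
      _ = 1 / r ^ 2 := by field_simp
  have h6 : 0 < r * (1 / Real.sqrt (1 + r ^ 2) ^ 3) := by positivity
  have hs : 1 ≤ 1 / r ^ 3 := by
    rw [le_div_iff₀ (by positivity), one_mul]
    exact pow_le_one₀ hr.le hr1
  have h7 : 1 / r ^ 2 ≤ 1 / r ^ 3 := by
    apply one_div_le_one_div_of_le (by positivity)
    nlinarith [pow_pos hr 2]
  have h8 : 1 / r ^ 6 = (1 / r ^ 3) ^ 2 := by
    field_simp
  unfold AA
  rw [h3, h4, h8]
  obtain ⟨s, hsd⟩ : ∃ s, s = 1 / r ^ 3 := ⟨_, rfl⟩
  obtain ⟨w, hwd⟩ : ∃ w, w = 1 / Real.sqrt (1 + r ^ 2) ^ 3 := ⟨_, rfl⟩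
  obtain ⟨q, hqd⟩ : ∃ q, q = 1 / r ^ 2 - r * (1 / Real.sqrt (1 + r ^ 2) ^ 3) := ⟨_, rfl⟩
  have hq0 : 0 ≤ q := by rw [hqd]; linarith
  have hq1 : q ≤ s := by rw [hqd, hsd]; linarith
  rw [← hqd, ← hsd, ← hwd]
  rw [← hsd] at h1 hs
  rw [← hwd] at h1 h2
  have e1 : (1 + (-(1 / 3 * s) - 9 / 10 * w)) ^ 2 ≤ (67 / 30 * s) ^ 2 := by
    apply sq_le_sq'
    · linarith
    · linarith
  have e2 : (9 / 10 * q) ^ 2 ≤ (9 / 10 * s) ^ 2 := pow_le_pow_left₀ (by positivity) (by linarith) 2
  nlinarith [sq_nonneg s]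

theorem InnerN_pow6 {r : ℝ} (hr : 0 < r) :
    (6 * (1 / r ^ 6)) ^ (13 / 70 : ℝ) * r = 6 ^ (13 / 70 : ℝ) * r ^ (-(4 / 35) : ℝ) := by
  rw [Real.mul_rpow (by norm_num) (by positivity), mul_assoc]
  congr 1
  have h1 : 1 / r ^ 6 = r ^ (-(6 : ℝ)) := by
    rw [Real.rpow_neg hr.le, one_div]
    congr 1
    exact_mod_cast (Real.rpow_natCast r 6).symm
  have h2 : r ^ (-(4 / 35) : ℝ) = r ^ (-(6 : ℝ) * (13 / 70)) * r ^ (1 : ℝ) := by
    rw [← Real.rpow_add hr]
    norm_num
  rw [h1, ← Real.rpow_mul hr.le, h2, Real.rpow_one]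

theorem InnerN_six : (6 : ℝ) ^ (13 / 70 : ℝ) ≤ 3 / 2 := by
  have h1 : ((6 : ℝ) ^ (13 / 70 : ℝ)) ^ 70 = 6 ^ 13 := by
    rw [← Real.rpow_natCast, ← Real.rpow_mul (by norm_num), ← Real.rpow_natCast]
    norm_num
  have h2 : ((6 : ℝ) ^ (13 / 70 : ℝ)) ^ 70 ≤ (3 / 2) ^ 70 := by
    rw [h1]
    norm_num
  exact le_of_pow_le_pow_left₀ (by norm_num) (by norm_num) h2

theorem claimInnerN (hI : ClaimIntN) : ClaimInnerN := by
  intro ρ x hρ hρ1 hx hρx
  have hint : IntegrableOn (fun r : ℝ => 3 / 2 * r ^ (-(4 / 35) : ℝ)) (Ioc 0 ρ) :=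
    ((intervalIntegrable_iff_integrableOn_Ioc_of_le hρ.le).1
      (intervalIntegral.intervalIntegrable_rpow' (by norm_num))).const_mul _
  have hI' : IntegrableOn fN (Ioc 0 ρ) :=
    IntegrableOn.mono_set (hI : IntegrableOn fN (Ioi 0) volume) Ioc_subset_Ioi_self
  have h1 : ∫ r in Ioc 0 ρ, fN r ≤ ∫ r in Ioc 0 ρ, 3 / 2 * r ^ (-(4 / 35) : ℝ) := by
    refine setIntegral_mono_on hI' hint measurableSet_Ioc fun r hr => ?_
    have hr1 : r ≤ 1 := hr.2.trans hρ1
    have h2 : AA (1 / 3) (9 / 10) r ^ (13 / 70 : ℝ) ≤ (6 * (1 / r ^ 6)) ^ (13 / 70 : ℝ) :=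
      Real.rpow_le_rpow (InnerN_AA0 r) (InnerN_near hr.1 hr1) (by norm_num)
    unfold fN
    have h3 : 0 < r ^ (-(4 / 35) : ℝ) := Real.rpow_pos_of_pos hr.1 _
    calc (AA (1 / 3) (9 / 10) r ^ (13 / 70 : ℝ) - 1) * r
        ≤ (6 * (1 / r ^ 6)) ^ (13 / 70 : ℝ) * r :=
          mul_le_mul_of_nonneg_right (by linarith) hr.1.le
      _ = 6 ^ (13 / 70 : ℝ) * r ^ (-(4 / 35) : ℝ) := InnerN_pow6 hr.1
      _ ≤ 3 / 2 * r ^ (-(4 / 35) : ℝ) := mul_le_mul_of_nonneg_right InnerN_six h3.le
  refine h1.trans ?_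
  rw [← intervalIntegral.integral_of_le hρ.le, intervalIntegral.integral_const_mul,
    integral_rpow (Or.inl (by norm_num))]
  have h4 : ρ ^ (-(4 / 35) + 1 : ℝ) ≤ x ^ 31 := by
    calc ρ ^ (-(4 / 35) + 1 : ℝ) ≤ (x ^ 35) ^ (-(4 / 35) + 1 : ℝ) :=
          Real.rpow_le_rpow hρ.le hρx (by norm_num)
      _ = x ^ 31 := by
        rw [← Real.rpow_natCast, ← Real.rpow_mul hx.le, ← Real.rpow_natCast]
        congr 1
        norm_num
  have h5 : (0 : ℝ) ^ (-(4 / 35) + 1 : ℝ) = 0 := Real.zero_rpow (by norm_num)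
  rw [h5, sub_zero]
  have h6 : (-(4 / 35) + 1 : ℝ) = 31 / 35 := by norm_num
  rw [h6] at h4 ⊢
  have h7 : 3 / 2 * (ρ ^ (31 / 35 : ℝ) / (31 / 35)) = 105 / 62 * ρ ^ (31 / 35 : ℝ) := by ring
  rw [h7]
  exact mul_le_mul_of_nonneg_left h4 (by norm_num)

end Pool.Agent.Work.MP_440970_an

end

section

/-!
# [CX12] integrability of the integrand
-/

open MeasureTheory Complex Set Filter Topology
open scoped ENNReal ComplexConjugate

namespace Pool.Agent.Work.MP_440970_an

theorem IntN_meas : Measurable fN := by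
  unfold fN AA g0 h0
  fun_prop

theorem IntN_inv3 {r : ℝ} (hr : 0 < r) : 1 / Real.sqrt (1 + r ^ 2) ^ 3 ≤ 1 / r ^ 3 := by
  have h1 : r ≤ Real.sqrt (1 + r ^ 2) := Real.le_sqrt_of_sq_le (by linarith)
  exact one_div_le_one_div_of_le (by positivity) (pow_le_pow_left₀ hr.le h1 3)

theorem IntN_g0 {r : ℝ} (hr : 0 < r) : |g0 (1 / 3) (9 / 10) r| ≤ 37 / 30 * (1 / r ^ 3) := by
  have h1 := IntN_inv3 hr
  have h2 : 0 < 1 / Real.sqrt (1 + r ^ 2) ^ 3 := by positivity
  have h3 : g0 (1 / 3) (9 / 10) r = -(1 / 3 * (1 / r ^ 3)) -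
      9 / 10 * (1 / Real.sqrt (1 + r ^ 2) ^ 3) := by
    unfold g0
    ring
  rw [h3, abs_le]
  constructor <;> nlinarith

theorem IntN_h0 {r : ℝ} (hr : 0 < r) : 0 ≤ h0 (9 / 10) r ∧ h0 (9 / 10) r ≤ 9 / 10 * (1 / r ^ 2) := by
  have h1 := IntN_inv3 hr
  have h2 : 0 < 1 / Real.sqrt (1 + r ^ 2) ^ 3 := by positivity
  have h3 : h0 (9 / 10) r = 9 / 10 * (1 / r ^ 2 - r * (1 / Real.sqrt (1 + r ^ 2) ^ 3)) := by
    unfold h0
    ring
  have h4 : r * (1 / Real.sqrt (1 + r ^ 2) ^ 3) ≤ 1 / r ^ 2 := by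
    calc r * (1 / Real.sqrt (1 + r ^ 2) ^ 3) ≤ r * (1 / r ^ 3) :=
          mul_le_mul_of_nonneg_left h1 hr.le
      _ = 1 / r ^ 2 := by field_simp
  have h5 : 0 < r * (1 / Real.sqrt (1 + r ^ 2) ^ 3) := by positivity
  rw [h3]
  constructor <;> linarith

theorem IntN_AA0 (r : ℝ) : 0 ≤ AA (1 / 3) (9 / 10) r := by
  unfold AA
  positivity

/-- near zero -/
theorem IntN_near {r : ℝ} (hr : 0 < r) (hr1 : r ≤ 1) :
    AA (1 / 3) (9 / 10) r ≤ 6 * (1 / r ^ 6) := by
  have h1 := IntN_g0 hr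
  obtain ⟨h2, h3⟩ := IntN_h0 hr
  have hs : 1 ≤ 1 / r ^ 3 := by
    rw [le_div_iff₀ (by positivity), one_mul]
    exact pow_le_one₀ hr.le hr1
  have h4 : 1 / r ^ 2 ≤ 1 / r ^ 3 := by
    apply one_div_le_one_div_of_le (by positivity)
    nlinarith [pow_pos hr 2]
  have h5 : 1 / r ^ 6 = (1 / r ^ 3) ^ 2 := by
    field_simp
  rw [h5]
  obtain ⟨s, hsd⟩ : ∃ s, s = 1 / r ^ 3 := ⟨_, rfl⟩
  rw [← hsd] at h1 hs h4 ⊢
  unfold AA
  have h6 : |1 + g0 (1 / 3) (9 / 10) r| ≤ 67 / 30 * s := by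
    have := abs_add_le 1 (g0 (1 / 3) (9 / 10) r)
    rw [abs_one] at this
    linarith
  have h7 : (1 + g0 (1 / 3) (9 / 10) r) ^ 2 ≤ (67 / 30 * s) ^ 2 := by
    rw [← sq_abs]
    exact pow_le_pow_left₀ (abs_nonneg _) h6 2
  have h8 : h0 (9 / 10) r ^ 2 ≤ (9 / 10 * s) ^ 2 := pow_le_pow_left₀ h2 (by linarith) 2
  nlinarith [sq_nonneg s]

theorem IntN_far {r : ℝ} (hr1 : 1 ≤ r) : |AA (1 / 3) (9 / 10) r - 1| ≤ 5 * (1 / r ^ 3) := by
  have hr : 0 < r := by linarith
  have h1 := IntN_g0 hr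
  obtain ⟨h2, h3⟩ := IntN_h0 hr
  have hs : 1 / r ^ 3 ≤ 1 := by
    rw [div_le_one (by positivity)]
    exact one_le_pow₀ hr1
  have hs0 : 0 < 1 / r ^ 3 := by positivity
  have h4 : (1 / r ^ 2) ^ 2 ≤ 1 / r ^ 3 := by
    rw [div_pow, one_pow, ← pow_mul]
    apply one_div_le_one_div_of_le (by positivity)
    exact pow_le_pow_right₀ hr1 (by norm_num)
  have hq0 : 0 < 1 / r ^ 2 := by positivity
  obtain ⟨s, hsd⟩ : ∃ s, s = 1 / r ^ 3 := ⟨_, rfl⟩
  obtain ⟨q, hqd⟩ : ∃ q, q = 1 / r ^ 2 := ⟨_, rfl⟩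
  rw [← hsd] at h1 hs h4 hs0 ⊢
  rw [← hqd] at h3 h4 hq0
  unfold AA
  have h5 : (1 + g0 (1 / 3) (9 / 10) r) ^ 2 + h0 (9 / 10) r ^ 2 - 1 =
      2 * g0 (1 / 3) (9 / 10) r + g0 (1 / 3) (9 / 10) r ^ 2 + h0 (9 / 10) r ^ 2 := by ring
  rw [h5]
  have h6 : g0 (1 / 3) (9 / 10) r ^ 2 ≤ (37 / 30 * s) ^ 2 := by
    rw [← sq_abs]
    exact pow_le_pow_left₀ (abs_nonneg _) h1 2
  have h7 : h0 (9 / 10) r ^ 2 ≤ (9 / 10 * q) ^ 2 := pow_le_pow_left₀ h2 h3 2
  have h8 : 0 ≤ g0 (1 / 3) (9 / 10) r ^ 2 := sq_nonneg _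
  have h9 : 0 ≤ h0 (9 / 10) r ^ 2 := sq_nonneg _
  have h10 : s ^ 2 ≤ s := by nlinarith
  obtain ⟨h11, h12⟩ := abs_le.1 h1
  rw [abs_le]
  constructor <;> nlinarith

theorem IntN_pow {a θ : ℝ} (ha : 0 ≤ a) (hθ : 0 ≤ θ) (hθ1 : θ ≤ 1) : |a ^ θ - 1| ≤ |a - 1| := by
  rcases le_total 1 a with h | h
  · have h1 : 1 ≤ a ^ θ := Real.one_le_rpow h hθ
    have h2 : a ^ θ ≤ a := by
      calc a ^ θ ≤ a ^ (1 : ℝ) := Real.rpow_le_rpow_of_exponent_le h hθ1
        _ = a := Real.rpow_one a
    rw [abs_of_nonneg (by linarith), abs_of_nonneg (by linarith)]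
    linarith
  · have h1 : a ^ θ ≤ 1 := Real.rpow_le_one ha h hθ
    have h2 : a ≤ a ^ θ := by
      rcases eq_or_lt_of_le ha with h0 | h0
      · rw [← h0]
        exact Real.rpow_nonneg le_rfl _
      · calc a = a ^ (1 : ℝ) := (Real.rpow_one a).symm
          _ ≤ a ^ θ := Real.rpow_le_rpow_of_exponent_ge h0 h hθ1
    rw [abs_of_nonpos (by linarith), abs_of_nonpos (by linarith)]
    linarith

theorem IntN_pow6 {r : ℝ} (hr : 0 < r) :
    (6 * (1 / r ^ 6)) ^ (13 / 70 : ℝ) * r = 6 ^ (13 / 70 : ℝ) * r ^ (-(4 / 35) : ℝ) := by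
  rw [Real.mul_rpow (by norm_num) (by positivity), mul_assoc]
  congr 1
  have h1 : 1 / r ^ 6 = r ^ (-(6 : ℝ)) := by
    rw [Real.rpow_neg hr.le, one_div]
    congr 1
    exact_mod_cast (Real.rpow_natCast r 6).symm
  have h2 : r ^ (-(4 / 35) : ℝ) = r ^ (-(6 : ℝ) * (13 / 70)) * r ^ (1 : ℝ) := by
    rw [← Real.rpow_add hr]
    norm_num
  rw [h1, ← Real.rpow_mul hr.le, h2, Real.rpow_one]

theorem claimIntN : ClaimIntN := by
  show IntegrableOn fN (Ioi 0)
  rw [← Ioc_union_Ioi_eq_Ioi (zero_le_one : (0 : ℝ) ≤ 1)]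
  refine IntegrableOn.union ?_ ?_
  · have hg : IntegrableOn (fun r : ℝ => 6 ^ (13 / 70 : ℝ) * r ^ (-(4 / 35) : ℝ) + 1)
        (Ioc 0 1) := by
      refine Integrable.add ?_ ?_
      · refine Integrable.const_mul ?_ _
        exact (intervalIntegrable_iff_integrableOn_Ioc_of_le zero_le_one).1
          (intervalIntegral.intervalIntegrable_rpow' (by norm_num))
      · exact integrableOn_const (by simp)
    refine Integrable.mono' hg IntN_meas.aestronglyMeasurable ?_
    refine (ae_restrict_iff' measurableSet_Ioc).2 (Eventually.of_forall fun r hr => ?_)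
    have h1 := IntN_near hr.1 hr.2
    have h2 := IntN_AA0 r
    have h3 : AA (1 / 3) (9 / 10) r ^ (13 / 70 : ℝ) ≤ (6 * (1 / r ^ 6)) ^ (13 / 70 : ℝ) :=
      Real.rpow_le_rpow h2 h1 (by norm_num)
    have h4 : 0 ≤ AA (1 / 3) (9 / 10) r ^ (13 / 70 : ℝ) := Real.rpow_nonneg h2 _
    have h5 := IntN_pow6 hr.1
    unfold fN
    rw [Real.norm_eq_abs, abs_mul, abs_of_pos hr.1]
    have h6 : |AA (1 / 3) (9 / 10) r ^ (13 / 70 : ℝ) - 1| ≤
        (6 * (1 / r ^ 6)) ^ (13 / 70 : ℝ) + 1 := by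
      rw [abs_le]
      constructor <;> linarith
    calc |AA (1 / 3) (9 / 10) r ^ (13 / 70 : ℝ) - 1| * r
        ≤ ((6 * (1 / r ^ 6)) ^ (13 / 70 : ℝ) + 1) * r := mul_le_mul_of_nonneg_right h6 hr.1.le
      _ = (6 * (1 / r ^ 6)) ^ (13 / 70 : ℝ) * r + r := by ring
      _ ≤ 6 ^ (13 / 70 : ℝ) * r ^ (-(4 / 35) : ℝ) + 1 := by
        rw [h5]
        linarith [hr.2]
  · have hg : IntegrableOn (fun r : ℝ => 5 * r ^ (-2 : ℝ)) (Ioi 1) :=
      (integrableOn_Ioi_rpow_of_lt (by norm_num) one_pos).const_mul _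
    refine Integrable.mono' hg IntN_meas.aestronglyMeasurable ?_
    refine (ae_restrict_iff' measurableSet_Ioi).2 (Eventually.of_forall fun r hr => ?_)
    have hr1 : 1 < r := hr
    have hr0 : 0 < r := by linarith
    have h1 := IntN_far hr1.le
    have h2 := IntN_pow (θ := 13 / 70) (IntN_AA0 r) (by norm_num) (by norm_num)
    unfold fN
    rw [Real.norm_eq_abs, abs_mul, abs_of_pos hr0]
    calc |AA (1 / 3) (9 / 10) r ^ (13 / 70 : ℝ) - 1| * r
        ≤ 5 * (1 / r ^ 3) * r := mul_le_mul_of_nonneg_right (h2.trans h1) hr0.le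
      _ = 5 * r ^ (-2 : ℝ) := by
        have h3 : r ^ (-2 : ℝ) = 1 / r ^ 2 := by
          rw [Real.rpow_neg hr0.le, one_div]
          congr 1
          exact_mod_cast Real.rpow_natCast r 2
        rw [h3]
        field_simp

end Pool.Agent.Work.MP_440970_an

end

section

/-!
# Block CX, item [CX4]: membership in the class
-/

open MeasureTheory Complex Set Filter Topology
open scoped ENNReal ComplexConjugate

namespace Pool.Agent.Work.MP_440970_an

/-- depths, replaced by `1` outside the range of indices -/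
noncomputable def Mem_s (n : ℕ) (s : ℕ → ℝ) (i : ℕ) : ℝ := if i < n then s i else 1

lemma Mem_s_pos {n : ℕ} {s : ℕ → ℝ} (hs0 : ∀ i < n, 0 < s i) (i : ℕ) : 0 < Mem_s n s i := by
  unfold Mem_s
  split_ifs with h
  · exact hs0 i h
  · exact one_pos

lemma Mem_s_eq {n : ℕ} (s : ℕ → ℝ) {i : ℕ} (hi : i ∈ Finset.range n) : Mem_s n s i = s i := by
  unfold Mem_s
  rw [if_pos (Finset.mem_range.mp hi)]

lemma Mem_fst (n : ℕ) (c s : ℕ → ℝ) (z : ℂ) : (Fs n c s z).1 =
    ∑ i ∈ Finset.range n, (c i : ℂ) * hs (Mem_s n s i) z := by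
  show ∑ i ∈ Finset.range n, (c i : ℂ) * hs (s i) z = _
  refine Finset.sum_congr rfl fun i hi => ?_
  rw [Mem_s_eq s hi]

lemma Mem_snd (n : ℕ) (c s : ℕ → ℝ) (z : ℂ) : (Fs n c s z).2 =
    ∑ i ∈ Finset.range n, (c i : ℂ) * ks (Mem_s n s i) z := by
  show ∑ i ∈ Finset.range n, (c i : ℂ) * ks (s i) z = _
  refine Finset.sum_congr rfl fun i hi => ?_
  rw [Mem_s_eq s hi]

lemma Mem_conj_fst (n : ℕ) (c s : ℕ → ℝ) (z : ℂ) : conj (Fs n c s z).1 = (Fs n c s z).1 := by
  rw [Mem_fst, map_sum]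
  refine Finset.sum_congr rfl fun i _ => ?_
  rw [map_mul, conj_ofReal, CsF_conj_hs]

lemma Mem_negconj_snd (n : ℕ) (c s : ℕ → ℝ) (z : ℂ) : -conj (Fs n c s z).2 =
    ∑ i ∈ Finset.range n, (c i : ℂ) * -conj (ks (Mem_s n s i) z) := by
  rw [Mem_snd, map_sum, ← Finset.sum_neg_distrib]
  refine Finset.sum_congr rfl fun i _ => ?_
  rw [map_mul, conj_ofReal]
  ring

/-- [CX4] -/
theorem claimMem (hB : ClaimBb) (h1 : ClaimI1) (h2 : ClaimI2) (hM : ClaimMom) : ClaimMem := by
  intro M n c s hM3 hpos hmom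
  have hp := fun i => Mem_s_pos hpos i
  refine ⟨hM M n c s (by omega) hpos hmom, fun z => ?_, fun z => ?_⟩
  · have h := (CsF_bb_sum hB (Finset.range n) (fun i => (c i : ℂ))
      (fun i => hs (Mem_s n s i)) fun i => CsF_W_hs (hp i)).2 z
    have e : (fun z => ∑ i ∈ Finset.range n, (c i : ℂ) * hs (Mem_s n s i) z) =
        fun a => (Fs n c s a).1 := by
      funext a
      exact (Mem_fst n c s a).symm
    rw [e] at h
    rw [h, Mem_snd]
    refine Finset.sum_congr rfl fun i _ => ?_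
    rw [h1 _ z (hp i)]
  · have h := (CsF_bb_sum hB (Finset.range n) (fun i => (c i : ℂ))
      (fun i => fun z => -conj (ks (Mem_s n s i) z)) fun i =>
        CsF_W_negconj (CsF_W_ks (hp i))).2 z
    have e : (fun z => ∑ i ∈ Finset.range n, (c i : ℂ) * -conj (ks (Mem_s n s i) z)) =
        fun a => -conj (Fs n c s a).2 := by
      funext a
      exact (Mem_negconj_snd n c s a).symm
    rw [e] at h
    rw [h, Mem_conj_fst, Mem_fst]
    refine Finset.sum_congr rfl fun i _ => ?_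
    rw [h2 _ z (hp i)]

end Pool.Agent.Work.MP_440970_an

end
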