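import Pool.Agent.Work.MP_440970_an.CX.Defs
import Pool.Agent.Work.MP_440970_an.Bd.B02
import Pool.Agent.Work.MP_440970_an.FC.Stmts

/-! Bundle of small proof modules (one section per former module). -/

section

/-!
# Block CX: the theorem for a general exponent `p0`
-/

open MeasureTheory Complex Set Filter Topology
open scoped ENNReal ComplexConjugate

namespace Pool.Agent.Work.MP_440970_an

/-- The result, from the claims. -/
theorem claimMainX (hN : ClaimNodes) (hW : ClaimW) (hDX : ClaimDX) (hC : ClaimConvert)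
    (hCl : ClaimCl) (hQ : ClaimQ2) (hD : ClaimDens) (p0 : ℝ) (hp01 : p0 < 1)
    (hNeg : ∀ (M : ℕ) (p : ℝ), 3 ≤ M → 0 < p → p ≤ p0 → ∃ G, InCl M G ∧ JJ p G < 0) :
    MainP p0 := by
  intro p hp hp0 g hg hgp
  have hp1 : p < 1 := by linarith
  obtain ⟨m, hm⟩ : ∃ m : ℕ, 2 < (m + 2) * p := by
    obtain ⟨m, hm⟩ := exists_nat_gt (2 / p)
    refine ⟨m, ?_⟩
    rw [div_lt_iff₀ hp] at hm
    nlinarith
  obtain ⟨L, y, φ, hy⟩ := hN m
  set M := 2 * m + 5 with hM
  have hM3 : 3 ≤ M := by omega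
  have hMp : 2 < (M : ℝ) * p := by
    have : ((m : ℝ) + 2) * p ≤ M * p := by
      refine mul_le_mul_of_nonneg_right ?_ hp.le
      rw [hM]
      push_cast
      have : (0:ℝ) ≤ m := by positivity
      linarith
    linarith
  obtain ⟨S, hS, hCs2, hCs3⟩ := hCl M hM3
  have hCs1 : ∀ F ∈ S, (∃ A, Nice M A (fun z => (F z).1) ∧ Nice M A (fun z => (F z).2)) ∧
      ∀ z, bb (fun z => (F z).1) z = (F z).2 := fun F hF =>
    ⟨((hS F).1 hF).1, ((hS F).1 hF).2.1⟩
  have hnegS : ∃ G ∈ S, JJ p G < 0 := by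
    obtain ⟨G, h1, h2⟩ := hNeg M p hM3 hp hp0
    exact ⟨G, (hS G).2 h1, h2⟩
  obtain ⟨hX1, -, -, hnp, hdx1, hdx2, -, hdx4⟩ := hDX p hp hp1
  obtain ⟨C, hCtop, hCC⟩ := hC m p L y φ hy hp hp1 hm
  obtain ⟨CW, hCW, hWW⟩ := hW m p L y φ hy hp hp1 hm
  have hfin : ∀ F ∈ S, Measurable F ∧ cost p F < ⊤ ∧ np p (fun z => (F z).2) < ⊤ := by
    intro F hF
    obtain ⟨⟨A, h1, h2⟩, -⟩ := hCs1 F hF
    exact Main_cost_lt hp hp1 hMp hQ h1 h2
  -- conversion for members of the class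
  have hconv : ∀ F ∈ S, dX p (fun z => (F z).2) ≤ C * np p (fun z => (F z).1) := by
    intro F hF
    obtain ⟨⟨A, h1, h2⟩, hb⟩ := hCs1 F hF
    obtain ⟨hFm, -, hF2⟩ := hfin F hF
    have h3 := hCC A _ (h1 : Nice (2 * m + 5) A _)
    obtain ⟨hm1, hm2⟩ := hWW A _ (h1.weaken (by omega : 2 * m + 4 ≤ 2 * m + 5))
    rw [hdx4 (fun z => (F z).2) (bH y φ (fun z => (F z).1)) hFm.snd hm1 hF2
      (lt_of_le_of_lt hm2 ENNReal.ofReal_lt_top) ?_]
    · exact h3
    · have e : (fun z => (F z).2 - bH y φ (fun z => (F z).1) z) =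
          ∑ l, ((1 / (2 * Real.pi : ℂ)) * ∫ a, φ l a * (F a).1) •
            (fun z : ℂ => K (z - y l)) := by
        funext z
        simp only [bH, hb z, Finset.sum_apply, Pi.smul_apply, smul_eq_mul]
        rw [Finset.mul_sum]
        ring_nf
      rw [e]
      exact Submodule.sum_mem _ fun l _ => Submodule.smul_mem _ _
        (Submodule.subset_span ⟨y l, rfl⟩)
  -- density
  have hdens := hD p S hp hp1 (fun F hF => ⟨(hfin F hF).1, (hfin F hF).2.1⟩) hCs2 hCs3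
    hnegS (fun z => (0, g z)) (measurable_const.prodMk hg)
  have hcost : cost p (fun z => ((0 : ℂ), g z)) < ⊤ := by
    refine lt_of_le_of_lt (lintegral_mono fun z => ?_) hgp
    obtain ⟨-, -, -, hq⟩ := hQ p hp hp1
    rw [← ofReal_norm, ENNReal.ofReal_rpow_of_nonneg (norm_nonneg _) hp.le]
    refine ENNReal.ofReal_le_ofReal ((hq _ _).2.2.trans ?_)
    simp [Real.zero_rpow hp.ne']
  have key : ∀ η : ℝ≥0∞, 0 < η → dX p g ≤ η + C * η := by
    intro η hη
    obtain ⟨F, hF, hle⟩ := hdens hcost η hη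
    obtain ⟨-, -, -, hq⟩ := hQ p hp hp1
    have h1 : np p (fun z => (F z).1) ≤ η := by
      refine le_trans (lintegral_mono fun z => ?_) hle
      rw [← ofReal_norm, ENNReal.ofReal_rpow_of_nonneg (norm_nonneg _) hp.le]
      refine ENNReal.ofReal_le_ofReal ?_
      have := (hq (0 - (F z).1) (g z - (F z).2)).1
      simpa using this
    have h2 : np p (fun z => g z - (F z).2) ≤ η := by
      refine le_trans (lintegral_mono fun z => ?_) hle
      rw [← ofReal_norm, ENNReal.ofReal_rpow_of_nonneg (norm_nonneg _) hp.le]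
      refine ENNReal.ofReal_le_ofReal ?_
      exact (hq (0 - (F z).1) (g z - (F z).2)).2.1
    obtain ⟨hFm, -, -⟩ := hfin F hF
    have h3 := hdx2 (fun z => g z - (F z).2) (fun z => (F z).2) (hg.sub hFm.snd)
    simp only [sub_add_cancel] at h3
    refine h3.trans (add_le_add h2 ((hconv F hF).trans ?_))
    exact mul_le_mul_right h1 C
  -- limit
  refine le_antisymm ?_ bot_le
  refine ENNReal.le_of_forall_pos_le_add fun ε hε _ => ?_
  rw [zero_add]
  by_cases hC1 : 1 + C = ⊤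
  · exact absurd hC1 (ENNReal.add_lt_top.2 ⟨ENNReal.one_lt_top, hCtop⟩).ne
  · have hpos : 0 < (ε : ℝ≥0∞) / (1 + C) := ENNReal.div_pos (by exact_mod_cast hε.ne') hC1
    have h4 := key _ hpos
    refine h4.trans (le_of_eq ?_)
    rw [← one_add_mul, ENNReal.mul_div_cancel (by simp) hC1]

theorem MainX_closure {p0 : ℝ} (hp01 : p0 < 1) (hM : MainP p0) (hDX : ClaimDX) (p : ℝ)
    (hp : 0 < p) (hp' : p ≤ p0)
    (g : ℂ → ℂ) (hg : MemLp g (ENNReal.ofReal p) volume) (ε : ℝ) (hε : 0 < ε) :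
    ∃ f ∈ X, MemLp f (ENNReal.ofReal p) volume ∧
      ∫⁻ z, ‖g z - f z‖ₑ ^ p < ENNReal.ofReal ε := by
  have hp1 : p < 1 := by linarith
  have hp0 : ENNReal.ofReal p ≠ 0 := (ENNReal.ofReal_pos.2 hp).ne'
  have hpt : ENNReal.ofReal p ≠ ⊤ := ENNReal.ofReal_ne_top
  obtain ⟨hX1, -⟩ := hDX p hp hp1
  set g' := hg.1.mk g with hg'
  have hg'm : Measurable g' := hg.1.measurable_mk
  have hae : g =ᵐ[volume] g' := hg.1.ae_eq_mk
  have hfin : np p g' < ⊤ := by
    have h1 := (eLpNorm_lt_top_iff_lintegral_rpow_enorm_lt_top hp0 hpt).1 hg.2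
    rw [ENNReal.toReal_ofReal hp.le] at h1
    refine lt_of_le_of_lt (le_of_eq ?_) h1
    unfold np
    refine lintegral_congr_ae ?_
    filter_upwards [hae] with z hz
    rw [hz]
  have h0 := hM p hp hp' g' hg'm hfin
  have hlt : dX p g' < ENNReal.ofReal ε := by
    rw [h0]
    exact ENNReal.ofReal_pos.2 hε
  unfold dX at hlt
  simp only [iInf_lt_iff] at hlt
  obtain ⟨f, hf, hfn, hfl⟩ := hlt
  refine ⟨f, hf, ⟨(hX1 f hf).aestronglyMeasurable, ?_⟩, ?_⟩
  · rw [eLpNorm_lt_top_iff_lintegral_rpow_enorm_lt_top hp0 hpt, ENNReal.toReal_ofReal hp.le]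
    exact hfn
  · refine lt_of_le_of_lt (le_of_eq ?_) hfl
    unfold np
    refine lintegral_congr_ae ?_
    filter_upwards [hae] with z hz
    rw [hz]

end Pool.Agent.Work.MP_440970_an

end

section

/-!
# CX3: charges with vanishing moments give fast decaying fields
-/

open MeasureTheory Complex Set Filter Topology
open scoped ENNReal ComplexConjugate ContDiff

namespace Pool.Agent.Work.MP_440970_an

/-- Taylor expansion at `0` -/
theorem Mom_poly (f : ℝ → ℝ) (hf : ContDiff ℝ ∞ f) (M : ℕ) (hM : 1 ≤ M) (S : ℝ) (hS : 0 < S) :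
    ∃ (a : ℕ → ℝ) (C : ℝ), 0 ≤ C ∧ ∀ x ∈ Icc (0 : ℝ) S,
      |f x - ∑ k ∈ Finset.range M, a k * x ^ k| ≤ C * x ^ M := by
  obtain ⟨n, rfl⟩ : ∃ n, M = n + 1 := ⟨M - 1, by omega⟩
  have hf' : ContDiffOn ℝ (n + 1) f (Icc 0 S) := by
    refine (hf.of_le ?_).contDiffOn
    exact_mod_cast le_top
  obtain ⟨C, hC⟩ := exists_taylor_mean_remainder_bound hS.le hf'
  refine ⟨fun k => (k.factorial : ℝ)⁻¹ * iteratedDerivWithin k f (Icc 0 S) 0, |C|, abs_nonneg C,
    fun x hx => ?_⟩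
  have h := hC x hx
  rw [taylor_within_apply, sub_zero, Real.norm_eq_abs] at h
  have h2 : ∑ k ∈ Finset.range (n + 1), ((k.factorial : ℝ)⁻¹ * x ^ k) •
      iteratedDerivWithin k f (Icc 0 S) 0 = ∑ k ∈ Finset.range (n + 1),
        (k.factorial : ℝ)⁻¹ * iteratedDerivWithin k f (Icc 0 S) 0 * x ^ k := by
    refine Finset.sum_congr rfl fun k _ => ?_
    rw [smul_eq_mul]
    ring
  rw [h2] at h
  refine h.trans ?_
  exact mul_le_mul_of_nonneg_right (le_abs_self C) (pow_nonneg hx.1 _)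

/-- The sum. -/
theorem Mom_sum (M n : ℕ) (c s : ℕ → ℝ) (hM : 1 ≤ M) (hs : ∀ i < n, 0 < s i) (hm : Mom0 M n c s)
    (f : ℝ → ℝ) (hf : ContDiff ℝ ∞ f) : ∃ C : ℝ, 0 ≤ C ∧
    ∀ h ∈ Icc (0 : ℝ) 1, |∑ i ∈ Finset.range n, c i * f (s i * h)| ≤ C * h ^ M := by
  set S : ℝ := 1 + ∑ i ∈ Finset.range n, s i with hS
  have hS0 : 0 ≤ ∑ i ∈ Finset.range n, s i :=
    Finset.sum_nonneg fun i hi => (hs i (Finset.mem_range.1 hi)).le
  have hsS : ∀ i < n, s i ≤ S := by
    intro i hi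
    have h1 : s i ≤ ∑ i ∈ Finset.range n, s i :=
      Finset.single_le_sum (f := s) (fun j hj => (hs j (Finset.mem_range.1 hj)).le)
        (Finset.mem_range.2 hi)
    linarith
  obtain ⟨a, C, hC0, hC⟩ := Mom_poly f hf M hM S (by linarith)
  refine ⟨C * ∑ i ∈ Finset.range n, |c i| * s i ^ M, ?_, fun h hh => ?_⟩
  · exact mul_nonneg hC0 (Finset.sum_nonneg fun i hi => mul_nonneg (abs_nonneg _)
      (pow_nonneg (hs i (Finset.mem_range.1 hi)).le _))
  have h1 : ∑ i ∈ Finset.range n, c i * ∑ k ∈ Finset.range M, a k * (s i * h) ^ k = 0 := by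
    have h2 : ∑ i ∈ Finset.range n, c i * ∑ k ∈ Finset.range M, a k * (s i * h) ^ k =
        ∑ k ∈ Finset.range M, a k * h ^ k * ∑ i ∈ Finset.range n, c i * s i ^ k := by
      simp only [Finset.mul_sum]
      rw [Finset.sum_comm]
      refine Finset.sum_congr rfl fun k _ => Finset.sum_congr rfl fun i _ => ?_
      rw [mul_pow]
      ring
    rw [h2]
    refine Finset.sum_eq_zero fun k hk => ?_
    rw [hm k (Finset.mem_range.1 hk), mul_zero]
  have h3 : ∑ i ∈ Finset.range n, c i * f (s i * h) =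
      ∑ i ∈ Finset.range n, c i * (f (s i * h) - ∑ k ∈ Finset.range M, a k * (s i * h) ^ k) := by
    simp only [mul_sub, Finset.sum_sub_distrib]
    rw [h1, sub_zero]
  rw [h3, Finset.mul_sum, Finset.sum_mul]
  refine (Finset.abs_sum_le_sum_abs _ _).trans (Finset.sum_le_sum fun i hi => ?_)
  have hi' := Finset.mem_range.1 hi
  have hx : s i * h ∈ Icc (0 : ℝ) S :=
    ⟨mul_nonneg (hs i hi').le hh.1,
      (mul_le_of_le_one_right (hs i hi').le hh.2).trans (hsS i hi')⟩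
  rw [abs_mul]
  calc |c i| * |f (s i * h) - ∑ k ∈ Finset.range M, a k * (s i * h) ^ k| ≤
        |c i| * (C * (s i * h) ^ M) :=
        mul_le_mul_of_nonneg_left (hC _ hx) (abs_nonneg _)
    _ = C * (|c i| * s i ^ M) * h ^ M := by
        rw [mul_pow]
        ring

/-- The function of `t = |z|²`. -/
noncomputable def Mom_G (n : ℕ) (c s : ℕ → ℝ) (e : ℕ) (q t : ℝ) : ℝ :=
  ∑ i ∈ Finset.range n, c i * (s i ^ e * (s i ^ 2 + t) ^ (-q))

theorem Mom_bound (M n : ℕ) (c s : ℕ → ℝ) (hM : 1 ≤ M) (hs : ∀ i < n, 0 < s i)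
    (hm : Mom0 M n c s) (e : ℕ) (q : ℝ) (hq : 0 ≤ q) (hec : e + 2 ≤ 2 * q) :
    ∃ C : ℝ, 0 ≤ C ∧ ∀ r : ℝ, 0 ≤ r → |Mom_G n c s e q (r ^ 2)| * (1 + r) ^ (M + 2) ≤ C := by
  have hf : ContDiff ℝ ∞ (fun x : ℝ => x ^ e * (1 + x ^ 2) ^ (-q)) := by
    refine (contDiff_id.pow e).mul ?_
    refine ContDiff.rpow_const_of_ne (contDiff_const.add (contDiff_id.pow 2)) fun x => ?_
    have : 0 < 1 + x ^ 2 := by positivity
    exact this.ne'
  obtain ⟨C, hC0, hC⟩ := Mom_sum M n c s hM hs hm _ hf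
  set B : ℝ := ∑ i ∈ Finset.range n, |c i| * (s i ^ e * (s i ^ 2) ^ (-q)) with hB
  have hB0 : 0 ≤ B := Finset.sum_nonneg fun i hi => by
    have := hs i (Finset.mem_range.1 hi)
    positivity
  refine ⟨(B + C) * 2 ^ (M + 2), by positivity, fun r hr => ?_⟩
  rcases le_total r 1 with h1 | h1
  · have h2 : |Mom_G n c s e q (r ^ 2)| ≤ B := by
      refine (Finset.abs_sum_le_sum_abs _ _).trans ?_
      refine Finset.sum_le_sum fun i hi => ?_
      have hsi := hs i (Finset.mem_range.1 hi)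
      rw [abs_mul]
      refine mul_le_mul_of_nonneg_left ?_ (abs_nonneg _)
      have h4 : (s i ^ 2 + r ^ 2) ^ (-q) ≤ (s i ^ 2) ^ (-q) :=
        Real.rpow_le_rpow_of_nonpos (by positivity) (by nlinarith [sq_nonneg r]) (by linarith)
      have h5 : 0 ≤ (s i ^ 2 + r ^ 2) ^ (-q) := by positivity
      rw [abs_of_nonneg (by positivity)]
      exact mul_le_mul_of_nonneg_left h4 (by positivity)
    have h6 : (1 + r) ^ (M + 2) ≤ 2 ^ (M + 2) := pow_le_pow_left₀ (by linarith) (by linarith) _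
    calc |Mom_G n c s e q (r ^ 2)| * (1 + r) ^ (M + 2) ≤ B * 2 ^ (M + 2) :=
          mul_le_mul h2 h6 (by positivity) hB0
      _ ≤ (B + C) * 2 ^ (M + 2) := by
          refine mul_le_mul_of_nonneg_right ?_ (by positivity)
          linarith
  · have hr0 : 0 < r := by linarith
    have h2 : Mom_G n c s e q (r ^ 2) = r ^ e * (r ^ 2) ^ (-q) *
        ∑ i ∈ Finset.range n, c i *
          ((fun x : ℝ => x ^ e * (1 + x ^ 2) ^ (-q)) (s i * r⁻¹)) := by
      rw [Mom_G, Finset.mul_sum]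
      refine Finset.sum_congr rfl fun i _ => ?_
      have h3 : s i ^ 2 + r ^ 2 = r ^ 2 * (1 + (s i * r⁻¹) ^ 2) := by
        field_simp
        ring
      have h4 : s i ^ e = r ^ e * (s i * r⁻¹) ^ e := by
        rw [← mul_pow]
        congr 1
        field_simp
      simp only []
      rw [h3, Real.mul_rpow (by positivity) (by positivity)]
      conv_lhs => rw [h4]
      ring
    have h5 := hC r⁻¹ ⟨by positivity, inv_le_one_of_one_le₀ h1⟩
    have h6 : r ^ e * (r ^ 2) ^ (-q) ≤ (r ^ 2)⁻¹ := by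
      have h7 : (r ^ 2) ^ (-q) = r ^ (-(2 * q)) := by
        rw [← Real.rpow_natCast r 2, ← Real.rpow_mul hr0.le]
        congr 1
        push_cast
        ring
      have h8 : r ^ e * r ^ (-(2 * q)) = r ^ ((e : ℝ) - 2 * q) := by
        rw [← Real.rpow_natCast r e, ← Real.rpow_add hr0]
        congr 1
      rw [h7, h8, ← Real.rpow_natCast r 2, ← Real.rpow_neg hr0.le]
      refine Real.rpow_le_rpow_of_exponent_le h1 ?_
      push_cast
      linarith
    have h9 : (1 + r) ^ (M + 2) ≤ 2 ^ (M + 2) * r ^ (M + 2) := by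
      rw [← mul_pow]
      exact pow_le_pow_left₀ (by linarith) (by linarith) _
    rw [h2, abs_mul, abs_of_nonneg (show 0 ≤ r ^ e * (r ^ 2) ^ (-q) by positivity)]
    calc r ^ e * (r ^ 2) ^ (-q) * |∑ i ∈ Finset.range n, c i *
          ((fun x : ℝ => x ^ e * (1 + x ^ 2) ^ (-q)) (s i * r⁻¹))| * (1 + r) ^ (M + 2)
        ≤ (r ^ 2)⁻¹ * (C * r⁻¹ ^ M) * (2 ^ (M + 2) * r ^ (M + 2)) :=
          mul_le_mul (mul_le_mul h6 h5 (abs_nonneg _) (by positivity)) h9 (by positivity)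
            (by positivity)
      _ = C * 2 ^ (M + 2) := by
          rw [pow_add r M 2, inv_pow]
          field_simp
      _ ≤ (B + C) * 2 ^ (M + 2) := by
          refine mul_le_mul_of_nonneg_right ?_ (by positivity)
          linarith

/-- The derivative in `t`. -/
theorem Mom_deriv (n : ℕ) (c s : ℕ → ℝ) (hs : ∀ i < n, 0 < s i) (e : ℕ) (q t : ℝ) (ht : 0 ≤ t) :
    HasDerivAt (Mom_G n c s e q) (-q * Mom_G n c s e (q + 1) t) t := by
  have h1 : HasDerivAt (fun t => ∑ i ∈ Finset.range n, c i *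
    (s i ^ e * (s i ^ 2 + t) ^ (-q))) (∑ i ∈ Finset.range n,
      c i * (s i ^ e * (1 * (-q) * (s i ^ 2 + t) ^ (-q - 1)))) t := by
    refine HasDerivAt.fun_sum fun i hi => ?_
    have hsi := hs i (Finset.mem_range.1 hi)
    refine HasDerivAt.const_mul _ (HasDerivAt.const_mul _ ?_)
    refine HasDerivAt.rpow_const ?_ (Or.inl ?_)
    · exact (hasDerivAt_id t).const_add _
    · have : (0 : ℝ) < s i ^ 2 + t := by positivity
      exact this.ne'
  refine h1.congr_deriv ?_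
  rw [Mom_G, Finset.mul_sum]
  refine Finset.sum_congr rfl fun j _ => ?_
  rw [show -(q + 1) = -q - 1 by ring]
  ring

/-- The function of `z`. -/
theorem Mom_fderiv (n : ℕ) (c s : ℕ → ℝ) (hs : ∀ i < n, 0 < s i) (e : ℕ) (q : ℝ) (z : ℂ) :
    HasFDerivAt (fun z : ℂ => Mom_G n c s e q (‖z‖ ^ 2))
      ((-q * Mom_G n c s e (q + 1) (‖z‖ ^ 2)) • (2 • innerSL ℝ z)) z :=
  HasDerivAt.comp_hasFDerivAt (h₂ := Mom_G n c s e q) z
    (Mom_deriv n c s hs e q (‖z‖ ^ 2) (by positivity)) (hasStrictFDerivAt_norm_sq z).hasFDerivAt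

theorem Mom_contDiff (n : ℕ) (c s : ℕ → ℝ) (hs : ∀ i < n, 0 < s i) (e : ℕ) (q : ℝ) :
    ContDiff ℝ 1 (fun z : ℂ => Mom_G n c s e q (‖z‖ ^ 2)) := by
  unfold Mom_G
  refine ContDiff.sum fun i hi => ?_
  have hsi := hs i (Finset.mem_range.1 hi)
  refine contDiff_const.mul (contDiff_const.mul ?_)
  refine ContDiff.rpow_const_of_ne (contDiff_const.add (contDiff_norm_sq ℝ)) fun z => ?_
  have : (0 : ℝ) < s i ^ 2 + ‖z‖ ^ 2 := by positivity
  exact this.ne'

theorem Mom_F1 (n : ℕ) (c s : ℕ → ℝ) (z : ℂ) :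
    (Fs n c s z).1 = ((Mom_G n c s 1 (3 / 2) (‖z‖ ^ 2) : ℝ) : ℂ) := by
  unfold Fs Mom_G hs
  push_cast
  refine Finset.sum_congr rfl fun j _ => ?_
  rw [pow_one]

theorem Mom_F2 (n : ℕ) (c s : ℕ → ℝ) (z : ℂ) :
    (Fs n c s z).2 = z * ((Mom_G n c s 0 (3 / 2) (‖z‖ ^ 2) : ℝ) : ℂ) := by
  unfold Fs Mom_G ks
  push_cast
  rw [Finset.mul_sum]
  refine Finset.sum_congr rfl fun j _ => ?_
  rw [pow_zero]
  ring

theorem Mom_norm_inner (a : ℝ) (z : ℂ) : ‖a • ((2 : ℕ) • innerSL ℝ z)‖ ≤ 2 * |a| * ‖z‖ := by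
  rw [norm_smul, Real.norm_eq_abs]
  have h1 : ‖(2 : ℕ) • innerSL ℝ z‖ ≤ 2 * ‖z‖ := by
    rw [← Nat.cast_smul_eq_nsmul ℝ, norm_smul, innerSL_apply_norm]
    simp
  calc |a| * ‖(2 : ℕ) • innerSL ℝ z‖ ≤ |a| * (2 * ‖z‖) :=
        mul_le_mul_of_nonneg_left h1 (abs_nonneg _)
    _ = 2 * |a| * ‖z‖ := by ring

/-- [CX3] -/
theorem claimMom : ClaimMom := by
  intro M n c s hM hs hm
  obtain ⟨C1, hC1, hb1⟩ := Mom_bound M n c s hM hs hm 1 (3 / 2) (by norm_num) (by norm_num)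
  obtain ⟨C2, hC2, hb2⟩ := Mom_bound M n c s hM hs hm 1 (3 / 2 + 1) (by norm_num) (by norm_num)
  obtain ⟨C3, hC3, hb3⟩ := Mom_bound M n c s hM hs hm 0 (3 / 2) (by norm_num) (by norm_num)
  obtain ⟨C4, hC4, hb4⟩ := Mom_bound M n c s hM hs hm 0 (3 / 2 + 1) (by norm_num) (by norm_num)
  have hp : ∀ r : ℝ, 0 ≤ r → (1 + r) ^ (M + 2) = (1 + r) ^ M * (1 + r) ^ 2 := fun r _ => pow_add _ _ _
  have aux0 : ∀ (x C r : ℝ), 0 ≤ r → 0 ≤ x → x * (1 + r) ^ (M + 2) ≤ C → x * (1 + r) ^ M ≤ C := by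
    intro x C r hr hx h
    refine le_trans ?_ h
    refine mul_le_mul_of_nonneg_left ?_ hx
    exact pow_le_pow_right₀ (by linarith) (by omega)
  have aux1 : ∀ (x C r : ℝ), 0 ≤ r → 0 ≤ x → x * (1 + r) ^ (M + 2) ≤ C →
      r * x * (1 + r) ^ M ≤ C := by
    intro x C r hr hx h
    refine le_trans ?_ h
    rw [hp r hr]
    have h1 : r ≤ (1 + r) ^ 2 := by nlinarith
    have h2 : 0 ≤ x * (1 + r) ^ M := by positivity
    calc r * x * (1 + r) ^ M = (x * (1 + r) ^ M) * r := by ring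
      _ ≤ (x * (1 + r) ^ M) * (1 + r) ^ 2 := mul_le_mul_of_nonneg_left h1 h2
      _ = _ := by ring
  have aux2 : ∀ (x C r : ℝ), 0 ≤ r → 0 ≤ x → x * (1 + r) ^ (M + 2) ≤ C →
      r ^ 2 * x * (1 + r) ^ M ≤ C := by
    intro x C r hr hx h
    refine le_trans ?_ h
    rw [hp r hr]
    have h1 : r ^ 2 ≤ (1 + r) ^ 2 := by nlinarith
    have h2 : 0 ≤ x * (1 + r) ^ M := by positivity
    calc r ^ 2 * x * (1 + r) ^ M = (x * (1 + r) ^ M) * r ^ 2 := by ring
      _ ≤ (x * (1 + r) ^ M) * (1 + r) ^ 2 := mul_le_mul_of_nonneg_left h1 h2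
      _ = _ := by ring
  refine ⟨C1 + 3 * C2 + C3 + 3 * C4, ?_, ?_⟩
  · have hD : (fun z => (Fs n c s z).1) = fun z => ((Mom_G n c s 1 (3 / 2) (‖z‖ ^ 2) : ℝ) : ℂ) :=
      funext (Mom_F1 n c s)
    rw [hD]
    constructor
    · exact ofRealCLM.contDiff.comp (Mom_contDiff n c s hs 1 (3 / 2))
    · intro z
      rw [Complex.norm_real, Real.norm_eq_abs]
      have := aux0 _ _ _ (norm_nonneg z) (abs_nonneg _) (hb1 ‖z‖ (norm_nonneg z))
      linarith
    · intro z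
      have h1 : HasFDerivAt (fun z => ((Mom_G n c s 1 (3 / 2) (‖z‖ ^ 2) : ℝ) : ℂ)) (ofRealCLM.comp
          ((-(3 / 2) * Mom_G n c s 1 (3 / 2 + 1) (‖z‖ ^ 2)) • (2 • innerSL ℝ z))) z := by
        exact ofRealCLM.hasFDerivAt.comp z (Mom_fderiv n c s hs 1 (3 / 2) z)
      rw [h1.fderiv]
      have h2 : ‖ofRealCLM.comp
          ((-(3 / 2) * Mom_G n c s 1 (3 / 2 + 1) (‖z‖ ^ 2)) • (2 • innerSL ℝ z))‖ ≤
            3 * (‖z‖ * |Mom_G n c s 1 (3 / 2 + 1) (‖z‖ ^ 2)|) := by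
        refine (ContinuousLinearMap.opNorm_comp_le _ _).trans ?_
        rw [ofRealCLM_norm, one_mul]
        refine (Mom_norm_inner _ _).trans (le_of_eq ?_)
        rw [abs_mul, abs_neg, abs_of_pos (by norm_num : (0 : ℝ) < 3 / 2)]
        ring
      have h3 := aux1 _ _ _ (norm_nonneg z) (abs_nonneg _) (hb2 ‖z‖ (norm_nonneg z))
      calc _ ≤ 3 * (‖z‖ * |Mom_G n c s 1 (3 / 2 + 1) (‖z‖ ^ 2)|) * (1 + ‖z‖) ^ M :=
            mul_le_mul_of_nonneg_right h2 (by positivity)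
        _ = 3 * (‖z‖ * |Mom_G n c s 1 (3 / 2 + 1) (‖z‖ ^ 2)| * (1 + ‖z‖) ^ M) := by ring
        _ ≤ _ := by linarith
  · have hD : (fun z => (Fs n c s z).2) =
        fun z => z * ((Mom_G n c s 0 (3 / 2) (‖z‖ ^ 2) : ℝ) : ℂ) := funext (Mom_F2 n c s)
    rw [hD]
    constructor
    · exact contDiff_id.mul (ofRealCLM.contDiff.comp (Mom_contDiff n c s hs 0 (3 / 2)))
    · intro z
      rw [norm_mul, Complex.norm_real, Real.norm_eq_abs]
      have := aux1 _ _ _ (norm_nonneg z) (abs_nonneg _) (hb3 ‖z‖ (norm_nonneg z))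
      linarith
    · intro z
      have h1 : HasFDerivAt (fun z => z * ((Mom_G n c s 0 (3 / 2) (‖z‖ ^ 2) : ℝ) : ℂ))
          (z • (ofRealCLM.comp
          ((-(3 / 2) * Mom_G n c s 0 (3 / 2 + 1) (‖z‖ ^ 2)) • (2 • innerSL ℝ z))) +
            ((Mom_G n c s 0 (3 / 2) (‖z‖ ^ 2) : ℝ) : ℂ) • (ContinuousLinearMap.id ℝ ℂ)) z := by
        exact (hasFDerivAt_id z).mul (ofRealCLM.hasFDerivAt.comp z (Mom_fderiv n c s hs 0 (3 / 2) z))
      rw [h1.fderiv]
      have h2 : ‖ofRealCLM.comp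
          ((-(3 / 2) * Mom_G n c s 0 (3 / 2 + 1) (‖z‖ ^ 2)) • (2 • innerSL ℝ z))‖ ≤
            3 * (‖z‖ * |Mom_G n c s 0 (3 / 2 + 1) (‖z‖ ^ 2)|) := by
        refine (ContinuousLinearMap.opNorm_comp_le _ _).trans ?_
        rw [ofRealCLM_norm, one_mul]
        refine (Mom_norm_inner _ _).trans (le_of_eq ?_)
        rw [abs_mul, abs_neg, abs_of_pos (by norm_num : (0 : ℝ) < 3 / 2)]
        ring
      have h3 := aux0 _ _ _ (norm_nonneg z) (abs_nonneg _) (hb3 ‖z‖ (norm_nonneg z))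
      have h4 := aux2 _ _ _ (norm_nonneg z) (abs_nonneg _) (hb4 ‖z‖ (norm_nonneg z))
      have h5 : ‖z • (ofRealCLM.comp
          ((-(3 / 2) * Mom_G n c s 0 (3 / 2 + 1) (‖z‖ ^ 2)) • (2 • innerSL ℝ z))) +
            ((Mom_G n c s 0 (3 / 2) (‖z‖ ^ 2) : ℝ) : ℂ) • (ContinuousLinearMap.id ℝ ℂ)‖ ≤
          3 * (‖z‖ ^ 2 * |Mom_G n c s 0 (3 / 2 + 1) (‖z‖ ^ 2)|) +
            |Mom_G n c s 0 (3 / 2) (‖z‖ ^ 2)| := by
        refine (norm_add_le _ _).trans (add_le_add ?_ ?_)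
        · rw [norm_smul]
          calc ‖z‖ * _ ≤ ‖z‖ * (3 * (‖z‖ * |Mom_G n c s 0 (3 / 2 + 1) (‖z‖ ^ 2)|)) :=
                mul_le_mul_of_nonneg_left h2 (norm_nonneg _)
            _ = _ := by ring
        · rw [norm_smul, Complex.norm_real, Real.norm_eq_abs]
          exact mul_le_of_le_one_right (abs_nonneg _) ContinuousLinearMap.norm_id_le
      calc _ ≤ (3 * (‖z‖ ^ 2 * |Mom_G n c s 0 (3 / 2 + 1) (‖z‖ ^ 2)|) +
            |Mom_G n c s 0 (3 / 2) (‖z‖ ^ 2)|) * (1 + ‖z‖) ^ M :=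
            mul_le_mul_of_nonneg_right h5 (by positivity)
        _ = 3 * (‖z‖ ^ 2 * |Mom_G n c s 0 (3 / 2 + 1) (‖z‖ ^ 2)| * (1 + ‖z‖) ^ M) +
            |Mom_G n c s 0 (3 / 2) (‖z‖ ^ 2)| * (1 + ‖z‖) ^ M := by ring
        _ ≤ _ := by linarith

end Pool.Agent.Work.MP_440970_an

end

section

/-!
# Item CX10: the functional is negative on the class
-/

open MeasureTheory Complex Set Filter Topology
open scoped ENNReal ComplexConjugate

namespace Pool.Agent.Work.MP_440970_an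

/-- The radial majorant. -/
noncomputable def NegX_rad (p0 y : ℝ) : ℝ :=
  if 1 ≤ y then (y ^ 3)⁻¹ else ((y ^ 3)⁻¹) ^ p0

lemma NegX_rad_int {p0 : ℝ} (hp : 3 * p0 < 2) :
    Integrable (fun z : ℂ => NegX_rad p0 ‖z‖) := by
  rw [integrable_fun_norm_addHaar (volume : Measure ℂ), Complex.finrank_real_complex]
  have h1 : IntegrableOn (fun y : ℝ => y ^ (2 - 1) • NegX_rad p0 y) (Ioc 0 1) := by
    have h2 : IntegrableOn (fun y : ℝ => y ^ (1 - 3 * p0 : ℝ)) (Ioc 0 1) := by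
      rw [← intervalIntegrable_iff_integrableOn_Ioc_of_le zero_le_one]
      exact intervalIntegral.intervalIntegrable_rpow' (by linarith)
    refine IntegrableOn.congr_fun_ae h2 ?_
    have h3 : ∀ᵐ y : ℝ ∂(volume.restrict (Ioc (0 : ℝ) 1)), y ≠ 1 := by
      refine ae_restrict_of_ae ?_
      rw [ae_iff]
      simp
    filter_upwards [h3, ae_restrict_mem measurableSet_Ioc] with y hy1 hy
    unfold NegX_rad
    have h4 : ¬ (1 : ℝ) ≤ y := fun h => hy1 (le_antisymm hy.2 h)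
    rw [if_neg h4, smul_eq_mul]
    have h5 : y ^ (2 - 1) = y ^ (1 : ℝ) := by norm_num
    have h6 : (y ^ 3)⁻¹ = y ^ (-3 : ℝ) := by
      rw [Real.rpow_neg hy.1.le]
      norm_num
    rw [h5, h6, ← Real.rpow_mul hy.1.le, ← Real.rpow_add hy.1]
    congr 1
    ring
  have h2 : IntegrableOn (fun y : ℝ => y ^ (2 - 1) • NegX_rad p0 y) (Ioi 1) := by
    have h3 : IntegrableOn (fun y : ℝ => y ^ (-2 : ℝ)) (Ioi 1) :=
      integrableOn_Ioi_rpow_of_lt (by norm_num) one_pos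
    refine IntegrableOn.congr_fun h3 (fun y hy => ?_) measurableSet_Ioi
    have hy1 : (1 : ℝ) < y := hy
    have hy0 : (0 : ℝ) < y := by linarith
    unfold NegX_rad
    rw [if_pos hy1.le, smul_eq_mul]
    have h5 : y ^ (2 - 1) = y ^ (1 : ℝ) := by norm_num
    have h6 : (y ^ 3)⁻¹ = y ^ (-3 : ℝ) := by
      rw [Real.rpow_neg hy0.le]
      norm_num
    rw [h5, h6, ← Real.rpow_add hy0]
    norm_num
  have h3 := h1.union h2
  rwa [Ioc_union_Ioi_eq_Ioi zero_le_one] at h3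

lemma NegX_lim {p0 : ℝ} (g h : ℝ) {z : ℂ} (hz : z ≠ 0) :
    q2 p0 (1 + ((g : ℝ) : ℂ)) (z / ‖z‖ * ((h : ℝ) : ℂ)) = ((1 + g) ^ 2 + h ^ 2) ^ (p0 / 2) := by
  have hz0 : ‖z‖ ≠ 0 := norm_ne_zero_iff.2 hz
  unfold q2
  have e1 : (1 : ℂ) + ((g : ℝ) : ℂ) = ((1 + g : ℝ) : ℂ) := by push_cast; ring
  rw [e1, Complex.norm_real, norm_mul, norm_div, Complex.norm_real, Complex.norm_real,
    norm_norm, div_self hz0, one_mul, Real.norm_eq_abs, Real.norm_eq_abs, sq_abs, sq_abs]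

/-- the integral of the limit -/
lemma NegX_neg {β ν p0 : ℝ} (hJ : NumJ β ν p0) :
    ∫ z : ℂ, (AA β ν ‖z‖ ^ (p0 / 2) - 1) < 0 := by
  have h1 := integral_fun_norm_addHaar (volume : Measure ℂ)
    (fun r : ℝ => AA β ν r ^ (p0 / 2) - 1)
  rw [Complex.finrank_real_complex] at h1
  rw [h1]
  have h2 : ∫ y in Ioi (0 : ℝ), y ^ (2 - 1) • (AA β ν y ^ (p0 / 2) - 1) < 0 := by
    unfold NumJ at hJ
    refine lt_of_eq_of_lt ?_ hJ
    refine integral_congr_ae (Eventually.of_forall fun y => ?_)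
    simp only [smul_eq_mul]
    norm_num
    ring
  have h3 : 0 < (volume : Measure ℂ).real (Metric.ball (0 : ℂ) 1) := by
    rw [Measure.real, ENNReal.toReal_pos_iff]
    exact ⟨Metric.measure_ball_pos _ _ one_pos, measure_ball_lt_top⟩
  rw [smul_eq_mul, nsmul_eq_mul]
  have h4 : (0 : ℝ) < ((2 : ℕ) : ℝ) := by norm_num
  nlinarith [mul_pos h4 h3]

/-- continuity of the integrand -/
lemma NegX_meas {M : ℕ} {G : ℂ → ℂ × ℂ} (hG : InCl M G) {p : ℝ} (hp : 0 < p) :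
    Continuous fun z => q2 p (1 + (G z).1) (G z).2 - 1 := by
  obtain ⟨⟨A, h1, h2⟩, -, -⟩ := hG
  have c1 : Continuous fun z => (1 + (G z).1, (G z).2) :=
    (continuous_const.add h1.smooth.continuous).prodMk h2.smooth.continuous
  exact ((Neg_cont hp).comp c1).sub continuous_const

/-- integrability for the members of the class -/
lemma NegX_int {M : ℕ} (hM : 3 ≤ M) {G : ℂ → ℂ × ℂ} (hG : InCl M G) {q : ℝ} (hq : 0 < q)
    (hq1 : q < 1) : Integrable (fun z => q2 q (1 + (G z).1) (G z).2 - 1) := by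
  have hmeas := NegX_meas hG hq
  obtain ⟨⟨A, hA1, hA2⟩, -, -⟩ := hG
  have hA0 : 0 ≤ A := le_trans (by positivity) (hA1.bd 0)
  have hI : Integrable (fun z : ℂ => (2 * A + 2 * A ^ 2) * (1 + ‖z‖) ^ (-(3 : ℝ))) := by
    refine (integrable_one_add_norm (E := ℂ) (μ := volume) (r := 3) ?_).const_mul _
    rw [Complex.finrank_real_complex]; norm_num
  refine hI.mono' hmeas.aestronglyMeasurable (Eventually.of_forall fun z => ?_)
  rw [Real.norm_eq_abs]
  refine (Neg_small hq hq1 _ _).trans ?_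
  have hz1 : (1 : ℝ) ≤ 1 + ‖z‖ := by linarith [norm_nonneg z]
  have hdec : ∀ h : ℂ → ℂ, Nice M A h → ‖h z‖ ≤ A * (1 + ‖z‖) ^ (-(3 : ℝ)) := by
    intro h hh
    have h1 := hh.bd z
    have h2 : (1 + ‖z‖) ^ 3 ≤ (1 + ‖z‖) ^ M := pow_le_pow_right₀ hz1 hM
    have h3 : ‖h z‖ * (1 + ‖z‖) ^ 3 ≤ A :=
      (mul_le_mul_of_nonneg_left h2 (norm_nonneg _)).trans h1
    have h4 : (0 : ℝ) < (1 + ‖z‖) ^ 3 := by positivity
    rw [Real.rpow_neg (by linarith), show (3 : ℝ) = ((3 : ℕ) : ℝ) by norm_num,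
      Real.rpow_natCast, ← div_eq_mul_inv, le_div_iff₀ h4]
    exact h3
  have b1 := hdec _ hA1
  have b2 := hdec _ hA2
  have hr0 : 0 ≤ (1 + ‖z‖) ^ (-(3 : ℝ)) := Real.rpow_nonneg (by linarith) _
  have hr1 : (1 + ‖z‖) ^ (-(3 : ℝ)) ≤ 1 :=
    Real.rpow_le_one_of_one_le_of_nonpos hz1 (by norm_num)
  set r := (1 + ‖z‖) ^ (-(3 : ℝ)) with hr
  have h4 : ‖(G z).1‖ ^ 2 ≤ (A * r) ^ 2 := pow_le_pow_left₀ (norm_nonneg _) b1 2
  have h5 : ‖(G z).2‖ ^ 2 ≤ (A * r) ^ 2 := pow_le_pow_left₀ (norm_nonneg _) b2 2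
  have h6 : (A * r) ^ 2 ≤ A ^ 2 * r := by
    have : r * r ≤ r := mul_le_of_le_one_left hr0 hr1
    nlinarith [mul_le_mul_of_nonneg_left this (sq_nonneg A)]
  nlinarith

/-- Item CX10. -/
theorem claimNegX (hMem : ClaimMem) (hV : ClaimVdm) (hM : ClaimApM) (hB : ClaimApB)
    (hL : ClaimApL) (hQ : ClaimQ2) : ClaimNegX := by
  intro β ν p0 hp0 hp32 hJ M p hM3 hp hpp0
  obtain ⟨v, hv⟩ := hV M
  obtain ⟨C, hC, hbdC⟩ := hB β ν M v hM3 hv
  have hp01 : p0 < 1 := by linarith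
  set G : ℕ → ℂ → ℂ × ℂ := fun n => Fs (3 + M) (cn β ν v M (n + 1)) (sn (n + 1)) with hGdef
  have hG : ∀ n, InCl M (G n) := by
    intro n
    obtain ⟨h1, h2⟩ := hM β ν M v (by omega) hv (n + 1) (by omega)
    exact hMem M (3 + M) _ _ hM3 (fun i _ => h1 i) h2
  set F : ℕ → ℂ → ℝ := fun n z => q2 p0 (1 + (G n z).1) (G n z).2 - 1 with hF
  have hbd : ∀ n, ∀ z : ℂ, z ≠ 0 →
      ‖F n z‖ ≤ (2 * C + 2 * C ^ 2 + 2 * C ^ p0) * NegX_rad p0 ‖z‖ := by
    intro n z hz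
    obtain ⟨h1, h2⟩ := hbdC (n + 1) z (by omega) hz
    have hz0 : 0 < ‖z‖ := norm_pos_iff.2 hz
    have hr0 : 0 ≤ (‖z‖ ^ 3)⁻¹ := by positivity
    have hCp : 0 ≤ C ^ p0 := Real.rpow_nonneg hC.le _
    rw [Real.norm_eq_abs]
    unfold NegX_rad
    by_cases h : 1 ≤ ‖z‖
    · rw [if_pos h]
      have h3 : |F n z| ≤ 2 * ‖(G n z).1‖ + ‖(G n z).1‖ ^ 2 + ‖(G n z).2‖ ^ 2 :=
        Neg_small hp0 hp01 _ _
      have hr1 : (‖z‖ ^ 3)⁻¹ ≤ 1 := inv_le_one_of_one_le₀ (one_le_pow₀ h)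
      set r := (‖z‖ ^ 3)⁻¹ with hr
      have h4 : ‖(G n z).1‖ ^ 2 ≤ (C * r) ^ 2 := pow_le_pow_left₀ (norm_nonneg _) h1 2
      have h5 : ‖(G n z).2‖ ^ 2 ≤ (C * r) ^ 2 := pow_le_pow_left₀ (norm_nonneg _) h2 2
      have h6 : (C * r) ^ 2 ≤ C ^ 2 * r := by
        have : r * r ≤ r := mul_le_of_le_one_left hr0 hr1
        nlinarith [mul_le_mul_of_nonneg_left this (sq_nonneg C)]
      have h7 : ‖(G n z).1‖ ≤ C * r := h1
      nlinarith [mul_nonneg hCp hr0]
    · rw [if_neg h]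
      have h3 : |F n z| ≤ ‖(G n z).1‖ ^ p0 + ‖(G n z).2‖ ^ p0 :=
        Neg_big hQ hp0 hp01 _ _
      have h4 : ‖(G n z).1‖ ^ p0 ≤ (C * (‖z‖ ^ 3)⁻¹) ^ p0 :=
        Real.rpow_le_rpow (norm_nonneg _) h1 hp0.le
      have h5 : ‖(G n z).2‖ ^ p0 ≤ (C * (‖z‖ ^ 3)⁻¹) ^ p0 :=
        Real.rpow_le_rpow (norm_nonneg _) h2 hp0.le
      rw [Real.mul_rpow hC.le hr0] at h4 h5
      have h7 : 0 ≤ ((‖z‖ ^ 3)⁻¹) ^ p0 := Real.rpow_nonneg hr0 _
      nlinarith [mul_nonneg hC.le h7, mul_nonneg (sq_nonneg C) h7]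
  have hae : ∀ᵐ z : ℂ, z ≠ 0 := by
    rw [ae_iff]
    simp
  have hlim := tendsto_integral_of_dominated_convergence (μ := (volume : Measure ℂ)) (F := F)
    (f := fun z : ℂ => AA β ν ‖z‖ ^ (p0 / 2) - 1)
    (fun z => (2 * C + 2 * C ^ 2 + 2 * C ^ p0) * NegX_rad p0 ‖z‖)
    (fun n => (NegX_meas (hG n) hp0).aestronglyMeasurable) ((NegX_rad_int hp32).const_mul _)
    (fun n => by filter_upwards [hae] with z hz; exact hbd n z hz)
    (by
      filter_upwards [hae] with z hz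
      obtain ⟨h2, h3⟩ := hL β ν M v (by omega) z hz
      have h2' := (tendsto_add_atTop_iff_nat 1).2 h2
      have h3' := (tendsto_add_atTop_iff_nat 1).2 h3
      have h4 : Tendsto (fun n => ((1 : ℂ) + (G n z).1, (G n z).2)) atTop
          (𝓝 (1 + ((g0 β ν ‖z‖ : ℝ) : ℂ), z / ‖z‖ * ((h0 ν ‖z‖ : ℝ) : ℂ))) :=
        (tendsto_const_nhds.add h2').prodMk_nhds h3'
      have h5 := ((Neg_cont hp0).tendsto _).comp h4
      have h7 : Tendsto (fun n => F n z) atTop (𝓝 (q2 p0 (1 + ((g0 β ν ‖z‖ : ℝ) : ℂ))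
          (z / ‖z‖ * ((h0 ν ‖z‖ : ℝ) : ℂ)) - 1)) := h5.sub tendsto_const_nhds
      rw [NegX_lim _ _ hz] at h7
      exact h7)
  have hneg := NegX_neg hJ
  obtain ⟨n, hn⟩ := ((hlim.eventually (gt_mem_nhds hneg))).exists
  refine ⟨G n, hG n, ?_⟩
  -- smaller exponents
  set κ := p / p0 with hκ
  have hκ0 : 0 < κ := by positivity
  have hκ1 : κ ≤ 1 := by rw [hκ, div_le_one hp0]; exact hpp0
  have hle : ∀ z, q2 p (1 + (G n z).1) (G n z).2 - 1 ≤ κ * F n z := by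
    intro z
    have e1 : q2 p (1 + (G n z).1) (G n z).2 =
        (q2 p0 (1 + (G n z).1) (G n z).2) ^ κ := by
      unfold q2
      rw [← Real.rpow_mul (by positivity)]
      congr 1
      rw [hκ]
      field_simp
    have e2 : 0 ≤ q2 p0 (1 + (G n z).1) (G n z).2 := (hQ _ hp0 hp01).1 _ _
    rw [e1, hF]
    dsimp only
    set x := q2 p0 (1 + (G n z).1) (G n z).2 with hx
    have h3 := rpow_one_add_le_one_add_mul_self (s := x - 1) (by linarith) hκ0.le hκ1
    have e3 : 1 + (x - 1) = x := by ring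
    rw [e3] at h3
    linarith
  have hp1 : p < 1 := by linarith
  calc JJ p (G n) = ∫ z, (q2 p (1 + (G n z).1) (G n z).2 - 1) := rfl
    _ ≤ ∫ z, κ * F n z := integral_mono (NegX_int hM3 (hG n) hp hp1)
        ((NegX_int hM3 (hG n) hp0 hp01).const_mul κ) hle
    _ = κ * ∫ z, F n z := integral_const_mul _ _
    _ < 0 := mul_neg_of_pos_of_neg hκ0 hn

end Pool.Agent.Work.MP_440970_an

end

section

/-!
# Block CX: the primitive (item CX11)
-/

open MeasureTheory Complex Set Filter Topology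
open scoped ENNReal ComplexConjugate

namespace Pool.Agent.Work.MP_440970_an

lemma Prim_c (r : ℝ) : HasDerivAt (fun x : ℝ => Real.sqrt (1 + x ^ 2))
    (r / Real.sqrt (1 + r ^ 2)) r := by
  have h1 : HasDerivAt (fun x : ℝ => 1 + x ^ 2) (2 * r) r := by
    have h := (hasDerivAt_pow 2 r).const_add 1
    simpa using h
  have h2 := h1.sqrt (by positivity)
  convert h2 using 1
  field_simp

lemma Prim_alg (r c : ℝ) (hr : 0 < r) (hc : 0 < c) (h : c ^ 2 = 1 + r ^ 2) :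
    ((1 + (-(1 / 3 / r ^ 3) - 9 / 10 / c ^ 3)) ^ 2 + (9 / 10 * (1 / r ^ 2 - r / c ^ 3)) ^ 2) * r =
      r - 2 / 3 / r ^ 2 - 9 / 5 * r / c ^ 3 + 1 / 9 / r ^ 5 + 3 / 5 / (r ^ 2 * c ^ 3) +
        81 / 100 * (r / c ^ 4 + 1 / r ^ 3 - 2 / c ^ 3) := by
  have h1 : r / c ^ 4 = (r + r ^ 3) / c ^ 6 := by
    have h2 : r + r ^ 3 = r * c ^ 2 := by rw [h]; ring
    rw [h2]
    field_simp
  rw [h1]
  field_simp
  ring

theorem claimPrim : ClaimPrim := by
  intro r hr
  have hr0 : r ≠ 0 := hr.ne'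
  set c := Real.sqrt (1 + r ^ 2) with hcdef
  have hc : 0 < c := Real.sqrt_pos.mpr (by positivity)
  have hc0 : c ≠ 0 := hc.ne'
  have hc2 : c ^ 2 = 1 + r ^ 2 := Real.sq_sqrt (by positivity)
  have hcd : HasDerivAt (fun x : ℝ => Real.sqrt (1 + x ^ 2)) (r / c) r := Prim_c r
  have hid : HasDerivAt (fun x : ℝ => x) 1 r := hasDerivAt_id r
  have hp2 : HasDerivAt (fun x : ℝ => x ^ 2) (2 * r) r := by
    simpa using hasDerivAt_pow 2 r
  have hp4 : HasDerivAt (fun x : ℝ => x ^ 4) (4 * r ^ 3) r := by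
    simpa using hasDerivAt_pow 4 r
  have d1 : HasDerivAt (fun x : ℝ => x ^ 2 / 2) r r := by
    refine HasDerivAt.congr_deriv (hp2.div_const 2) ?_
    ring
  have d2 : HasDerivAt (fun x : ℝ => 2 / (3 * x)) (-(2 / 3 / r ^ 2)) r := by
    refine HasDerivAt.congr_deriv ((hasDerivAt_const r (2 : ℝ)).div (hid.const_mul 3) (by positivity)) ?_
    field_simp
    ring
  have d3 : HasDerivAt (fun x : ℝ => 9 / (5 * Real.sqrt (1 + x ^ 2))) (-(9 / 5 * r / c ^ 3)) r := by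
    refine HasDerivAt.congr_deriv ((hasDerivAt_const r (9 : ℝ)).div (hcd.const_mul 5) (by positivity)) ?_
    rw [← hcdef]
    field_simp
    ring
  have d4 : HasDerivAt (fun x : ℝ => 1 / (36 * x ^ 4)) (-(1 / 9 / r ^ 5)) r := by
    refine HasDerivAt.congr_deriv ((hasDerivAt_const r (1 : ℝ)).div (hp4.const_mul 36) (by positivity)) ?_
    field_simp
    ring
  have d5 : HasDerivAt (fun x : ℝ => 3 * (1 + 2 * x ^ 2) / (5 * x * Real.sqrt (1 + x ^ 2)))
      (-(3 / 5 / (r ^ 2 * c ^ 3))) r := by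
    refine HasDerivAt.congr_deriv ((((hp2.const_mul 2).const_add 1).const_mul 3).div ((hid.const_mul 5).mul hcd)
      (by positivity)) ?_
    rw [← hcdef]
    field_simp
    have h4 : c ^ 4 = (1 + r ^ 2) ^ 2 := by rw [← hc2]; ring
    ring_nf
    rw [show c ^ 2 = 1 + r ^ 2 from hc2]
    ring
  have d6 : HasDerivAt (fun x : ℝ => 81 / (200 * (1 + x ^ 2))) (-(81 / 100 * r / c ^ 4)) r := by
    refine HasDerivAt.congr_deriv ((hasDerivAt_const r (81 : ℝ)).div ((hp2.const_add 1).const_mul 200)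
      (by positivity)) ?_
    rw [← hc2]
    field_simp
    ring
  have d7 : HasDerivAt (fun x : ℝ => 81 / (200 * x ^ 2)) (-(81 / 100 / r ^ 3)) r := by
    refine HasDerivAt.congr_deriv ((hasDerivAt_const r (81 : ℝ)).div (hp2.const_mul 200) (by positivity)) ?_
    field_simp
    ring
  have d8 : HasDerivAt (fun x : ℝ => 81 * x / (50 * Real.sqrt (1 + x ^ 2)))
      (81 / 50 / c ^ 3) r := by
    refine HasDerivAt.congr_deriv ((hid.const_mul 81).div (hcd.const_mul 50) (by positivity)) ?_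
    rw [← hcdef]
    field_simp
    rw [hc2]
    ring
  have h := ((((((d1.add d2).add d3).sub d4).sub d5).sub d6).sub d7).sub d8
  have hA : AA (1 / 3) (9 / 10) r * r =
      r + -(2 / 3 / r ^ 2) + -(9 / 5 * r / c ^ 3) - -(1 / 9 / r ^ 5) - -(3 / 5 / (r ^ 2 * c ^ 3)) -
        -(81 / 100 * r / c ^ 4) - -(81 / 100 / r ^ 3) - 81 / 50 / c ^ 3 := by
    have h1 := Prim_alg r c hr hc hc2
    unfold AA g0 h0
    rw [← hcdef, h1]
    ring
  rw [hA]
  exact h

end Pool.Agent.Work.MP_440970_an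

end

section

/-!
# The neighbourhood of infinity
-/

open MeasureTheory Complex Set Filter Topology
open scoped ENNReal ComplexConjugate

namespace Pool.Agent.Work.MP_440970_an

theorem TailN_nonneg (r : ℝ) : 0 ≤ AA (1 / 3) (9 / 10) r := by
  unfold AA
  positivity

theorem TailN_bern {A : ℝ} (hA : 0 ≤ A) : A ^ (13 / 70 : ℝ) - 1 ≤ 13 / 70 * (A - 1) := by
  have h := rpow_one_add_le_one_add_mul_self (s := A - 1) (by linarith) (p := 13 / 70)
    (by norm_num) (by norm_num)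
  have e : 1 + (A - 1) = A := by ring
  rw [e] at h
  linarith

theorem TailN_sqrt {r : ℝ} (hr : 0 < r) : r ^ 3 ≤ Real.sqrt (1 + r ^ 2) ^ 3 := by
  refine pow_le_pow_left₀ hr.le ?_ 3
  exact Real.le_sqrt_of_sq_le (by linarith)

theorem TailN_g {r : ℝ} (hr : 0 < r) : |g0 (1 / 3) (9 / 10) r| ≤ 37 / 30 / r ^ 3 := by
  have h3 : 0 < r ^ 3 := by positivity
  have h1 : 9 / 10 / Real.sqrt (1 + r ^ 2) ^ 3 ≤ 9 / 10 / r ^ 3 :=
    div_le_div_of_nonneg_left (by norm_num) h3 (TailN_sqrt hr)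
  have h2 : 0 ≤ 9 / 10 / Real.sqrt (1 + r ^ 2) ^ 3 := by positivity
  have h4 : 0 ≤ 1 / 3 / r ^ 3 := by positivity
  have h5 : (37 / 30 : ℝ) / r ^ 3 = 1 / 3 / r ^ 3 + 9 / 10 / r ^ 3 := by ring
  unfold g0
  rw [abs_le]
  constructor <;> linarith

theorem TailN_h {r : ℝ} (hr : 0 < r) : |h0 (9 / 10) r| ≤ 9 / 10 / r ^ 2 := by
  have h3 : 0 < r ^ 3 := by positivity
  have h1 : r / Real.sqrt (1 + r ^ 2) ^ 3 ≤ 1 / r ^ 2 := by
    have : r / Real.sqrt (1 + r ^ 2) ^ 3 ≤ r / r ^ 3 :=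
      div_le_div_of_nonneg_left hr.le h3 (TailN_sqrt hr)
    refine this.trans (le_of_eq ?_)
    field_simp
  have h2 : 0 ≤ r / Real.sqrt (1 + r ^ 2) ^ 3 := by positivity
  have h5 : (9 / 10 : ℝ) / r ^ 2 = 9 / 10 * (1 / r ^ 2) := by ring
  unfold h0
  rw [abs_of_nonneg (mul_nonneg (by norm_num) (by linarith)), h5]
  refine mul_le_mul_of_nonneg_left ?_ (by norm_num)
  linarith

theorem TailN_cont : ContinuousOn (fun r => (AA (1 / 3) (9 / 10) r - 1) * r) (Ioi 0) := by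
  have hs : Continuous fun r : ℝ => Real.sqrt (1 + r ^ 2) ^ 3 := by fun_prop
  have hs0 : ∀ r : ℝ, Real.sqrt (1 + r ^ 2) ^ 3 ≠ 0 := fun r =>
    pow_ne_zero _ (Real.sqrt_pos.2 (by positivity)).ne'
  have hg : ContinuousOn (fun r => g0 (1 / 3) (9 / 10) r) (Ioi 0) := by
    unfold g0
    refine ContinuousOn.sub (ContinuousOn.neg (ContinuousOn.div continuousOn_const
      (by fun_prop) fun r hr => pow_ne_zero _ (ne_of_gt hr))) ?_
    exact ContinuousOn.div continuousOn_const hs.continuousOn fun r _ => hs0 r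
  have hh : ContinuousOn (fun r => h0 (9 / 10) r) (Ioi 0) := by
    unfold h0
    refine ContinuousOn.mul continuousOn_const (ContinuousOn.sub (ContinuousOn.div continuousOn_const
      (by fun_prop) fun r hr => pow_ne_zero _ (ne_of_gt hr)) ?_)
    exact ContinuousOn.div continuousOn_id hs.continuousOn fun r _ => hs0 r
  unfold AA
  exact ((((continuousOn_const.add hg).pow 2).add (hh.pow 2)).sub continuousOn_const).mul
    continuousOn_id

theorem TailN_int {R : ℝ} (hR : 0 < R) :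
    IntegrableOn (fun r => (AA (1 / 3) (9 / 10) r - 1) * r) (Ioi R) := by
  set K : ℝ := 37 / 15 + (37 / 30) ^ 2 / R ^ 3 + 81 / 100 / R with hK
  have h1 : IntegrableOn (fun r : ℝ => K * r ^ (-2 : ℝ)) (Ioi R) :=
    (integrableOn_Ioi_rpow_of_lt (by norm_num) hR).const_mul K
  refine Integrable.mono' h1 ?_ ?_
  · exact (TailN_cont.mono (Ioi_subset_Ioi hR.le)).aestronglyMeasurable measurableSet_Ioi
  · refine (ae_restrict_iff' measurableSet_Ioi).2 (Eventually.of_forall fun r hr => ?_)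
    have hrR : R < r := hr
    have hr0 : 0 < r := hR.trans hrR
    have e1 : (AA (1 / 3) (9 / 10) r - 1) * r = (2 * g0 (1 / 3) (9 / 10) r +
        g0 (1 / 3) (9 / 10) r ^ 2 + h0 (9 / 10) r ^ 2) * r := by
      unfold AA
      ring
    have hg := TailN_g hr0
    have hh := TailN_h hr0
    have hg2 : g0 (1 / 3) (9 / 10) r ^ 2 ≤ (37 / 30 / r ^ 3) ^ 2 := by
      rw [← sq_abs]
      exact pow_le_pow_left₀ (abs_nonneg _) hg 2
    have hh2 : h0 (9 / 10) r ^ 2 ≤ (9 / 10 / r ^ 2) ^ 2 := by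
      rw [← sq_abs]
      exact pow_le_pow_left₀ (abs_nonneg _) hh 2
    rw [e1, Real.norm_eq_abs, abs_mul, abs_of_pos hr0]
    have e2 : |2 * g0 (1 / 3) (9 / 10) r + g0 (1 / 3) (9 / 10) r ^ 2 + h0 (9 / 10) r ^ 2| ≤
        2 * (37 / 30 / r ^ 3) + (37 / 30 / r ^ 3) ^ 2 + (9 / 10 / r ^ 2) ^ 2 := by
      rw [abs_le] at hg ⊢
      have q1 := sq_nonneg (g0 (1 / 3) (9 / 10) r)
      have q2 := sq_nonneg (h0 (9 / 10) r)
      have q3 := sq_nonneg (37 / 30 / r ^ 3 : ℝ)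
      have q4 := sq_nonneg (9 / 10 / r ^ 2 : ℝ)
      constructor <;> linarith [hg.1, hg.2]
    refine (mul_le_mul_of_nonneg_right e2 hr0.le).trans ?_
    have e3 : (r : ℝ) ^ (-2 : ℝ) = 1 / r ^ 2 := by
      rw [Real.rpow_neg hr0.le, one_div]
      norm_num
    rw [e3]
    have e4 : (2 * (37 / 30 / r ^ 3) + (37 / 30 / r ^ 3) ^ 2 + (9 / 10 / r ^ 2) ^ 2) * r =
        37 / 15 * (1 / r ^ 2) + (37 / 30) ^ 2 / r ^ 3 * (1 / r ^ 2) +
          81 / 100 / r * (1 / r ^ 2) := by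
      field_simp
      ring
    have e5 : (37 / 30 : ℝ) ^ 2 / r ^ 3 ≤ (37 / 30) ^ 2 / R ^ 3 :=
      div_le_div_of_nonneg_left (by positivity) (by positivity)
        (pow_le_pow_left₀ hR.le hrR.le 3)
    have e6 : (81 / 100 : ℝ) / r ≤ 81 / 100 / R :=
      div_le_div_of_nonneg_left (by positivity) hR hrR.le
    have e7 : (0 : ℝ) ≤ 1 / r ^ 2 := by positivity
    rw [e4, hK]
    nlinarith [mul_le_mul_of_nonneg_right e5 e7, mul_le_mul_of_nonneg_right e6 e7]

/-- the primitive minus `r ^ 2 / 2` in the variable `1 / r` -/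
noncomputable def TailN_Q (x : ℝ) : ℝ :=
  2 * x / 3 + 9 * x / (5 * Real.sqrt (1 + x ^ 2)) - x ^ 4 / 36
    - 3 * (x ^ 2 + 2) / (5 * Real.sqrt (1 + x ^ 2)) - 81 * x ^ 2 / (200 * (1 + x ^ 2))
    - 81 * x ^ 2 / 200 - 81 / (50 * Real.sqrt (1 + x ^ 2))

theorem TailN_Qcont : Continuous TailN_Q := by
  have hs : Continuous fun x : ℝ => Real.sqrt (1 + x ^ 2) := by fun_prop
  have hs0 : ∀ x : ℝ, Real.sqrt (1 + x ^ 2) ≠ 0 := fun x =>
    (Real.sqrt_pos.2 (by positivity)).ne'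
  have hp : ∀ x : ℝ, 1 + x ^ 2 ≠ 0 := fun x => by positivity
  unfold TailN_Q
  refine (((((Continuous.add (by fun_prop) ?_).sub (by fun_prop)).sub ?_).sub ?_).sub
    (by fun_prop)).sub ?_
  · exact (by fun_prop : Continuous fun x : ℝ => 9 * x).div (hs.const_mul 5 |>.congr fun x => rfl)
      fun x => mul_ne_zero (by norm_num) (hs0 x)
  · exact (by fun_prop : Continuous fun x : ℝ => 3 * (x ^ 2 + 2)).div
      (hs.const_mul 5 |>.congr fun x => rfl) fun x => mul_ne_zero (by norm_num) (hs0 x)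
  · exact (by fun_prop : Continuous fun x : ℝ => 81 * x ^ 2).div
      (by fun_prop) fun x => mul_ne_zero (by norm_num) (hp x)
  · exact continuous_const.div (hs.const_mul 50 |>.congr fun x => rfl)
      fun x => mul_ne_zero (by norm_num) (hs0 x)

theorem TailN_eq {r : ℝ} (hr : 0 < r) : Pr r - r ^ 2 / 2 = TailN_Q r⁻¹ := by
  have hs : Real.sqrt (1 + r ^ 2) = r * Real.sqrt (1 + r⁻¹ ^ 2) := by
    rw [← Real.sqrt_sq hr.le, ← Real.sqrt_mul (by positivity), Real.sqrt_sq hr.le]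
    congr 1
    field_simp
    ring
  have hs0 : Real.sqrt (1 + r⁻¹ ^ 2) ≠ 0 := (Real.sqrt_pos.2 (by positivity)).ne'
  have hp : 1 + r ^ 2 ≠ 0 := by positivity
  unfold Pr TailN_Q
  rw [hs]
  generalize Real.sqrt (1 + r⁻¹ ^ 2) = s at hs0
  have hr0 := hr.ne'
  field_simp
  ring

theorem TailN_lim : Tendsto (fun r => Pr r - r ^ 2 / 2) atTop (𝓝 (-(141 / 50))) := by
  have h0 : TailN_Q 0 = -(141 / 50) := by
    unfold TailN_Q
    simp
    norm_num
  have h1 : Tendsto (fun r : ℝ => TailN_Q r⁻¹) atTop (𝓝 (TailN_Q 0)) :=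
    (TailN_Qcont.tendsto 0).comp tendsto_inv_atTop_zero
  rw [h0] at h1
  refine h1.congr' ?_
  filter_upwards [eventually_gt_atTop 0] with r hr
  exact (TailN_eq hr).symm

theorem claimTailN (hP : ClaimPrim) (hI : ClaimIntN) : ClaimTailN := by
  intro R hR
  have hd : ∀ r, 0 < r → HasDerivAt (fun r => Pr r - r ^ 2 / 2)
      ((AA (1 / 3) (9 / 10) r - 1) * r) r := by
    intro r hr
    have h1 := hP r hr
    have h2 : HasDerivAt (fun r : ℝ => r ^ 2 / 2) r r := by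
      have := ((hasDerivAt_id r).pow 2).div_const 2
      refine this.congr_deriv ?_
      simp
    refine (h1.sub h2).congr_deriv ?_
    ring
  have h1 : ∫ r in Ioi R, (AA (1 / 3) (9 / 10) r - 1) * r = -(141 / 50) - (Pr R - R ^ 2 / 2) :=
    integral_Ioi_of_hasDerivAt_of_tendsto (hd R hR).continuousAt.continuousWithinAt
      (fun r hr => hd r (hR.trans hr)) (TailN_int hR) TailN_lim
  have h2 : ∫ r in Ioi R, fN r ≤ ∫ r in Ioi R, 13 / 70 * ((AA (1 / 3) (9 / 10) r - 1) * r) := by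
    refine setIntegral_mono_on (hI.mono_set (Ioi_subset_Ioi hR.le)) ((TailN_int hR).const_mul _)
      measurableSet_Ioi fun r hr => ?_
    have hr0 : 0 < r := hR.trans hr
    unfold fN
    have := mul_le_mul_of_nonneg_right (TailN_bern (TailN_nonneg r)) hr0.le
    linarith
  rw [integral_const_mul, h1] at h2
  linarith

end Pool.Agent.Work.MP_440970_an

end

section

/-!
# CX2: far field of charges with vanishing moments
-/

open MeasureTheory Complex Set Filter Topology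
open scoped ENNReal ComplexConjugate ContDiff

namespace Pool.Agent.Work.MP_440970_an

/-- Taylor expansion at `0` -/
theorem Tay_poly (f : ℝ → ℝ) (hf : ContDiff ℝ ∞ f) (M : ℕ) (hM : 1 ≤ M) (S : ℝ) (hS : 0 < S) :
    ∃ (a : ℕ → ℝ) (C : ℝ), 0 ≤ C ∧ ∀ x ∈ Icc (0 : ℝ) S,
      |f x - ∑ k ∈ Finset.range M, a k * x ^ k| ≤ C * x ^ M := by
  obtain ⟨n, rfl⟩ : ∃ n, M = n + 1 := ⟨M - 1, by omega⟩
  have hf' : ContDiffOn ℝ (n + 1) f (Icc 0 S) := by
    refine (hf.of_le ?_).contDiffOn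
    exact_mod_cast le_top
  obtain ⟨C, hC⟩ := exists_taylor_mean_remainder_bound hS.le hf'
  refine ⟨fun k => (k.factorial : ℝ)⁻¹ * iteratedDerivWithin k f (Icc 0 S) 0, |C|, abs_nonneg C,
    fun x hx => ?_⟩
  have h := hC x hx
  rw [taylor_within_apply, sub_zero, Real.norm_eq_abs] at h
  have h2 : ∑ k ∈ Finset.range (n + 1), ((k.factorial : ℝ)⁻¹ * x ^ k) •
      iteratedDerivWithin k f (Icc 0 S) 0 = ∑ k ∈ Finset.range (n + 1),
        (k.factorial : ℝ)⁻¹ * iteratedDerivWithin k f (Icc 0 S) 0 * x ^ k := by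
    refine Finset.sum_congr rfl fun k _ => ?_
    rw [smul_eq_mul]
    ring
  rw [h2] at h
  refine h.trans ?_
  exact mul_le_mul_of_nonneg_right (le_abs_self C) (pow_nonneg hx.1 _)

/-- sums with vanishing moments -/
theorem Tay_sum (f : ℝ → ℝ) (hf : ContDiff ℝ ∞ f) (M : ℕ) (hM : 1 ≤ M) (S : ℝ) (hS : 0 < S) :
    ∃ C : ℝ, 0 ≤ C ∧ ∀ (n : ℕ) (c x : ℕ → ℝ), (∀ i < n, x i ∈ Icc (0 : ℝ) S) → Mom0 M n c x →
      |∑ i ∈ Finset.range n, c i * f (x i)| ≤ C * ∑ i ∈ Finset.range n, |c i| * x i ^ M := by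
  obtain ⟨a, C, hC0, hC⟩ := Tay_poly f hf M hM S hS
  refine ⟨C, hC0, fun n c x hx hm => ?_⟩
  have h1 : ∑ i ∈ Finset.range n, c i * ∑ k ∈ Finset.range M, a k * x i ^ k = 0 := by
    have h2 : ∑ i ∈ Finset.range n, c i * ∑ k ∈ Finset.range M, a k * x i ^ k =
        ∑ k ∈ Finset.range M, a k * ∑ i ∈ Finset.range n, c i * x i ^ k := by
      simp only [Finset.mul_sum]
      rw [Finset.sum_comm]
      refine Finset.sum_congr rfl fun k _ => Finset.sum_congr rfl fun i _ => ?_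
      ring
    rw [h2]
    refine Finset.sum_eq_zero fun k hk => ?_
    rw [hm k (Finset.mem_range.1 hk), mul_zero]
  have h3 : ∑ i ∈ Finset.range n, c i * f (x i) =
      ∑ i ∈ Finset.range n, c i * (f (x i) - ∑ k ∈ Finset.range M, a k * x i ^ k) := by
    simp only [mul_sub, Finset.sum_sub_distrib]
    rw [h1, sub_zero]
  rw [h3, Finset.mul_sum]
  refine (Finset.abs_sum_le_sum_abs _ _).trans (Finset.sum_le_sum fun i hi => ?_)
  rw [abs_mul]
  calc |c i| * |f (x i) - ∑ k ∈ Finset.range M, a k * x i ^ k| ≤ |c i| * (C * x i ^ M) :=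
        mul_le_mul_of_nonneg_left (hC _ (hx i (Finset.mem_range.1 hi))) (abs_nonneg _)
    _ = C * (|c i| * x i ^ M) := by ring

theorem Tay_smooth (e : ℕ) : ContDiff ℝ ∞ (fun x : ℝ => x ^ e * (1 + x ^ 2) ^ (-(3 / 2) : ℝ)) := by
  refine (contDiff_id.pow e).mul ?_
  refine ContDiff.rpow_const_of_ne (contDiff_const.add (contDiff_id.pow 2)) fun x => ?_
  have : 0 < 1 + x ^ 2 := by positivity
  exact this.ne'

theorem Tay_scale (s r : ℝ) (hr : 0 < r) :
    (s ^ 2 + r ^ 2) ^ (-(3 / 2) : ℝ) = (r ^ 3)⁻¹ * (1 + (s / r) ^ 2) ^ (-(3 / 2) : ℝ) := by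
  have h1 : s ^ 2 + r ^ 2 = r ^ 2 * (1 + (s / r) ^ 2) := by
    field_simp
    ring
  rw [h1, Real.mul_rpow (by positivity) (by positivity)]
  congr 1
  rw [← Real.rpow_natCast r 2, ← Real.rpow_mul hr.le, ← Real.rpow_natCast r 3,
    ← Real.rpow_neg hr.le]
  congr 1
  push_cast
  ring

/-- [CX2] -/
theorem claimTay : ClaimTay := by
  intro M S hM hS
  obtain ⟨C1, hC1, h1⟩ := Tay_sum _ (Tay_smooth 1) M hM S hS
  obtain ⟨C0, hC0, h0⟩ := Tay_sum _ (Tay_smooth 0) M hM S hS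
  refine ⟨C1 + C0 + 1, by linarith, fun n c s z hz hs hm => ?_⟩
  have hr : 0 < ‖z‖ := norm_pos_iff.2 hz
  have hx : ∀ i < n, s i / ‖z‖ ∈ Icc (0 : ℝ) S := fun i hi =>
    ⟨div_nonneg (hs i hi).1.le hr.le, (div_le_iff₀ hr).2 (hs i hi).2⟩
  have hm' : Mom0 M n c (fun i => s i / ‖z‖) := by
    intro k hk
    have h2 : ∑ i ∈ Finset.range n, c i * (s i / ‖z‖) ^ k =
        (‖z‖ ^ k)⁻¹ * ∑ i ∈ Finset.range n, c i * s i ^ k := by
      rw [Finset.mul_sum]
      refine Finset.sum_congr rfl fun i _ => ?_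
      rw [div_pow]
      ring
    show ∑ i ∈ Finset.range n, c i * (s i / ‖z‖) ^ k = 0
    rw [h2, hm k hk, mul_zero]
  have hP : 0 ≤ ∑ i ∈ Finset.range n, |c i| * (s i / ‖z‖) ^ M :=
    Finset.sum_nonneg fun i hi => mul_nonneg (abs_nonneg _)
      (pow_nonneg (hx i (Finset.mem_range.1 hi)).1 _)
  have e1 := h1 n c _ hx hm'
  have e0 := h0 n c _ hx hm'
  have hr2 : 0 ≤ (‖z‖ ^ 2)⁻¹ := by positivity
  constructor
  · have h3 : (Fs n c s z).1 = (((‖z‖ ^ 2)⁻¹ * ∑ i ∈ Finset.range n,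
        c i * ((s i / ‖z‖) ^ 1 * (1 + (s i / ‖z‖) ^ 2) ^ (-(3 / 2) : ℝ)) : ℝ) : ℂ) := by
      rw [Finset.mul_sum, ofReal_sum]
      show ∑ i ∈ Finset.range n, (c i : ℂ) * Pool.Agent.Work.MP_440970_an.hs (s i) z = _
      refine Finset.sum_congr rfl fun i _ => ?_
      unfold Pool.Agent.Work.MP_440970_an.hs
      rw [Tay_scale (s i) ‖z‖ hr, ← ofReal_mul]
      congr 1
      rw [pow_one]
      field_simp
    rw [h3, Complex.norm_real, Real.norm_eq_abs, abs_mul, abs_of_nonneg hr2]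
    calc (‖z‖ ^ 2)⁻¹ * |∑ i ∈ Finset.range n,
          c i * ((s i / ‖z‖) ^ 1 * (1 + (s i / ‖z‖) ^ 2) ^ (-(3 / 2) : ℝ))| ≤
          (‖z‖ ^ 2)⁻¹ * (C1 * ∑ i ∈ Finset.range n, |c i| * (s i / ‖z‖) ^ M) :=
          mul_le_mul_of_nonneg_left e1 hr2
      _ ≤ (‖z‖ ^ 2)⁻¹ * ((C1 + C0 + 1) * ∑ i ∈ Finset.range n, |c i| * (s i / ‖z‖) ^ M) :=
          mul_le_mul_of_nonneg_left (mul_le_mul_of_nonneg_right (by linarith) hP) hr2
      _ = _ := by ring
  · have h3 : (Fs n c s z).2 = z * (((‖z‖ ^ 3)⁻¹ * ∑ i ∈ Finset.range n,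
        c i * ((s i / ‖z‖) ^ 0 * (1 + (s i / ‖z‖) ^ 2) ^ (-(3 / 2) : ℝ)) : ℝ) : ℂ) := by
      rw [Finset.mul_sum, ofReal_sum, Finset.mul_sum]
      show ∑ i ∈ Finset.range n, (c i : ℂ) * ks (s i) z = _
      refine Finset.sum_congr rfl fun i _ => ?_
      unfold ks
      rw [Tay_scale (s i) ‖z‖ hr, pow_zero]
      push_cast
      ring
    have hr3 : 0 ≤ (‖z‖ ^ 3)⁻¹ := by positivity
    rw [h3, norm_mul, Complex.norm_real, Real.norm_eq_abs, abs_mul, abs_of_nonneg hr3]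
    calc ‖z‖ * ((‖z‖ ^ 3)⁻¹ * |∑ i ∈ Finset.range n,
          c i * ((s i / ‖z‖) ^ 0 * (1 + (s i / ‖z‖) ^ 2) ^ (-(3 / 2) : ℝ))|) ≤
          ‖z‖ * ((‖z‖ ^ 3)⁻¹ * (C0 * ∑ i ∈ Finset.range n, |c i| * (s i / ‖z‖) ^ M)) :=
          mul_le_mul_of_nonneg_left (mul_le_mul_of_nonneg_left e0 hr3) hr.le
      _ = (‖z‖ ^ 2)⁻¹ * (C0 * ∑ i ∈ Finset.range n, |c i| * (s i / ‖z‖) ^ M) := by
          field_simp
      _ ≤ (‖z‖ ^ 2)⁻¹ * ((C1 + C0 + 1) * ∑ i ∈ Finset.range n, |c i| * (s i / ‖z‖) ^ M) :=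
          mul_le_mul_of_nonneg_left (mul_le_mul_of_nonneg_right (by linarith) hP) hr2
      _ = _ := by ring

end Pool.Agent.Work.MP_440970_an

end

section

/-!
# [CX5] dual basis of the moments at the nodes `1, ..., M`
-/

set_option autoImplicit false

namespace Pool.Agent.Work.MP_440970_an

open Finset

theorem claimVdm : ClaimVdm := by
  intro M
  classical
  set V : Matrix (Fin M) (Fin M) ℝ := Matrix.vandermonde (fun j : Fin M => 1 + ((j : ℕ) : ℝ))
    with hV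
  have hdet : V.det ≠ 0 := by
    rw [hV, Matrix.det_vandermonde_ne_zero_iff]
    intro a b hab
    have h : ((a : ℕ) : ℝ) = ((b : ℕ) : ℝ) := by simpa using hab
    exact Fin.ext (by exact_mod_cast h)
  have hinv : V⁻¹ * V = 1 := Matrix.nonsing_inv_mul V (isUnit_iff_ne_zero.2 hdet)
  refine ⟨fun k j => if hk : k < M then (if hj : j < M then V⁻¹ ⟨k, hk⟩ ⟨j, hj⟩ else 0) else 0,
    ?_⟩
  intro k hk i hi
  have h1 := congrFun (congrFun hinv ⟨k, hk⟩) ⟨i, hi⟩
  rw [Matrix.mul_apply, Matrix.one_apply] at h1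
  rw [Finset.sum_range]
  have h2 : ∀ j : Fin M, (if hk : k < M then
      (if hj : ((j : ℕ)) < M then V⁻¹ ⟨k, hk⟩ ⟨(j : ℕ), hj⟩ else 0) else 0) *
        (1 + (((j : ℕ)) : ℝ)) ^ i = V⁻¹ ⟨k, hk⟩ j * V j ⟨i, hi⟩ := by
    intro j
    rw [dif_pos hk, dif_pos j.2, hV, Matrix.vandermonde_apply]
  rw [Finset.sum_congr rfl (fun j _ => h2 j), h1]
  by_cases h : i = k
  · subst h; simp
  · rw [if_neg h, if_neg]
    intro h3
    exact h (by simpa using (Fin.mk.inj_iff.1 h3).symm)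

end Pool.Agent.Work.MP_440970_an

end

section

/-!
# Systems in `H^p` are nice after a shift
-/

open MeasureTheory Set Filter Topology
open scoped ContDiff ENNReal

namespace Pool.Agent.Work.MP_440970_an.FC

open BH

namespace HpNicX

theorem min_bd (x c : ℝ≥0∞) {p : ℝ} (hp : 0 < p) (hp1 : p < 1) :
    min x c ≤ c ^ (1 - p) * x ^ p := by
  have h : min x c = min x c ^ (1 - p) * min x c ^ p := by
    rw [← ENNReal.rpow_add_of_nonneg _ _ (by linarith) hp.le]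
    simp
  calc min x c = min x c ^ (1 - p) * min x c ^ p := h
    _ ≤ c ^ (1 - p) * x ^ p :=
      mul_le_mul' (ENNReal.rpow_le_rpow (min_le_right _ _) (by linarith))
        (ENNReal.rpow_le_rpow (min_le_left _ _) hp.le)

theorem sum_fin {u : Fin 3 → E3 → ℝ} {p : ℝ} (hp : 0 < p) (hp1 : p < 1)
    (hmeas : ∀ i, Measurable (Mx (u i))) (hM : ∀ i, ∫⁻ z, Mx (u i) z ^ p < ⊤) :
    ∫⁻ z, (∑ i, Mx (u i) z) ^ p < ⊤ := by
  have h : ∀ z, (∑ i, Mx (u i) z) ^ p ≤ Mx (u 0) z ^ p + Mx (u 1) z ^ p + Mx (u 2) z ^ p := by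
    intro z
    rw [Fin.sum_univ_three]
    refine (ENNReal.rpow_add_le_add_rpow _ _ hp.le hp1.le).trans ?_
    gcongr
    exact ENNReal.rpow_add_le_add_rpow _ _ hp.le hp1.le
  refine (lintegral_mono h).trans_lt ?_
  have m0 : ∀ i, Measurable fun z => Mx (u i) z ^ p := fun i => (hmeas i).pow_const p
  rw [lintegral_add_right _ (m0 2), lintegral_add_right _ (m0 1)]
  exact ENNReal.add_lt_top.2 ⟨ENNReal.add_lt_top.2 ⟨hM 0, hM 1⟩, hM 2⟩

end HpNicX

open HpNicX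

theorem pr_HpNic (h1 : S_HpJet) (h2 : S_MxMeas) : S_HpNic := by
  intro p u hp hp1 hsw hM τ hτ
  obtain ⟨C, hC, hJ⟩ := h1 p u hp hsw hM
  have hN : Measurable fun z => ∑ i, Mx (u i) z :=
    Finset.measurable_fun_sum _ fun i _ => h2 (u i)
  have hI := sum_fin hp hp1 (fun i => h2 (u i)) hM
  set c : ℝ := C * τ ^ (-(2 / p)) with hc
  have hc0 : 0 ≤ c := by positivity
  set I : ℝ≥0∞ := ∫⁻ z, (∑ i, Mx (u i) z) ^ p with hIdef
  -- general bound
  have gen : ∀ d : ℝ, ∫⁻ z, min (ENNReal.ofReal C * ∑ i, Mx (u i) z) (ENNReal.ofReal d) ≤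
      ENNReal.ofReal d ^ (1 - p) * (ENNReal.ofReal C ^ p * I) := by
    intro d
    calc ∫⁻ z, min (ENNReal.ofReal C * ∑ i, Mx (u i) z) (ENNReal.ofReal d)
        ≤ ∫⁻ z, ENNReal.ofReal d ^ (1 - p) * (ENNReal.ofReal C ^ p * (∑ i, Mx (u i) z) ^ p) := by
          refine lintegral_mono fun z => ?_
          refine (min_bd _ _ hp hp1).trans ?_
          rw [ENNReal.mul_rpow_of_nonneg _ _ hp.le]
      _ = ENNReal.ofReal d ^ (1 - p) * (ENNReal.ofReal C ^ p * I) := by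
          rw [lintegral_const_mul _ ((hN.pow_const p).const_mul _),
            lintegral_const_mul _ (hN.pow_const p)]
  have fin : ∀ d : ℝ, ENNReal.ofReal d ^ (1 - p) * (ENNReal.ofReal C ^ p * I) < ⊤ := by
    intro d
    refine ENNReal.mul_lt_top (ENNReal.rpow_lt_top_of_nonneg (by linarith) ENNReal.ofReal_ne_top) ?_
    exact ENNReal.mul_lt_top (ENNReal.rpow_lt_top_of_nonneg hp.le ENNReal.ofReal_ne_top) hI
  refine ⟨fun z => (min (ENNReal.ofReal C * ∑ i, Mx (u i) z) (ENNReal.ofReal c)).toReal, ?_⟩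
  refine ⟨?_, ?_, ?_, ?_, ?_⟩
  · -- Stein-Weiss
    have hmap : MapsTo (sft τ) {x : E3 | -τ < x 0} half := by
      intro x hx
      simp only [mem_ofPred_eq, half, sft] at hx ⊢
      simp [e0] 
      linarith
    have hs : ContDiff ℝ ∞ (sft τ) := by
      unfold sft
      fun_prop
    refine ⟨?_, ?_, ?_, ?_⟩
    · exact isOpen_lt continuous_const (continuous_apply 0)
    · intro i
      exact (hsw.smooth i).comp hs.contDiffOn hmap
    · intro x hx i j
      rw [pd_sft (f := u j), pd_sft (f := u i)]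
      exact hsw.curl _ (hmap hx) i j
    · intro x hx
      simp only [pd_sft]
      exact hsw.div _ (hmap hx)
  · intro x hx
    simp only [mem_ofPred_eq]
    linarith
  · refine integrable_toReal_of_lintegral_ne_top ?_ ((gen c).trans_lt (fin c)).ne
    exact ((hN.const_mul _).min measurable_const).aemeasurable
  · intro t z ht
    have h := hJ τ t z hτ ht
    rw [← toReal_enorm]
    refine ENNReal.toReal_mono (ne_top_of_le_ne_top ENNReal.ofReal_ne_top (min_le_right _ _)) ?_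
    refine le_min h.1 ?_
    rw [← ofReal_norm]
    refine ENNReal.ofReal_le_ofReal (h.2.trans ?_)
    refine mul_le_mul_of_nonneg_left ?_ hC
    exact Real.rpow_le_rpow_of_nonpos hτ (by linarith) (by
      have : 0 < 2 / p := by positivity
      linarith)
  · set K : ℝ := (ENNReal.ofReal C ^ p * I).toReal with hK
    have key : ∀ t : ℝ, 0 ≤ t → ∫ z : ℂ, ‖jet (fun i x => u i (sft τ x)) (cp t z)‖ ≤
        (C * (t + τ) ^ (-(2 / p))) ^ (1 - p) * K := by
      intro t ht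
      have hd0 : 0 ≤ C * (t + τ) ^ (-(2 / p)) := by
        have : 0 ≤ t + τ := by linarith
        positivity
      by_cases hint : Integrable fun z : ℂ => jet (fun i x => u i (sft τ x)) (cp t z)
      · have e1 := ofReal_integral_norm_eq_lintegral_enorm hint
        have e2 : ∫⁻ z : ℂ, ‖jet (fun i x => u i (sft τ x)) (cp t z)‖ₑ ≤
            ENNReal.ofReal (C * (t + τ) ^ (-(2 / p))) ^ (1 - p) * (ENNReal.ofReal C ^ p * I) := by
          refine (lintegral_mono fun z => ?_).trans (gen (C * (t + τ) ^ (-(2 / p))))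
          refine le_min (hJ τ t z hτ ht).1 ?_
          rw [← ofReal_norm]
          exact ENNReal.ofReal_le_ofReal (hJ τ t z hτ ht).2
        have e3 := ENNReal.toReal_mono (fin _).ne (e1.le.trans e2)
        rw [ENNReal.toReal_ofReal (integral_nonneg fun _ => norm_nonneg _), ENNReal.toReal_mul,
          ← ENNReal.toReal_rpow, ENNReal.toReal_ofReal hd0] at e3
        exact e3
      · have : ∫ z : ℂ, ‖jet (fun i x => u i (sft τ x)) (cp t z)‖ = 0 ∨
            Integrable fun z : ℂ => ‖jet (fun i x => u i (sft τ x)) (cp t z)‖ := by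
          by_cases h : Integrable fun z : ℂ => ‖jet (fun i x => u i (sft τ x)) (cp t z)‖
          · exact Or.inr h
          · exact Or.inl (integral_undef h)
        rcases this with h | h
        · rw [h]
          have : 0 ≤ K := ENNReal.toReal_nonneg
          positivity
        · have e1 := ofReal_integral_norm_eq_lintegral_enorm h
          simp only [norm_norm, enorm_norm] at e1
          have e2 : ∫⁻ z : ℂ, ‖jet (fun i x => u i (sft τ x)) (cp t z)‖ₑ ≤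
              ENNReal.ofReal (C * (t + τ) ^ (-(2 / p))) ^ (1 - p) * (ENNReal.ofReal C ^ p * I) := by
            refine (lintegral_mono fun z => ?_).trans (gen (C * (t + τ) ^ (-(2 / p))))
            refine le_min (hJ τ t z hτ ht).1 ?_
            rw [← ofReal_norm]
            exact ENNReal.ofReal_le_ofReal (hJ τ t z hτ ht).2
          have e3 := ENNReal.toReal_mono (fin _).ne (e1.le.trans e2)
          rw [ENNReal.toReal_ofReal (integral_nonneg fun _ => norm_nonneg _), ENNReal.toReal_mul,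
            ← ENNReal.toReal_rpow, ENNReal.toReal_ofReal hd0] at e3
          exact e3
    have lim : Tendsto (fun t : ℝ => (C * (t + τ) ^ (-(2 / p))) ^ (1 - p) * K) atTop (𝓝 0) := by
      have h0 : Tendsto (fun t : ℝ => (t + τ) ^ (-(2 / p))) atTop (𝓝 0) :=
        (tendsto_rpow_neg_atTop (by positivity : 0 < 2 / p)).comp
          (tendsto_atTop_add_const_right _ _ tendsto_id)
      have h1 : Tendsto (fun t : ℝ => C * (t + τ) ^ (-(2 / p))) atTop (𝓝 0) := by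
        simpa using h0.const_mul C
      have h2 := h1.rpow_const (p := 1 - p) (Or.inr (by linarith))
      rw [Real.zero_rpow (by linarith)] at h2
      simpa using h2.mul_const K
    refine squeeze_zero' (Eventually.of_forall fun t => integral_nonneg fun _ => norm_nonneg _) ?_ lim
    filter_upwards [eventually_ge_atTop 0] with t ht
    exact key t ht

end Pool.Agent.Work.MP_440970_an.FC

end

section

/-!
# Item Ibp: integration by parts
-/

open MeasureTheory Set Filter Topology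
open scoped ContDiff ENNReal

namespace Pool.Agent.Work.MP_440970_an.FC

open BH

namespace IbpX

/-- products of a function with compact support in `U` and a function continuous on `U` -/
theorem integ {a b : E3 → ℝ} {U : Set E3} (ha : Continuous a) (hc : HasCompactSupport a)
    (hs : tsupport a ⊆ U) (hU : IsOpen U) (hb : ContinuousOn b U) :
    Integrable (fun x => a x * b x) := by
  have h1 : HasCompactSupport (fun x => a x * b x) := hc.mul_right
  refine Continuous.integrable_of_hasCompactSupport ?_ h1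
  refine continuous_of_tsupport fun x hx => ?_
  have h2 : x ∈ U := hs (closure_mono (fun y hy => ?_) hx)
  · exact ha.continuousAt.mul (hb.continuousAt (hU.mem_nhds h2))
  · intro h3
    apply hy
    show a y * b y = 0
    rw [h3, zero_mul]

theorem pd_cont {φ : E3 → ℝ} (hφ : ContDiff ℝ 1 φ) (i : Fin 3) : Continuous (pd i φ) := by
  have h := hφ.continuous_fderiv (by norm_num)
  exact h.clm_apply continuous_const

theorem pd_supp (φ : E3 → ℝ) (i : Fin 3) : tsupport (pd i φ) ⊆ tsupport φ :=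
  tsupport_fderiv_apply_subset ℝ _

end IbpX

theorem pr_Ibp : S_Ibp := by
  intro φ G U i hU hφ hc hs hG
  have h1 : Integrable (fun x => pd i φ x * G x) :=
    IbpX.integ (IbpX.pd_cont hφ i) (hc.mono' ((subset_tsupport _).trans (IbpX.pd_supp φ i)))
      ((IbpX.pd_supp φ i).trans hs) hU hG.continuousOn
  have h2 : Integrable (fun x => φ x * pd i G x) :=
    IbpX.integ hφ.continuous hc hs hU
      (pd_contDiffOn (m := 0) i hU hG (by norm_num)).continuousOn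
  have h3 : Integrable (fun x => φ x * G x) :=
    IbpX.integ hφ.continuous hc hs hU hG.continuousOn
  refine ⟨h1, h2, ?_⟩
  have h4 := integral_mul_fderiv_eq_neg_fderiv_mul_of_integrable (μ := (volume : Measure E3))
    (f := φ) (g := G) (v := Pi.single i 1) h1 h2 h3
    (fun x _ => (hφ.differentiable (by norm_num)).differentiableAt)
    (fun x hx => (hG.contDiffAt (hU.mem_nhds (hs hx))).differentiableAt (by norm_num))
  have h5 : ∫ x, φ x * pd i G x = -∫ x, pd i φ x * G x := h4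
  rw [h5, neg_neg]

end Pool.Agent.Work.MP_440970_an.FC

end

section

/-!
# [JetNJ] the derivatives of the components of the jet
-/

open MeasureTheory Set Filter Topology
open scoped ContDiff ENNReal

namespace Pool.Agent.Work.MP_440970_an.FC

open BH

namespace JetNJX

variable {F : Fin 3 → E3 → ℝ} {U : Set E3}

theorem cda (h : SW F U) {x : E3} (hx : x ∈ U) (i : Fin 3) : ContDiffAt ℝ ∞ (F i) x :=
  (h.smooth i x hx).contDiffAt (h.op.mem_nhds hx)

theorem cda2 (h : SW F U) {x : E3} (hx : x ∈ U) (i : Fin 3) : ContDiffAt ℝ 2 (F i) x :=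
  (cda h hx i).of_le (WithTop.coe_le_coe.2 le_top)

theorem comm (h : SW F U) {x : E3} (hx : x ∈ U) (i a b : Fin 3) :
    pd i (pd a (F b)) x = pd a (pd i (F b)) x :=
  pd_comm i a (cda2 h hx b)

theorem curl2 (h : SW F U) {x : E3} (hx : x ∈ U) (i a b : Fin 3) :
    pd i (pd a (F b)) x = pd i (pd b (F a)) x := by
  refine pd_congr ?_
  filter_upwards [h.op.mem_nhds hx] with y hy
  exact h.curl y hy a b

theorem div2 (h : SW F U) {x : E3} (hx : x ∈ U) (b : Fin 3) :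
    ∑ i, pd b (pd i (F i)) x = 0 := by
  rw [← pd_sum Finset.univ (fun i => pd i (F i)) b fun i _ => diff_pd i (cda2 h hx i)]
  have h1 : (fun y => ∑ i, pd i (F i) y) =ᶠ[𝓝 x] fun _ => (0 : ℝ) := by
    filter_upwards [h.op.mem_nhds hx] with y hy
    exact h.div y hy
  rw [pd_congr h1, pd_const]

theorem harm (h : SW F U) {x : E3} (hx : x ∈ U) (j : Fin 3) :
    ∑ i, pd i (pd i (F j)) x = 0 := by
  rw [← div2 h hx j]
  refine Finset.sum_congr rfl fun i _ => ?_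
  rw [curl2 h hx i i j, comm h hx i j i]

theorem sub (h : SW F U) (a : Fin 3) : SW (fun j => pd a (F j)) U := by
  refine ⟨h.op, fun i => pd_contDiffOn a h.op (h.smooth i) (by exact_mod_cast le_top),
    fun x hx i j => ?_, fun x hx => ?_⟩
  · show pd i (pd a (F j)) x = pd j (pd a (F i)) x
    rw [comm h hx i a j, curl2 h hx a i j, comm h hx a j i]
  · show ∑ i, pd i (pd a (F i)) x = 0
    rw [← div2 h hx a]
    refine Finset.sum_congr rfl fun i _ => ?_
    rw [comm h hx i a i]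

/-- first order components -/
theorem nj1 (h : SW F U) {x : E3} (hx : x ∈ U) (k : Fin 3) :
    NJ (F k) x (F k x) (fun i => x 0 * pd i (F k) x) 0 :=
  (NJ.of (cda2 h hx k)).congr rfl (fun _ => rfl) (by rw [harm h hx k, mul_zero])

/-- second order components -/
theorem nj2 (h : SW F U) {x : E3} (hx : x ∈ U) (a b : Fin 3) :
    NJ (fun y => y 0 * pd a (F b) y) x (x 0 * pd a (F b) x)
      (fun i => x 0 * pd a (F b) x * e0 i + x 0 ^ 2 * pd i (pd a (F b)) x)
      (2 * (x 0 ^ 2 * pd 0 (pd a (F b)) x)) := by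
  refine ((NJ.height x).mul (nj1 (sub h a) hx b)).congr rfl (fun i => ?_) ?_
  · ring
  · rw [Fin.sum_univ_three]
    simp [e0]
    ring

end JetNJX

open JetNJX in
theorem pr_JetNJ : S_JetNJ := by
  intro F U h x hx k
  have c : ∀ i j, x 0 * pd i (F j) x = x 0 * pd j (F i) x := fun i j => by
    rw [h.curl x hx i j]
  have c01 := c 0 1
  have c02 := c 0 2
  have c12 := c 1 2
  have d : x 0 * pd 0 (F 0) x + x 0 * pd 1 (F 1) x + x 0 * pd 2 (F 2) x = 0 := by
    have := h.div x hx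
    rw [Fin.sum_univ_three] at this
    rw [← mul_add, ← mul_add, this, mul_zero]
  have s12 : ∀ i a b, x 0 ^ 2 * pd i (pd a (F b)) x = x 0 ^ 2 * pd a (pd i (F b)) x :=
    fun i a b => by rw [comm h hx]
  have s23 : ∀ i a b, x 0 ^ 2 * pd i (pd a (F b)) x = x 0 ^ 2 * pd i (pd b (F a)) x :=
    fun i a b => by rw [curl2 h hx]
  have tr : ∀ b, x 0 ^ 2 * pd b (pd 0 (F 0)) x + x 0 ^ 2 * pd b (pd 1 (F 1)) x +
      x 0 ^ 2 * pd b (pd 2 (F 2)) x = 0 := by
    intro b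
    have := div2 h hx b
    rw [Fin.sum_univ_three] at this
    rw [← mul_add, ← mul_add, this, mul_zero]
  have e00 : e0 0 = 1 := rfl
  have e01 : e0 1 = 0 := rfl
  have e02 : e0 2 = 0 := rfl
  have t0 := tr 0
  have t1 := tr 1
  have t2 := tr 2
  have a1 := s12 0 1 0
  have a2 := s12 0 1 1
  have a3 := s12 0 1 2
  have a4 := s12 0 2 0
  have a5 := s12 0 2 1
  have a6 := s12 0 2 2
  have a7 := s12 1 2 0
  have a8 := s12 1 2 1
  have a9 := s12 1 2 2
  have b1 := s23 0 0 1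
  have b2 := s23 1 0 1
  have b3 := s23 2 0 1
  have b4 := s23 0 0 2
  have b5 := s23 1 0 2
  have b6 := s23 2 0 2
  have b7 := s23 0 1 2
  have b8 := s23 1 1 2
  have b9 := s23 2 1 2
  fin_cases k
  · refine (nj1 h hx 0).congr rfl (fun i => ?_) rfl
    fin_cases i
    · show x 0 * pd 0 (F 0) x = -(x 0 * pd 1 (F 1) x) - x 0 * pd 2 (F 2) x
      linarith
    · show x 0 * pd 1 (F 0) x = x 0 * pd 0 (F 1) x
      linarith
    · show x 0 * pd 2 (F 0) x = x 0 * pd 0 (F 2) x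
      linarith
  · refine (nj1 h hx 1).congr rfl (fun i => ?_) rfl
    fin_cases i
    · rfl
    · rfl
    · show x 0 * pd 2 (F 1) x = x 0 * pd 1 (F 2) x
      linarith
  · refine (nj1 h hx 2).congr rfl (fun i => ?_) rfl
    fin_cases i
    · rfl
    · rfl
    · rfl
  · refine (nj2 h hx 0 1).congr rfl (fun i => ?_) ?_
    · fin_cases i
      · show x 0 * pd 0 (F 1) x * e0 0 + x 0 ^ 2 * pd 0 (pd 0 (F 1)) x =
          x 0 * pd 0 (F 1) x - x 0 ^ 2 * pd 1 (pd 1 (F 1)) x - x 0 ^ 2 * pd 1 (pd 2 (F 2)) x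
        rw [e00]
        linarith
      · show x 0 * pd 0 (F 1) x * e0 1 + x 0 ^ 2 * pd 1 (pd 0 (F 1)) x =
          x 0 ^ 2 * pd 0 (pd 1 (F 1)) x
        rw [e01]
        linarith
      · show x 0 * pd 0 (F 1) x * e0 2 + x 0 ^ 2 * pd 2 (pd 0 (F 1)) x =
          x 0 ^ 2 * pd 0 (pd 1 (F 2)) x
        rw [e02]
        linarith
    · show 2 * (x 0 ^ 2 * pd 0 (pd 0 (F 1)) x) =
        2 * (-(x 0 ^ 2 * pd 1 (pd 1 (F 1)) x) - x 0 ^ 2 * pd 1 (pd 2 (F 2)) x)
      linarith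
  · refine (nj2 h hx 0 2).congr rfl (fun i => ?_) ?_
    · fin_cases i
      · show x 0 * pd 0 (F 2) x * e0 0 + x 0 ^ 2 * pd 0 (pd 0 (F 2)) x =
          x 0 * pd 0 (F 2) x - x 0 ^ 2 * pd 1 (pd 1 (F 2)) x - x 0 ^ 2 * pd 2 (pd 2 (F 2)) x
        rw [e00]
        linarith
      · show x 0 * pd 0 (F 2) x * e0 1 + x 0 ^ 2 * pd 1 (pd 0 (F 2)) x =
          x 0 ^ 2 * pd 0 (pd 1 (F 2)) x
        rw [e01]
        linarith
      · show x 0 * pd 0 (F 2) x * e0 2 + x 0 ^ 2 * pd 2 (pd 0 (F 2)) x =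
          x 0 ^ 2 * pd 0 (pd 2 (F 2)) x
        rw [e02]
        linarith
    · show 2 * (x 0 ^ 2 * pd 0 (pd 0 (F 2)) x) =
        2 * (-(x 0 ^ 2 * pd 1 (pd 1 (F 2)) x) - x 0 ^ 2 * pd 2 (pd 2 (F 2)) x)
      linarith
  · refine (nj2 h hx 1 1).congr rfl (fun i => ?_) ?_
    · fin_cases i
      · show x 0 * pd 1 (F 1) x * e0 0 + x 0 ^ 2 * pd 0 (pd 1 (F 1)) x =
          x 0 * pd 1 (F 1) x + x 0 ^ 2 * pd 0 (pd 1 (F 1)) x
        rw [e00, mul_one]
      · show x 0 * pd 1 (F 1) x * e0 1 + x 0 ^ 2 * pd 1 (pd 1 (F 1)) x =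
          x 0 ^ 2 * pd 1 (pd 1 (F 1)) x
        rw [e01]
        linarith
      · show x 0 * pd 1 (F 1) x * e0 2 + x 0 ^ 2 * pd 2 (pd 1 (F 1)) x =
          x 0 ^ 2 * pd 1 (pd 1 (F 2)) x
        rw [e02]
        linarith
    · rfl
  · refine (nj2 h hx 1 2).congr rfl (fun i => ?_) ?_
    · fin_cases i
      · show x 0 * pd 1 (F 2) x * e0 0 + x 0 ^ 2 * pd 0 (pd 1 (F 2)) x =
          x 0 * pd 1 (F 2) x + x 0 ^ 2 * pd 0 (pd 1 (F 2)) x
        rw [e00, mul_one]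
      · show x 0 * pd 1 (F 2) x * e0 1 + x 0 ^ 2 * pd 1 (pd 1 (F 2)) x =
          x 0 ^ 2 * pd 1 (pd 1 (F 2)) x
        rw [e01]
        linarith
      · show x 0 * pd 1 (F 2) x * e0 2 + x 0 ^ 2 * pd 2 (pd 1 (F 2)) x =
          x 0 ^ 2 * pd 1 (pd 2 (F 2)) x
        rw [e02]
        linarith
    · rfl
  · refine (nj2 h hx 2 2).congr rfl (fun i => ?_) ?_
    · fin_cases i
      · show x 0 * pd 2 (F 2) x * e0 0 + x 0 ^ 2 * pd 0 (pd 2 (F 2)) x =
          x 0 * pd 2 (F 2) x + x 0 ^ 2 * pd 0 (pd 2 (F 2)) x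
        rw [e00, mul_one]
      · show x 0 * pd 2 (F 2) x * e0 1 + x 0 ^ 2 * pd 1 (pd 2 (F 2)) x =
          x 0 ^ 2 * pd 1 (pd 2 (F 2)) x
        rw [e01]
        linarith
      · show x 0 * pd 2 (F 2) x * e0 2 + x 0 ^ 2 * pd 2 (pd 2 (F 2)) x =
          x 0 ^ 2 * pd 2 (pd 2 (F 2)) x
        rw [e02]
        linarith
    · rfl

end Pool.Agent.Work.MP_440970_an.FC

end

section

set_option autoImplicit false

/-!
# Bounds for the derivatives of the field of a point charge (item KerB)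
-/

open MeasureTheory Set Filter Topology
open scoped ContDiff ENNReal

namespace Pool.Agent.Work.MP_440970_an.FC

open BH

namespace KerBX

theorem abs_le_r (x : E3) (i : Fin 3) : |x i| ≤ √(x 0 ^ 2 + x 1 ^ 2 + x 2 ^ 2) := by
  apply Real.abs_le_sqrt
  have h0 := sq_nonneg (x 0)
  have h1 := sq_nonneg (x 1)
  have h2 := sq_nonneg (x 2)
  fin_cases i
  · change x 0 ^ 2 ≤ _
    linarith
  · change x 1 ^ 2 ≤ _
    linarith
  · change x 2 ^ 2 ≤ _
    linarith

theorem norm_le_r (x : E3) : ‖x‖ ≤ √(x 0 ^ 2 + x 1 ^ 2 + x 2 ^ 2) :=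
  (pi_norm_le_iff_of_nonneg (Real.sqrt_nonneg _)).2 fun i => abs_le_r x i

theorem ite_le (p : Prop) [Decidable p] (a : ℝ) (h : |a| ≤ 1) :
    |(if p then a else 0 : ℝ)| ≤ 1 := by
  split_ifs
  · exact h
  · simp

end KerBX

open KerBX in
theorem pr_KerB (h1 : S_Ker) : S_KerB := by
  refine ⟨24, fun x hx => ?_⟩
  obtain ⟨-, hd1, hd2⟩ := h1 x hx _ rfl
  have hr0 : 0 < √(x 0 ^ 2 + x 1 ^ 2 + x 2 ^ 2) :=
    lt_of_lt_of_le (norm_pos_iff.2 hx) (norm_le_r x)
  have hn := norm_le_r x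
  have ha := abs_le_r x
  set r : ℝ := √(x 0 ^ 2 + x 1 ^ 2 + x 2 ^ 2) with hr
  have hu : ∀ i, |x i / r| ≤ 1 := fun i => by
    rw [abs_div, abs_of_pos hr0, div_le_one hr0]
    exact ha i
  constructor
  · intro i j
    rw [hd1 i j]
    have hA : ((if i = j then (1 : ℝ) else 0) / r ^ 3 - 3 * x i * x j / r ^ 5) =
        ((if i = j then (1 : ℝ) else 0) - 3 * ((x i / r) * (x j / r))) / r ^ 3 := by
      field_simp
    have h3 : |(if i = j then (1 : ℝ) else 0) - 3 * ((x i / r) * (x j / r))| ≤ 4 := by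
      have e1 : |(if i = j then (1 : ℝ) else 0)| ≤ 1 := ite_le _ 1 (by simp)
      have e2 : |(x i / r) * (x j / r)| ≤ 1 := by
        rw [abs_mul]
        exact mul_le_one₀ (hu i) (abs_nonneg _) (hu j)
      rw [abs_le] at e1 e2 ⊢
      constructor <;> linarith [e1.1, e1.2, e2.1, e2.2]
    rw [hA, abs_div, abs_of_pos (pow_pos hr0 3), div_mul_eq_mul_div, div_le_iff₀ (pow_pos hr0 3)]
    have h4 : ‖x‖ ^ 3 ≤ r ^ 3 := pow_le_pow_left₀ (norm_nonneg _) hn 3
    calc _ ≤ 4 * r ^ 3 := mul_le_mul h3 h4 (by positivity) (by norm_num)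
      _ ≤ 24 * r ^ 3 := by
        have : 0 < r ^ 3 := pow_pos hr0 3
        linarith
  · intro i j k
    rw [hd2 i j k]
    have hB : -3 * ((if i = j then x k else 0) + (if i = k then x j else 0) +
        if j = k then x i else 0) / r ^ 5 + 15 * x i * x j * x k / r ^ 7 =
        (-3 * ((if i = j then x k / r else 0) + (if i = k then x j / r else 0) +
        if j = k then x i / r else 0) + 15 * ((x i / r) * (x j / r) * (x k / r))) / r ^ 4 := by
      have e : ∀ (p : Prop) [Decidable p] (a : ℝ), (if p then a / r else 0) =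
          (if p then a else 0) / r := by
        intro p _ a
        split_ifs <;> simp
      rw [e, e, e]
      field_simp
    have h3 : |-3 * ((if i = j then x k / r else 0) + (if i = k then x j / r else 0) +
        if j = k then x i / r else 0) + 15 * ((x i / r) * (x j / r) * (x k / r))| ≤ 24 := by
      have e1 : |(if i = j then x k / r else 0)| ≤ 1 := ite_le _ _ (hu k)
      have e2 : |(if i = k then x j / r else 0)| ≤ 1 := ite_le _ _ (hu j)
      have e3 : |(if j = k then x i / r else 0)| ≤ 1 := ite_le _ _ (hu i)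
      have e4 : |(x i / r) * (x j / r) * (x k / r)| ≤ 1 := by
        rw [abs_mul, abs_mul]
        exact mul_le_one₀ (mul_le_one₀ (hu i) (abs_nonneg _) (hu j)) (abs_nonneg _) (hu k)
      rw [abs_le] at e1 e2 e3 e4 ⊢
      constructor <;> linarith [e1.1, e1.2, e2.1, e2.2, e3.1, e3.2, e4.1, e4.2]
    rw [hB, abs_div, abs_of_pos (pow_pos hr0 4), div_mul_eq_mul_div, div_le_iff₀ (pow_pos hr0 4)]
    have h4 : ‖x‖ ^ 4 ≤ r ^ 4 := pow_le_pow_left₀ (norm_nonneg _) hn 4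
    exact mul_le_mul h3 h4 (by positivity) (by norm_num)

end Pool.Agent.Work.MP_440970_an.FC

end
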