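import Pool.Agent.Work.MP_440970_an.FX.D1.L3
import Pool.Agent.Work.MP_440970_an.FX.D1.G00
import Pool.Agent.Work.MP_440970_an.FX.D1.G01
import Pool.Agent.Work.MP_440970_an.FX.D1.G02
import Pool.Agent.Work.MP_440970_an.FX.D1.G03
import Pool.Agent.Work.MP_440970_an.FX.D1.G04
import Pool.Agent.Work.MP_440970_an.FX.D1.G05
import Pool.Agent.Work.MP_440970_an.FX.D1.G06
import Pool.Agent.Work.MP_440970_an.FX.D1.G07
import Pool.Agent.Work.MP_440970_an.FX.D1.G08
import Pool.Agent.Work.MP_440970_an.Bdx.B01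

/-! Bundle of small proof modules (one section per former module). -/

section

/-!
# the identity
-/

set_option autoImplicit false
set_option maxRecDepth 1000000

namespace Pool.Agent.Work.MP_440970_an.FX.D1

theorem chkF : eqP (sc c1 lm) (mrg (sc (nat_lit 2) (sm (LL.C gp0_0 (LL.C gp0_1 (LL.C gp0_2 (LL.C gp1_0 (LL.C gp1_1 (LL.C gp2_0 (LL.C gp2_1 (LL.C gp3_0 (LL.C gp4_0 (LL.C gp5_0 (LL.C gp6_0 (LL.C gp7_0 (LL.C gp8_0 (LL.C gp9_0 LL.Z)))))))))))))))) (its (nat_lit 4) its1)) = true := by decide +kernel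

end Pool.Agent.Work.MP_440970_an.FX.D1

end

section

/-!
# the identity
-/

set_option autoImplicit false
set_option maxRecDepth 1000000

namespace Pool.Agent.Work.MP_440970_an.FX.D1

theorem blk0 (x : ℕ → ℂ) : ev x (grm (nat_lit 78) (nat_lit 33) (nat_lit 18889465931478580854784) (nat_lit 4) us0 cs0)
    = ev x gp0_0 + (ev x gp0_1 + (ev x gp0_2)) := by
  rw [ev_grm_eq]
  have h0 := part x (nat_lit 61) (grl (nat_lit 78) (nat_lit 33) (nat_lit 18889465931478580854784) (nat_lit 4) us0 cs0) gp0_0 chk0_0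
  have h1 := part x (nat_lit 61) (suf (nat_lit 61) (grl (nat_lit 78) (nat_lit 33) (nat_lit 18889465931478580854784) (nat_lit 4) us0 cs0)) gp0_1 chk0_1
  have h2 := last x (suf (nat_lit 61) (suf (nat_lit 61) (grl (nat_lit 78) (nat_lit 33) (nat_lit 18889465931478580854784) (nat_lit 4) us0 cs0))) gp0_2 chk0_2
  rw [h0, h1, h2]

theorem blk1 (x : ℕ → ℂ) : ev x (grm (nat_lit 78) (nat_lit 33) (nat_lit 18889465931478580854784) (nat_lit 4) us1 cs1)
    = ev x gp1_0 + (ev x gp1_1) := by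
  rw [ev_grm_eq]
  have h0 := part x (nat_lit 64) (grl (nat_lit 78) (nat_lit 33) (nat_lit 18889465931478580854784) (nat_lit 4) us1 cs1) gp1_0 chk1_0
  have h1 := last x (suf (nat_lit 64) (grl (nat_lit 78) (nat_lit 33) (nat_lit 18889465931478580854784) (nat_lit 4) us1 cs1)) gp1_1 chk1_1
  rw [h0, h1]

theorem blk2 (x : ℕ → ℂ) : ev x (grm (nat_lit 78) (nat_lit 33) (nat_lit 18889465931478580854784) (nat_lit 4) us2 cs2)
    = ev x gp2_0 + (ev x gp2_1) := by
  rw [ev_grm_eq]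
  have h0 := part x (nat_lit 73) (grl (nat_lit 78) (nat_lit 33) (nat_lit 18889465931478580854784) (nat_lit 4) us2 cs2) gp2_0 chk2_0
  have h1 := last x (suf (nat_lit 73) (grl (nat_lit 78) (nat_lit 33) (nat_lit 18889465931478580854784) (nat_lit 4) us2 cs2)) gp2_1 chk2_1
  rw [h0, h1]

theorem blk3 (x : ℕ → ℂ) : ev x (grm (nat_lit 78) (nat_lit 33) (nat_lit 18889465931478580854784) (nat_lit 4) us3 cs3)
    = ev x gp3_0 := by
  rw [ev_grm_eq]
  have h0 := last x (grl (nat_lit 78) (nat_lit 33) (nat_lit 18889465931478580854784) (nat_lit 4) us3 cs3) gp3_0 chk3_0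
  exact h0

theorem blk4 (x : ℕ → ℂ) : ev x (grm (nat_lit 78) (nat_lit 33) (nat_lit 18889465931478580854784) (nat_lit 4) us4 cs4)
    = ev x gp4_0 := by
  rw [ev_grm_eq]
  have h0 := last x (grl (nat_lit 78) (nat_lit 33) (nat_lit 18889465931478580854784) (nat_lit 4) us4 cs4) gp4_0 chk4_0
  exact h0

theorem blk5 (x : ℕ → ℂ) : ev x (grm (nat_lit 78) (nat_lit 33) (nat_lit 18889465931478580854784) (nat_lit 4) us5 cs5)
    = ev x gp5_0 := by
  rw [ev_grm_eq]
  have h0 := last x (grl (nat_lit 78) (nat_lit 33) (nat_lit 18889465931478580854784) (nat_lit 4) us5 cs5) gp5_0 chk5_0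
  exact h0

theorem blk6 (x : ℕ → ℂ) : ev x (grm (nat_lit 78) (nat_lit 33) (nat_lit 18889465931478580854784) (nat_lit 4) us6 cs6)
    = ev x gp6_0 := by
  rw [ev_grm_eq]
  have h0 := last x (grl (nat_lit 78) (nat_lit 33) (nat_lit 18889465931478580854784) (nat_lit 4) us6 cs6) gp6_0 chk6_0
  exact h0

theorem blk7 (x : ℕ → ℂ) : ev x (grm (nat_lit 78) (nat_lit 33) (nat_lit 18889465931478580854784) (nat_lit 4) us7 cs7)
    = ev x gp7_0 := by
  rw [ev_grm_eq]
  have h0 := last x (grl (nat_lit 78) (nat_lit 33) (nat_lit 18889465931478580854784) (nat_lit 4) us7 cs7) gp7_0 chk7_0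
  exact h0

theorem blk8 (x : ℕ → ℂ) : ev x (grm (nat_lit 78) (nat_lit 33) (nat_lit 18889465931478580854784) (nat_lit 4) us8 cs8)
    = ev x gp8_0 := by
  rw [ev_grm_eq]
  have h0 := last x (grl (nat_lit 78) (nat_lit 33) (nat_lit 18889465931478580854784) (nat_lit 4) us8 cs8) gp8_0 chk8_0
  exact h0

theorem blk9 (x : ℕ → ℂ) : ev x (grm (nat_lit 78) (nat_lit 33) (nat_lit 18889465931478580854784) (nat_lit 4) us9 cs9)
    = ev x gp9_0 := by
  rw [ev_grm_eq]
  have h0 := last x (grl (nat_lit 78) (nat_lit 33) (nat_lit 18889465931478580854784) (nat_lit 4) us9 cs9) gp9_0 chk9_0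
  exact h0

theorem ev_lam (x : ℕ → ℂ) : ev x (lam (nat_lit 127) (nat_lit 70) (nat_lit 4) (nat_lit 6) qN qP qR qS) = ev x lm := by
  have h1 := ev_eqP x _ _ chkL1
  have h2 := ev_eqP x _ _ chkL2
  have h3 := ev_eqP x _ _ chkL
  rw [ev_mrg, ev_mul] at h3
  rw [lam, ev_mrg, ev_mul, h1, h2, h3]

theorem ident (x : ℕ → ℂ) : ev x (sc c1 (lam (nat_lit 127) (nat_lit 70) (nat_lit 4) (nat_lit 6) qN qP qR qS))
    = ev x (mrg (sc (nat_lit 2) (sm (LL.C (grm (nat_lit 78) (nat_lit 33) (nat_lit 18889465931478580854784) (nat_lit 4) us0 cs0) (LL.C (grm (nat_lit 78) (nat_lit 33) (nat_lit 18889465931478580854784) (nat_lit 4) us1 cs1) (LL.C (grm (nat_lit 78) (nat_lit 33) (nat_lit 18889465931478580854784) (nat_lit 4) us2 cs2) (LL.C (grm (nat_lit 78) (nat_lit 33) (nat_lit 18889465931478580854784) (nat_lit 4) us3 cs3) (LL.C (grm (nat_lit 78) (nat_lit 33) (nat_lit 18889465931478580854784) (nat_lit 4) us4 cs4) (LL.C (grm (nat_lit 78) (nat_lit 33)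 (nat_lit 18889465931478580854784) (nat_lit 4) us5 cs5) (LL.C (grm (nat_lit 78) (nat_lit 33) (nat_lit 18889465931478580854784) (nat_lit 4) us6 cs6) (LL.C (grm (nat_lit 78) (nat_lit 33) (nat_lit 18889465931478580854784) (nat_lit 4) us7 cs7) (LL.C (grm (nat_lit 78) (nat_lit 33) (nat_lit 18889465931478580854784) (nat_lit 4) us8 cs8) (LL.C (grm (nat_lit 78) (nat_lit 33) (nat_lit 18889465931478580854784) (nat_lit 4) us9 cs9) LL.Z)))))))))))) (its (nat_lit 4) its1)) := by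
  have hF := ev_eqP x _ _ chkF
  rw [ev_mrg, ev_sc, ev_sc, ev_sm] at hF
  rw [ev_sc, ev_lam, hF, ev_mrg, ev_sc, ev_sm]
  simp only [evL, blk0, blk1, blk2, blk3, blk4, blk5, blk6, blk7, blk8, blk9]
  ring

end Pool.Agent.Work.MP_440970_an.FX.D1

end
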