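import Pool.Agent.Work.MP_440970_an.BH.Stmts

/-! Bundle of small proof modules (one section per former module). -/

section

/-!
# `𝒳^p(ℂ) ≠ L^p(ℂ)` for some `p < 1/2`: item BrFar
-/

open MeasureTheory Set Filter Topology
open scoped ContDiff ENNReal

namespace Pool.Agent.Work.MP_440970_an.BH

namespace BrFarX

/-- the algebraic identity -/
theorem ident (p G1 H h ξ D a0 a1 a2 s0 s1 s2 : ℝ) (hG : H + h ≠ 0) (hh : h = 1 / 1000 * ξ * G1) :
    2 * H * ξ + 1 / 1000 * G1 * (2 * ξ + 4 * (2 * ξ * s0) + 2 * D) -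
      (1 - p / 2) * ((2 * H * a0 + 1 / 1000 * G1 * (2 * ξ * 1 + 2 * ξ * s0)) ^ 2 +
        (2 * H * a1 + 1 / 1000 * G1 * (2 * ξ * 0 + 2 * ξ * s1)) ^ 2 +
        (2 * H * a2 + 1 / 1000 * G1 * (2 * ξ * 0 + 2 * ξ * s2)) ^ 2) / (H + h) =
    H * (2 * ξ - (4 - 2 * p) * (a0 ^ 2 + a1 ^ 2 + a2 ^ 2)) +
      h * (2 + 8 * s0 - (4 - 2 * p) * ((s0 + 1) ^ 2 + s1 ^ 2 + s2 ^ 2)) +
      2 * (1 / 1000 * G1) * D +
      (4 - 2 * p) * (H * h / (H + h)) * ((a0 - 1 - s0) ^ 2 + (a1 - s1) ^ 2 + (a2 - s2) ^ 2) := by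
  have e0 : 1 / 1000 * G1 * (2 * ξ * 1 + 2 * ξ * s0) = 2 * h * (1 + s0) := by rw [hh]; ring
  have e1 : 1 / 1000 * G1 * (2 * ξ * 0 + 2 * ξ * s1) = 2 * h * s1 := by rw [hh]; ring
  have e2 : 1 / 1000 * G1 * (2 * ξ * 0 + 2 * ξ * s2) = 2 * h * s2 := by rw [hh]; ring
  have e3 : 1 / 1000 * G1 * (2 * ξ + 4 * (2 * ξ * s0) + 2 * D) =
      2 * h + 8 * h * s0 + 2 * (1 / 1000 * G1) * D := by rw [hh]; ring
  rw [e0, e1, e2, e3]
  field_simp
  ring

/-- the term with `h` -/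
theorem hterm (p s0 s1 s2 S : ℝ) (hp : 499 / 1000 ≤ p) (hp' : p ≤ 1 / 2)
    (hS : S = s0 ^ 2 + s1 ^ 2 + s2 ^ 2) :
    1 / 5 * S - 14 ≤
      2 + 8 * s0 - (4 - 2 * p) * ((s0 + 1) ^ 2 + s1 ^ 2 + s2 ^ 2) + 33 / 10 * S := by
  have e2 : (s0 + 1) ^ 2 + s1 ^ 2 + s2 ^ 2 = S + 2 * s0 + 1 := by rw [hS]; ring
  rw [e2]
  have e3 : s0 ^ 2 ≤ S := by
    rw [hS]
    linarith [sq_nonneg s1, sq_nonneg s2]
  have e0 : 0 ≤ S + 2 * s0 + 1 := by linarith [sq_nonneg (s0 + 1), e3, add_sq s0 1]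
  have e6 : (1 - 2 * p) * (S + 2 * s0 + 1) ≤ 1 / 500 * (S + 2 * s0 + 1) :=
    mul_le_mul_of_nonneg_right (by linarith) e0
  have e7 : (4 - 2 * p) * (S + 2 * s0 + 1) =
      3 * (S + 2 * s0 + 1) + (1 - 2 * p) * (S + 2 * s0 + 1) := by ring
  have e8 : (s0 + 20) ^ 2 = s0 ^ 2 + 40 * s0 + 400 := by ring
  have e9 : (s0 + 10) ^ 2 = s0 ^ 2 + 20 * s0 + 100 := by ring
  rw [e7]
  linarith [sq_nonneg (s0 + 20), sq_nonneg (s0 + 10)]

/-- the square -/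
theorem sqterm (a s : ℝ) : 23 / 1000 * a ^ 2 ≤ 1 / 40 * s ^ 2 + 31 / 100 * (a - s) ^ 2 := by
  have e : 1 / 40 * s ^ 2 + 31 / 100 * (a - s) ^ 2 - 23 / 1000 * a ^ 2 =
      335 / 1000 * (s - 310 / 335 * a) ^ 2 + 9 / 67000 * a ^ 2 := by ring
  have h1 : 0 ≤ 335 / 1000 * (s - 310 / 335 * a) ^ 2 + 9 / 67000 * a ^ 2 := by positivity
  linarith

/-- the inequality in the variables -/
theorem ineq (p G1 H h ξ q N D a0 a1 a2 s0 s1 s2 r : ℝ) (hp : 499 / 1000 ≤ p) (hp' : p ≤ 1 / 2)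
    (hξ : 2000 ≤ ξ) (hG1 : 1 / 16 ≤ G1) (hG1' : G1 ≤ 1 / 8) (hH : 5 / 8 ≤ H) (hH' : H ≤ 1)
    (hh : h = 1 / 1000 * ξ * G1) (hq : 0 ≤ q) (hN : N = a0 ^ 2 + a1 ^ 2 + a2 ^ 2)
    (hq' : q = ξ - 3 / 2 * N) (hD : 5 / 3 * ξ * (s0 ^ 2 + s1 ^ 2 + s2 ^ 2) ≤ D)
    (hr : 5 / 48 ≤ r) :
    1 / 1000000 * (ξ + D) ≤ H * (2 * ξ - (4 - 2 * p) * (a0 ^ 2 + a1 ^ 2 + a2 ^ 2)) +
      h * (2 + 8 * s0 - (4 - 2 * p) * ((s0 + 1) ^ 2 + s1 ^ 2 + s2 ^ 2)) +
      2 * (1 / 1000 * G1) * D +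
      (4 - 2 * p) * r * ((a0 - 1 - s0) ^ 2 + (a1 - s1) ^ 2 + (a2 - s2) ^ 2) := by
  have hN0 : 0 ≤ N := by rw [hN]; positivity
  obtain ⟨S, hS⟩ : ∃ S, S = s0 ^ 2 + s1 ^ 2 + s2 ^ 2 := ⟨_, rfl⟩
  rw [← hS] at hD
  have hS0 : 0 ≤ S := by rw [hS]; positivity
  have hξ0 : 0 < ξ := by linarith
  have hD0 : 0 ≤ D := le_trans (by positivity) hD
  have hh8 : 1 / 8 ≤ h := by
    rw [hh]
    have : 2000 * (1 / 16) ≤ ξ * G1 := mul_le_mul hξ hG1 (by norm_num) hξ0.le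
    linarith
  have hh0 : 0 ≤ h := by linarith
  have hhξ : h ≤ ξ / 8000 := by
    rw [hh]
    have : ξ * G1 ≤ ξ * (1 / 8) := mul_le_mul_of_nonneg_left hG1' hξ0.le
    linarith
  -- the term with `D`
  have h1 : 33 / 10 * h * S ≤ 2 * (1 / 1000 * G1) * D - 1 / 1000000 * D := by
    have e1 : 1 / 1000000 * D ≤ 1 / 100 * (2 * (1 / 1000 * G1)) * D :=
      mul_le_mul_of_nonneg_right (by linarith) hD0
    have e2 : 33 / 10 * h * S = 99 / 100 * (2 * (1 / 1000 * G1)) * (5 / 3 * ξ * S) := by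
      rw [hh]; ring
    have e3 : 99 / 100 * (2 * (1 / 1000 * G1)) * (5 / 3 * ξ * S) ≤
        99 / 100 * (2 * (1 / 1000 * G1)) * D :=
      mul_le_mul_of_nonneg_left hD (by linarith)
    linarith
  -- the term with `H`
  have h2 : 5 / 4 * q - 1 / 500 * N ≤
      H * (2 * ξ - (4 - 2 * p) * (a0 ^ 2 + a1 ^ 2 + a2 ^ 2)) := by
    have e1 : 2 * ξ - (4 - 2 * p) * (a0 ^ 2 + a1 ^ 2 + a2 ^ 2) = 2 * q - (1 - 2 * p) * N := by
      rw [hq', ← hN]; ring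
    rw [e1]
    have e2 : 5 / 8 * (2 * q) ≤ H * (2 * q) := mul_le_mul_of_nonneg_right hH (by linarith)
    have e4 : (1 - 2 * p) * N ≤ 1 / 500 * N := mul_le_mul_of_nonneg_right (by linarith) hN0
    have e5 : 0 ≤ (1 - 2 * p) * N := mul_nonneg (by linarith) hN0
    have e6 : H * ((1 - 2 * p) * N) ≤ 1 * ((1 - 2 * p) * N) := mul_le_mul_of_nonneg_right hH' e5
    have e7 : H * (2 * q - (1 - 2 * p) * N) = H * (2 * q) - H * ((1 - 2 * p) * N) := by ring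
    rw [e7]
    linarith
  -- the term with `h`
  have h3 : h * (1 / 5 * S - 14) ≤
      h * (2 + 8 * s0 - (4 - 2 * p) * ((s0 + 1) ^ 2 + s1 ^ 2 + s2 ^ 2)) + 33 / 10 * h * S := by
    have e1 := mul_le_mul_of_nonneg_left (hterm p s0 s1 s2 S hp hp' hS) hh0
    have e2 : h * (2 + 8 * s0 - (4 - 2 * p) * ((s0 + 1) ^ 2 + s1 ^ 2 + s2 ^ 2) + 33 / 10 * S) =
      h * (2 + 8 * s0 - (4 - 2 * p) * ((s0 + 1) ^ 2 + s1 ^ 2 + s2 ^ 2)) + 33 / 10 * h * S := by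
      ring
    rw [e2] at e1
    exact e1
  -- the square
  obtain ⟨M, hM⟩ : ∃ M, M = (a0 - 1 - s0) ^ 2 + (a1 - s1) ^ 2 + (a2 - s2) ^ 2 := ⟨_, rfl⟩
  have hM0 : 0 ≤ M := by rw [hM]; positivity
  have h4 : 31 / 100 * M ≤ (4 - 2 * p) * r * M := by
    have e1 : 3 * (5 / 48) ≤ (4 - 2 * p) * r :=
      mul_le_mul (by linarith) hr (by norm_num) (by linarith)
    exact mul_le_mul_of_nonneg_right (by linarith) hM0
  have h6 := sqterm (a0 - 1) s0
  have h7 := sqterm a1 s1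
  have h8 := sqterm a2 s2
  have h9 : N / 2 - 1 ≤ (a0 - 1) ^ 2 + a1 ^ 2 + a2 ^ 2 := by
    have e1 : (a0 - 1) ^ 2 + a1 ^ 2 + a2 ^ 2 - (N / 2 - 1) =
        1 / 2 * (a0 - 2) ^ 2 + 1 / 2 * a1 ^ 2 + 1 / 2 * a2 ^ 2 := by rw [hN]; ring
    have e2 : 0 ≤ 1 / 2 * (a0 - 2) ^ 2 + 1 / 2 * a1 ^ 2 + 1 / 2 * a2 ^ 2 := by positivity
    linarith
  have h10 : 1 / 8 * (1 / 5 * S) ≤ h * (1 / 5 * S) :=
    mul_le_mul_of_nonneg_right hh8 (by linarith)
  have h11 : h * 14 ≤ 7 / 4000 * ξ := by linarith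
  have h14 : h * (1 / 5 * S - 14) = h * (1 / 5 * S) - h * 14 := by ring
  rw [← hM]
  obtain ⟨A, hA⟩ : ∃ A, A = H * (2 * ξ - (4 - 2 * p) * (a0 ^ 2 + a1 ^ 2 + a2 ^ 2)) := ⟨_, rfl⟩
  obtain ⟨B, hB⟩ : ∃ B, B = h * (2 + 8 * s0 - (4 - 2 * p) * ((s0 + 1) ^ 2 + s1 ^ 2 + s2 ^ 2)) :=
    ⟨_, rfl⟩
  rw [← hA] at h2 ⊢
  rw [← hB] at h3 ⊢
  have h15 : 23 / 1000 * (N / 2 - 1) ≤ 1 / 40 * S + 31 / 100 * M := by
    rw [hS, hM]
    linarith
  linarith

end BrFarX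

/-- [BrFar] -/
theorem pr_BrFar : S_BrFar := by
  intro s hs p G G1 hp hp' hξ hG hG1 hG1' hH hH'
  obtain ⟨H, hHdef⟩ : ∃ H, H = G - 1 / 1000 * s.ξ * G1 := ⟨_, rfl⟩
  obtain ⟨h, hhdef⟩ : ∃ h, h = 1 / 1000 * s.ξ * G1 := ⟨_, rfl⟩
  rw [← hHdef] at hH hH'
  have hGH : G = H + h := by rw [hHdef, hhdef]; ring
  have hξ0 : 0 < s.ξ := by linarith
  have hh8 : 1 / 8 ≤ h := by
    rw [hhdef]
    have : 2000 * (1 / 16) ≤ s.ξ * G1 := mul_le_mul hξ hG1 (by norm_num) hξ0.le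
    linarith
  have hne : H + h ≠ 0 := by
    have : 0 < H + h := by linarith
    exact this.ne'
  obtain ⟨t, ht⟩ : ∃ t : Fin 3 → ℝ, ∀ k, s.y k = 2 * s.ξ * t k :=
    ⟨fun k => s.y k / (2 * s.ξ), fun k => by field_simp⟩
  have hD : 5 / 3 * s.ξ * (t 0 ^ 2 + t 1 ^ 2 + t 2 ^ 2) ≤ s.D := by
    have h1 := hs.ky
    rw [Fin.sum_univ_three, ht 0, ht 1, ht 2] at h1
    have h2 : s.ξ * (4 * s.ξ * (t 0 ^ 2 + t 1 ^ 2 + t 2 ^ 2)) ≤ s.ξ * (12 / 5 * s.D) := by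
      linarith
    have h3 := le_of_mul_le_mul_left h2 hξ0
    linarith
  have hr : 5 / 48 ≤ H * h / (H + h) := by
    rw [le_div_iff₀ (by linarith)]
    have e1 : 0 ≤ (H - 5 / 8) * (48 * h - 5) := mul_nonneg (by linarith) (by linarith)
    have e2 : (H - 5 / 8) * (48 * h - 5) = 48 * (H * h) - 5 * H - 30 * h + 25 / 8 := by ring
    rw [e2] at e1
    linarith
  have key : s.br p (1 / 1000) G G1 =
      H * (2 * s.ξ - (4 - 2 * p) * (s.η 0 ^ 2 + s.η 1 ^ 2 + s.η 2 ^ 2)) +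
      h * (2 + 8 * t 0 - (4 - 2 * p) * ((t 0 + 1) ^ 2 + t 1 ^ 2 + t 2 ^ 2)) +
      2 * (1 / 1000 * G1) * s.D +
      (4 - 2 * p) * (H * h / (H + h)) *
        ((s.η 0 - 1 - t 0) ^ 2 + (s.η 1 - t 1) ^ 2 + (s.η 2 - t 2) ^ 2) := by
    rw [← BrFarX.ident p G1 H h s.ξ s.D _ _ _ _ _ _ hne hhdef]
    have e0' : e0 0 = 1 := rfl
    have e1' : e0 1 = 0 := by simp [e0]
    have e2' : e0 2 = 0 := by simp [e0]
    unfold SJ.br
    rw [Fin.sum_univ_three, ← hHdef, ← hGH, ht 0, ht 1, ht 2, e0', e1', e2']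
  rw [key]
  refine BrFarX.ineq p G1 H h s.ξ s.q s.N s.D _ _ _ _ _ _ _ hp hp' hξ hG1 hG1' hH hH' hhdef hs.q0
    ?_ rfl hD hr
  unfold SJ.N
  rw [Fin.sum_univ_three]

end Pool.Agent.Work.MP_440970_an.BH

end

section

open MeasureTheory Set Filter Topology
open scoped ContDiff ENNReal

namespace Pool.Agent.Work.MP_440970_an.BH

namespace BrNearX

/-- The quadratic form in the first coordinate. -/
theorem quad0 (s u : ℝ) : 0 ≤ (10 / 3 - 3002 / 1000) * s ^ 2 + 1996 / 1000 * s +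
    2 * (s - u) ^ 2 - 9 / 100 * (u + 1) ^ 2 + 9598 / 1000 := by
  nlinarith [sq_nonneg (3497 * s - 3000 * u + 1497), sq_nonneg (u + 4), sq_nonneg u]

theorem quad1 (s n : ℝ) : 0 ≤ (10 / 3 - 3002 / 1000) * s ^ 2 + 2 * (s - n) ^ 2 -
    9 / 100 * n ^ 2 := by
  nlinarith [sq_nonneg (3497 * s - 3000 * n), sq_nonneg n]

theorem Qb (n0 n1 n2 s0 s1 s2 k : ℝ) (hk : k ≤ 3002 / 1000) :
    9 / 100 * (n0 ^ 2 + n1 ^ 2 + n2 ^ 2) - 106 / 10 ≤
      2 + 8 * s0 + 10 / 3 * (s0 ^ 2 + s1 ^ 2 + s2 ^ 2) -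
        k * ((1 + s0) ^ 2 + s1 ^ 2 + s2 ^ 2) +
        2 * ((n0 - 1 - s0) ^ 2 + (n1 - s1) ^ 2 + (n2 - s2) ^ 2) := by
  have h0 := quad0 s0 (n0 - 1)
  have h1 := quad1 s1 n1
  have h2 := quad1 s2 n2
  have hM : 0 ≤ (1 + s0) ^ 2 + s1 ^ 2 + s2 ^ 2 := by positivity
  have h3 : 0 ≤ (3002 / 1000 - k) * ((1 + s0) ^ 2 + s1 ^ 2 + s2 ^ 2) :=
    mul_nonneg (by linarith) hM
  linarith

theorem divb (n0 n1 n2 s0 s1 s2 x c H p : ℝ) (hp2 : p ≤ 1 / 2) (hx : 0 ≤ x)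
    (hc : 0 ≤ c) (hcx : c * x ≤ 1 / 4) (hH : 5 / 8 ≤ H) :
    (1 - p / 2) * ((2 * H * n0 + c * (2 * x + 2 * x * s0)) ^ 2 +
      (2 * H * n1 + c * (2 * x * s1)) ^ 2 + (2 * H * n2 + c * (2 * x * s2)) ^ 2) / (H + c * x) ≤
    (4 - 2 * p) * (H * (n0 ^ 2 + n1 ^ 2 + n2 ^ 2) +
      c * x * ((1 + s0) ^ 2 + s1 ^ 2 + s2 ^ 2)) -
      2 * (c * x) * ((n0 - 1 - s0) ^ 2 + (n1 - s1) ^ 2 + (n2 - s2) ^ 2) := by
  have hh : 0 ≤ c * x := mul_nonneg hc hx
  rw [div_le_iff₀ (by linarith)]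
  have hT : 0 ≤ (n0 - 1 - s0) ^ 2 + (n1 - s1) ^ 2 + (n2 - s2) ^ 2 := by positivity
  have h1 : 0 ≤ (c * x * ((n0 - 1 - s0) ^ 2 + (n1 - s1) ^ 2 + (n2 - s2) ^ 2)) *
      ((4 - 2 * p) * H - 2 * (H + c * x)) := by
    refine mul_nonneg (mul_nonneg hh hT) ?_
    have h0 : 0 ≤ (1 - 2 * p) * H := mul_nonneg (by linarith) (by linarith)
    linarith
  have h2 : ((4 - 2 * p) * (H * (n0 ^ 2 + n1 ^ 2 + n2 ^ 2) +
      c * x * ((1 + s0) ^ 2 + s1 ^ 2 + s2 ^ 2)) -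
      2 * (c * x) * ((n0 - 1 - s0) ^ 2 + (n1 - s1) ^ 2 + (n2 - s2) ^ 2)) * (H + c * x) =
      (1 - p / 2) * ((2 * H * n0 + c * (2 * x + 2 * x * s0)) ^ 2 +
      (2 * H * n1 + c * (2 * x * s1)) ^ 2 + (2 * H * n2 + c * (2 * x * s2)) ^ 2) +
      (c * x * ((n0 - 1 - s0) ^ 2 + (n1 - s1) ^ 2 + (n2 - s2) ^ 2)) *
      ((4 - 2 * p) * H - 2 * (H + c * x)) := by
    ring
  rw [h2]
  linarith

theorem core (n0 n1 n2 s0 s1 s2 x D c H p : ℝ) (hp : 499 / 1000 ≤ p) (hp2 : p ≤ 1 / 2)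
    (hx : 1000 ≤ x) (hc : 0 ≤ c) (hcx : c * x ≤ 1 / 4) (hH : 5 / 8 ≤ H) (hH1 : H ≤ 1)
    (hD : 5 / 3 * x * (s0 ^ 2 + s1 ^ 2 + s2 ^ 2) ≤ D)
    (hq : 0 ≤ x - 3 / 2 * (n0 ^ 2 + n1 ^ 2 + n2 ^ 2)) :
    x - 3 / 2 * (n0 ^ 2 + n1 ^ 2 + n2 ^ 2) - 3 * (1 / 2 - p) * (n0 ^ 2 + n1 ^ 2 + n2 ^ 2) ≤
      2 * H * x + c * (2 * x + 8 * x * s0 + 2 * D) -
      (1 - p / 2) * ((2 * H * n0 + c * (2 * x + 2 * x * s0)) ^ 2 +
      (2 * H * n1 + c * (2 * x * s1)) ^ 2 + (2 * H * n2 + c * (2 * x * s2)) ^ 2) /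
        (H + c * x) := by
  have h1 := divb n0 n1 n2 s0 s1 s2 x c H p hp2 (by linarith) hc hcx hH
  have h2 := Qb n0 n1 n2 s0 s1 s2 (4 - 2 * p) (by linarith)
  have hN : 0 ≤ n0 ^ 2 + n1 ^ 2 + n2 ^ 2 := by positivity
  have hh : 0 ≤ c * x := mul_nonneg hc (by linarith)
  have h3 : c * (5 / 3 * x * (s0 ^ 2 + s1 ^ 2 + s2 ^ 2)) ≤ c * D :=
    mul_le_mul_of_nonneg_left hD hc
  refine le_trans ?_ (sub_le_sub_left h1 _)
  generalize hNd : n0 ^ 2 + n1 ^ 2 + n2 ^ 2 = N at *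
  generalize hSd : s0 ^ 2 + s1 ^ 2 + s2 ^ 2 = S at *
  generalize hMd : (1 + s0) ^ 2 + s1 ^ 2 + s2 ^ 2 = M at *
  generalize hTd : (n0 - 1 - s0) ^ 2 + (n1 - s1) ^ 2 + (n2 - s2) ^ 2 = T at *
  have h4 : 2 * H * x + c * (2 * x + 8 * x * s0 + 2 * D) -
      ((4 - 2 * p) * (H * N + c * x * M) - 2 * (c * x) * T) =
      H * (2 * (x - 3 / 2 * N) - 2 * ((1 / 2 - p) * N)) +
      c * x * (2 + 8 * s0 + 10 / 3 * S - (4 - 2 * p) * M + 2 * T) +
      2 * (c * D - c * (5 / 3 * x * S)) := by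
    ring
  rw [h4]
  have h5 : 5 / 4 * (x - 3 / 2 * N) ≤ H * (2 * (x - 3 / 2 * N)) := by
    have h0 : 0 ≤ (H - 5 / 8) * (x - 3 / 2 * N) := mul_nonneg (by linarith) hq
    linarith
  have hd : 0 ≤ (1 / 2 - p) * N := mul_nonneg (by linarith) hN
  have h6 : H * (2 * ((1 / 2 - p) * N)) ≤ 2 * ((1 / 2 - p) * N) := by
    have h0 : 0 ≤ (1 - H) * ((1 / 2 - p) * N) := mul_nonneg (by linarith) hd
    linarith
  have h7 : H * (2 * (x - 3 / 2 * N) - 2 * ((1 / 2 - p) * N)) =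
      H * (2 * (x - 3 / 2 * N)) - H * (2 * ((1 / 2 - p) * N)) := by ring
  rw [h7]
  have h8 : c * x * (9 / 100 * N - 106 / 10) ≤
      c * x * (2 + 8 * s0 + 10 / 3 * S - (4 - 2 * p) * M + 2 * T) :=
    mul_le_mul_of_nonneg_left h2 hh
  have h9 : 3 * (1 / 2 - p) * N = 3 * ((1 / 2 - p) * N) := by ring
  rw [h9]
  rcases le_or_gt 120 N with hN2 | hN2
  · have h10 : 0 ≤ c * x * (9 / 100 * N - 106 / 10) := mul_nonneg hh (by linarith)
    linarith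
  · have h10 : -(265 / 100) ≤ c * x * (9 / 100 * N - 106 / 10) := by
      have h11 : 0 ≤ c * x * (9 / 100 * N) := mul_nonneg hh (by linarith)
      have h12 : c * x * (9 / 100 * N - 106 / 10) =
        c * x * (9 / 100 * N) - 106 / 10 * (c * x) := by ring
      rw [h12]
      linarith
    linarith

end BrNearX

theorem pr_BrNear : S_BrNear := by
  intro s hs p G G1 hp1 hp2 hx hG hG1 hG2 hH hH1 hlow
  have hN0 : 0 ≤ s.N := Finset.sum_nonneg fun _ _ => sq_nonneg _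
  have hq0 : 0 ≤ s.q := hs.q0
  have hqd : s.q = s.ξ - 3 / 2 * s.N := rfl
  have hNd : s.N = s.η 0 ^ 2 + s.η 1 ^ 2 + s.η 2 ^ 2 := by
    unfold SJ.N
    rw [Fin.sum_univ_three]
  have hx0 : 0 ≤ s.ξ := by
    rw [hqd] at hq0
    linarith
  rcases le_or_gt s.ξ 1000 with hc | hc
  · have hG10 : G1 = 0 := hlow hc
    subst hG10
    have hG11 : G = 1 := by linarith
    subst hG11
    have h1 : s.br p (1 / 1000) 1 0 = 2 * s.ξ - (4 - 2 * p) * s.N := by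
      unfold SJ.br
      rw [hNd]
      simp only [Fin.sum_univ_three]
      ring
    rw [h1, hqd]
    have hd : 0 ≤ (1 / 2 - p) * s.N := mul_nonneg (by linarith) hN0
    rw [hqd] at hq0
    linarith
  · have hxp : (0 : ℝ) < s.ξ := by linarith
    obtain ⟨y0, hy0⟩ : ∃ y0, s.y 0 = 2 * s.ξ * y0 := ⟨s.y 0 / (2 * s.ξ), by field_simp⟩
    obtain ⟨y1, hy1⟩ : ∃ y1, s.y 1 = 2 * s.ξ * y1 := ⟨s.y 1 / (2 * s.ξ), by field_simp⟩
    obtain ⟨y2, hy2⟩ : ∃ y2, s.y 2 = 2 * s.ξ * y2 := ⟨s.y 2 / (2 * s.ξ), by field_simp⟩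
    have hky := hs.ky
    rw [Fin.sum_univ_three, hy0, hy1, hy2] at hky
    have hD : 5 / 3 * s.ξ * (y0 ^ 2 + y1 ^ 2 + y2 ^ 2) ≤ s.D := by
      have h1 : s.ξ * (5 / 3 * s.ξ * (y0 ^ 2 + y1 ^ 2 + y2 ^ 2)) ≤ s.ξ * s.D := by
        have h2 : s.ξ * (5 / 3 * s.ξ * (y0 ^ 2 + y1 ^ 2 + y2 ^ 2)) = 5 / 12 *
          ((2 * s.ξ * y0) ^ 2 + (2 * s.ξ * y1) ^ 2 + (2 * s.ξ * y2) ^ 2) := by ring
        rw [h2]
        linarith
      exact le_of_mul_le_mul_left h1 hxp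
    have hcx : 1 / 1000 * G1 * s.ξ ≤ 1 / 4 := by
      have h1 : G1 * s.ξ ≤ 1 / 8 * 2000 := mul_le_mul hG2 hx hx0 (by norm_num)
      linarith
    have key := BrNearX.core (s.η 0) (s.η 1) (s.η 2) y0 y1 y2 s.ξ s.D (1 / 1000 * G1)
      (G - 1 / 1000 * s.ξ * G1) p hp1 hp2 hc.le (by linarith) hcx hH hH1 hD
      (by rw [← hNd, ← hqd]; exact hq0)
    rw [← hNd, ← hqd] at key
    refine key.trans (le_of_eq ?_)
    have e1 : G - 1 / 1000 * s.ξ * G1 + 1 / 1000 * G1 * s.ξ = G := by ring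
    have f0 : e0 0 = 1 := if_pos rfl
    have f1 : e0 1 = 0 := if_neg (by decide)
    have f2 : e0 2 = 0 := if_neg (by decide)
    unfold SJ.br
    rw [e1, Fin.sum_univ_three, hy0, hy1, hy2, f0, f1, f2]
    ring

end Pool.Agent.Work.MP_440970_an.BH

end

section

open MeasureTheory Set Filter Topology
open scoped ContDiff ENNReal

namespace Pool.Agent.Work.MP_440970_an.BH

namespace CutX

/-- the cutoff -/
noncomputable def ch (u : ℝ) : ℝ := Real.smoothTransition (3 - u)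

theorem ch_contDiff (n : ℕ∞) : ContDiff ℝ n ch :=
  Real.smoothTransition.contDiff.comp (contDiff_const.sub contDiff_id)

theorem ch_one {u : ℝ} (h : u ≤ 2) : ch u = 1 :=
  Real.smoothTransition.one_of_one_le (by linarith)

theorem ch_zero {u : ℝ} (h : 3 ≤ u) : ch u = 0 :=
  Real.smoothTransition.zero_of_nonpos (by linarith)

theorem ch_abs (u : ℝ) : |ch u| ≤ 1 := by
  unfold ch
  rw [abs_of_nonneg (Real.smoothTransition.nonneg _)]
  exact Real.smoothTransition.le_one _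

/-- a continuous function vanishing outside of `[2,3]` is bounded -/
theorem bdd {f : ℝ → ℝ} (hc : Continuous f) (h : ∀ u, u < 2 ∨ 3 < u → f u = 0) :
    ∃ C, ∀ u, |f u| ≤ C := by
  obtain ⟨C, hC⟩ := isCompact_Icc.exists_bound_of_continuousOn (s := Icc (2 : ℝ) 3)
    hc.continuousOn
  refine ⟨max C 0, fun u => ?_⟩
  by_cases hu : u ∈ Icc (2 : ℝ) 3
  · exact (hC u hu).trans (le_max_left _ _)
  · have h1 : f u = 0 := by
      apply h
      simp only [mem_Icc, not_and_or, not_le] at hu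
      exact hu
    rw [h1, abs_zero]
    exact le_max_right _ _

theorem deriv_out (u : ℝ) (h : u < 2 ∨ 3 < u) : deriv ch u = 0 := by
  rcases h with h | h
  · have h1 : ch =ᶠ[𝓝 u] fun _ => 1 := by
      filter_upwards [Iio_mem_nhds h] with x hx
      exact ch_one (le_of_lt hx)
    rw [h1.deriv_eq, deriv_const]
  · have h1 : ch =ᶠ[𝓝 u] fun _ => 0 := by
      filter_upwards [Ioi_mem_nhds h] with x hx
      exact ch_zero (le_of_lt hx)
    rw [h1.deriv_eq, deriv_const]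

theorem deriv2_out (u : ℝ) (h : u < 2 ∨ 3 < u) : deriv (deriv ch) u = 0 := by
  have h1 : deriv ch =ᶠ[𝓝 u] fun _ => 0 := by
    rcases h with h | h
    · filter_upwards [Iio_mem_nhds h] with x hx
      exact deriv_out x (Or.inl hx)
    · filter_upwards [Ioi_mem_nhds h] with x hx
      exact deriv_out x (Or.inr hx)
  rw [h1.deriv_eq, deriv_const]

end CutX

theorem pr_Cut : S_Cut := by
  have h2 : ContDiff ℝ 2 CutX.ch := CutX.ch_contDiff 2
  have h1 : ContDiff ℝ 1 (deriv CutX.ch) := by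
    have h3 : ContDiff ℝ (1 + 1) CutX.ch := by
      have e : (1 + 1 : WithTop ℕ∞) = 2 := one_add_one_eq_two
      rw [e]; exact h2
    exact (contDiff_succ_iff_deriv.mp h3).2.2
  obtain ⟨C1, hC1⟩ := CutX.bdd h1.continuous CutX.deriv_out
  obtain ⟨C2, hC2⟩ := CutX.bdd (h1.continuous_deriv le_rfl) CutX.deriv2_out
  refine ⟨CutX.ch, max 1 (max C1 C2), h2, fun u hu => CutX.ch_one hu,
    fun u hu => CutX.ch_zero hu, fun u => ⟨?_, ?_, ?_⟩⟩
  · exact (CutX.ch_abs u).trans (le_max_left _ _)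
  · exact (hC1 u).trans ((le_max_left _ _).trans (le_max_right _ _))
  · exact (hC2 u).trans ((le_max_right _ _).trans (le_max_right _ _))

end Pool.Agent.Work.MP_440970_an.BH

end

section

/-!
# For generic constants the field has no zeros
-/

open MeasureTheory Set Filter Topology
open scoped ContDiff ENNReal

namespace Pool.Agent.Work.MP_440970_an.BH

namespace DenseX

lemma GF_split {n : ℕ} (a c : Fin n → ℂ) (v : Fin 4 → ℝ) (α : Fin 4) (x : E3) :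
    GF a c v α x = GF a c 0 α x + v α := by
  unfold GF
  simp

lemma convex_half : Convex ℝ {x : E3 | 0 < x 0} :=
  convex_halfSpace_gt ⟨fun _ _ => rfl, fun _ _ => rfl⟩ 0

lemma smooth (h1 : S_GFfld) {n : ℕ} (a c : Fin n → ℂ) :
    ContDiffOn ℝ 1 (fun (x : E3) (α : Fin 4) => -GF a c 0 α x) {x : E3 | 0 < x 0} := by
  rw [contDiffOn_pi]
  intro α
  exact (((h1 n a c 0).smooth α).of_le (by norm_cast)).neg

lemma dense (h1 : S_GFfld) {n : ℕ} (a c : Fin n → ℂ) :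
    Dense ((fun (x : E3) (α : Fin 4) => -GF a c 0 α x) '' {x : E3 | 0 < x 0})ᶜ := by
  refine (smooth h1 a c).dense_compl_image_of_dimH_lt_finrank convex_half subset_rfl ?_
  have h2 : dimH {x : E3 | 0 < x 0} ≤ 3 := by
    have := dimH_mono (subset_univ {x : E3 | 0 < x 0})
    rw [Real.dimH_univ_pi_fin] at this
    exact_mod_cast this
  refine lt_of_le_of_lt h2 ?_
  rw [Module.finrank_fin_fun]
  norm_num

end DenseX

open DenseX in
theorem pr_Dense (h1 : S_GFfld) : S_Dense := by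
  intro n a c v ε hε
  obtain ⟨v', hv', hd⟩ := (dense h1 a c).exists_dist_lt v hε
  refine ⟨v', fun α => ?_, fun x hx => ?_⟩
  · have h2 : dist (v α) (v' α) ≤ dist v v' := dist_le_pi_dist v v' α
    rw [Real.dist_eq, abs_sub_comm] at h2
    exact lt_of_le_of_lt h2 hd
  · have h0 : 0 ≤ AA (GF a c v') x := Finset.sum_nonneg fun α _ => sq_nonneg _
    refine lt_of_le_of_ne h0 fun h => hv' ⟨x, hx, ?_⟩
    unfold AA at h
    have h3 := (Finset.sum_eq_zero_iff_of_nonneg fun α _ => sq_nonneg (GF a c v' α x)).1 h.symm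
    funext α
    have h4 : GF a c v' α x = 0 := by
      have := h3 α (Finset.mem_univ α)
      exact pow_eq_zero_iff (two_ne_zero) |>.1 this
    rw [GF_split] at h4
    show -GF a c 0 α x = v' α
    linarith

end Pool.Agent.Work.MP_440970_an.BH

end

section

/-!
# MP_440970_an, module BH, item DivY: the divergence of the vector field `YY`
-/

set_option autoImplicit false

open MeasureTheory Set Filter Topology
open scoped ContDiff ENNReal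

namespace Pool.Agent.Work.MP_440970_an.BH

namespace DivYX

/-- the gradient of `v i` -/
noncomputable def gv (s : SJ) (i m : Fin 3) : ℝ :=
  ∑ k, s.dv i k * (e0 m * s.η k + s.H m k)

/-- the data of `N` -/
theorem njN {F : Fin 4 → E3 → ℝ} {x : E3} {L : Fin 3 → ℝ}
    (h : ∀ k, NJ (fun y => (sj F y).η k) x ((sj F x).η k)
      (fun i => e0 i * (sj F x).η k + (sj F x).H i k) (L k)) :
    ∃ l, NJ (fun y => (sj F y).N) x (sj F x).N
      (fun m => ∑ k, 2 * ((sj F x).η k * (e0 m * (sj F x).η k + (sj F x).H m k))) l := by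
  have h1 := NJ.sum (Finset.univ : Finset (Fin 3)) (x := x) fun k _ => (h k).mul (h k)
  have hf : (fun y => (sj F y).N) = fun y => ∑ k, (sj F y).η k * (sj F y).η k := by
    funext y
    unfold SJ.N
    exact Finset.sum_congr rfl fun k _ => sq _
  rw [hf]
  refine ⟨_, h1.congr ?_ ?_ rfl⟩
  · unfold SJ.N
    exact Finset.sum_congr rfl fun k _ => (sq _).symm
  · intro i
    exact Finset.sum_congr rfl fun k _ => by ring

/-- the data of `v i` -/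
theorem njv {F : Fin 4 → E3 → ℝ} {x : E3} {L : Fin 3 → ℝ}
    (h : ∀ k, NJ (fun y => (sj F y).η k) x ((sj F x).η k)
      (fun i => e0 i * (sj F x).η k + (sj F x).H i k) (L k)) (i : Fin 3) :
    ∃ l, NJ (fun y => (sj F y).v i) x ((sj F x).v i) (gv (sj F x) i) l := by
  obtain ⟨l, hN⟩ := njN h
  have h1 := ((hN.const_mul (1 / 2 * e0 i)).add (((h 0).mul (h i)).const_mul 6)).add
    (hN.mul (h i))
  have hf : (fun y => (sj F y).v i) = fun y => 1 / 2 * e0 i * (sj F y).N +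
      6 * ((sj F y).η 0 * (sj F y).η i) + (sj F y).N * (sj F y).η i := by
    funext y
    unfold SJ.v
    ring
  rw [hf]
  refine ⟨_, h1.congr ?_ ?_ rfl⟩
  · unfold SJ.v
    ring
  · intro m
    unfold gv SJ.dv
    generalize sj F x = s
    unfold SJ.N
    simp only [Fin.sum_univ_three]
    fin_cases i <;> simp [e0] <;> ring

end DivYX

theorem pr_DivY (h1 : S_NJw) (h2 : S_NJxi) (h3 : S_NJeta) : S_DivY := by
  intro F U hF x hx hA p χ hχ
  have hw := h1 F U hF x hx hA p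
  have hxi := h2 F U hF x hx hA
  have heta := h3 F U hF x hx hA
  have hd : ∀ u, HasDerivAt χ (deriv χ u) u := fun u =>
    (hχ.differentiable (by norm_num) u).hasDerivAt
  have hd2 : ContDiff ℝ 1 (deriv χ) :=
    (contDiff_succ_iff_deriv.mp (show ContDiff ℝ (1 + 1) χ from by
      norm_num
      exact hχ)).2.2
  have hc := NJ.comp (φ := χ) (φ1 := deriv χ) (φ2 := deriv (deriv χ) (sj F x).ξ) hxi
    hχ.contDiffAt (Eventually.of_forall hd)
    (hd2.differentiable (by norm_num) _).hasDerivAt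
  have key : ∀ i, ∃ l, NJ (YY p χ F i) x (AA F x ^ (p / 2) * χ (sj F x).ξ * (sj F x).v i)
      (fun m => AA F x ^ (p / 2) * χ (sj F x).ξ * DivYX.gv (sj F x) i m +
        (sj F x).v i * (AA F x ^ (p / 2) * (deriv χ (sj F x).ξ * (sj F x).x1 m) +
          χ (sj F x).ξ * (AA F x ^ (p / 2) * (p * (sj F x).η m)))) l := by
    intro i
    obtain ⟨l, hv⟩ := DivYX.njv heta i
    exact ⟨_, (hw.mul hc).mul hv⟩
  refine ⟨fun i => ?_, ?_⟩
  · obtain ⟨l, hl⟩ := key i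
    exact hl.smooth.of_le (by norm_num)
  · rw [Finset.mul_sum]
    have hg : ∀ i, x 0 * pd i (YY p χ F i) x =
        AA F x ^ (p / 2) * χ (sj F x).ξ * DivYX.gv (sj F x) i i +
        (sj F x).v i * (AA F x ^ (p / 2) * (deriv χ (sj F x).ξ * (sj F x).x1 i) +
          χ (sj F x).ξ * (AA F x ^ (p / 2) * (p * (sj F x).η i))) := by
      intro i
      obtain ⟨l, hl⟩ := key i
      exact hl.grad i
    rw [Finset.sum_congr rfl fun i _ => hg i]
    unfold SJ.EV DivYX.gv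
    simp only [Fin.sum_univ_three]
    ring

end Pool.Agent.Work.MP_440970_an.BH

end

section

open MeasureTheory Set Filter Topology
open scoped ContDiff ENNReal

namespace Pool.Agent.Work.MP_440970_an.BH

namespace DivZX

variable {p : ℝ} {φ ψ χ : ℝ → ℝ} {m : ℝ} {F : Fin 4 → E3 → ℝ} {x : E3}

lemma coord_smooth (n : WithTop ℕ∞) (i : Fin 3) (x : E3) :
    ContDiffAt ℝ n (fun y : E3 => y i) x := (contDiff_apply ℝ ℝ i).contDiffAt

/-- smoothness of `ZZ` at a point -/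
lemma smooth_ZZ (hM : ContDiffAt ℝ 2 (MM p φ ψ F) x) (i : Fin 3)
    (hY : ContDiffAt ℝ 1 (YY p χ F i) x) : ContDiffAt ℝ 1 (ZZ p φ ψ χ m F i) x := by
  have h1 : ContDiffAt ℝ 1 (pd i (MM p φ ψ F)) x := pd_contDiffAt i hM (by norm_num)
  have h2 : ContDiffAt ℝ 1 (MM p φ ψ F) x := hM.of_le (by norm_num)
  exact ((((coord_smooth 1 0 x).mul h1).sub ((h2.sub contDiffAt_const).mul contDiffAt_const)).add
    hY)

/-- the diagonal derivatives of `ZZ` -/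
lemma pd_ZZ (hM : ContDiffAt ℝ 2 (MM p φ ψ F) x) (i : Fin 3)
    (hY : ContDiffAt ℝ 1 (YY p χ F i) x) :
    pd i (ZZ p φ ψ χ m F i) x = x 0 * pd i (pd i (MM p φ ψ F)) x + pd i (YY p χ F i) x := by
  have h1 : DifferentiableAt ℝ (pd i (MM p φ ψ F)) x := diff_pd i hM
  have h2 : DifferentiableAt ℝ (MM p φ ψ F) x := hM.differentiableAt (by norm_num)
  have h3 : DifferentiableAt ℝ (fun y : E3 => y 0) x :=
    (coord_smooth 1 0 x).differentiableAt (by norm_num)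
  have h4 : DifferentiableAt ℝ (YY p χ F i) x := hY.differentiableAt (by norm_num)
  have h5 : DifferentiableAt ℝ (fun y => y 0 * pd i (MM p φ ψ F) y) x := h3.mul h1
  have h6 : DifferentiableAt ℝ (fun y => MM p φ ψ F y - m) x := h2.sub (differentiableAt_const m)
  have h7 : DifferentiableAt ℝ (fun y => (MM p φ ψ F y - m) * e0 i) x :=
    h6.mul (differentiableAt_const _)
  have h8 : DifferentiableAt ℝ (fun y => y 0 * pd i (MM p φ ψ F) y -
      (MM p φ ψ F y - m) * e0 i) x := h5.sub h7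
  have e : pd i (ZZ p φ ψ χ m F i) x =
      pd i (fun y => (y 0 * pd i (MM p φ ψ F) y - (MM p φ ψ F y - m) * e0 i) +
        YY p χ F i y) x := rfl
  rw [e, pd_add i h8 h4, pd_sub i h5 h7, pd_mul i h3 h1,
    pd_mul i h6 (differentiableAt_const _), pd_const, pd_coord, pd_sub i h2
    (differentiableAt_const _), pd_const]
  have e2 : e0 i = if i = 0 then (1 : ℝ) else 0 := rfl
  rw [e2]
  ring

/-- the sum of the diagonal derivatives is continuous -/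
lemma cont_div (h : ∀ i, ContDiffAt ℝ 1 (ZZ p φ ψ χ m F i) x) :
    ContinuousAt (fun y => ∑ i, pd i (ZZ p φ ψ χ m F i) y) x := by
  have h2 : ∀ i : Fin 3, ContinuousAt (pd i (ZZ p φ ψ χ m F i)) x := fun i =>
    (pd_contDiffAt (m := 0) i (h i) (by norm_num)).continuousAt
  exact tendsto_finsetSum _ fun i _ => h2 i

end DivZX

open DivZX

theorem pr_DivZ (h1 : S_LapM) (h2 : S_DivY) (h3 : S_JetF) : S_DivZ := by
  intro p φ ψ χ m hC F U hF hA
  have hM : ∀ x ∈ U, ContDiffAt ℝ 2 (MM p φ ψ F) x := fun x hx =>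
    (h1 F U hF x hx (hA x hx) p φ ψ hC.cφ hC.cψ).smooth
  have hY : ∀ x ∈ U, ∀ i, ContDiffAt ℝ 1 (YY p χ F i) x := fun x hx =>
    (h2 F U hF x hx (hA x hx) p χ hC.cχ).1
  have hZ : ∀ x ∈ U, ∀ i, ContDiffAt ℝ 1 (ZZ p φ ψ χ m F i) x := fun x hx i =>
    smooth_ZZ (hM x hx) i (hY x hx i)
  have hpos : ∀ x ∈ U, 0 < x 0 → 0 ≤ ∑ i, pd i (ZZ p φ ψ χ m F i) x := by
    intro x hx hx0
    have e : ∑ i, pd i (ZZ p φ ψ χ m F i) x =
        x 0 * ∑ i, pd i (pd i (MM p φ ψ F)) x + ∑ i, pd i (YY p χ F i) x := by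
      rw [Finset.mul_sum, ← Finset.sum_add_distrib]
      exact Finset.sum_congr rfl fun i _ => pd_ZZ (hM x hx) i (hY x hx i)
    have l1 := (h1 F U hF x hx (hA x hx) p φ ψ hC.cφ hC.cψ).lap
    have l2 := (h2 F U hF x hx (hA x hx) p χ hC.cχ).2
    have hw : 0 < AA F x ^ (p / 2) := Real.rpow_pos_of_pos (hA x hx) _
    have hc := hC.pos (sj F x) (h3 F U hF x hx (hA x hx))
    have key : 0 ≤ x 0 * ∑ i, pd i (ZZ p φ ψ χ m F i) x := by
      rw [e, mul_add, l2, ← mul_assoc, ← sq, l1, ← mul_add]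
      exact mul_nonneg hw.le hc
    exact nonneg_of_mul_nonneg_right key hx0
  refine ⟨fun i x hx => (hZ x hx i).contDiffWithinAt, ?_, ?_⟩
  · intro x hx hx0
    rcases hx0.lt_or_eq with hx0 | hx0
    · exact hpos x hx hx0
    · have hc := cont_div (hZ x hx)
      have hg : Tendsto (fun s : ℝ => x + s • (Pi.single 0 1 : E3)) (𝓝[>] 0) (𝓝 x) := by
        have h : Continuous (fun s : ℝ => x + s • (Pi.single 0 1 : E3)) := by fun_prop
        have h' := h.tendsto 0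
        simp only [zero_smul, add_zero] at h'
        exact h'.mono_left nhdsWithin_le_nhds
      have ht := hc.tendsto.comp hg
      refine ge_of_tendsto ht ?_
      have hU : ∀ᶠ s : ℝ in 𝓝[>] 0, x + s • (Pi.single 0 1 : E3) ∈ U :=
        hg.eventually (hF.op.mem_nhds hx)
      filter_upwards [hU, self_mem_nhdsWithin] with s hs hs0
      refine hpos _ hs ?_
      have hs1 : (0 : ℝ) < s := hs0
      simp only [Pi.add_apply, Pi.smul_apply, Pi.single_eq_same, smul_eq_mul, mul_one]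
      rw [← hx0]
      linarith
  · intro x hx hx0
    have hη : ∀ k, (sj F x).η k = 0 := by
      intro k
      show x 0 * _ / _ = 0
      rw [hx0, zero_mul, zero_div]
    have hξ : (sj F x).ξ = 0 := by
      show x 0 ^ 2 * _ / _ = 0
      rw [hx0]
      simp
    have hN : (sj F x).N = 0 := by
      unfold SJ.N
      simp [hη]
    have hq : (sj F x).q = 0 := by
      unfold SJ.q
      rw [hξ, hN]
      ring
    have hv : (sj F x).v 0 = 0 := by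
      unfold SJ.v
      rw [hN, hη]
      ring
    have hMM : MM p φ ψ F x = AA F x ^ (p / 2) := by
      unfold MM
      rw [hξ, hq, hC.φ1 0 (by norm_num)]
      ring
    have hYY : YY p χ F 0 x = 0 := by
      unfold YY
      rw [hv, mul_zero]
    unfold ZZ
    rw [hx0, hMM, hYY]
    have e2 : e0 (0 : Fin 3) = 1 := by simp [e0]
    rw [e2]
    ring

end Pool.Agent.Work.MP_440970_an.BH

end

section

open MeasureTheory Set Filter Topology
open scoped ContDiff ENNReal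

namespace Pool.Agent.Work.MP_440970_an.BH

/-- Item EPid. -/
theorem pr_EPid : S_EPid := by
  intro s p b G G1 G2 hG
  have hG0 : G ≠ 0 := ne_of_gt hG
  have e1 : G ^ (p / 2 - 1) = G * G ^ (p / 2 - 2) := by
    have : G ^ (p / 2 - 1) = G ^ ((1 : ℝ) + (p / 2 - 2)) := by congr 1; ring
    rw [this, Real.rpow_add hG, Real.rpow_one]
  have e2 : G ^ (p / 2) = G ^ 2 * G ^ (p / 2 - 2) := by
    have : G ^ (p / 2) = G ^ ((2 : ℝ) + (p / 2 - 2)) := by congr 1; ring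
    rw [this, Real.rpow_add hG]
    norm_num
  rw [e1, e2]
  generalize G ^ (p / 2 - 2) = X
  have h0 : e0 0 = 1 := by simp [e0]
  have h1 : e0 1 = 0 := by simp [e0]
  have h2 : e0 2 = 0 := by simp [e0]
  simp only [SJ.EP, SJ.br, SJ.Lx, SJ.x1, SJ.xp, SJ.q, SJ.N, Fin.sum_univ_three, h0, h1, h2]
  field_simp
  ring

end Pool.Agent.Work.MP_440970_an.BH

end

section

/-!
# EQnear: the lower bound for `EQ` in the region where `ψ` is constant
-/

open MeasureTheory Set Filter Topology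
open scoped ContDiff

namespace Pool.Agent.Work.MP_440970_an.BH

namespace EQnearX

theorem eq_EQ (p : ℝ) (s : SJ) :
    s.EQ p 1 0 0 = s.B0 + s.q * (2 + p * s.q - p * (1 / 2 - p) * s.N + 4 * p * s.η 0) +
      4 * s.qp 0 + (2 * p - 7) * (s.η 0 * s.qp 0 + s.η 1 * s.qp 1 + s.η 2 * s.qp 2) := by
  unfold SJ.EQ SJ.Lq SJ.q1
  simp only [Fin.sum_univ_three, e0]
  have h1 : (1 : Fin 3) ≠ 0 := by decide
  have h2 : (2 : Fin 3) ≠ 0 := by decide
  simp only [if_neg h1, if_neg h2, if_true]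
  ring

/-- AM-GM -/
theorem amgm {a x y : ℝ} (hx : 0 ≤ x) (hy : 0 ≤ y) (h : a ^ 2 ≤ 4 * x * y) : |a| ≤ x + y := by
  apply abs_le_of_sq_le_sq _ (by linarith)
  have := sq_nonneg (x - y)
  linarith

theorem mul_bd {a b A : ℝ} (ha : |a| ≤ A) : |a * b| ≤ A * |b| := by
  rw [abs_mul]
  exact mul_le_mul_of_nonneg_right ha (abs_nonneg _)

end EQnearX

open EQnearX in
theorem pr_EQnear : S_EQnear := by
  refine ⟨2000000000, ?_⟩
  intro p s hp0 hp1 hs hξ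
  rw [eq_EQ]
  have hN0 : 0 ≤ s.N := Finset.sum_nonneg fun k _ => sq_nonneg _
  have hq0 := hs.q0
  have hqd : s.q = s.ξ - 3 / 2 * s.N := rfl
  have hN1 : s.N ≤ 2000 := by linarith
  have hq1 : s.q ≤ 3000 := by linarith
  have hNe : s.N = s.η 0 ^ 2 + s.η 1 ^ 2 + s.η 2 ^ 2 := by
    unfold SJ.N
    rw [Fin.sum_univ_three]
  have hBs0 : 0 ≤ s.Bs := Finset.sum_nonneg fun k _ => Finset.sum_nonneg fun j _ => sq_nonneg _
  have hkB := hs.kB
  have hBB0 : 0 ≤ s.BB := by linarith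
  have hBBe : s.BB = s.B0 + 1000 * (s.N + s.q) * s.q := rfl
  have hkq := hs.kq
  rw [Fin.sum_univ_three] at hkq
  have hη : ∀ a : ℝ, a ^ 2 ≤ s.N → |a| ≤ 45 := by
    intro a ha
    apply abs_le_of_sq_le_sq _ (by norm_num)
    linarith
  have s0 := sq_nonneg (s.η 0)
  have s1 := sq_nonneg (s.η 1)
  have s2 := sq_nonneg (s.η 2)
  have t0 := sq_nonneg (s.qp 0)
  have t1 := sq_nonneg (s.qp 1)
  have t2 := sq_nonneg (s.qp 2)
  have η0 := hη _ (show s.η 0 ^ 2 ≤ s.N by linarith)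
  have η1 := hη _ (show s.η 1 ^ 2 ≤ s.N by linarith)
  have η2 := hη _ (show s.η 2 ^ 2 ≤ s.N by linarith)
  have hqp : ∀ a : ℝ, a ^ 2 ≤ 1000 * s.q * s.BB → |a| ≤ 1 / 4000 * s.BB + 1000000 * s.q := by
    intro a ha
    apply amgm (by linarith) (by linarith)
    linarith
  have q0 := hqp _ (show s.qp 0 ^ 2 ≤ 1000 * s.q * s.BB by linarith)
  have q1 := hqp _ (show s.qp 1 ^ 2 ≤ 1000 * s.q * s.BB by linarith)
  have q2 := hqp _ (show s.qp 2 ^ 2 ≤ 1000 * s.q * s.BB by linarith)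
  have m0 := mul_bd (b := s.qp 0) η0
  have m1 := mul_bd (b := s.qp 1) η1
  have m2 := mul_bd (b := s.qp 2) η2
  -- the terms
  have hS : |s.η 0 * s.qp 0 + s.η 1 * s.qp 1 + s.η 2 * s.qp 2| ≤
      135 * (1 / 4000 * s.BB + 1000000 * s.q) := by
    refine (abs_add_three _ _ _).trans ?_
    linarith
  have hT : |(2 * p - 7) * (s.η 0 * s.qp 0 + s.η 1 * s.qp 1 + s.η 2 * s.qp 2)| ≤
      7 * (135 * (1 / 4000 * s.BB + 1000000 * s.q)) := by
    rw [abs_mul]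
    refine mul_le_mul ?_ hS (abs_nonneg _) (by norm_num)
    rw [abs_le]
    constructor <;> linarith
  have hT' := (abs_le.1 hT).1
  have h4 := (abs_le.1 q0).1
  have hb : -1000 ≤ 2 + p * s.q - p * (1 / 2 - p) * s.N + 4 * p * s.η 0 := by
    have a1 : 0 ≤ p * s.q := mul_nonneg hp0 hq0
    have a2 : p * (1 / 2 - p) ≤ 1 / 2 * (1 / 2) :=
      mul_le_mul hp1 (by linarith) (by linarith) (by norm_num)
    have a3 : p * (1 / 2 - p) * s.N ≤ 1 / 2 * (1 / 2) * 2000 :=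
      mul_le_mul a2 hN1 hN0 (by norm_num)
    have a4 : |p * s.η 0| ≤ 1 / 2 * 45 := by
      rw [abs_mul]
      refine mul_le_mul ?_ η0 (abs_nonneg _) (by norm_num)
      rw [abs_of_nonneg hp0]
      exact hp1
    have a5 := (abs_le.1 a4).1
    linarith
  have hb2 : -1000 * s.q ≤
      s.q * (2 + p * s.q - p * (1 / 2 - p) * s.N + 4 * p * s.η 0) := by
    have := mul_le_mul_of_nonneg_left hb hq0
    linarith
  have hb3 : (s.N + s.q) * s.q ≤ 5000 * s.q := mul_le_mul_of_nonneg_right (by linarith) hq0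
  linarith

end Pool.Agent.Work.MP_440970_an.BH

end

section

set_option autoImplicit false

/-!
# The crude bound for the divergence term
-/

open MeasureTheory Set Filter Topology
open scoped ContDiff ENNReal

namespace Pool.Agent.Work.MP_440970_an.BH

namespace EVcrudeX

theorem sum3 (f : Fin 3 → ℝ) (B : ℝ) (h : ∀ k, |f k| ≤ B) : |∑ k, f k| ≤ 3 * B := by
  calc |∑ k, f k| ≤ ∑ k, |f k| := Finset.abs_sum_le_sum_abs _ _
    _ ≤ ∑ _k : Fin 3, B := Finset.sum_le_sum fun k _ => h k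
    _ = 3 * B := by simp

theorem mulb (a b A B : ℝ) (ha : |a| ≤ A) (hb : |b| ≤ B) : |a * b| ≤ A * B := by
  rw [abs_mul]
  exact mul_le_mul ha hb (abs_nonneg _) ((abs_nonneg _).trans ha)

theorem e0b (k : Fin 3) : |e0 k| ≤ 1 := by
  unfold e0
  split_ifs <;> simp

theorem addb (a b A B : ℝ) (ha : |a| ≤ A) (hb : |b| ≤ B) : |a + b| ≤ A + B :=
  (abs_add_le a b).trans (add_le_add ha hb)

theorem subb (a b A B : ℝ) (ha : |a| ≤ A) (hb : |b| ≤ B) : |a - b| ≤ A + B :=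
  (abs_sub a b).trans (add_le_add ha hb)

theorem N0 (s : SJ) : 0 ≤ s.N := Finset.sum_nonneg fun _ _ => sq_nonneg _

theorem Nle (s : SJ) (hs : IsSJ s) (hx : s.ξ ≤ 3000) : s.N ≤ 2000 ∧ s.q ≤ 3000 ∧ 0 ≤ s.ξ := by
  have h1 := hs.q0
  have h2 := N0 s
  have h3 : s.q = s.ξ - 3 / 2 * s.N := rfl
  refine ⟨by linarith, by linarith, by linarith⟩

theorem eta (s : SJ) (hs : IsSJ s) (hx : s.ξ ≤ 3000) (k : Fin 3) : |s.η k| ≤ 45 := by
  have h := (Nle s hs hx).1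
  have h2 : s.η k ^ 2 ≤ s.N :=
    Finset.single_le_sum (f := fun k => s.η k ^ 2) (fun _ _ => sq_nonneg _) (Finset.mem_univ k)
  apply abs_le_of_sq_le_sq _ (by norm_num)
  linarith

theorem vb (s : SJ) (hs : IsSJ s) (hx : s.ξ ≤ 3000) (i : Fin 3) : |s.v i| ≤ 1000000 := by
  have hN : |s.N| ≤ 2000 := by
    rw [abs_of_nonneg (N0 s)]
    exact (Nle s hs hx).1
  have hN2 : |s.N / 2| ≤ 1000 := by
    rw [abs_div, abs_of_nonneg (by norm_num : (0 : ℝ) ≤ 2)]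
    linarith
  have h1 := mulb _ _ _ _ hN2 (e0b i)
  have h2 := mulb _ _ _ _ (mulb 6 _ 6 _ (by norm_num) (eta s hs hx 0)) (eta s hs hx i)
  have h3 := mulb _ _ _ _ hN (eta s hs hx i)
  have h4 := addb _ _ _ _ (addb _ _ _ _ h1 h2) h3
  unfold SJ.v
  refine h4.trans ?_
  norm_num

theorem dvb (s : SJ) (hs : IsSJ s) (hx : s.ξ ≤ 3000) (i k : Fin 3) : |s.dv i k| ≤ 1000000 := by
  have hN : |s.N| ≤ 2000 := by
    rw [abs_of_nonneg (N0 s)]
    exact (Nle s hs hx).1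
  have h1 := mulb _ _ _ _ (eta s hs hx k) (e0b i)
  have h2 := mulb _ _ _ _ (e0b k) (eta s hs hx i)
  have h3 : |(if i = k then s.η 0 else 0)| ≤ 45 := by
    split_ifs
    · exact eta s hs hx 0
    · simp
  have h4 := mulb 6 _ 6 _ (by norm_num) (addb _ _ _ _ h2 h3)
  have h5 := mulb _ _ _ _ (mulb 2 _ 2 _ (by norm_num) (eta s hs hx k)) (eta s hs hx i)
  have h6 : |(if i = k then s.N else 0)| ≤ 2000 := by
    split_ifs
    · exact hN
    · simp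
  have h7 := addb _ _ _ _ (addb _ _ _ _ (addb _ _ _ _ h1 h4) h5) h6
  unfold SJ.dv
  refine h7.trans ?_
  norm_num

theorem young (a b c : ℝ) : -(9 * (a * (b * c))) ≤ b ^ 2 + 81 / 4 * (a ^ 2 * c ^ 2) := by
  nlinarith [sq_nonneg (b + 9 / 2 * (a * c))]

theorem Hsum (s : SJ) (hs : IsSJ s) (hx : s.ξ ≤ 3000) :
    ∑ k, ∑ j, s.H k j ^ 2 ≤ s.D + 100000000000 := by
  obtain ⟨h1, h2, h3⟩ := Nle s hs hx
  have hN := N0 s
  have hq := hs.q0
  have hB := hs.kB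
  have hBs : 0 ≤ s.Bs := Finset.sum_nonneg fun _ _ => Finset.sum_nonneg fun _ _ => sq_nonneg _
  have hBB : 0 ≤ s.BB := by linarith
  unfold SJ.BB SJ.B0 at hBB
  have hy : -(9 * ∑ k, s.η k * s.He k) ≤ (∑ k, ∑ j, s.H k j ^ 2) + 81 / 4 * s.N ^ 2 := by
    have e1 : -(9 * ∑ k, s.η k * s.He k) =
        ∑ k, ∑ j, -(9 * (s.η k * (s.H k j * s.η j))) := by
      unfold SJ.He
      simp only [Finset.mul_sum, ← Finset.sum_neg_distrib]
    have e2 : (∑ k, ∑ j, s.H k j ^ 2) + 81 / 4 * s.N ^ 2 =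
        ∑ k, ∑ j, (s.H k j ^ 2 + 81 / 4 * (s.η k ^ 2 * s.η j ^ 2)) := by
      have e3 : s.N ^ 2 = ∑ k, ∑ j, s.η k ^ 2 * s.η j ^ 2 := by
        rw [sq]
        unfold SJ.N
        rw [Finset.sum_mul_sum]
      rw [e3]
      simp only [Finset.sum_add_distrib, Finset.mul_sum]
    rw [e1, e2]
    exact Finset.sum_le_sum fun k _ => Finset.sum_le_sum fun j _ => young _ _ _
  have hNN : s.N ^ 2 ≤ 2000 ^ 2 := pow_le_pow_left₀ hN h1 2
  have hqq : (s.N + s.q) * s.q ≤ 5000 * 3000 :=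
    mul_le_mul (by linarith) h2 hq (by norm_num)
  have hxx : 0 ≤ s.ξ ^ 2 := sq_nonneg _
  nlinarith

theorem Hb (s : SJ) (hs : IsSJ s) (hx : s.ξ ≤ 3000) (i k : Fin 3) :
    |s.H i k| ≤ 1000000000000 * (1 + s.D) := by
  have h1 := Hsum s hs hx
  have h2 : s.H i k ^ 2 ≤ ∑ k, ∑ j, s.H k j ^ 2 := by
    calc s.H i k ^ 2 ≤ ∑ j, s.H i j ^ 2 :=
          Finset.single_le_sum (f := fun j => s.H i j ^ 2) (fun _ _ => sq_nonneg _)
            (Finset.mem_univ k)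
      _ ≤ ∑ k, ∑ j, s.H k j ^ 2 :=
          Finset.single_le_sum (f := fun k => ∑ j, s.H k j ^ 2)
            (fun _ _ => Finset.sum_nonneg fun _ _ => sq_nonneg _) (Finset.mem_univ i)
  have h3 : |s.H i k| ≤ 1 + s.H i k ^ 2 := by
    rw [← sq_abs]
    nlinarith [sq_nonneg (|s.H i k| - 1), abs_nonneg (s.H i k)]
  have h4 := hs.D0
  linarith

theorem x1b (s : SJ) (hs : IsSJ s) (hx : s.ξ ≤ 3000) (k : Fin 3) :
    |s.x1 k| ≤ 1000000000000 * (1 + s.D) := by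
  obtain ⟨-, -, h0⟩ := Nle s hs hx
  have hD := hs.D0
  have hxi : |s.ξ| ≤ 3000 := by rwa [abs_of_nonneg h0]
  have h1 : s.y k ^ 2 ≤ 12 / 5 * s.ξ * s.D :=
    (Finset.single_le_sum (f := fun k => s.y k ^ 2) (fun _ _ => sq_nonneg _)
      (Finset.mem_univ k)).trans hs.ky
  have h2 : s.y k ^ 2 ≤ 7200 * s.D := by nlinarith
  have h3 : |s.y k| ≤ 1 + 7200 * s.D := by
    have : |s.y k| ≤ 1 + s.y k ^ 2 := by
      rw [← sq_abs]
      nlinarith [sq_nonneg (|s.y k| - 1), abs_nonneg (s.y k)]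
    linarith
  have h4 := mulb _ _ _ _ (mulb 2 _ 2 _ (by norm_num) hxi) (eta s hs hx k)
  have h5 := subb _ _ _ _ h3 h4
  have h6 := mulb _ _ _ _ (mulb 2 _ 2 _ (by norm_num) hxi) (e0b k)
  have h7 := addb _ _ _ _ h6 h5
  unfold SJ.x1 SJ.xp
  refine h7.trans ?_
  linarith

end EVcrudeX

open EVcrudeX in
theorem pr_EVcrude : S_EVcrude := by
  intro K
  refine ⟨10 ^ 20 * |K|, fun p h h1 s hp0 hp1 hh hh1 hs hx => ?_⟩
  have hD := hs.D0
  have hK : 0 ≤ |K| := abs_nonneg K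
  have hhK : |h| ≤ |K| := hh.trans (le_abs_self K)
  have hh1K : |h1| ≤ |K| := hh1.trans (le_abs_self K)
  have hpb : |p| ≤ 1 / 2 := by rwa [abs_of_nonneg hp0]
  have a1 : |∑ k, s.η k * s.v k| ≤ 3 * (45 * 1000000) :=
    sum3 _ _ fun k => mulb _ _ _ _ (eta s hs hx k) (vb s hs hx k)
  have a2 : |∑ i, ∑ k, s.dv i k * (e0 i * s.η k + s.H i k)| ≤
      3 * (3 * (1000000 * (1 * 45 + 1000000000000 * (1 + s.D)))) :=
    sum3 _ _ fun i => sum3 _ _ fun k => mulb _ _ _ _ (dvb s hs hx i k)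
      (addb _ _ _ _ (mulb _ _ _ _ (e0b i) (eta s hs hx k)) (Hb s hs hx i k))
  have a3 : |∑ k, s.v k * s.x1 k| ≤ 3 * (1000000 * (1000000000000 * (1 + s.D))) :=
    sum3 _ _ fun k => mulb _ _ _ _ (vb s hs hx k) (x1b s hs hx k)
  have a4 := addb _ _ _ _ (mulb _ _ _ _ hhK (addb _ _ _ _ (mulb _ _ _ _ hpb a1) a2))
    (mulb _ _ _ _ hh1K a3)
  unfold SJ.EV
  refine a4.trans ?_
  have e1 : 1 / 2 * (3 * (45 * 1000000)) +
      3 * (3 * (1000000 * (1 * 45 + 1000000000000 * (1 + s.D)))) +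
      3 * (1000000 * (1000000000000 * (1 + s.D))) ≤ 10 ^ 20 * (1 + s.D) := by
    linarith
  calc |K| * (1 / 2 * (3 * (45 * 1000000)) +
        3 * (3 * (1000000 * (1 * 45 + 1000000000000 * (1 + s.D))))) +
        |K| * (3 * (1000000 * (1000000000000 * (1 + s.D))))
      = |K| * (1 / 2 * (3 * (45 * 1000000)) +
        3 * (3 * (1000000 * (1 * 45 + 1000000000000 * (1 + s.D)))) +
        3 * (1000000 * (1000000000000 * (1 + s.D)))) := by ring
    _ ≤ |K| * (10 ^ 20 * (1 + s.D)) := mul_le_mul_of_nonneg_left e1 hK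
    _ = 10 ^ 20 * |K| * (1 + s.D) := by ring

end Pool.Agent.Work.MP_440970_an.BH

end

section

/-!
# Item Flux: the lower bound for the integral over the square `[-L, L]²`
-/

open MeasureTheory Set Filter Topology
open scoped ContDiff ENNReal

namespace Pool.Agent.Work.MP_440970_an.BH

theorem pr_Flux (h1 : S_Box) (h2 : S_DivZ) (h3 : S_FarZ) : S_Flux := by
  intro p φ ψ χ hp0 hp1 hcert C R
  obtain ⟨C', R', hfar⟩ := h3 p φ ψ χ hp0 hp1 hcert C R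
  refine ⟨12 * C', max R' 1, lt_of_lt_of_le one_pos (le_max_right _ _), ?_⟩
  intro F U v hF hU hA hFar hv1 hv2 L hL
  have hL1 : (1 : ℝ) ≤ L := (le_max_right _ _).trans hL
  have hLR : R' ≤ L := (le_max_left _ _).trans hL
  have hL0 : (0 : ℝ) < L := lt_of_lt_of_le one_pos hL1
  obtain ⟨hZ1, hZ2, hZ3⟩ := h2 p φ ψ χ ((∑ α, v α ^ 2) ^ (p / 2)) hcert F U hF hA
  have hbox := h1 (ZZ p φ ψ χ ((∑ α, v α ^ 2) ^ (p / 2)) F) U L (C' / L ^ 3) hF.op hZ1 hU hZ2 hL0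
    (by
      intro x hx0 hxL i
      have h := hfar F U v hF hU hA hFar hv1 hv2 x hx0 (by rw [hxL]; exact hLR) i
      rw [hxL] at h
      rw [le_div_iff₀ (by positivity)]
      exact h)
  have hcong : ∫ z in Icc (fun _ : Fin 2 => -L) (fun _ => L),
      ZZ p φ ψ χ ((∑ α, v α ^ 2) ^ (p / 2)) F 0 (Fin.cons 0 z) =
      ∫ z in Icc (fun _ : Fin 2 => -L) (fun _ => L),
        -(AA F (Fin.cons 0 z) ^ (p / 2) - (∑ α, v α ^ 2) ^ (p / 2)) := by
    refine setIntegral_congr_fun measurableSet_Icc fun z _ => ?_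
    have hz : (Fin.cons 0 z : E3) 0 = 0 := Fin.cons_zero _ _
    have h := hZ3 (Fin.cons 0 z) (hU _ (le_of_eq hz.symm)) hz
    rw [h]
    ring
  rw [hcong, integral_neg] at hbox
  have he : 12 * L ^ 2 * (C' / L ^ 3) = 12 * C' / L := by
    field_simp
  rw [he] at hbox
  linarith

end Pool.Agent.Work.MP_440970_an.BH

end
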