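import Pool.Agent.Work.MP_440970_an.BH.Stmts

/-! Bundle of small proof modules (one section per former module). -/

section

open MeasureTheory Set Filter Topology
open scoped ContDiff ENNReal

namespace Pool.Agent.Work.MP_440970_an.BH

namespace EVnearX

/-- The main identity. -/
theorem ident (s : SJ) (p : ℝ) : s.EV p 1 0 =
    (s.N + 12 * s.η 0 ^ 2 + 27 / 4 * (s.η 0 * s.N) + s.N ^ 2) -
      (1 / 2 - p) * (13 / 2 * (s.η 0 * s.N) + s.N ^ 2) + ∑ i, ∑ k, s.dv i k * s.Bm i k := by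
  have h1 : ∑ k, s.η k * s.v k = 13 / 2 * (s.η 0 * s.N) + s.N ^ 2 := by
    unfold SJ.v SJ.N
    simp only [Fin.sum_univ_three, e0]
    norm_num [Fin.ext_iff]
    ring
  have h2 : ∑ i, ∑ k, s.dv i k * (e0 i * s.η k + s.H i k) =
      s.N + 12 * s.η 0 ^ 2 + 7 / 2 * (s.η 0 * s.N) + 1 / 2 * s.N ^ 2 +
        ∑ i, ∑ k, s.dv i k * s.Bm i k := by
    unfold SJ.dv SJ.Bm SJ.N
    simp only [Fin.sum_univ_three, e0]
    norm_num [Fin.ext_iff]
    ring
  unfold SJ.EV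
  rw [h1, h2]
  ring

theorem eta_sq (s : SJ) (k : Fin 3) : s.η k ^ 2 ≤ s.N :=
  Finset.single_le_sum (f := fun k => s.η k ^ 2) (fun _ _ => sq_nonneg _) (Finset.mem_univ k)

theorem N_nonneg (s : SJ) : 0 ≤ s.N := Finset.sum_nonneg fun _ _ => sq_nonneg _

theorem N_le (s : SJ) (hq : 0 ≤ s.q) (hx : s.ξ ≤ 2000) : s.N ≤ 1334 := by
  unfold SJ.q at hq
  linarith

theorem five (a b c d e : ℝ) : (a + b + c + d + e) ^ 2 ≤
    5 * (a ^ 2 + b ^ 2 + c ^ 2 + d ^ 2 + e ^ 2) := by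
  nlinarith [sq_nonneg (a - b), sq_nonneg (a - c), sq_nonneg (a - d), sq_nonneg (a - e),
    sq_nonneg (b - c), sq_nonneg (b - d), sq_nonneg (b - e), sq_nonneg (c - d),
    sq_nonneg (c - e), sq_nonneg (d - e)]

theorem e0_sq (k : Fin 3) : e0 k ^ 2 ≤ 1 := by
  unfold e0
  split_ifs <;> norm_num

theorem dv_sq (s : SJ) (hN : s.N ≤ 1334) (i k : Fin 3) : s.dv i k ^ 2 ≤ 40000 * s.N := by
  have h0 := N_nonneg s
  have hi := eta_sq s i
  have hk := eta_sq s k
  have hz := eta_sq s 0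
  have e1 : (s.η k * e0 i) ^ 2 ≤ s.N := by
    rw [mul_pow]
    nlinarith [sq_nonneg (s.η k), e0_sq i, sq_nonneg (e0 i)]
  have e2 : (6 * (e0 k * s.η i)) ^ 2 ≤ 36 * s.N := by
    rw [mul_pow, mul_pow]
    nlinarith [sq_nonneg (s.η i), e0_sq k, sq_nonneg (e0 k)]
  have e3 : (6 * (if i = k then s.η 0 else 0)) ^ 2 ≤ 36 * s.N := by
    split_ifs
    · rw [mul_pow]; linarith
    · rw [mul_zero, zero_pow two_ne_zero]; linarith
  have e4 : (2 * s.η k * s.η i) ^ 2 ≤ 5336 * s.N := by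
    have h1 : s.η k ^ 2 * s.η i ^ 2 ≤ s.N * s.N := mul_le_mul hk hi (sq_nonneg _) h0
    have h2 : s.N * s.N ≤ 1334 * s.N := mul_le_mul_of_nonneg_right hN h0
    calc (2 * s.η k * s.η i) ^ 2 = 4 * (s.η k ^ 2 * s.η i ^ 2) := by ring
      _ ≤ 5336 * s.N := by linarith
  have e5 : (if i = k then s.N else 0) ^ 2 ≤ 1334 * s.N := by
    split_ifs
    · rw [sq]; exact mul_le_mul_of_nonneg_right hN h0
    · rw [zero_pow two_ne_zero]; linarith
  have h := five (s.η k * e0 i) (6 * (e0 k * s.η i)) (6 * (if i = k then s.η 0 else 0))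
    (2 * s.η k * s.η i) (if i = k then s.N else 0)
  have h3 : s.dv i k = s.η k * e0 i + 6 * (e0 k * s.η i) + 6 * (if i = k then s.η 0 else 0) +
      2 * s.η k * s.η i + (if i = k then s.N else 0) := by
    unfold SJ.dv
    ring
  rw [h3]
  linarith

theorem term (a b : ℝ) : -(a ^ 2 / 36000000) - 9000000 * b ^ 2 ≤ a * b := by
  nlinarith [sq_nonneg (a / 6000 + 3000 * b)]

theorem err (s : SJ) (hN : s.N ≤ 1334) :
    -(s.N / 100) - 9000000 * s.Bs ≤ ∑ i, ∑ k, s.dv i k * s.Bm i k := by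
  have h1 : ∀ i k : Fin 3, -(s.N / 900) - 9000000 * s.Bm i k ^ 2 ≤ s.dv i k * s.Bm i k := by
    intro i k
    have h2 := term (s.dv i k) (s.Bm i k)
    have h3 := dv_sq s hN i k
    linarith
  have h4 : ∑ i : Fin 3, ∑ k : Fin 3, (-(s.N / 900) - 9000000 * s.Bm i k ^ 2) ≤
      ∑ i, ∑ k, s.dv i k * s.Bm i k :=
    Finset.sum_le_sum fun i _ => Finset.sum_le_sum fun k _ => h1 i k
  refine le_trans (le_of_eq ?_) h4
  unfold SJ.Bs
  simp only [Fin.sum_univ_three]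
  ring

end EVnearX

theorem pr_EVnear : S_EVnear := by
  refine ⟨10000000, fun p s hp hp2 hs hx => ?_⟩
  have hN := EVnearX.N_le s hs.q0 hx
  have h0 := EVnearX.N_nonneg s
  have herr := EVnearX.err s hN
  have hz := EVnearX.eta_sq s 0
  have hB : 0 ≤ s.Bs := by
    unfold SJ.Bs
    exact Finset.sum_nonneg fun _ _ => Finset.sum_nonneg fun _ _ => sq_nonneg _
  rw [EVnearX.ident]
  have hz1 : s.η 0 ≤ 37 := by
    nlinarith
  have hA : 0 ≤ (1 / 2 - p) * (s.N * (1600 - 13 / 2 * s.η 0 - s.N)) := by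
    refine mul_nonneg (by linarith) (mul_nonneg h0 (by linarith))
  have hB2 : 0 ≤ (1 / 2 - p) * s.N := mul_nonneg (by linarith) h0
  have hmain : s.N ≤ s.N + 12 * s.η 0 ^ 2 + 27 / 4 * (s.η 0 * s.N) + s.N ^ 2 := by
    nlinarith [sq_nonneg (s.η 0 + 9 / 32 * s.N), sq_nonneg s.N]
  have e1 : (1 / 2 - p) * (13 / 2 * (s.η 0 * s.N) + s.N ^ 2) =
      1600 * ((1 / 2 - p) * s.N) - (1 / 2 - p) * (s.N * (1600 - 13 / 2 * s.η 0 - s.N)) := by
    ring
  rw [e1]
  have e2 : 10000000 * (1 / 2 - p) * s.N = 10000000 * ((1 / 2 - p) * s.N) := by ring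
  rw [e2]
  linarith

end Pool.Agent.Work.MP_440970_an.BH

end

section

/-!
# Behaviour of `ZZ` at infinity
-/

open MeasureTheory Set Filter Topology
open scoped ContDiff ENNReal

namespace Pool.Agent.Work.MP_440970_an.BH

namespace FarZX

theorem sum_bd {ι : Type*} [Fintype ι] (f : ι → ℝ) (B : ℝ) (h : ∀ i, |f i| ≤ B) :
    |∑ i, f i| ≤ Fintype.card ι * B := by
  refine le_trans (Finset.abs_sum_le_sum_abs _ _) ?_
  refine le_trans (Finset.sum_le_sum fun i _ => h i) ?_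
  rw [Finset.sum_const, nsmul_eq_mul, Finset.card_univ]

theorem sum3 (f : Fin 3 → ℝ) (B : ℝ) (h : ∀ i, |f i| ≤ B) : |∑ i, f i| ≤ 3 * B := by
  simpa using sum_bd f B h

theorem sum4 (f : Fin 4 → ℝ) (B : ℝ) (h : ∀ i, |f i| ≤ B) : |∑ i, f i| ≤ 4 * B := by
  simpa using sum_bd f B h

theorem ab {x y X Y : ℝ} (hx : |x| ≤ X) (hy : |y| ≤ Y) : |x * y| ≤ X * Y := by
  rw [abs_mul]
  exact mul_le_mul hx hy (abs_nonneg _) (le_trans (abs_nonneg _) hx)

theorem sq_bd {x X : ℝ} (hx : |x| ≤ X) : |x ^ 2| ≤ X ^ 2 := by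
  rw [sq, sq]
  exact ab hx hx

theorem dv16 {x a X : ℝ} (hx : |x| ≤ X) (ha : 1 / 16 ≤ a) : |x / a| ≤ 16 * X := by
  have ha0 : 0 < a := by linarith
  have hX : 0 ≤ X := le_trans (abs_nonneg _) hx
  rw [abs_div, abs_of_pos ha0, div_le_iff₀ ha0]
  nlinarith

section jet

variable (F : Fin 4 → ℝ) (S : Fin 3 → Fin 4 → ℝ) (T : Fin 3 → Fin 3 → Fin 4 → ℝ)
  (t δ ρ σ : ℝ)

/-- the hypotheses on the data -/
structure Hy : Prop where
  hF : ∀ α, |F α| ≤ 3
  ha : 1 / 16 ≤ ∑ α, F α ^ 2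
  hS : ∀ j α, |S j α| ≤ δ
  hT : ∀ k j α, |T k j α| ≤ δ
  t0 : 0 ≤ t
  d0 : 0 ≤ δ
  h1 : t * δ ≤ ρ
  h2 : t ^ 2 * δ ≤ σ
  h3 : δ ≤ ρ
  hρ : ρ ≤ 1 / 10000
  hσ : σ ≤ 1 / 10000

variable {F S T t δ ρ σ}

theorem Hy.ρ0 (h : Hy F S T t δ ρ σ) : 0 ≤ ρ := le_trans h.d0 h.h3

theorem Hy.σ0 (h : Hy F S T t δ ρ σ) : 0 ≤ σ := le_trans (mul_nonneg (sq_nonneg _) h.d0) h.h2

theorem Hy.ρρ (h : Hy F S T t δ ρ σ) : ρ * ρ ≤ ρ / 10000 := by
  have := mul_le_mul_of_nonneg_left h.hρ h.ρ0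
  linarith

theorem Hy.ρσ (h : Hy F S T t δ ρ σ) : ρ * σ ≤ ρ / 10000 := by
  have := mul_le_mul_of_nonneg_left h.hσ h.ρ0
  linarith

theorem Hy.FS (h : Hy F S T t δ ρ σ) (k : Fin 3) : |∑ α, F α * S k α| ≤ 12 * δ := by
  have := sum4 (fun α => F α * S k α) (3 * δ) (fun α => ab (h.hF α) (h.hS k α))
  linarith

theorem Hy.η (h : Hy F S T t δ ρ σ) (k : Fin 3) : |(mkSJ F S T t).η k| ≤ 192 * ρ := by
  have h1 : |t * (∑ α, F α * S k α)| ≤ t * (12 * δ) :=
    ab (abs_of_nonneg h.t0).le (h.FS k)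
  have h2 : |t * (∑ α, F α * S k α) / ∑ α, F α ^ 2| ≤ 16 * (t * (12 * δ)) := dv16 h1 h.ha
  have h3 := h.h1
  change |t * (∑ α, F α * S k α) / ∑ α, F α ^ 2| ≤ 192 * ρ
  linarith

theorem Hy.ξ0 (h : Hy F S T t δ ρ σ) : 0 ≤ (mkSJ F S T t).ξ := by
  change 0 ≤ t ^ 2 * (∑ j, ∑ α, S j α ^ 2) / ∑ α, F α ^ 2
  have := h.ha
  positivity

theorem Hy.ξ (h : Hy F S T t δ ρ σ) : |(mkSJ F S T t).ξ| ≤ ρ := by
  have h1 : |∑ j, ∑ α, S j α ^ 2| ≤ 3 * (4 * δ ^ 2) :=
    sum3 _ _ fun j => sum4 _ _ fun α => sq_bd (h.hS j α)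
  have h2 : |t ^ 2 * (∑ j, ∑ α, S j α ^ 2)| ≤ t ^ 2 * (3 * (4 * δ ^ 2)) :=
    ab (abs_of_nonneg (sq_nonneg t)).le h1
  have h3 : |t ^ 2 * (∑ j, ∑ α, S j α ^ 2) / ∑ α, F α ^ 2| ≤
      16 * (t ^ 2 * (3 * (4 * δ ^ 2))) := dv16 h2 h.ha
  change |t ^ 2 * (∑ j, ∑ α, S j α ^ 2) / ∑ α, F α ^ 2| ≤ ρ
  have h4 : (t * δ) * (t * δ) ≤ ρ * ρ :=
    mul_le_mul h.h1 h.h1 (mul_nonneg h.t0 h.d0) h.ρ0
  have h5 := h.ρρ
  have h6 := h.ρ0
  have h7 : 16 * (t ^ 2 * (3 * (4 * δ ^ 2))) = 192 * ((t * δ) * (t * δ)) := by ring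
  linarith

theorem Hy.H (h : Hy F S T t δ ρ σ) (k j : Fin 3) : |(mkSJ F S T t).H k j| ≤ 216 * σ := by
  have hδ : δ * δ ≤ δ / 10000 := by
    have := mul_le_mul_of_nonneg_left (le_trans h.h3 h.hρ) h.d0
    linarith
  have h1 : |∑ α, (S k α * S j α + F α * T k j α)| ≤ 4 * (δ * δ + 3 * δ) := by
    refine sum4 _ _ fun α => ?_
    exact le_trans (abs_add_le _ _) (add_le_add (ab (h.hS k α) (h.hS j α))
      (ab (h.hF α) (h.hT k j α)))
  have h2 := dv16 h1 h.ha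
  have h3 : |2 * (∑ α, F α * S k α) * (∑ α, F α * S j α)| ≤ 2 * (12 * δ) * (12 * δ) :=
    ab (ab (by norm_num) (h.FS k)) (h.FS j)
  have h4 := dv16 (dv16 h3 h.ha) h.ha
  have h5 : |(∑ α, (S k α * S j α + F α * T k j α)) / (∑ α, F α ^ 2) -
      2 * (∑ α, F α * S k α) * (∑ α, F α * S j α) / (∑ α, F α ^ 2) ^ 2| ≤ 216 * δ := by
    have e : 2 * (∑ α, F α * S k α) * (∑ α, F α * S j α) / (∑ α, F α ^ 2) ^ 2 =
        2 * (∑ α, F α * S k α) * (∑ α, F α * S j α) / (∑ α, F α ^ 2) / (∑ α, F α ^ 2) := by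
      rw [sq, div_div]
    rw [e]
    refine le_trans (abs_sub _ _) ?_
    have d0 := h.d0
    nlinarith
  have h6 : |t ^ 2 * ((∑ α, (S k α * S j α + F α * T k j α)) / (∑ α, F α ^ 2) -
      2 * (∑ α, F α * S k α) * (∑ α, F α * S j α) / (∑ α, F α ^ 2) ^ 2)| ≤
      t ^ 2 * (216 * δ) := ab (abs_of_nonneg (sq_nonneg t)).le h5
  change |t ^ 2 * ((∑ α, (S k α * S j α + F α * T k j α)) / (∑ α, F α ^ 2) -
      2 * (∑ α, F α * S k α) * (∑ α, F α * S j α) / (∑ α, F α ^ 2) ^ 2)| ≤ 216 * σ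
  have h7 := h.h2
  linarith

theorem Hy.y (h : Hy F S T t δ ρ σ) (k : Fin 3) : |(mkSJ F S T t).y k| ≤ 384 * (ρ * σ) := by
  have h1 : |∑ j, ∑ α, S j α * T k j α| ≤ 3 * (4 * (δ * δ)) :=
    sum3 _ _ fun j => sum4 _ _ fun α => ab (h.hS j α) (h.hT k j α)
  have h2 : |t ^ 3 * (2 * ∑ j, ∑ α, S j α * T k j α)| ≤ t ^ 3 * (2 * (3 * (4 * (δ * δ)))) :=
    ab (abs_of_nonneg (pow_nonneg h.t0 3)).le (ab (by norm_num) h1)
  have h3 := dv16 h2 h.ha
  change |t ^ 3 * (2 * ∑ j, ∑ α, S j α * T k j α) / ∑ α, F α ^ 2| ≤ 384 * (ρ * σ)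
  have h4 : (t * δ) * (t ^ 2 * δ) ≤ ρ * σ :=
    mul_le_mul h.h1 h.h2 (mul_nonneg (sq_nonneg _) h.d0) h.ρ0
  have h7 : 16 * (t ^ 3 * (2 * (3 * (4 * (δ * δ))))) = 384 * ((t * δ) * (t ^ 2 * δ)) := by ring
  linarith

theorem Hy.N (h : Hy F S T t δ ρ σ) : |(mkSJ F S T t).N| ≤ 12 * ρ := by
  have h1 : |∑ k, (mkSJ F S T t).η k ^ 2| ≤ 3 * (192 * ρ) ^ 2 :=
    sum3 _ _ fun k => sq_bd (h.η k)
  change |∑ k, (mkSJ F S T t).η k ^ 2| ≤ 12 * ρ
  have h5 := h.ρρ
  have h6 := h.ρ0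
  nlinarith

theorem Hy.q (h : Hy F S T t δ ρ σ) : |(mkSJ F S T t).q| ≤ 19 * ρ := by
  have h1 := h.ξ
  have h2 : |3 / 2 * (mkSJ F S T t).N| ≤ 3 / 2 * (12 * ρ) := ab (by norm_num [abs_of_pos]) h.N
  change |(mkSJ F S T t).ξ - 3 / 2 * (mkSJ F S T t).N| ≤ 19 * ρ
  refine le_trans (abs_sub _ _) ?_
  linarith

theorem Hy.xp (h : Hy F S T t δ ρ σ) (k : Fin 3) : |(mkSJ F S T t).xp k| ≤ ρ := by
  have h1 := h.y k
  have h2 : |2 * (mkSJ F S T t).ξ * (mkSJ F S T t).η k| ≤ 2 * ρ * (192 * ρ) :=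
    ab (ab (by norm_num) h.ξ) (h.η k)
  change |(mkSJ F S T t).y k - 2 * (mkSJ F S T t).ξ * (mkSJ F S T t).η k| ≤ ρ
  refine le_trans (abs_sub _ _) ?_
  have h5 := h.ρρ
  have h6 := h.ρ0
  have h7 := h.ρσ
  nlinarith

theorem Hy.He (h : Hy F S T t δ ρ σ) (k : Fin 3) : |(mkSJ F S T t).He k| ≤ 13 * ρ := by
  have h1 : |∑ j, (mkSJ F S T t).H k j * (mkSJ F S T t).η j| ≤ 3 * (216 * σ * (192 * ρ)) :=
    sum3 _ _ fun j => ab (h.H k j) (h.η j)
  change |∑ j, (mkSJ F S T t).H k j * (mkSJ F S T t).η j| ≤ 13 * ρ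
  have h6 := h.ρ0
  have h7 := h.ρσ
  nlinarith

theorem Hy.qp (h : Hy F S T t δ ρ σ) (k : Fin 3) : |(mkSJ F S T t).qp k| ≤ 40 * ρ := by
  have h1 := h.xp k
  have h2 : |3 * (mkSJ F S T t).He k| ≤ 3 * (13 * ρ) := ab (by norm_num) (h.He k)
  change |(mkSJ F S T t).xp k - 3 * (mkSJ F S T t).He k| ≤ 40 * ρ
  refine le_trans (abs_sub _ _) ?_
  linarith

theorem e0_bd (k : Fin 3) : |e0 k| ≤ 1 := by
  unfold e0
  split_ifs <;> norm_num

theorem Hy.q1 (h : Hy F S T t δ ρ σ) (k : Fin 3) : |(mkSJ F S T t).q1 k| ≤ 78 * ρ := by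
  have h1 := h.qp k
  have h2 : |2 * (mkSJ F S T t).q * e0 k| ≤ 2 * (19 * ρ) * 1 :=
    ab (ab (by norm_num) h.q) (e0_bd k)
  change |2 * (mkSJ F S T t).q * e0 k + (mkSJ F S T t).qp k| ≤ 78 * ρ
  refine le_trans (abs_add_le _ _) ?_
  linarith

theorem Hy.v (h : Hy F S T t δ ρ σ) (k : Fin 3) : |(mkSJ F S T t).v k| ≤ 30 * ρ := by
  have h2 : |(mkSJ F S T t).N / 2 * e0 k| ≤ (12 * ρ) / 2 * 1 := by
    refine ab ?_ (e0_bd k)
    rw [abs_div, abs_two]
    exact div_le_div_of_nonneg_right h.N (by norm_num)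
  have h3 : |6 * (mkSJ F S T t).η 0 * (mkSJ F S T t).η k| ≤ 6 * (192 * ρ) * (192 * ρ) :=
    ab (ab (by norm_num) (h.η 0)) (h.η k)
  have h4 : |(mkSJ F S T t).N * (mkSJ F S T t).η k| ≤ 12 * ρ * (192 * ρ) := ab h.N (h.η k)
  change |(mkSJ F S T t).N / 2 * e0 k + 6 * (mkSJ F S T t).η 0 * (mkSJ F S T t).η k +
    (mkSJ F S T t).N * (mkSJ F S T t).η k| ≤ 30 * ρ
  refine le_trans (abs_add_le _ _) ?_
  have h5 := abs_add_le ((mkSJ F S T t).N / 2 * e0 k)
    (6 * (mkSJ F S T t).η 0 * (mkSJ F S T t).η k)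
  have h6 := h.ρρ
  have h7 := h.ρ0
  nlinarith

end jet

/-- powers with a small exponent are Lipschitz -/
theorem rpow_lip_aux {a b s : ℝ} (hb : 1 / 16 ≤ b) (hb' : b ≤ 16) (hab : b ≤ a) (hs : 0 ≤ s)
    (hs1 : s ≤ 1) : 0 ≤ a ^ s - b ^ s ∧ a ^ s - b ^ s ≤ 256 * (a - b) := by
  have hb0 : 0 < b := by linarith
  have ha0 : 0 < a := by linarith
  constructor
  · have := Real.rpow_le_rpow hb0.le hab hs
    linarith
  · have e : a = b * (1 + (a - b) / b) := by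
      field_simp
      ring
    have h0 : 0 ≤ (a - b) / b := div_nonneg (by linarith) hb0.le
    have h1 : a ^ s = b ^ s * (1 + (a - b) / b) ^ s := by
      conv_lhs => rw [e]
      rw [Real.mul_rpow hb0.le (by linarith)]
    have h2 : (1 + (a - b) / b) ^ s ≤ 1 + s * ((a - b) / b) :=
      rpow_one_add_le_one_add_mul_self (by linarith) hs hs1
    have h3 : b ^ s ≤ 16 := by
      have h4 : b ^ s ≤ (16 : ℝ) ^ s := Real.rpow_le_rpow hb0.le hb' hs
      have h5 : (16 : ℝ) ^ s ≤ (16 : ℝ) ^ (1 : ℝ) :=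
        Real.rpow_le_rpow_of_exponent_le (by norm_num) hs1
      rw [Real.rpow_one] at h5
      linarith
    have h6 : 0 ≤ b ^ s := Real.rpow_nonneg hb0.le s
    have h7 : s * ((a - b) / b) ≤ 16 * (a - b) := by
      have h8 : (a - b) / b ≤ 16 * (a - b) := by
        rw [div_le_iff₀ hb0]
        nlinarith
      have h9 : s * ((a - b) / b) ≤ 1 * ((a - b) / b) := mul_le_mul_of_nonneg_right hs1 h0
      linarith
    have h10 : a ^ s - b ^ s ≤ b ^ s * (16 * (a - b)) := by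
      rw [h1]
      have := mul_le_mul_of_nonneg_left h2 h6
      have := mul_le_mul_of_nonneg_left h7 h6
      linarith
    have h11 : b ^ s * (16 * (a - b)) ≤ 16 * (16 * (a - b)) :=
      mul_le_mul_of_nonneg_right h3 (by linarith)
    linarith

theorem rpow_lip {a b s : ℝ} (ha : 1 / 16 ≤ a) (ha' : a ≤ 16) (hb : 1 / 16 ≤ b) (hb' : b ≤ 16)
    (hs : 0 ≤ s) (hs1 : s ≤ 1) : |a ^ s - b ^ s| ≤ 256 * |a - b| := by
  rcases le_total b a with h | h
  · obtain ⟨h1, h2⟩ := rpow_lip_aux hb hb' h hs hs1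
    rw [abs_of_nonneg h1, abs_of_nonneg (by linarith)]
    exact h2
  · obtain ⟨h1, h2⟩ := rpow_lip_aux ha ha' h hs hs1
    rw [abs_sub_comm, abs_of_nonneg h1, abs_sub_comm a b, abs_of_nonneg (by linarith)]
    exact h2

theorem deriv_zero {φ : ℝ → ℝ} {c u : ℝ} (h : ∀ u ≤ 1, φ u = c) (hu : u < 1) : deriv φ u = 0 := by
  have h1 : φ =ᶠ[𝓝 u] fun _ => c := by
    filter_upwards [eventually_lt_nhds hu] with y hy
    exact h y hy.le
  rw [h1.deriv_eq, deriv_const]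

end FarZX

open FarZX in
theorem pr_FarZ (h1 : S_LapM) : S_FarZ := by
  intro p φ ψ χ hp hp2 hcert C R
  obtain ⟨c, hc⟩ := hcert.ψ1
  obtain ⟨c', hc'⟩ := hcert.χ1
  set C₁ : ℝ := |C| + 1 with hC₁
  have hC₁1 : 1 ≤ C₁ := by
    have := abs_nonneg C
    linarith
  have hCC : C ≤ C₁ := by
    have := le_abs_self C
    linarith
  refine ⟨C₁ * (16 * (192 * (1 + |c|) + 78 * |c|) + 5120 + 16 * 19 * |c| + 16 * |c'| * 30),
    max R (10000 * C₁), ?_⟩
  intro F U v hF hU hA hfar hv1 hv2 x hx0 hxR i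
  have hr1 : R ≤ ‖x‖ := le_trans (le_max_left _ _) hxR
  have hr2 : 10000 * C₁ ≤ ‖x‖ := le_trans (le_max_right _ _) hxR
  set r : ℝ := ‖x‖ with hr
  have hr3 : 1 ≤ r := by linarith
  have hr0 : 0 < r := by linarith
  obtain ⟨f1, f2, f3⟩ := hfar x hx0 hr1
  have htr : x 0 ≤ r := by
    have := norm_le_pi_norm x 0
    rw [Real.norm_eq_abs] at this
    exact le_trans (le_abs_self _) this
  -- the quantities
  set δ : ℝ := C₁ / r ^ 4 with hδ
  set ρ : ℝ := C₁ / r ^ 3 with hρ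
  set σ : ℝ := C₁ / r ^ 2 with hσ
  have hδ0 : 0 < δ := by positivity
  have hρ0 : 0 < ρ := by positivity
  have hσ0 : 0 < σ := by positivity
  have hr2' : 1 ≤ r ^ 2 := one_le_pow₀ hr3
  have hρs : ρ ≤ 1 / 10000 := by
    rw [hρ, div_le_iff₀ (by positivity)]
    have : r ≤ r ^ 3 := by nlinarith
    linarith
  have hσs : σ ≤ 1 / 10000 := by
    rw [hσ, div_le_iff₀ (by positivity)]
    have : r ≤ r ^ 2 := by nlinarith
    linarith
  have hδr : r * δ = ρ := by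
    rw [hδ, hρ]
    field_simp
  have hδr2 : r ^ 2 * δ = σ := by
    rw [hδ, hσ]
    field_simp
  have g1 : ∀ α, |F α x - v α| ≤ ρ := by
    intro α
    rw [hρ, le_div_iff₀ (by positivity)]
    exact le_trans (f1 α) hCC
  have g2 : ∀ j α, |pd j (F α) x| ≤ δ := by
    intro j α
    rw [hδ, le_div_iff₀ (by positivity)]
    exact le_trans (f2 j α) hCC
  have g3 : ∀ k j α, |pd k (pd j (F α)) x| ≤ δ := by
    intro k j α
    rw [hδ, le_div_iff₀ (by positivity)]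
    exact le_trans (f3 k j α) hCC
  have hvα : ∀ α, |v α| ≤ 2 := by
    intro α
    have h2 : v α ^ 2 ≤ ∑ β, v β ^ 2 :=
      Finset.single_le_sum (f := fun β => v β ^ 2) (fun β _ => sq_nonneg _) (Finset.mem_univ α)
    exact abs_le_of_sq_le_sq (by nlinarith) (by norm_num)
  have hFα : ∀ α, |F α x| ≤ 3 := by
    intro α
    have h2 : F α x = (F α x - v α) + v α := by ring
    rw [h2]
    refine le_trans (abs_add_le _ _) ?_
    have := g1 α
    have := hvα α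
    linarith
  have hdA : |AA F x - ∑ α, v α ^ 2| ≤ 20 * ρ := by
    have e : AA F x - ∑ α, v α ^ 2 = ∑ α, (F α x - v α) * (F α x + v α) := by
      unfold AA
      rw [← Finset.sum_sub_distrib]
      refine Finset.sum_congr rfl fun α _ => ?_
      ring
    rw [e]
    have : |∑ α, (F α x - v α) * (F α x + v α)| ≤ 4 * (ρ * 5) := by
      refine sum4 _ _ fun α => ab (g1 α) ?_
      refine le_trans (abs_add_le _ _) ?_
      have := hFα α
      have := hvα α
      linarith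
    linarith
  have hA1 : 1 / 16 ≤ AA F x := by
    have := (abs_le.1 hdA).1
    linarith
  have hA2 : AA F x ≤ 16 := by
    have := (abs_le.1 hdA).2
    linarith
  have hy : Hy (fun α => F α x) (fun j α => pd j (F α) x) (fun k j α => pd k (pd j (F α)) x)
      (x 0) δ ρ σ := by
    refine ⟨hFα, hA1, g2, g3, hx0, hδ0.le, ?_, ?_, ?_, hρs, hσs⟩
    · rw [← hδr]
      exact mul_le_mul_of_nonneg_right htr hδ0.le
    · rw [← hδr2]
      exact mul_le_mul_of_nonneg_right (pow_le_pow_left₀ hx0 htr 2) hδ0.le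
    · rw [← hδr]
      nlinarith
  have bη : |(sj F x).η i| ≤ 192 * ρ := hy.η i
  have bξ : |(sj F x).ξ| ≤ ρ := hy.ξ
  have bq : |(sj F x).q| ≤ 19 * ρ := hy.q
  have bq1 : |(sj F x).q1 i| ≤ 78 * ρ := hy.q1 i
  have bv : |(sj F x).v i| ≤ 30 * ρ := hy.v i
  have hξ1 : (sj F x).ξ < 1 := by
    have := (abs_le.1 bξ).2
    linarith
  have hxU := hU x hx0
  have hAx := hA x hxU
  have hgrad := (h1 F U hF x hxU hAx p φ ψ hcert.cφ hcert.cψ).grad i
  have e1 : φ (sj F x).ξ = 1 := hcert.φ1 _ hξ1.le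
  have e2 : ψ (sj F x).ξ = c := hc _ hξ1.le
  have e3 : χ (sj F x).ξ = c' := hc' _ hξ1.le
  have e4 : deriv φ (sj F x).ξ = 0 := deriv_zero hcert.φ1 hξ1
  have e5 : deriv ψ (sj F x).ξ = 0 := deriv_zero hc hξ1
  rw [e1, e2, e4, e5] at hgrad
  have hw0 : 0 ≤ AA F x ^ (p / 2) := Real.rpow_nonneg hAx.le _
  have hw1 : AA F x ^ (p / 2) ≤ 16 := by
    have h4 : AA F x ^ (p / 2) ≤ (16 : ℝ) ^ (p / 2) :=
      Real.rpow_le_rpow hAx.le hA2 (by linarith)
    have h5 : (16 : ℝ) ^ (p / 2) ≤ (16 : ℝ) ^ (1 : ℝ) :=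
      Real.rpow_le_rpow_of_exponent_le (by norm_num) (by linarith)
    rw [Real.rpow_one] at h5
    linarith
  have hwm : |AA F x ^ (p / 2) - (∑ α, v α ^ 2) ^ (p / 2)| ≤ 5120 * ρ := by
    have := rpow_lip hA1 hA2 (b := ∑ α, v α ^ 2) (by linarith) (by linarith) (s := p / 2)
      (by linarith) (by linarith)
    linarith
  have hw : |AA F x ^ (p / 2)| ≤ 16 := by
    rw [abs_of_nonneg hw0]
    exact hw1
  have hZ : ZZ p φ ψ χ ((∑ α, v α ^ 2) ^ (p / 2)) F i x =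
      AA F x ^ (p / 2) * (p * (sj F x).η i * (1 + c * (sj F x).q) + c * (sj F x).q1 i) -
      (AA F x ^ (p / 2) - (∑ α, v α ^ 2) ^ (p / 2)) * e0 i -
      AA F x ^ (p / 2) * ((sj F x).q * c) * e0 i +
      AA F x ^ (p / 2) * c' * (sj F x).v i := by
    unfold ZZ
    rw [hgrad]
    unfold MM YY
    rw [e1, e2, e3]
    ring
  have q1 : |p * (sj F x).η i * (1 + c * (sj F x).q)| ≤ 1 * (192 * ρ) * (1 + |c| * 1) := by
    refine ab (ab ?_ bη) ?_
    · rw [abs_of_pos hp]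
      linarith
    · refine le_trans (abs_add_le _ _) ?_
      rw [abs_one]
      have : |c * (sj F x).q| ≤ |c| * 1 := ab le_rfl (by linarith)
      linarith
  have q2 : |c * (sj F x).q1 i| ≤ |c| * (78 * ρ) := ab le_rfl bq1
  have q3 : |AA F x ^ (p / 2) * (p * (sj F x).η i * (1 + c * (sj F x).q) + c * (sj F x).q1 i)| ≤
      16 * (1 * (192 * ρ) * (1 + |c| * 1) + |c| * (78 * ρ)) :=
    ab hw (le_trans (abs_add_le _ _) (add_le_add q1 q2))
  have q4 : |(AA F x ^ (p / 2) - (∑ α, v α ^ 2) ^ (p / 2)) * e0 i| ≤ 5120 * ρ * 1 :=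
    ab hwm (e0_bd i)
  have q5 : |AA F x ^ (p / 2) * ((sj F x).q * c) * e0 i| ≤ 16 * (19 * ρ * |c|) * 1 :=
    ab (ab hw (ab bq le_rfl)) (e0_bd i)
  have q6 : |AA F x ^ (p / 2) * c' * (sj F x).v i| ≤ 16 * |c'| * (30 * ρ) :=
    ab (ab hw le_rfl) bv
  have q7 : |ZZ p φ ψ χ ((∑ α, v α ^ 2) ^ (p / 2)) F i x| ≤
      ρ * (16 * (192 * (1 + |c|) + 78 * |c|) + 5120 + 16 * 19 * |c| + 16 * |c'| * 30) := by
    rw [hZ]
    refine le_trans (abs_add_le _ _) ?_
    refine le_trans (add_le_add (le_trans (abs_sub _ _) (add_le_add (le_trans (abs_sub _ _)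
      (add_le_add q3 q4)) q5)) q6) ?_
    apply le_of_eq
    ring
  have q8 : ρ * r ^ 3 = C₁ := by
    rw [hρ]
    field_simp
  calc |ZZ p φ ψ χ ((∑ α, v α ^ 2) ^ (p / 2)) F i x| * r ^ 3
      ≤ ρ * (16 * (192 * (1 + |c|) + 78 * |c|) + 5120 + 16 * 19 * |c| + 16 * |c'| * 30) * r ^ 3 :=
        mul_le_mul_of_nonneg_right q7 (by positivity)
    _ = ρ * r ^ 3 *
        (16 * (192 * (1 + |c|) + 78 * |c|) + 5120 + 16 * 19 * |c| + 16 * |c'| * 30) := by ring
    _ = _ := by rw [q8]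

end Pool.Agent.Work.MP_440970_an.BH

end

section

/-!
# Item Final: the function `-1` on a ball is not in the closure
-/

set_option autoImplicit false

open MeasureTheory Set Filter Topology
open scoped ContDiff ENNReal

namespace Pool.Agent.Work.MP_440970_an.BH

namespace FinalX

open Complex

theorem measK : Measurable K := by
  unfold K
  fun_prop

theorem measf {n : ℕ} (a c : Fin n → ℂ) : Measurable fun z : ℂ => ∑ k, c k * K (z - a k) := by
  have := measK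
  fun_prop

theorem rpow_add {p : ℝ} (hp : 0 < p) (hp1 : p ≤ 1) (x : ℂ) : ‖1 + x‖ ^ p ≤ 1 + ‖x‖ ^ p := by
  have h1 : ‖1 + x‖ ≤ 1 + ‖x‖ := by
    refine (norm_add_le _ _).trans ?_
    rw [norm_one]
  have h2 : (1 + ‖x‖) ^ p ≤ (1 : ℝ) ^ p + ‖x‖ ^ p :=
    Real.rpow_add_le_add_rpow zero_le_one (norm_nonneg _) hp.le hp1
  rw [Real.one_rpow] at h2
  exact (Real.rpow_le_rpow (norm_nonneg _) h1 hp.le).trans h2

/-- the test function -/
noncomputable def gg : ℂ → ℂ := (Metric.ball (0 : ℂ) 1).indicator fun _ => -1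

theorem gg_meas : Measurable gg := measurable_const.indicator Metric.isOpen_ball.measurableSet

theorem gg_np (p : ℝ) (hp : 0 < p) : np p gg < ⊤ := by
  unfold np
  have h : ∀ z, ‖gg z‖ₑ ^ p = (Metric.ball (0 : ℂ) 1).indicator (fun _ => (1 : ℝ≥0∞)) z := by
    intro z
    unfold gg
    by_cases hz : z ∈ Metric.ball (0 : ℂ) 1
    · rw [indicator_of_mem hz, indicator_of_mem hz, enorm_neg, enorm_one, ENNReal.one_rpow]
    · rw [indicator_of_notMem hz, indicator_of_notMem hz, enorm_zero, ENNReal.zero_rpow_of_pos hp]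
  simp only [h]
  rw [lintegral_indicator Metric.isOpen_ball.measurableSet, lintegral_const, one_mul,
    Measure.restrict_apply_univ]
  exact measure_ball_lt_top

theorem ptw {p : ℝ} (hp : 0 < p) (hp1 : p ≤ 1) (f : ℂ → ℂ) (z : ℂ) :
    ‖1 + f z‖ ^ p - 1 ≤
      ‖gg z - f z‖ ^ p - (Metric.ball (0 : ℂ) 1).indicator (fun _ => (1 : ℝ)) z := by
  unfold gg
  by_cases hz : z ∈ Metric.ball (0 : ℂ) 1
  · rw [indicator_of_mem hz, indicator_of_mem hz]
    have : ‖-1 - f z‖ = ‖1 + f z‖ := by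
      rw [← norm_neg]
      congr 1
      ring
    rw [this]
  · rw [indicator_of_notMem hz, indicator_of_notMem hz, zero_sub, norm_neg, sub_zero]
    have := rpow_add hp hp1 (f z)
    linarith

end FinalX

open FinalX in
theorem pr_Final (h1 : S_CertEx) (h2 : S_JenC) (h3 : S_Mom) : S_Final := by
  obtain ⟨p₁, hp0, hp1, hc⟩ := h1
  refine ⟨p₁, hp0, hp1, fun p hp hp2 => ⟨gg, gg_meas, gg_np p (hp0.trans_le hp), ?_⟩⟩
  have hpp : 0 < p := hp0.trans_le hp
  set Q : Set ℂ := Metric.ball (0 : ℂ) 1 with hQ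
  have hQm : MeasurableSet Q := Metric.isOpen_ball.measurableSet
  have hQt : volume Q ≠ ⊤ := measure_ball_lt_top.ne
  set δ : ℝ := (volume Q).toReal with hδ
  have hδ0 : 0 < δ := ENNReal.toReal_pos (Metric.measure_ball_pos volume 0 one_pos).ne' hQt
  by_contra hcon
  have h0 : dX p gg < ENNReal.ofReal (δ / 4) :=
    (not_lt.1 hcon).trans_lt (ENNReal.ofReal_pos.2 (by positivity))
  unfold dX at h0
  simp only [iInf_lt_iff] at h0
  obtain ⟨f, hf, hfn, hfg⟩ := h0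
  unfold X at hf
  rw [Submodule.mem_span_set'] at hf
  obtain ⟨n, c, b, hb⟩ := hf
  choose a ha using fun k => (b k).2
  have hfe : f = fun z => ∑ k, c k * K (z - a k) := by
    rw [← hb]
    funext z
    rw [Finset.sum_apply]
    refine Finset.sum_congr rfl fun k _ => ?_
    rw [Pi.smul_apply, smul_eq_mul, ← ha k]
  rw [hfe] at hfn hfg
  have hsum := h3 n a c p hpp hp2 hfn
  obtain ⟨C, R, hR, hL⟩ := h2 n a c p hpp hp2 (hc p hp hp2) hsum
  set F : ℂ → ℂ := fun z => ∑ k, c k * K (z - a k) with hF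
  have hFm : Measurable F := measf a c
  have hgm : Measurable fun z => ‖gg z - F z‖ ^ p := (gg_meas.sub hFm).norm.pow_const p
  -- the integral of the difference
  have hlin : ∫⁻ z, ENNReal.ofReal (‖gg z - F z‖ ^ p) = np p (fun z => gg z - F z) := by
    unfold np
    refine lintegral_congr fun z => ?_
    rw [← ENNReal.ofReal_rpow_of_nonneg (norm_nonneg _) hpp.le, ofReal_norm]
  have hint : Integrable fun z => ‖gg z - F z‖ ^ p := by
    refine ⟨hgm.aestronglyMeasurable, ?_⟩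
    rw [hasFiniteIntegral_iff_ofReal (Eventually.of_forall fun z =>
      Real.rpow_nonneg (norm_nonneg _) _), hlin]
    exact hfg.trans ENNReal.ofReal_lt_top
  have hval : ∫ z, ‖gg z - F z‖ ^ p ≤ δ / 4 := by
    rw [integral_eq_lintegral_of_nonneg_ae (Eventually.of_forall fun z =>
      Real.rpow_nonneg (norm_nonneg _) _) hgm.aestronglyMeasurable, hlin]
    refine ENNReal.toReal_le_of_le_ofReal (by positivity) hfg.le
  set L : ℝ := max (max R 1) (4 * |C| / (3 * δ) + 1) with hLdef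
  have hLR : R ≤ L := (le_max_left _ _).trans (le_max_left _ _)
  have hL1 : 1 ≤ L := (le_max_right _ _).trans (le_max_left _ _)
  have hLC : 4 * |C| / (3 * δ) + 1 ≤ L := le_max_right _ _
  obtain ⟨i1, i2⟩ := hL L hLR
  set S : Set ℂ := Icc (-L) L ×ℂ Icc (-L) L with hS
  have hSm : MeasurableSet S := (isClosed_Icc.reProdIm isClosed_Icc).measurableSet
  have hQS : Q ⊆ S := by
    intro z hz
    have hz1 : ‖z‖ < 1 := by
      rwa [hQ, mem_ball_zero_iff] at hz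
    have hre := (abs_le.1 ((Complex.abs_re_le_norm z).trans (hz1.le.trans hL1)))
    have him := (abs_le.1 ((Complex.abs_im_le_norm z).trans (hz1.le.trans hL1)))
    rw [hS, Complex.mem_reProdIm]
    exact ⟨hre, him⟩
  have hSf : volume S ≠ ⊤ := by
    have : S ⊆ Metric.closedBall 0 (2 * L) := by
      intro z hz
      rw [hS, Complex.mem_reProdIm] at hz
      rw [mem_closedBall_zero_iff]
      have a1 : |z.re| ≤ L := abs_le.2 hz.1
      have a2 : |z.im| ≤ L := abs_le.2 hz.2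
      have := Complex.norm_le_abs_re_add_abs_im z
      linarith
    exact ((measure_mono this).trans_lt measure_closedBall_lt_top).ne
  have j1 : IntegrableOn (fun z : ℂ => ‖1 + F z‖ ^ p - 1) S := by
    refine Integrable.sub i1 ?_
    exact integrableOn_const hSf
  have j2 : IntegrableOn (fun z : ℂ => Q.indicator (fun _ => (1 : ℝ)) z) S := by
    refine Integrable.integrableOn ?_
    exact (integrable_indicator_iff hQm).2 (integrableOn_const hQt)
  have j3 : IntegrableOn (fun z : ℂ => ‖gg z - F z‖ ^ p -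
      Q.indicator (fun _ => (1 : ℝ)) z) S := hint.integrableOn.sub j2
  have k1 : ∫ z in S, (‖1 + F z‖ ^ p - 1) ≤
      ∫ z in S, (‖gg z - F z‖ ^ p - Q.indicator (fun _ => (1 : ℝ)) z) :=
    setIntegral_mono j1 j3 fun z => ptw hpp (by linarith) F z
  have k2 : ∫ z in S, Q.indicator (fun _ => (1 : ℝ)) z = δ := by
    rw [setIntegral_indicator hQm, inter_eq_self_of_subset_right hQS, setIntegral_const,
      smul_eq_mul, mul_one]
    rfl
  have k3 : ∫ z in S, ‖gg z - F z‖ ^ p ≤ δ / 4 := by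
    refine (setIntegral_le_integral hint (Eventually.of_forall fun z =>
      Real.rpow_nonneg (norm_nonneg _) _)).trans hval
  rw [integral_sub hint.integrableOn j2, k2] at k1
  have k4 : -(C / L) ≤ -(3 / 4 * δ) := by linarith
  have hLpos : 0 < L := by linarith
  have k5 : C ≤ |C| := le_abs_self C
  have k6 : 3 / 4 * δ ≤ C / L := by linarith
  rw [le_div_iff₀ hLpos] at k6
  have k7 : 4 * |C| / (3 * δ) < L := by linarith
  rw [div_lt_iff₀ (by positivity)] at k7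
  nlinarith

end Pool.Agent.Work.MP_440970_an.BH

end

section

/-!
# Item GFfar: behaviour of the explicit fields at infinity
-/

open MeasureTheory Set Filter Topology
open scoped ContDiff ENNReal

namespace Pool.Agent.Work.MP_440970_an.BH

namespace GFfarX

/-- kernels which are smooth away from the origin, with decay of the derivatives -/
structure KP (P : E3 → ℝ) (C : ℝ) : Prop where
  sm : ∀ x : E3, x ≠ 0 → ContDiffAt ℝ ∞ P x
  b1 : ∀ x : E3, x ≠ 0 → ∀ j, |pd j P x| * ‖x‖ ^ 3 ≤ C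
  b2 : ∀ x : E3, x ≠ 0 → ∀ j k, |pd k (pd j P) x| * ‖x‖ ^ 4 ≤ C

theorem two_le_infty : (1 : WithTop ℕ∞) + 1 ≤ ((⊤ : ℕ∞) : WithTop ℕ∞) :=
  WithTop.coe_le_coe.mpr (le_top : ((1 : ℕ∞) + 1) ≤ ⊤)

theorem KP.zero {C : ℝ} (hC : 0 ≤ C) : KP (fun _ => 0) C := by
  have h1 : ∀ j : Fin 3, (pd j fun _ : E3 => (0 : ℝ)) = fun _ => (0 : ℝ) := by
    intro j
    funext y
    exact pd_const j 0 y
  refine ⟨fun x _ => contDiffAt_const, fun x _ j => ?_, fun x _ j k => ?_⟩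
  · rw [pd_const, abs_zero, zero_mul]
    exact hC
  · rw [h1, pd_const, abs_zero, zero_mul]
    exact hC

theorem KP.neg {P : E3 → ℝ} {C : ℝ} (h : KP P C) : KP (fun x => -P x) C := by
  have h1 : ∀ j : Fin 3, (pd j fun x => -P x) = fun x => -pd j P x := by
    intro j
    funext y
    exact pd_neg j
  refine ⟨fun x hx => (h.sm x hx).neg, fun x hx j => ?_, fun x hx j k => ?_⟩
  · rw [pd_neg, abs_neg]
    exact h.b1 x hx j
  · rw [h1, pd_neg, abs_neg]
    exact h.b2 x hx j k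

theorem KP_P1 {C : ℝ} (hC : 0 ≤ C) (h : ∀ i, KP (EE i) C) (α : Fin 4) : KP (P1 α) C := by
  have e : P1 α = ![fun _ => 0, EE 0, EE 1, EE 2] α := by
    funext x
    fin_cases α <;> simp [P1]
  rw [e]
  fin_cases α
  · exact KP.zero hC
  · exact h 0
  · exact h 1
  · exact h 2

theorem KP_P2 {C : ℝ} (hC : 0 ≤ C) (h : ∀ i, KP (EE i) C) (α : Fin 4) : KP (P2 α) C := by
  have e : P2 α = ![EE 0, fun _ => 0, fun x => -EE 2 x, EE 1] α := by
    funext x
    fin_cases α <;> simp [P2]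
  rw [e]
  fin_cases α
  · exact h 0
  · exact KP.zero hC
  · exact (h 2).neg
  · exact h 1

theorem norm_fderiv_le {f : E3 → ℝ} {z : E3} {B : ℝ} (hB : 0 ≤ B) (h : ∀ i, |pd i f z| ≤ B) :
    ‖fderiv ℝ f z‖ ≤ 3 * B := by
  apply ContinuousLinearMap.opNorm_le_bound _ (by positivity)
  intro w
  have e : w = w 0 • (Pi.single 0 1 : E3) + w 1 • (Pi.single 1 1 : E3) +
      w 2 • (Pi.single 2 1 : E3) := by
    ext i
    fin_cases i <;> simp
  have e2 : fderiv ℝ f z w = w 0 * pd 0 f z + w 1 * pd 1 f z + w 2 * pd 2 f z := by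
    conv_lhs => rw [e]
    simp only [map_add, map_smul, smul_eq_mul]
    rfl
  rw [e2, Real.norm_eq_abs]
  have hw : ∀ i, |w i| ≤ ‖w‖ := fun i => by
    have := norm_le_pi_norm w i
    rwa [Real.norm_eq_abs] at this
  have ht : ∀ i, |w i * pd i f z| ≤ ‖w‖ * B := fun i => by
    rw [abs_mul]
    exact mul_le_mul (hw i) (h i) (abs_nonneg _) (norm_nonneg _)
  calc |w 0 * pd 0 f z + w 1 * pd 1 f z + w 2 * pd 2 f z|
      ≤ |w 0 * pd 0 f z| + |w 1 * pd 1 f z| + |w 2 * pd 2 f z| := abs_add_three _ _ _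
    _ ≤ ‖w‖ * B + ‖w‖ * B + ‖w‖ * B := add_le_add (add_le_add (ht 0) (ht 1)) (ht 2)
    _ = 3 * B * ‖w‖ := by ring

theorem hz_eq (a : ℂ) (x : E3) : hz a x = x - ![0, a.re, a.im] := rfl

theorem norm_shift_le (a : ℂ) : ‖(![0, a.re, a.im] : E3)‖ ≤ ‖a‖ := by
  rw [pi_norm_le_iff_of_nonneg (norm_nonneg a)]
  intro i
  fin_cases i
  · simp
  · simpa using Complex.abs_re_le_norm a
  · simpa using Complex.abs_im_le_norm a

/-- mean value inequality for a horizontal translation -/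
theorem mvt {f : E3 → ℝ} {u : E3} {a : ℂ} {B : ℝ} (hB : 0 ≤ B) (ha : ‖a‖ ≤ ‖u‖ / 2)
    (hd : ∀ z : E3, ‖u‖ / 2 ≤ ‖z‖ → DifferentiableAt ℝ f z)
    (hb : ∀ z : E3, ‖u‖ / 2 ≤ ‖z‖ → ∀ i, |pd i f z| ≤ B) :
    |f (hz a u) - f u| ≤ 3 * B * ‖a‖ := by
  have hzz : ∀ z ∈ Metric.closedBall u (‖u‖ / 2), ‖u‖ / 2 ≤ ‖z‖ := by
    intro z hzz
    rw [mem_closedBall_iff_norm'] at hzz
    have := norm_sub_norm_le u z
    linarith
  have h1 := Convex.norm_image_sub_le_of_norm_fderiv_le (𝕜 := ℝ) (f := f) (C := 3 * B)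
    (s := Metric.closedBall u (‖u‖ / 2)) (x := u) (y := hz a u)
    (fun z h => hd z (hzz z h)) (fun z h => norm_fderiv_le hB (hb z (hzz z h)))
    (convex_closedBall _ _) (Metric.mem_closedBall_self (by positivity)) (by
      rw [hz_eq, mem_closedBall_iff_norm, sub_sub_cancel_left, norm_neg]
      exact (norm_shift_le a).trans ha)
  rw [Real.norm_eq_abs] at h1
  refine h1.trans ?_
  rw [hz_eq, sub_sub_cancel_left, norm_neg]
  exact mul_le_mul_of_nonneg_left (norm_shift_le a) (by positivity)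

theorem norm_hz_ge {u : E3} {a : ℂ} (ha : ‖a‖ ≤ ‖u‖ / 2) : ‖u‖ / 2 ≤ ‖hz a u‖ := by
  rw [hz_eq]
  have h1 := norm_sub_norm_le u ![0, a.re, a.im]
  have h2 := norm_shift_le a
  linarith

/-- bounds for a kernel -/
theorem KP.bounds {P : E3 → ℝ} {C : ℝ} (h : KP P C) (hC : 0 ≤ C) {u : E3} (hu : 0 < ‖u‖) {a : ℂ}
    (ha : ‖a‖ ≤ ‖u‖ / 2) :
    |P (hz a u) - P u| ≤ 24 * C * ‖a‖ / ‖u‖ ^ 3 ∧
    (∀ j, |pd j P (hz a u) - pd j P u| ≤ 48 * C * ‖a‖ / ‖u‖ ^ 4) ∧
    ∀ j k, |pd k (pd j P) (hz a u)| ≤ 16 * C / ‖u‖ ^ 4 := by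
  have hz0 : ∀ z : E3, ‖u‖ / 2 ≤ ‖z‖ → z ≠ 0 := by
    intro z hz h0
    rw [h0, norm_zero] at hz
    linarith
  have h1 : ∀ z : E3, ‖u‖ / 2 ≤ ‖z‖ → ∀ j, |pd j P z| ≤ 8 * C / ‖u‖ ^ 3 := by
    intro z hz j
    rw [le_div_iff₀ (by positivity)]
    have h2 := h.b1 z (hz0 z hz) j
    have h3 : ‖u‖ ^ 3 ≤ 8 * ‖z‖ ^ 3 := by
      calc ‖u‖ ^ 3 ≤ (2 * ‖z‖) ^ 3 := by gcongr; linarith
        _ = 8 * ‖z‖ ^ 3 := by ring
    calc |pd j P z| * ‖u‖ ^ 3 ≤ |pd j P z| * (8 * ‖z‖ ^ 3) := by gcongr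
      _ = 8 * (|pd j P z| * ‖z‖ ^ 3) := by ring
      _ ≤ 8 * C := by gcongr
  have h2 : ∀ z : E3, ‖u‖ / 2 ≤ ‖z‖ → ∀ j k, |pd k (pd j P) z| ≤ 16 * C / ‖u‖ ^ 4 := by
    intro z hz j k
    rw [le_div_iff₀ (by positivity)]
    have h2 := h.b2 z (hz0 z hz) j k
    have h3 : ‖u‖ ^ 4 ≤ 16 * ‖z‖ ^ 4 := by
      calc ‖u‖ ^ 4 ≤ (2 * ‖z‖) ^ 4 := by gcongr; linarith
        _ = 16 * ‖z‖ ^ 4 := by ring
    calc |pd k (pd j P) z| * ‖u‖ ^ 4 ≤ |pd k (pd j P) z| * (16 * ‖z‖ ^ 4) := by gcongr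
      _ = 16 * (|pd k (pd j P) z| * ‖z‖ ^ 4) := by ring
      _ ≤ 16 * C := by gcongr
  refine ⟨?_, fun j => ?_, fun j k => h2 _ (norm_hz_ge ha) j k⟩
  · refine (mvt (B := 8 * C / ‖u‖ ^ 3) (by positivity) ha (fun z hz =>
      (h.sm z (hz0 z hz)).differentiableAt (by norm_num)) h1).trans (le_of_eq ?_)
    ring
  · refine (mvt (B := 16 * C / ‖u‖ ^ 4) (by positivity) ha (fun z hz =>
      (pd_contDiffAt (m := 1) j (h.sm z (hz0 z hz)) two_le_infty).differentiableAt (by norm_num))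
      fun z hz k => h2 z hz j k).trans (le_of_eq ?_)
    ring

theorem diff_hz {P : E3 → ℝ} {a : ℂ} {y : E3} (h : DifferentiableAt ℝ P (hz a y)) :
    DifferentiableAt ℝ (fun y => P (hz a y)) y := by
  have h1 : DifferentiableAt ℝ (fun y : E3 => y - ![0, a.re, a.im]) y :=
    differentiableAt_id.sub_const _
  exact DifferentiableAt.comp y (g := P) (f := fun y : E3 => y - ![0, a.re, a.im]) h h1

/-- derivative of a sum of translated kernels -/
theorem pd_fam {n : ℕ} {a : Fin n → ℂ} {r s : Fin n → ℝ} {P Q : E3 → ℝ} {v : ℝ} {y : E3}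
    (hP : ∀ k, DifferentiableAt ℝ P (hz (a k) y)) (hQ : ∀ k, DifferentiableAt ℝ Q (hz (a k) y))
    (j : Fin 3) :
    pd j (fun y => (∑ k, (r k * P (hz (a k) y) + s k * Q (hz (a k) y))) + v) y =
      ∑ k, (r k * pd j P (hz (a k) y) + s k * pd j Q (hz (a k) y)) := by
  have h1 : ∀ k, DifferentiableAt ℝ (fun y => r k * P (hz (a k) y)) y := fun k =>
    (diff_hz (hP k)).const_mul _
  have h2 : ∀ k, DifferentiableAt ℝ (fun y => s k * Q (hz (a k) y)) y := fun k =>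
    (diff_hz (hQ k)).const_mul _
  rw [pd_add j (f := fun y => ∑ k, (r k * P (hz (a k) y) + s k * Q (hz (a k) y)))
    (g := fun _ => v) (DifferentiableAt.fun_sum fun k _ => (h1 k).add (h2 k))
    (differentiableAt_const v), pd_const, add_zero,
    pd_sum Finset.univ (fun k y => r k * P (hz (a k) y) + s k * Q (hz (a k) y)) j
    fun k _ => (h1 k).add (h2 k)]
  refine Finset.sum_congr rfl fun k _ => ?_
  rw [pd_add j (h1 k) (h2 k), pd_const_mul j (r k) (diff_hz (hP k)),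
    pd_const_mul j (s k) (diff_hz (hQ k)), pd_hz, pd_hz]

/-- a weighted sum -/
theorem wsum {n : ℕ} {r s p q : Fin n → ℝ} {B : ℝ} (hp : ∀ k, |p k| ≤ B) (hq : ∀ k, |q k| ≤ B) :
    |∑ k, (r k * p k + s k * q k)| ≤ (∑ k, (|r k| + |s k|)) * B := by
  rw [Finset.sum_mul]
  refine (Finset.abs_sum_le_sum_abs _ _).trans (Finset.sum_le_sum fun k _ => ?_)
  calc |r k * p k + s k * q k| ≤ |r k * p k| + |s k * q k| := abs_add_le _ _
    _ = |r k| * |p k| + |s k| * |q k| := by rw [abs_mul, abs_mul]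
    _ ≤ |r k| * B + |s k| * B := add_le_add
        (mul_le_mul_of_nonneg_left (hp k) (abs_nonneg _))
        (mul_le_mul_of_nonneg_left (hq k) (abs_nonneg _))
    _ = (|r k| + |s k|) * B := by ring

theorem wsum_sub {n : ℕ} {r s p q : Fin n → ℝ} {p0 q0 : ℝ} (hr : ∑ k, r k = 0)
    (hs : ∑ k, s k = 0) : ∑ k, (r k * p k + s k * q k) =
      ∑ k, (r k * (p k - p0) + s k * (q k - q0)) := by
  have h1 : ∑ k, (r k * (p k - p0) + s k * (q k - q0)) =
      ∑ k, (r k * p k + s k * q k) - (∑ k, r k) * p0 - (∑ k, s k) * q0 := by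
    rw [Finset.sum_mul, Finset.sum_mul, ← Finset.sum_sub_distrib, ← Finset.sum_sub_distrib]
    exact Finset.sum_congr rfl fun k _ => by ring
  rw [h1, hr, hs]
  ring

theorem norm_sft {x : E3} (hx : 0 ≤ x 0) {τ : ℝ} (hτ : 0 < τ) : ‖x‖ ≤ ‖sft τ x‖ := by
  rw [pi_norm_le_iff_of_nonneg (norm_nonneg _)]
  intro i
  refine le_trans ?_ (norm_le_pi_norm (sft τ x) i)
  rw [Real.norm_eq_abs, Real.norm_eq_abs]
  by_cases h : i = 0
  · subst h
    have e : sft τ x 0 = x 0 + τ := by simp [sft, e0]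
    rw [e, abs_of_nonneg hx, abs_of_nonneg (by linarith)]
    linarith
  · have e : sft τ x i = x i := by simp [sft, e0, h]
    rw [e]

end GFfarX

open GFfarX in
theorem pr_GFfar (h1 : S_Ker) (h2 : S_KerB) (h3 : S_GFform) : S_GFfar := by
  intro n a c hc
  obtain ⟨C, hCb⟩ := h2
  have hC : 0 ≤ C := by
    have h : (Pi.single 0 1 : E3) ≠ 0 := by
      intro h
      have := congrFun h 0
      simp at this
    refine le_trans ?_ ((hCb _ h).1 0 0)
    positivity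
  have hKE : ∀ i, KP (EE i) C := fun i =>
    ⟨fun x hx => (h1 x hx _ rfl).1 i, fun x hx j => (hCb x hx).1 i j,
      fun x hx j k => (hCb x hx).2 i j k⟩
  have hre : ∑ k, (c k).re = 0 := by
    have := congrArg Complex.re hc
    simpa using this
  have him : ∑ k, (c k).im = 0 := by
    have := congrArg Complex.im hc
    simpa using this
  set A : ℝ := ∑ k, ‖a k‖ with hA
  have hA0 : 0 ≤ A := Finset.sum_nonneg fun k _ => norm_nonneg _
  have haA : ∀ k, ‖a k‖ ≤ A := fun k =>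
    Finset.single_le_sum (f := fun k => ‖a k‖) (fun k _ => norm_nonneg _) (Finset.mem_univ k)
  set W : ℝ := ∑ k, (|(c k).re| + |(c k).im|) with hW
  have hW0 : 0 ≤ W := Finset.sum_nonneg fun k _ => by positivity
  refine ⟨W * (48 * C * (A + 1)), 2 * A + 1, ?_⟩
  intro v τ hτ hτ1 x hx hxR
  have hux := norm_sft hx hτ
  set u : E3 := sft τ x with hu
  have hu0 : 0 < ‖u‖ := by linarith
  have hau : ∀ k, ‖a k‖ ≤ ‖u‖ / 2 := fun k => by linarith [haA k]
  -- the field and its derivatives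
  have hform : ∀ α, GF a c v α = fun y =>
      (∑ k, ((c k).re * P1 α (hz (a k) y) + (c k).im * P2 α (hz (a k) y))) + v α := by
    intro α
    funext y
    exact h3 n a c v α y
  have hne : ∀ y : E3, A < ‖y‖ → ∀ k, hz (a k) y ≠ 0 := by
    intro y hy k h0
    rw [hz_eq, sub_eq_zero] at h0
    have h4 := norm_shift_le (a k)
    rw [← h0] at h4
    linarith [haA k]
  have hK1 := fun α => KP_P1 hC hKE α
  have hK2 := fun α => KP_P2 hC hKE α
  have hdP : ∀ {P : E3 → ℝ}, KP P C → ∀ y : E3, y ≠ 0 → DifferentiableAt ℝ P y :=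
    fun hP y hy => (hP.sm y hy).differentiableAt (by norm_num)
  have hdP' : ∀ {P : E3 → ℝ}, KP P C → ∀ (j : Fin 3) (y : E3), y ≠ 0 →
      DifferentiableAt ℝ (pd j P) y :=
    fun hP j y hy => (pd_contDiffAt (m := 1) j (hP.sm y hy) two_le_infty).differentiableAt
      (by norm_num)
  have hD1 : ∀ α j, ∀ y : E3, A < ‖y‖ → pd j (GF a c v α) y =
      ∑ k, ((c k).re * pd j (P1 α) (hz (a k) y) + (c k).im * pd j (P2 α) (hz (a k) y)) := by
    intro α j y hy
    rw [hform α]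
    exact pd_fam (fun k => hdP (hK1 α) _ (hne y hy k)) (fun k => hdP (hK2 α) _ (hne y hy k)) j
  have hAu : A < ‖u‖ := by linarith
  have hD2 : ∀ α j k', pd k' (pd j (GF a c v α)) u =
      ∑ k, ((c k).re * pd k' (pd j (P1 α)) (hz (a k) u) +
        (c k).im * pd k' (pd j (P2 α)) (hz (a k) u)) := by
    intro α j k'
    have hev : pd j (GF a c v α) =ᶠ[𝓝 u] fun y =>
        (∑ k, ((c k).re * pd j (P1 α) (hz (a k) y) + (c k).im * pd j (P2 α) (hz (a k) y))) +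
          (0 : ℝ) := by
      have ho : IsOpen {y : E3 | A < ‖y‖} := isOpen_lt continuous_const continuous_norm
      filter_upwards [ho.mem_nhds hAu] with y hy
      rw [add_zero]
      exact hD1 α j y hy
    rw [pd_congr hev]
    exact pd_fam (fun k => hdP' (hK1 α) j _ (hne u hAu k))
      (fun k => hdP' (hK2 α) j _ (hne u hAu k)) k'
  have hx0 : 0 ≤ ‖x‖ := norm_nonneg x
  have hfin : ∀ (D B : ℝ) (m : ℕ), |D| ≤ W * (B / ‖u‖ ^ m) → B ≤ 48 * C * (A + 1) →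
      |D| * ‖x‖ ^ m ≤ W * (48 * C * (A + 1)) := by
    intro D B m hD hB
    calc |D| * ‖x‖ ^ m ≤ |D| * ‖u‖ ^ m := by gcongr
      _ ≤ W * (B / ‖u‖ ^ m) * ‖u‖ ^ m := by gcongr
      _ = W * B := by field_simp
      _ ≤ W * (48 * C * (A + 1)) := by gcongr
  refine ⟨fun α => ?_, fun j α => ?_, fun k' j α => ?_⟩
  · apply hfin _ (24 * C * A) 3
    · have e : GF a c v α (sft τ x) - v α =
          ∑ k, ((c k).re * P1 α (hz (a k) u) + (c k).im * P2 α (hz (a k) u)) := by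
        rw [hform α]
        simp only [← hu]
        ring
      show |GF a c v α (sft τ x) - v α| ≤ _
      rw [e, wsum_sub (p0 := P1 α u) (q0 := P2 α u) hre him]
      apply wsum
      · intro k
        refine ((hK1 α).bounds hC hu0 (hau k)).1.trans ?_
        gcongr
        exact haA k
      · intro k
        refine ((hK2 α).bounds hC hu0 (hau k)).1.trans ?_
        gcongr
        exact haA k
    · nlinarith [mul_nonneg hC hA0]
  · apply hfin _ (48 * C * A) 4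
    · have e0' : pd j (fun x => GF a c v α (sft τ x)) x = pd j (GF a c v α) u := pd_sft j τ
      rw [e0', hD1 α j u hAu, wsum_sub (p0 := pd j (P1 α) u) (q0 := pd j (P2 α) u) hre him]
      apply wsum
      · intro k
        refine (((hK1 α).bounds hC hu0 (hau k)).2.1 j).trans ?_
        gcongr
        exact haA k
      · intro k
        refine (((hK2 α).bounds hC hu0 (hau k)).2.1 j).trans ?_
        gcongr
        exact haA k
    · nlinarith [mul_nonneg hC hA0]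
  · apply hfin _ (16 * C) 4
    · have e1 : pd j (fun x => GF a c v α (sft τ x)) = fun x => pd j (GF a c v α) (sft τ x) := by
        funext y
        exact pd_sft j τ
      have e2 : pd k' (pd j (fun x => GF a c v α (sft τ x))) x = pd k' (pd j (GF a c v α)) u := by
        rw [e1]
        exact pd_sft k' τ
      rw [e2, hD2 α j k']
      apply wsum
      · intro k
        exact ((hK1 α).bounds hC hu0 (hau k)).2.2 j k'
      · intro k
        exact ((hK2 α).bounds hC hu0 (hau k)).2.2 j k'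
    · nlinarith [mul_nonneg hC hA0]

end Pool.Agent.Work.MP_440970_an.BH

end

section

/-!
# Item GFfld: the explicit fields are monogenic
-/

open MeasureTheory Set Filter Topology
open scoped ContDiff ENNReal

namespace Pool.Agent.Work.MP_440970_an.BH

namespace GFfldX

theorem P1_0 : P1 0 = fun _ => 0 := rfl
theorem P1_1 : P1 1 = EE 0 := rfl
theorem P1_2 : P1 2 = EE 1 := rfl
theorem P1_3 : P1 3 = EE 2 := rfl
theorem P2_0 : P2 0 = EE 0 := rfl
theorem P2_1 : P2 1 = fun _ => 0 := rfl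
theorem P2_2 : P2 2 = fun x => -EE 2 x := rfl
theorem P2_3 : P2 3 = EE 1 := rfl

theorem smP1 (h1 : S_Ker) {u : E3} (hu : u ≠ 0) (α : Fin 4) : ContDiffAt ℝ ∞ (P1 α) u := by
  have h := (h1 u hu _ rfl).1
  fin_cases α
  · show ContDiffAt ℝ ∞ (P1 0) u
    rw [P1_0]
    exact contDiffAt_const
  · exact h 0
  · exact h 1
  · exact h 2

theorem smP2 (h1 : S_Ker) {u : E3} (hu : u ≠ 0) (α : Fin 4) : ContDiffAt ℝ ∞ (P2 α) u := by
  have h := (h1 u hu _ rfl).1
  fin_cases α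
  · exact h 0
  · show ContDiffAt ℝ ∞ (P2 1) u
    rw [P2_1]
    exact contDiffAt_const
  · show ContDiffAt ℝ ∞ (P2 2) u
    rw [P2_2]
    exact (h 2).neg
  · exact h 1

theorem eqs (h1 : S_Ker) {u : E3} (hu : u ≠ 0) :
    pd 0 (EE 0) u + pd 1 (EE 1) u + pd 2 (EE 2) u = 0 ∧ ∀ i j, pd j (EE i) u = pd i (EE j) u := by
  have h := (h1 u hu _ rfl).2.1
  have hpos : 0 < u 0 ^ 2 + u 1 ^ 2 + u 2 ^ 2 := by
    by_contra hcon
    apply hu
    have a0 := sq_nonneg (u 0)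
    have a1 := sq_nonneg (u 1)
    have a2 := sq_nonneg (u 2)
    have b0 : u 0 ^ 2 = 0 := by linarith
    have b1 : u 1 ^ 2 = 0 := by linarith
    have b2 : u 2 ^ 2 = 0 := by linarith
    funext i
    fin_cases i
    · exact pow_eq_zero_iff (two_ne_zero) |>.1 b0
    · exact pow_eq_zero_iff (two_ne_zero) |>.1 b1
    · exact pow_eq_zero_iff (two_ne_zero) |>.1 b2
  obtain ⟨r, hr⟩ : ∃ r : ℝ, r = √(u 0 ^ 2 + u 1 ^ 2 + u 2 ^ 2) := ⟨_, rfl⟩
  have hr0 : 0 < r := by rw [hr]; exact Real.sqrt_pos.2 hpos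
  have hr2 : r ^ 2 = u 0 ^ 2 + u 1 ^ 2 + u 2 ^ 2 := by rw [hr]; exact Real.sq_sqrt hpos.le
  rw [← hr] at h
  constructor
  · rw [h 0 0, h 1 1, h 2 2]
    simp only [if_true]
    field_simp
    linear_combination 3 * hr2
  · intro i j
    rw [h i j, h j i]
    by_cases hij : i = j
    · rw [hij]
    · rw [if_neg hij, if_neg (Ne.symm hij)]
      ring

theorem dirP1 (h1 : S_Ker) {u : E3} (hu : u ≠ 0) : Dir fun j α => pd j (P1 α) u := by
  obtain ⟨h2, h3⟩ := eqs h1 hu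
  have h0 : ∀ j, pd j (P1 0) u = 0 := fun j => by rw [P1_0]; exact pd_const j 0 u
  refine ⟨?_, ?_, ?_, ?_⟩ <;> simp only [h0, P1_1, P1_2, P1_3]
  · exact h2
  · rw [h3 2 1]; ring
  · rw [h3 0 2]; ring
  · rw [h3 1 0]; ring

theorem dirP2 (h1 : S_Ker) {u : E3} (hu : u ≠ 0) : Dir fun j α => pd j (P2 α) u := by
  obtain ⟨h2, h3⟩ := eqs h1 hu
  have h0 : ∀ j, pd j (P2 1) u = 0 := fun j => by rw [P2_1]; exact pd_const j 0 u
  have h4 : ∀ j, pd j (P2 2) u = -pd j (EE 2) u := fun j => by rw [P2_2]; exact pd_neg j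
  refine ⟨?_, ?_, ?_, ?_⟩ <;> simp only [h0, h4, P2_0, P2_3]
  · rw [h3 2 1]; ring
  · linear_combination h2
  · rw [h3 0 1]; ring
  · rw [h3 0 2]; ring

theorem hz_ne {a : ℂ} {x : E3} (hx : 0 < x 0) : hz a x ≠ 0 := by
  intro h
  have h1 := congrFun h 0
  simp only [hz, Matrix.cons_val_zero, sub_zero, Pi.zero_apply] at h1
  exact hx.ne' h1

theorem hz_smooth (a : ℂ) : ContDiff ℝ ∞ (hz a) := by
  rw [contDiff_pi]
  intro i
  exact (contDiff_apply ℝ ℝ i).sub contDiff_const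

end GFfldX

open GFfldX in
theorem pr_GFfld (h1 : S_Ker) (h2 : S_GFform) : S_GFfld := by
  intro n a c v
  have hGF : ∀ α, GF a c v α = fun x =>
      (∑ k, ((c k).re * P1 α (hz (a k) x) + (c k).im * P2 α (hz (a k) x))) + v α := by
    intro α
    funext x
    exact h2 n a c v α x
  have s1 : ∀ x : E3, 0 < x 0 → ∀ (k : Fin n) (α : Fin 4),
      ContDiffAt ℝ ∞ (fun y => P1 α (hz (a k) y)) x := fun x hx k α =>
    (smP1 h1 (hz_ne hx) α).comp x (hz_smooth (a k)).contDiffAt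
  have s2 : ∀ x : E3, 0 < x 0 → ∀ (k : Fin n) (α : Fin 4),
      ContDiffAt ℝ ∞ (fun y => P2 α (hz (a k) y)) x := fun x hx k α =>
    (smP2 h1 (hz_ne hx) α).comp x (hz_smooth (a k)).contDiffAt
  have s3 : ∀ x : E3, 0 < x 0 → ∀ (k : Fin n) (α : Fin 4), ContDiffAt ℝ ∞
      (fun y => (c k).re * P1 α (hz (a k) y) + (c k).im * P2 α (hz (a k) y)) x :=
    fun x hx k α => (contDiffAt_const.mul (s1 x hx k α)).add (contDiffAt_const.mul (s2 x hx k α))
  have s4 : ∀ x : E3, 0 < x 0 → ∀ α : Fin 4, ContDiffAt ℝ ∞ (fun y => ∑ k,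
      ((c k).re * P1 α (hz (a k) y) + (c k).im * P2 α (hz (a k) y))) x := fun x hx α =>
    ContDiffAt.sum fun k _ => s3 x hx k α
  have hne : (∞ : WithTop ℕ∞) ≠ 0 := by simp
  refine ⟨isOpen_lt continuous_const (continuous_apply 0), ?_, ?_⟩
  · intro α x hx
    rw [hGF α]
    exact ((s4 x hx α).add contDiffAt_const).contDiffWithinAt
  · intro x hx
    have hx' : 0 < x 0 := hx
    have key : ∀ (j : Fin 3) (α : Fin 4), pd j (GF a c v α) x =
        ∑ k, ((c k).re * pd j (P1 α) (hz (a k) x) + (c k).im * pd j (P2 α) (hz (a k) x)) := by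
      intro j α
      rw [hGF α, pd_add j ((s4 x hx' α).differentiableAt hne) (differentiableAt_const _),
        pd_const, add_zero, pd_sum _ _ j fun k _ => (s3 x hx' k α).differentiableAt hne]
      refine Finset.sum_congr rfl fun k _ => ?_
      have d1 := (s1 x hx' k α).differentiableAt hne
      have d2 := (s2 x hx' k α).differentiableAt hne
      rw [pd_add j (d1.const_mul _) (d2.const_mul _), pd_const_mul j _ d1, pd_const_mul j _ d2,
        pd_hz (f := P1 α), pd_hz (f := P2 α)]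
    have hd1 : ∀ k, Dir fun j α => pd j (P1 α) (hz (a k) x) := fun k => dirP1 h1 (hz_ne hx')
    have hd2 : ∀ k, Dir fun j α => pd j (P2 α) (hz (a k) x) := fun k => dirP2 h1 (hz_ne hx')
    refine ⟨?_, ?_, ?_, ?_⟩ <;> simp only [key]
    · rw [← Finset.sum_add_distrib, ← Finset.sum_add_distrib]
      refine Finset.sum_eq_zero fun k _ => ?_
      linear_combination (c k).re * (hd1 k).d1 + (c k).im * (hd2 k).d1
    · rw [← Finset.sum_add_distrib, ← Finset.sum_sub_distrib]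
      refine Finset.sum_eq_zero fun k _ => ?_
      linear_combination (c k).re * (hd1 k).d2 + (c k).im * (hd2 k).d2
    · rw [← Finset.sum_add_distrib, ← Finset.sum_sub_distrib]
      refine Finset.sum_eq_zero fun k _ => ?_
      linear_combination (c k).re * (hd1 k).d3 + (c k).im * (hd2 k).d3
    · rw [← Finset.sum_add_distrib, ← Finset.sum_sub_distrib]
      refine Finset.sum_eq_zero fun k _ => ?_
      linear_combination (c k).re * (hd1 k).d4 + (c k).im * (hd2 k).d4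

end Pool.Agent.Work.MP_440970_an.BH

end

section

/-!
# The field of point charges as a combination of the fields of the charges `1` and `i`
-/

open MeasureTheory Set Filter Topology
open scoped ContDiff ENNReal

namespace Pool.Agent.Work.MP_440970_an.BH

namespace GFformX

theorem ee0 (a : ℂ) (x : E3) : EE 0 (hz a x) = x 0 / rr a x ^ 3 := by
  simp [EE, hz, rr]

theorem ee1 (a : ℂ) (x : E3) : EE 1 (hz a x) = (x 1 - a.re) / rr a x ^ 3 := by
  simp [EE, hz, rr]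

theorem ee2 (a : ℂ) (x : E3) : EE 2 (hz a x) = (x 2 - a.im) / rr a x ^ 3 := by
  simp [EE, hz, rr]

theorem uK_re (a : ℂ) (x : E3) : (uK a x).re = EE 0 (hz a x) := by
  rw [ee0]; exact Complex.ofReal_re _

theorem uK_im (a : ℂ) (x : E3) : (uK a x).im = 0 := Complex.ofReal_im _

theorem fK_re (a : ℂ) (x : E3) : (fK a x).re = EE 1 (hz a x) := by
  rw [ee1]; rfl

theorem fK_im (a : ℂ) (x : E3) : (fK a x).im = EE 2 (hz a x) := by
  rw [ee2]; rfl

end GFformX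

open GFformX in
theorem pr_GFform : S_GFform := by
  intro n a c v α x
  unfold GF
  congr 1
  fin_cases α
  · show (∑ k, c k * uK (a k) x).im =
      ∑ k, ((c k).re * 0 + (c k).im * EE 0 (hz (a k) x))
    rw [Complex.im_sum]
    refine Finset.sum_congr rfl fun k _ => ?_
    rw [Complex.mul_im, uK_re, uK_im]
  · show (∑ k, c k * uK (a k) x).re =
      ∑ k, ((c k).re * EE 0 (hz (a k) x) + (c k).im * 0)
    rw [Complex.re_sum]
    refine Finset.sum_congr rfl fun k _ => ?_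
    rw [Complex.mul_re, uK_re, uK_im]
    ring
  · show (∑ k, c k * fK (a k) x).re =
      ∑ k, ((c k).re * EE 1 (hz (a k) x) + (c k).im * -EE 2 (hz (a k) x))
    rw [Complex.re_sum]
    refine Finset.sum_congr rfl fun k _ => ?_
    rw [Complex.mul_re, fK_re, fK_im]
    ring
  · show (∑ k, c k * fK (a k) x).im =
      ∑ k, ((c k).re * EE 2 (hz (a k) x) + (c k).im * EE 1 (hz (a k) x))
    rw [Complex.im_sum]
    refine Finset.sum_congr rfl fun k _ => ?_
    rw [Complex.mul_im, fK_re, fK_im]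

end Pool.Agent.Work.MP_440970_an.BH

end

section

/-!
# The components of a monogenic field and their derivatives are harmonic
-/

open MeasureTheory Set Filter Topology
open scoped ContDiff ENNReal

namespace Pool.Agent.Work.MP_440970_an.BH

namespace HarmX

/-- harmonicity of the components from the differentiated equations -/
theorem alg (D : Fin 3 → Fin 3 → Fin 4 → ℝ) (hs : ∀ i j α, D i j α = D j i α)
    (hd : ∀ i, Dir (D i)) (α : Fin 4) : ∑ i, D i i α = 0 := by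
  have a1 := fun i => (hd i).d1
  have a2 := fun i => (hd i).d2
  have a3 := fun i => (hd i).d3
  have a4 := fun i => (hd i).d4
  rw [Fin.sum_univ_three]
  have h01 := hs 0 1
  have h02 := hs 0 2
  have h12 := hs 1 2
  fin_cases α
  · show D 0 0 0 + D 1 1 0 + D 2 2 0 = 0
    linarith [a2 0, a3 1, a4 2, h01 3, h12 1, h02 2]
  · show D 0 0 1 + D 1 1 1 + D 2 2 1 = 0
    linarith [a1 0, a4 1, a3 2, h01 2, h02 3, h12 0]
  · show D 0 0 2 + D 1 1 2 + D 2 2 2 = 0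
    linarith [a4 0, a1 1, a2 2, h02 0, h01 1, h12 3]
  · show D 0 0 3 + D 1 1 3 + D 2 2 3 = 0
    linarith [a3 0, a2 1, a1 2, h01 0, h02 1, h12 2]

variable {F : Fin 4 → E3 → ℝ} {U : Set E3} {x : E3}

theorem smoothAt (h : Fld F U) (hx : x ∈ U) (α : Fin 4) : ContDiffAt ℝ ∞ (F α) x :=
  (h.smooth α x hx).contDiffAt (h.op.mem_nhds hx)

theorem smoothAt2 (h : Fld F U) (hx : x ∈ U) (α : Fin 4) : ContDiffAt ℝ 2 (F α) x :=
  (smoothAt h hx α).of_le (WithTop.coe_le_coe.2 le_top)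

theorem diffPd (h : Fld F U) (hx : x ∈ U) (j : Fin 3) (α : Fin 4) :
    DifferentiableAt ℝ (pd j (F α)) x := diff_pd j (smoothAt2 h hx α)

/-- the differentiated equations -/
theorem dirD (h : Fld F U) (hx : x ∈ U) (i : Fin 3) :
    Dir fun j α => pd i (pd j (F α)) x := by
  have hU : ∀ᶠ y in 𝓝 x, y ∈ U := h.op.mem_nhds hx
  have d := fun j α => diffPd h hx j α
  constructor
  · have e : (fun y => pd 0 (F 1) y + pd 1 (F 2) y + pd 2 (F 3) y) =ᶠ[𝓝 x] fun _ => 0 := by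
      filter_upwards [hU] with y hy
      exact (h.dir y hy).d1
    have e2 := pd_congr (i := i) e
    rw [pd_const, pd_add i ((d 0 1).fun_add (d 1 2)) (d 2 3), pd_add i (d 0 1) (d 1 2)] at e2
    exact e2
  · have e : (fun y => pd 0 (F 0) y + pd 1 (F 3) y - pd 2 (F 2) y) =ᶠ[𝓝 x] fun _ => 0 := by
      filter_upwards [hU] with y hy
      exact (h.dir y hy).d2
    have e2 := pd_congr (i := i) e
    rw [pd_const, pd_sub i ((d 0 0).fun_add (d 1 3)) (d 2 2), pd_add i (d 0 0) (d 1 3)] at e2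
    exact e2
  · have e : (fun y => pd 1 (F 0) y + pd 2 (F 1) y - pd 0 (F 3) y) =ᶠ[𝓝 x] fun _ => 0 := by
      filter_upwards [hU] with y hy
      exact (h.dir y hy).d3
    have e2 := pd_congr (i := i) e
    rw [pd_const, pd_sub i ((d 1 0).fun_add (d 2 1)) (d 0 3), pd_add i (d 1 0) (d 2 1)] at e2
    exact e2
  · have e : (fun y => pd 2 (F 0) y + pd 0 (F 2) y - pd 1 (F 1) y) =ᶠ[𝓝 x] fun _ => 0 := by
      filter_upwards [hU] with y hy
      exact (h.dir y hy).d4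
    have e2 := pd_congr (i := i) e
    rw [pd_const, pd_sub i ((d 2 0).fun_add (d 0 2)) (d 1 1), pd_add i (d 2 0) (d 0 2)] at e2
    exact e2

theorem harm (h : Fld F U) (hx : x ∈ U) (α : Fin 4) : ∑ i, pd i (pd i (F α)) x = 0 :=
  alg (fun i j α => pd i (pd j (F α)) x)
    (fun i j α => pd_comm i j (smoothAt2 h hx α)) (fun i => dirD h hx i) α

/-- the derivatives of a field form a field -/
theorem fldPd (h : Fld F U) (j : Fin 3) : Fld (fun α => pd j (F α)) U := by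
  refine ⟨h.op, fun α => pd_contDiffOn j h.op (h.smooth α) (by simp), fun x hx => ?_⟩
  have e := dirD h hx j
  have c := fun i α => pd_comm i j (smoothAt2 h hx α)
  constructor
  · show pd 0 (pd j (F 1)) x + pd 1 (pd j (F 2)) x + pd 2 (pd j (F 3)) x = 0
    rw [c, c, c]
    exact e.d1
  · show pd 0 (pd j (F 0)) x + pd 1 (pd j (F 3)) x - pd 2 (pd j (F 2)) x = 0
    rw [c, c, c]
    exact e.d2
  · show pd 1 (pd j (F 0)) x + pd 2 (pd j (F 1)) x - pd 0 (pd j (F 3)) x = 0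
    rw [c, c, c]
    exact e.d3
  · show pd 2 (pd j (F 0)) x + pd 0 (pd j (F 2)) x - pd 1 (pd j (F 1)) x = 0
    rw [c, c, c]
    exact e.d4

end HarmX

open HarmX in
theorem pr_Harm : S_Harm := fun _ _ h _ hx =>
  ⟨fun α => harm h hx α, fun j α => harm (fldPd h j) hx α⟩

end Pool.Agent.Work.MP_440970_an.BH

end

section

/-!
# The Jensen inequality on the plane `ℂ`
-/

open MeasureTheory Set Filter Topology
open scoped ContDiff ENNReal

namespace Pool.Agent.Work.MP_440970_an.BH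

namespace JenCX

theorem rr_eq (a w : ℂ) : rr a (Fin.cons 0 (Complex.measurableEquivPi w)) = ‖w - a‖ := by
  have h0 : (Fin.cons 0 (Complex.measurableEquivPi w) : E3) 0 = 0 := rfl
  have h1 : (Fin.cons 0 (Complex.measurableEquivPi w) : E3) 1 = w.re := rfl
  have h2 : (Fin.cons 0 (Complex.measurableEquivPi w) : E3) 2 = w.im := rfl
  rw [rr, h0, h1, h2, Complex.norm_eq_sqrt_sq_add_sq, Complex.sub_re, Complex.sub_im]
  norm_num

theorem uK_eq (a w : ℂ) : uK a (Fin.cons 0 (Complex.measurableEquivPi w)) = 0 := by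
  have h0 : (Fin.cons 0 (Complex.measurableEquivPi w) : E3) 0 = 0 := rfl
  rw [uK, h0, zero_div, Complex.ofReal_zero]

theorem fK_eq (a w : ℂ) : fK a (Fin.cons 0 (Complex.measurableEquivPi w)) = K (w - a) := by
  have h1 : (Fin.cons 0 (Complex.measurableEquivPi w) : E3) 1 = w.re := rfl
  have h2 : (Fin.cons 0 (Complex.measurableEquivPi w) : E3) 2 = w.im := rfl
  have h3 : ((‖w - a‖ : ℂ) ^ 3) = ((‖w - a‖ ^ 3 : ℝ) : ℂ) := by push_cast; rfl
  rw [fK, rr_eq, h1, h2, K, h3]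
  apply Complex.ext
  · rw [Complex.div_ofReal_re, Complex.sub_re]
  · rw [Complex.div_ofReal_im, Complex.sub_im]

theorem AA_eq {n : ℕ} (a c : Fin n → ℂ) (w : ℂ) :
    AA (GF a c ![0, 0, 1, 0]) (Fin.cons 0 (Complex.measurableEquivPi w)) =
      ‖1 + ∑ k, c k * K (w - a k)‖ ^ 2 := by
  rw [AA, Fin.sum_univ_four]
  simp only [GF, uK_eq, fK_eq]
  rw [← Complex.normSq_eq_norm_sq, Complex.normSq_apply, Complex.add_re, Complex.add_im]
  simp
  ring

theorem pow_eq {n : ℕ} (a c : Fin n → ℂ) (p : ℝ) (w : ℂ) :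
    AA (GF a c ![0, 0, 1, 0]) (Fin.cons 0 (Complex.measurableEquivPi w)) ^ (p / 2) =
      ‖1 + ∑ k, c k * K (w - a k)‖ ^ p := by
  rw [AA_eq, ← Real.rpow_natCast, ← Real.rpow_mul (norm_nonneg _)]
  congr 1
  push_cast
  ring

theorem pre_eq (L : ℝ) :
    Complex.measurableEquivPi ⁻¹' (Icc (fun _ : Fin 2 => -L) (fun _ => L)) =
      Icc (-L) L ×ℂ Icc (-L) L := by
  ext w
  rw [mem_preimage, Complex.mem_reProdIm, mem_Icc, mem_Icc, mem_Icc, Pi.le_def, Pi.le_def,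
    Fin.forall_fin_two, Fin.forall_fin_two]
  have h0 : Complex.measurableEquivPi w 0 = w.re := rfl
  have h1 : Complex.measurableEquivPi w 1 = w.im := rfl
  rw [h0, h1]
  tauto

end JenCX

open JenCX in
theorem pr_JenC (h1 : S_Jen) : S_JenC := by
  intro n a c p hp hp2 hc hs
  obtain ⟨C, R, hR, h⟩ := h1 n a c p hp hp2 hc hs
  refine ⟨C, R, hR, fun L hL => ?_⟩
  obtain ⟨hi, hb⟩ := h L hL
  have hm := Complex.volume_preserving_equiv_pi
  have he := Complex.measurableEquivPi.measurableEmbedding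
  constructor
  · have h2 := (hm.integrableOn_comp_preimage he).2 hi
    rw [pre_eq] at h2
    refine h2.congr_fun_ae (Eventually.of_forall fun w => ?_)
    exact pow_eq a c p w
  · have h2 := hm.setIntegral_preimage_emb he
      (fun z => AA (GF a c ![0, 0, 1, 0]) (Fin.cons 0 z) ^ (p / 2) - 1)
      (Icc (fun _ : Fin 2 => -L) (fun _ => L))
    rw [pre_eq] at h2
    simp only [pow_eq] at h2
    rw [h2]
    exact hb

end Pool.Agent.Work.MP_440970_an.BH

end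

section

/-!
# [JetB]
-/

open MeasureTheory Set Filter Topology
open scoped ContDiff

namespace Pool.Agent.Work.MP_440970_an.BH

namespace JetBX

theorem cs (A B : Fin 3 → Fin 3 → ℝ) :
    ∑ k, ∑ j, (∑ l, A k l * B l j) ^ 2 ≤ (∑ k, ∑ l, A k l ^ 2) * ∑ l, ∑ j, B l j ^ 2 := by
  have h1 : ∀ k j, (∑ l, A k l * B l j) ^ 2 ≤ (∑ l, A k l ^ 2) * ∑ l, B l j ^ 2 := fun k j =>
    Finset.sum_mul_sq_le_sq_mul_sq _ _ _
  calc ∑ k, ∑ j, (∑ l, A k l * B l j) ^ 2
      ≤ ∑ k, ∑ j, (∑ l, A k l ^ 2) * ∑ l, B l j ^ 2 :=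
        Finset.sum_le_sum fun k _ => Finset.sum_le_sum fun j _ => h1 k j
    _ = (∑ k, ∑ l, A k l ^ 2) * ∑ l, ∑ j, B l j ^ 2 := by
        rw [Finset.sum_comm (f := fun l j => B l j ^ 2), Finset.sum_mul]
        refine Finset.sum_congr rfl fun k _ => ?_
        rw [Finset.mul_sum]

theorem diff_sq (S : Fin 3 → Fin 4 → ℝ) :
    ∑ k, ∑ j, (nP S k j - nO S k j) ^ 2 = ∑ k, ∑ j, nP S k j ^ 2 + ∑ k, ∑ j, nO S k j ^ 2 := by
  simp only [Fin.sum_univ_three, nP, nO]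
  ring

theorem N_eq (S : Fin 3 → Fin 4 → ℝ) (T : Fin 3 → Fin 3 → Fin 4 → ℝ) :
    (nSJ S T).N = ∑ k, S k 0 ^ 2 := by
  simp [SJ.N, nSJ, mkSJ, Fin.sum_univ_four, Fin.sum_univ_three]

theorem O_sq (S : Fin 3 → Fin 4 → ℝ) (h : Dir S) :
    ∑ k, ∑ j, nO S k j ^ 2 = (∑ k, S k 0 ^ 2) / 2 := by
  obtain ⟨h1, h2, h3, h4⟩ := h
  have e1 : nO S 1 2 = -S 0 0 / 2 := by
    show (S 1 3 - S 2 2) / 2 = _
    linarith
  have e2 : nO S 2 0 = -S 1 0 / 2 := by
    show (S 2 1 - S 0 3) / 2 = _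
    linarith
  have e3 : nO S 0 1 = -S 2 0 / 2 := by
    show (S 0 2 - S 1 1) / 2 = _
    linarith
  have e1' : nO S 2 1 = S 0 0 / 2 := by
    show (S 2 2 - S 1 3) / 2 = _
    linarith
  have e2' : nO S 0 2 = S 1 0 / 2 := by
    show (S 0 3 - S 2 1) / 2 = _
    linarith
  have e3' : nO S 1 0 = S 2 0 / 2 := by
    show (S 1 1 - S 0 2) / 2 = _
    linarith
  have e4 : ∀ k, nO S k k = 0 := by
    intro k
    simp [nO]
  simp only [Fin.sum_univ_three, e1, e2, e3, e1', e2', e3', e4]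
  ring

theorem P_symm (S : Fin 3 → Fin 4 → ℝ) (k j : Fin 3) : nP S k j = nP S j k := by
  unfold nP
  ring

end JetBX

theorem pr_JetB (h1 : S_JetD) (h2 : S_JetL) : S_JetB := by
  intro S T hN
  obtain ⟨-, hq, hB⟩ := h1 S T hN
  have hL := h2 S T hN
  have hNe := JetBX.N_eq S T
  have hO := JetBX.O_sq S hN.dS
  have hD := JetBX.diff_sq S
  set q := (nSJ S T).q with hqd
  set N := (nSJ S T).N with hNd
  have hN0 : 0 ≤ N := by
    rw [hNe]
    exact Finset.sum_nonneg fun i _ => sq_nonneg _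
  have hq0 : 0 ≤ q := by
    rw [hq]
    exact Finset.sum_nonneg fun i _ => Finset.sum_nonneg fun j _ => sq_nonneg _
  have c1 := JetBX.cs (nO S) (nP S)
  have c2 := JetBX.cs (nP S) fun l j => nP S l j - nO S l j
  rw [hO, ← hq, ← hNe] at c1
  rw [hD, hO, ← hq, ← hNe] at c2
  have hR0 : 0 ≤ ∑ k, ∑ j, nR S T k j ^ 2 :=
    Finset.sum_nonneg fun i _ => Finset.sum_nonneg fun j _ => sq_nonneg _
  have hT0 : 0 ≤ ∑ k, ∑ j, ∑ l, nT T k j l ^ 2 :=
    Finset.sum_nonneg fun i _ => Finset.sum_nonneg fun j _ => Finset.sum_nonneg fun l _ =>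
      sq_nonneg _
  have key : (nSJ S T).Bs ≤ 2 * ∑ k, ∑ j, nR S T k j ^ 2 +
      4 * ∑ k, ∑ j, (∑ l, nO S k l * nP S l j) ^ 2 +
      4 * ∑ k, ∑ j, (∑ l, nP S k l * (nP S l j - nO S l j)) ^ 2 := by
    unfold SJ.Bs
    rw [Finset.mul_sum, Finset.mul_sum, Finset.mul_sum, ← Finset.sum_add_distrib,
      ← Finset.sum_add_distrib]
    refine Finset.sum_le_sum fun k _ => ?_
    rw [Finset.mul_sum, Finset.mul_sum, Finset.mul_sum, ← Finset.sum_add_distrib,
      ← Finset.sum_add_distrib]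
    refine Finset.sum_le_sum fun j _ => ?_
    rw [hB k j]
    have e : ∑ l, (nO S k l * nP S l j - nP S k l * nO S l j + nP S k l * nP S l j) =
        ∑ l, nO S k l * nP S l j + ∑ l, nP S k l * (nP S l j - nO S l j) := by
      rw [← Finset.sum_add_distrib]
      refine Finset.sum_congr rfl fun l _ => ?_
      ring
    rw [e]
    nlinarith [sq_nonneg (nR S T k j - (∑ l, nO S k l * nP S l j +
      ∑ l, nP S k l * (nP S l j - nO S l j))), sq_nonneg (∑ l, nO S k l * nP S l j -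
      ∑ l, nP S k l * (nP S l j - nO S l j))]
  nlinarith [mul_nonneg hN0 hq0, mul_nonneg hq0 hq0]

end Pool.Agent.Work.MP_440970_an.BH

end

section

/-!
# The scalar jets of a monogenic field satisfy the relations
-/

open MeasureTheory Set Filter Topology
open scoped ContDiff ENNReal

namespace Pool.Agent.Work.MP_440970_an.BH

namespace JetFX

theorem smooth2 {F : Fin 4 → E3 → ℝ} {U : Set E3} (hF : Fld F U) {x : E3} (hx : x ∈ U)
    (α : Fin 4) : ContDiffAt ℝ 2 (F α) x := by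
  have h := (hF.smooth α).contDiffAt (hF.op.mem_nhds hx)
  refine h.of_le ?_
  have h2 : ((2 : ℕ∞) : WithTop ℕ∞) ≤ ((⊤ : ℕ∞) : WithTop ℕ∞) := WithTop.coe_le_coe.2 le_top
  exact h2

theorem plus {f g h : E3 → ℝ} {x : E3} (k : Fin 3) (hf : DifferentiableAt ℝ f x)
    (hg : DifferentiableAt ℝ g x) (hh : DifferentiableAt ℝ h x)
    (h0 : ∀ᶠ y in 𝓝 x, f y + g y + h y = 0) : pd k f x + pd k g x + pd k h x = 0 := by
  have h1 : pd k (fun y => f y + g y + h y) x = 0 := by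
    rw [pd_congr (g := fun _ => (0 : ℝ)) h0, pd_const]
  rw [pd_add (f := fun y => f y + g y) k (hf.add hg) hh, pd_add k hf hg] at h1
  exact h1

theorem minus {f g h : E3 → ℝ} {x : E3} (k : Fin 3) (hf : DifferentiableAt ℝ f x)
    (hg : DifferentiableAt ℝ g x) (hh : DifferentiableAt ℝ h x)
    (h0 : ∀ᶠ y in 𝓝 x, f y + g y - h y = 0) : pd k f x + pd k g x - pd k h x = 0 := by
  have h1 : pd k (fun y => f y + g y - h y) x = 0 := by
    rw [pd_congr (g := fun _ => (0 : ℝ)) h0, pd_const]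
  rw [pd_sub (f := fun y => f y + g y) k (hf.add hg) hh, pd_add k hf hg] at h1
  exact h1

theorem norm {F : Fin 4 → E3 → ℝ} {U : Set E3} (hF : Fld F U) {x : E3} (hx : x ∈ U) :
    NormData (fun j α => pd j (F α) x) (fun k j α => pd k (pd j (F α)) x) := by
  have hd : ∀ (j : Fin 3) (α : Fin 4), DifferentiableAt ℝ (pd j (F α)) x := fun j α =>
    diff_pd j (smooth2 hF hx α)
  have hU : ∀ᶠ y in 𝓝 x, y ∈ U := hF.op.mem_nhds hx
  refine ⟨hF.dir x hx, fun k => ⟨?_, ?_, ?_, ?_⟩, fun k j α => pd_comm k j (smooth2 hF hx α)⟩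
  · exact plus k (hd _ _) (hd _ _) (hd _ _) (hU.mono fun y hy => (hF.dir y hy).d1)
  · exact minus k (hd _ _) (hd _ _) (hd _ _) (hU.mono fun y hy => (hF.dir y hy).d2)
  · exact minus k (hd _ _) (hd _ _) (hd _ _) (hU.mono fun y hy => (hF.dir y hy).d3)
  · exact minus k (hd _ _) (hd _ _) (hd _ _) (hU.mono fun y hy => (hF.dir y hy).d4)

end JetFX

theorem pr_JetF (h1 : S_JetQ) (h2 : S_JetK) (h3 : S_JetB) (h4 : S_JetW) (h5 : S_JetNorm) :
    S_JetF := by
  intro F U hF x hx hA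
  refine h5 (fun S T h => ?_) _ _ _ _ hA (JetFX.norm hF hx)
  obtain ⟨q1, q2, q3, q4⟩ := h1 S T h
  exact ⟨q1, q2, q3, q4, h2 S T h, h3 S T h, h4 S T h⟩

end Pool.Agent.Work.MP_440970_an.BH

end

section

/-!
# Item JetQ: symmetry, trace and positivity of the normalised jets
-/

set_option autoImplicit false

open MeasureTheory Set Filter Topology
open scoped ContDiff

namespace Pool.Agent.Work.MP_440970_an.BH

namespace JetQX

theorem s1 : ∑ α : Fin 4, (![1, 0, 0, 0] : Fin 4 → ℝ) α ^ 2 = 1 := by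
  simp [Fin.sum_univ_four]

theorem s2 (f : Fin 4 → ℝ) : ∑ α : Fin 4, (![1, 0, 0, 0] : Fin 4 → ℝ) α * f α = f 0 := by
  simp [Fin.sum_univ_four]

theorem eta (S : Fin 3 → Fin 4 → ℝ) (T : Fin 3 → Fin 3 → Fin 4 → ℝ) (k : Fin 3) :
    (nSJ S T).η k = S k 0 := by
  show 1 * (∑ α, (![1, 0, 0, 0] : Fin 4 → ℝ) α * S k α) /
    ∑ α, (![1, 0, 0, 0] : Fin 4 → ℝ) α ^ 2 = S k 0
  rw [s1, s2]
  ring

theorem HH (S : Fin 3 → Fin 4 → ℝ) (T : Fin 3 → Fin 3 → Fin 4 → ℝ) (k j : Fin 3) :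
    (nSJ S T).H k j = (∑ α, S k α * S j α) + T k j 0 - 2 * S k 0 * S j 0 := by
  show (1 : ℝ) ^ 2 * ((∑ α, (S k α * S j α + (![1, 0, 0, 0] : Fin 4 → ℝ) α * T k j α)) /
    (∑ α, (![1, 0, 0, 0] : Fin 4 → ℝ) α ^ 2) -
    2 * (∑ α, (![1, 0, 0, 0] : Fin 4 → ℝ) α * S k α) *
      (∑ α, (![1, 0, 0, 0] : Fin 4 → ℝ) α * S j α) /
      (∑ α, (![1, 0, 0, 0] : Fin 4 → ℝ) α ^ 2) ^ 2) = _
  rw [Finset.sum_add_distrib, s1, s2, s2, s2]
  ring

theorem xi (S : Fin 3 → Fin 4 → ℝ) (T : Fin 3 → Fin 3 → Fin 4 → ℝ) :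
    (nSJ S T).ξ = ∑ j, ∑ α, S j α ^ 2 := by
  show (1 : ℝ) ^ 2 * (∑ j, ∑ α, S j α ^ 2) / ∑ α, (![1, 0, 0, 0] : Fin 4 → ℝ) α ^ 2 = _
  rw [s1]
  ring

theorem Deq (S : Fin 3 → Fin 4 → ℝ) (T : Fin 3 → Fin 3 → Fin 4 → ℝ) :
    (nSJ S T).D = ∑ k, ∑ j, ∑ α, T k j α ^ 2 := by
  show (1 : ℝ) ^ 4 * (∑ k, ∑ j, ∑ α, T k j α ^ 2) / ∑ α, (![1, 0, 0, 0] : Fin 4 → ℝ) α ^ 2 = _
  rw [s1]
  ring

theorem NN (S : Fin 3 → Fin 4 → ℝ) (T : Fin 3 → Fin 3 → Fin 4 → ℝ) :
    (nSJ S T).N = ∑ k, S k 0 ^ 2 := by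
  unfold SJ.N
  simp only [eta]

end JetQX

open JetQX in
theorem pr_JetQ : S_JetQ := by
  intro S T h
  obtain ⟨hS, hT, hsT⟩ := h
  refine ⟨fun k j => ?_, ?_, ?_, ?_⟩
  · rw [HH, HH, hsT k j]
    have : ∑ α, S k α * S j α = ∑ α, S j α * S k α :=
      Finset.sum_congr rfl fun α _ => mul_comm _ _
    rw [this]
    ring
  · simp only [HH, xi, NN]
    have h0 := (hT 0).d2
    have h1 := (hT 1).d3
    have h2 := (hT 2).d4
    rw [hsT 1 0 3] at h1
    rw [hsT 2 0 2, hsT 2 1 1] at h2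
    simp only [Fin.sum_univ_three, Fin.sum_univ_four]
    linear_combination h0 + h1 + h2
  · have e2 : S 0 0 = S 2 2 - S 1 3 := by linear_combination hS.d2
    have e3 : S 1 0 = S 0 3 - S 2 1 := by linear_combination hS.d3
    have e4 : S 2 0 = S 1 1 - S 0 2 := by linear_combination hS.d4
    have e : (nSJ S T).q = ∑ j : Fin 3, ∑ l : Fin 3, ((S j l.succ + S l j.succ) / 2) ^ 2 := by
      unfold SJ.q
      rw [xi, NN]
      simp only [Fin.sum_univ_three, Fin.sum_univ_four]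
      have f1 : Fin.succ (0 : Fin 3) = 1 := rfl
      have f2 : Fin.succ (1 : Fin 3) = 2 := rfl
      have f3 : Fin.succ (2 : Fin 3) = 3 := rfl
      rw [f1, f2, f3, e2, e3, e4]
      ring
    rw [e]
    positivity
  · rw [Deq]
    positivity

end Pool.Agent.Work.MP_440970_an.BH

end

section

open MeasureTheory Set Filter Topology
open scoped ContDiff ENNReal

namespace Pool.Agent.Work.MP_440970_an.BH

namespace LapMX

theorem comp2 {f : E3 → ℝ} {x : E3} {a l : ℝ} {v : E3} (hf : NJ f x a v l) {φ : ℝ → ℝ}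
    (hφ : ContDiff ℝ 2 φ) : NJ (fun y => φ (f y)) x (φ a) (fun i => deriv φ a * v i)
      (deriv φ a * l + deriv (deriv φ) a * ∑ i, v i ^ 2) := by
  have h1 : ContDiff ℝ (1 + 1) φ := by
    rw [one_add_one_eq_two]; exact hφ
  have h2 : ContDiff ℝ 1 (deriv φ) := (contDiff_succ_iff_deriv.1 h1).2.2
  refine NJ.comp (φ1 := deriv φ) hf hφ.contDiffAt ?_ ?_
  · exact Eventually.of_forall fun u =>
      ((hφ.differentiable (by norm_num)) u).hasDerivAt
  · exact ((h2.differentiable (by norm_num)) a).hasDerivAt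

end LapMX

theorem pr_LapM (h1 : S_NJw) (h2 : S_NJxi) (h3 : S_NJq) : S_LapM := by
  intro F U hF x hx hA p φ ψ hφ hψ
  have hw := h1 F U hF x hx hA p
  have hxi := h2 F U hF x hx hA
  have hq := h3 F U hF x hx hA
  have hp := LapMX.comp2 hxi hφ
  have hs := LapMX.comp2 hxi hψ
  have key := hw.mul (hp.add (hq.mul hs))
  refine key.congr rfl (fun i => ?_) ?_
  · ring
  · unfold SJ.EP SJ.EQ
    simp only [Fin.sum_univ_three]
    ring

end Pool.Agent.Work.MP_440970_an.BH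

end

section

/-!
# Normalised data of the square of the modulus
-/

open MeasureTheory Set Filter Topology
open scoped ContDiff ENNReal

namespace Pool.Agent.Work.MP_440970_an.BH

namespace NJAX

variable {F : Fin 4 → E3 → ℝ} {U : Set E3} {x : E3}

theorem smoothAt2 (h : Fld F U) (hx : x ∈ U) (α : Fin 4) : ContDiffAt ℝ 2 (F α) x :=
  ((h.smooth α x hx).contDiffAt (h.op.mem_nhds hx)).of_le (WithTop.coe_le_coe.2 le_top)

end NJAX

open NJAX in
theorem pr_NJA (h1 : S_Harm) : S_NJA := by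
  intro F U h x hx
  have hH := (h1 F U h x hx).1
  have hF : ∀ α, NJ (fun y => F α y * F α y) x (F α x * F α x)
      (fun i => F α x * (x 0 * pd i (F α) x) + F α x * (x 0 * pd i (F α) x))
      (F α x * (x 0 ^ 2 * ∑ i, pd i (pd i (F α)) x) + F α x * (x 0 ^ 2 * ∑ i, pd i (pd i (F α)) x) +
        2 * ∑ i, (x 0 * pd i (F α) x) * (x 0 * pd i (F α) x)) := fun α =>
    (NJ.of (smoothAt2 h hx α)).mul (NJ.of (smoothAt2 h hx α))
  have hS := NJ.sum Finset.univ fun α _ => hF α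
  have e : AA F = fun y => ∑ α, F α y * F α y := by
    funext y
    unfold AA
    exact Finset.sum_congr rfl fun α _ => pow_two _
  rw [e]
  refine hS.congr rfl (fun i => ?_) ?_
  · unfold CC
    rw [Finset.mul_sum, Finset.mul_sum]
    exact Finset.sum_congr rfl fun α _ => by ring
  · unfold GG
    rw [Finset.sum_comm, Finset.mul_sum, Finset.mul_sum]
    refine Finset.sum_congr rfl fun α _ => ?_
    have e1 : ∑ i, (x 0 * pd i (F α) x) * (x 0 * pd i (F α) x) =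
        x 0 ^ 2 * ∑ i, pd i (F α) x ^ 2 := by
      rw [Finset.mul_sum]
      exact Finset.sum_congr rfl fun i _ => by ring
    rw [hH α, mul_zero, mul_zero, add_zero, zero_add, e1]

end Pool.Agent.Work.MP_440970_an.BH

end

section

/-!
# Vertical translations of monogenic fields
-/

open MeasureTheory Set Filter Topology
open scoped ContDiff ENNReal

namespace Pool.Agent.Work.MP_440970_an.BH

theorem SftX.maps (τ : ℝ) : MapsTo (sft τ) {x : E3 | -τ < x 0} {x : E3 | 0 < x 0} := by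
  intro x hx
  have h1 : -τ < x 0 := hx
  show 0 < x 0 + τ * e0 0
  rw [e0, if_pos rfl]
  linarith

theorem SftX.smooth (τ : ℝ) : ContDiff ℝ ∞ (sft τ) := by
  have h : sft τ = fun x : E3 => x + fun k => τ * e0 k := by
    funext x
    rfl
  rw [h]
  exact contDiff_id.add contDiff_const

theorem pr_Sft : S_Sft := by
  intro F τ h
  refine ⟨isOpen_lt continuous_const (continuous_apply 0),
    fun α => (h.smooth α).comp (SftX.smooth τ).contDiffOn (SftX.maps τ), fun x hx => ?_⟩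
  have e : (fun j α => pd j (fun y => F α (sft τ y)) x) = fun j α => pd j (F α) (sft τ x) := by
    funext j α
    exact pd_sft j τ
  rw [e]
  exact h.dir _ (SftX.maps τ hx)

end Pool.Agent.Work.MP_440970_an.BH

end
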