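import Pool.Agent.Work.MP_440970_an.BH.Stmts

/-! Bundle of small proof modules (one section per former module). -/

section

/-!
# Item JetD: the quadratic identities for the jets of monogenic fields
-/

open MeasureTheory Set Filter Topology
open scoped ContDiff ENNReal

namespace Pool.Agent.Work.MP_440970_an.BH

namespace JetDX

theorem eta (S : Fin 3 → Fin 4 → ℝ) (T : Fin 3 → Fin 3 → Fin 4 → ℝ) (k : Fin 3) :
    (nSJ S T).η k = S k 0 := by
  simp [nSJ, mkSJ, Fin.sum_univ_four]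

theorem hh (S : Fin 3 → Fin 4 → ℝ) (T : Fin 3 → Fin 3 → Fin 4 → ℝ) (k j : Fin 3) :
    (nSJ S T).H k j = S k 0 * S j 0 + S k 1 * S j 1 + S k 2 * S j 2 + S k 3 * S j 3 + T k j 0 -
      2 * S k 0 * S j 0 := by
  simp [nSJ, mkSJ, Fin.sum_univ_four]
  ring

theorem xi (S : Fin 3 → Fin 4 → ℝ) (T : Fin 3 → Fin 3 → Fin 4 → ℝ) :
    (nSJ S T).ξ = ∑ j, (S j 0 ^ 2 + S j 1 ^ 2 + S j 2 ^ 2 + S j 3 ^ 2) := by
  simp [nSJ, mkSJ, Fin.sum_univ_four]

theorem dd (S : Fin 3 → Fin 4 → ℝ) (T : Fin 3 → Fin 3 → Fin 4 → ℝ) :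
    (nSJ S T).D = ∑ k, ∑ j, (T k j 0 ^ 2 + T k j 1 ^ 2 + T k j 2 ^ 2 + T k j 3 ^ 2) := by
  simp [nSJ, mkSJ, Fin.sum_univ_four]

theorem s0 : (0 : Fin 3).succ = 1 := rfl

theorem s1 : (1 : Fin 3).succ = 2 := rfl

theorem s2 : (2 : Fin 3).succ = 3 := rfl

end JetDX

theorem pr_JetD : S_JetD := by
  intro S T h
  have b01 : ∀ α, T 1 0 α = T 0 1 α := fun α => h.sT 1 0 α
  have b02 : ∀ α, T 2 0 α = T 0 2 α := fun α => h.sT 2 0 α
  have b12 : ∀ α, T 2 1 α = T 1 2 α := fun α => h.sT 2 1 α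
  have e1 := (h.dT 0).d1
  have e2 := (h.dT 0).d2
  have e3 := (h.dT 0).d3
  have e4 := (h.dT 0).d4
  have e5 := (h.dT 1).d1
  have e6 := (h.dT 1).d2
  have e7 := (h.dT 1).d3
  have e8 := (h.dT 1).d4
  have e9 := (h.dT 2).d1
  have e10 := (h.dT 2).d2
  have e11 := (h.dT 2).d3
  have e12 := (h.dT 2).d4
  rw [b01] at e5 e6 e7 e8
  rw [b02, b12] at e9 e10 e11 e12
  have a1 : T 0 0 1 = -T 0 1 2 - T 0 2 3 := by linarith
  have a0 : T 0 0 0 = T 0 2 2 - T 0 1 3 := by linarith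
  have a3 : T 0 0 3 = T 0 1 0 + T 0 2 1 := by linarith
  have a2 : T 0 0 2 = T 0 1 1 - T 0 2 0 := by linarith
  have d2 : T 1 1 2 = -T 0 1 1 - T 1 2 3 := by linarith
  have d3 : T 1 1 3 = T 1 2 2 - T 0 1 0 := by linarith
  have d0 : T 1 1 0 = T 0 1 3 - T 1 2 1 := by linarith
  have d1 : T 1 1 1 = T 1 2 0 + T 0 1 2 := by linarith
  have f3 : T 2 2 3 = -T 0 2 1 - T 1 2 2 := by linarith
  have f2 : T 2 2 2 = T 0 2 0 + T 1 2 3 := by linarith
  have f1 : T 2 2 1 = T 0 2 3 - T 1 2 0 := by linarith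
  have f0 : T 2 2 0 = T 1 2 1 - T 0 2 2 := by linarith
  have g1 := h.dS.d1
  have g2 := h.dS.d2
  have g3 := h.dS.d3
  have g4 := h.dS.d4
  have s23 : S 2 3 = -S 0 1 - S 1 2 := by linarith
  have s00 : S 0 0 = S 2 2 - S 1 3 := by linarith
  have s10 : S 1 0 = S 0 3 - S 2 1 := by linarith
  have s20 : S 2 0 = S 1 1 - S 0 2 := by linarith
  refine ⟨?_, ?_, ?_⟩
  · rw [JetDX.dd]
    simp only [Fin.sum_univ_three, nT, JetDX.s0, JetDX.s1, JetDX.s2, b01, b02, b12, a0, a1, a2,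
      a3, d0, d1, d2, d3, f0, f1, f2, f3, lc, Fin.val_zero, Fin.val_one, Fin.val_two,
      Nat.cast_zero, Nat.cast_one, Nat.cast_ofNat]
    ring
  · simp only [SJ.q, SJ.N, JetDX.xi, JetDX.eta, Fin.sum_univ_three, nP, JetDX.s0, JetDX.s1,
      JetDX.s2, s23, s00, s10, s20]
    ring
  · intro k j
    fin_cases k <;> fin_cases j <;>
      simp [SJ.Bm, SJ.N, JetDX.hh, JetDX.eta, Fin.sum_univ_three, nP, nO, nR, JetDX.s0,
        JetDX.s1, JetDX.s2, s23, s00, s10, s20, b01, b02, b12, a0, d0, f0] <;> ring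

end Pool.Agent.Work.MP_440970_an.BH

end

section

/-!
# The main term `B0` in terms of the data of the jet
-/

open MeasureTheory Set Filter Topology
open scoped ContDiff ENNReal

namespace Pool.Agent.Work.MP_440970_an.BH

namespace JetIX

variable (S : Fin 3 → Fin 4 → ℝ) (T : Fin 3 → Fin 3 → Fin 4 → ℝ)

theorem nSJ_η (k : Fin 3) : (nSJ S T).η k = S k 0 := by
  simp [nSJ, mkSJ, Fin.sum_univ_four]

theorem nSJ_H (k j : Fin 3) : (nSJ S T).H k j =
    S k 0 * S j 0 + S k 1 * S j 1 + S k 2 * S j 2 + S k 3 * S j 3 + T k j 0 -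
      2 * S k 0 * S j 0 := by
  simp [nSJ, mkSJ, Fin.sum_univ_four]
  ring

theorem nSJ_ξ : (nSJ S T).ξ = (S 0 0 ^ 2 + S 0 1 ^ 2 + S 0 2 ^ 2 + S 0 3 ^ 2) +
    (S 1 0 ^ 2 + S 1 1 ^ 2 + S 1 2 ^ 2 + S 1 3 ^ 2) +
    (S 2 0 ^ 2 + S 2 1 ^ 2 + S 2 2 ^ 2 + S 2 3 ^ 2) := by
  simp [nSJ, mkSJ, Fin.sum_univ_four, Fin.sum_univ_three]

theorem tr0 (h : NormData S T) : T 2 2 0 = -T 0 0 0 - T 1 1 0 := by
  have a := (h.dT 0).d2
  have b := (h.dT 1).d3
  have c := (h.dT 2).d4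
  have e1 := h.sT 0 1 3
  have e2 := h.sT 0 2 2
  have e3 := h.sT 1 2 1
  linarith

end JetIX

theorem pr_JetI (h1 : S_JetD) : S_JetI := by
  intro S T h
  obtain ⟨hD, -, -⟩ := h1 S T h
  have t1 := JetIX.tr0 S T h
  have t2 := h.sT 1 0 0
  have t3 := h.sT 2 0 0
  have t4 := h.sT 2 1 0
  have s1 : S 0 1 = -S 1 2 - S 2 3 := by linarith [h.dS.d1]
  have s2 : S 2 2 = S 0 0 + S 1 3 := by linarith [h.dS.d2]
  have s3 : S 0 3 = S 1 0 + S 2 1 := by linarith [h.dS.d3]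
  have s4 : S 1 1 = S 2 0 + S 0 2 := by linarith [h.dS.d4]
  unfold SJ.B0
  rw [hD]
  generalize (∑ k, ∑ j, ∑ l, nT T k j l ^ 2) = X
  simp only [SJ.Bs, SJ.Bm, SJ.He, SJ.q, SJ.N, nR, nP, JetIX.nSJ_η, JetIX.nSJ_H, JetIX.nSJ_ξ,
    Fin.sum_univ_three, Fin.isValue, Fin.reduceEq, if_true, if_false, t1, t2, t3, t4,
    show (Fin.succ (0 : Fin 3)) = (1 : Fin 4) from rfl,
    show (Fin.succ (1 : Fin 3)) = (2 : Fin 4) from rfl,
    show (Fin.succ (2 : Fin 3)) = (3 : Fin 4) from rfl, s1, s2, s3, s4]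
  ring

end Pool.Agent.Work.MP_440970_an.BH

end

section

/-!
# Item JetL: lower bound for `BB`
-/

open MeasureTheory Set Filter Topology
open scoped ContDiff ENNReal

namespace Pool.Agent.Work.MP_440970_an.BH

namespace JetLX

theorem cs (A B : Fin 3 → Fin 3 → ℝ) :
    ∑ k, ∑ j, (∑ l, A k l * B l j) ^ 2 ≤ (∑ k, ∑ l, A k l ^ 2) * (∑ l, ∑ j, B l j ^ 2) := by
  calc ∑ k, ∑ j, (∑ l, A k l * B l j) ^ 2
      ≤ ∑ k, ∑ j, (∑ l, A k l ^ 2) * (∑ l, B l j ^ 2) := by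
        apply Finset.sum_le_sum
        intro k _
        apply Finset.sum_le_sum
        intro j _
        exact Finset.sum_mul_sq_le_sq_mul_sq _ _ _
    _ = (∑ k, ∑ l, A k l ^ 2) * (∑ j, ∑ l, B l j ^ 2) := by
        rw [Finset.sum_mul_sum]
    _ = _ := by rw [Finset.sum_comm (f := fun j l => B l j ^ 2)]

theorem cs1 (A : Fin 3 → Fin 3 → ℝ) (g : Fin 3 → ℝ) :
    ∑ k, (∑ l, A k l * g l) ^ 2 ≤ (∑ k, ∑ l, A k l ^ 2) * (∑ l, g l ^ 2) := by
  calc ∑ k, (∑ l, A k l * g l) ^ 2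
      ≤ ∑ k, (∑ l, A k l ^ 2) * (∑ l, g l ^ 2) := by
        apply Finset.sum_le_sum
        intro k _
        exact Finset.sum_mul_sq_le_sq_mul_sq _ _ _
    _ = _ := by rw [Finset.sum_mul]

/-- the correction term -/
theorem corr (O P : Fin 3 → Fin 3 → ℝ) {n q : ℝ} (hO : ∑ k, ∑ l, O k l ^ 2 = n / 2)
    (hP : ∑ k, ∑ l, P k l ^ 2 = q) (hn : 0 ≤ n) (hq : 0 ≤ q) :
    ∑ k, ∑ j, (∑ l, (O k l * P l j - P k l * O l j + P k l * P l j)) ^ 2 ≤ 4 * (n + q) * q := by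
  have h1 := cs O P
  have h2 := cs P O
  have h3 := cs P P
  rw [hO, hP] at h1 h2
  rw [hP] at h3
  have h4 : ∑ k, ∑ j, (∑ l, (O k l * P l j - P k l * O l j + P k l * P l j)) ^ 2 ≤
      ∑ k, ∑ j, (3 * (∑ l, O k l * P l j) ^ 2 + 3 * (∑ l, P k l * O l j) ^ 2
        + 3 * (∑ l, P k l * P l j) ^ 2) := by
    apply Finset.sum_le_sum
    intro k _
    apply Finset.sum_le_sum
    intro j _
    rw [Finset.sum_add_distrib, Finset.sum_sub_distrib]
    set x := ∑ l, O k l * P l j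
    set y := ∑ l, P k l * O l j
    set z := ∑ l, P k l * P l j
    nlinarith [sq_nonneg (x + y), sq_nonneg (x - z), sq_nonneg (y + z)]
  refine h4.trans ?_
  simp only [Finset.sum_add_distrib, ← Finset.mul_sum]
  nlinarith [mul_nonneg hn hq, mul_nonneg hq hq]

/-- the square of a sum -/
theorem sq_sum (A B : Fin 3 → Fin 3 → ℝ) :
    ∑ k, ∑ j, (A k j + B k j) ^ 2 ≤
      19 / 18 * ∑ k, ∑ j, A k j ^ 2 + 19 * ∑ k, ∑ j, B k j ^ 2 := by
  simp only [Finset.mul_sum, ← Finset.sum_add_distrib]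
  apply Finset.sum_le_sum
  intro k _
  apply Finset.sum_le_sum
  intro j _
  nlinarith [sq_nonneg (A k j - 18 * B k j)]

theorem sumO {S : Fin 3 → Fin 4 → ℝ} (h : Dir S) :
    ∑ k, ∑ l, nO S k l ^ 2 = (∑ k, S k 0 ^ 2) / 2 := by
  have e2 : S 0 0 = S 2 2 - S 1 3 := by linear_combination h.d2
  have e3 : S 1 0 = S 0 3 - S 2 1 := by linear_combination h.d3
  have e4 : S 2 0 = S 1 1 - S 0 2 := by linear_combination h.d4
  simp only [Fin.sum_univ_three, nO, e2, e3, e4]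
  have f0 : (0 : Fin 3).succ = 1 := rfl
  have f1 : (1 : Fin 3).succ = 2 := rfl
  have f2 : (2 : Fin 3).succ = 3 := rfl
  rw [f0, f1, f2]
  ring

theorem s1 : ∑ α : Fin 4, (![1, 0, 0, 0] : Fin 4 → ℝ) α ^ 2 = 1 := by
  simp [Fin.sum_univ_four]

theorem s2 (f : Fin 4 → ℝ) : ∑ α : Fin 4, (![1, 0, 0, 0] : Fin 4 → ℝ) α * f α = f 0 := by
  simp [Fin.sum_univ_four]

theorem eta (S : Fin 3 → Fin 4 → ℝ) (T : Fin 3 → Fin 3 → Fin 4 → ℝ) (k : Fin 3) :
    (nSJ S T).η k = S k 0 := by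
  show 1 * (∑ α, (![1, 0, 0, 0] : Fin 4 → ℝ) α * S k α) /
    ∑ α, (![1, 0, 0, 0] : Fin 4 → ℝ) α ^ 2 = S k 0
  rw [s1, s2]
  ring

theorem NN (S : Fin 3 → Fin 4 → ℝ) (T : Fin 3 → Fin 3 → Fin 4 → ℝ) :
    (nSJ S T).N = ∑ k, S k 0 ^ 2 := by
  unfold SJ.N
  simp only [eta]

end JetLX

open JetLX in
theorem pr_JetL (h1 : S_JetD) (h2 : S_JetI) : S_JetL := by
  intro S T h
  obtain ⟨-, hq, hB⟩ := h1 S T h
  have hI := h2 S T h
  have hN := NN S T
  have hN0 : 0 ≤ (nSJ S T).N := by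
    rw [hN]
    exact Finset.sum_nonneg fun k _ => sq_nonneg _
  have hq0 : 0 ≤ (nSJ S T).q := by
    rw [hq]
    exact Finset.sum_nonneg fun k _ => Finset.sum_nonneg fun j _ => sq_nonneg _
  have hO : ∑ k, ∑ l, nO S k l ^ 2 = (nSJ S T).N / 2 := by rw [hN]; exact sumO h.dS
  have hc := corr (nO S) (nP S) hO hq.symm hN0 hq0
  have hBs : (nSJ S T).Bs ≤ 19 / 18 * ∑ k, ∑ j, nR S T k j ^ 2
      + 19 * ∑ k, ∑ j, (∑ l, (nO S k l * nP S l j - nP S k l * nO S l j +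
        nP S k l * nP S l j)) ^ 2 := by
    unfold SJ.Bs
    simp only [hB]
    exact sq_sum _ _
  have hg := cs1 (nP S) (fun l => S l 0)
  rw [← hq, ← hN] at hg
  unfold SJ.BB
  rw [hI]
  nlinarith [mul_nonneg hN0 hq0, mul_nonneg hq0 hq0]

end Pool.Agent.Work.MP_440970_an.BH

end

section

set_option autoImplicit false

/-! MP_440970_an, project BH, item JetNorm: reduction to normalised data. -/

open MeasureTheory Set Filter Topology
open scoped ContDiff ENNReal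

namespace Pool.Agent.Work.MP_440970_an.BH

namespace JetNormX

/-- right multiplication with `conj F / |F|²` -/
noncomputable def rm (F : Fin 4 → ℝ) (a : Fin 4 → ℝ) : Fin 4 → ℝ :=
  ![(a 0 * F 0 + a 1 * F 1 + a 2 * F 2 + a 3 * F 3) / ∑ α, F α ^ 2,
    (a 1 * F 0 - a 0 * F 1 - a 2 * F 3 + a 3 * F 2) / ∑ α, F α ^ 2,
    (a 2 * F 0 - a 0 * F 2 + a 1 * F 3 - a 3 * F 1) / ∑ α, F α ^ 2,
    (a 3 * F 0 - a 0 * F 3 - a 1 * F 2 + a 2 * F 1) / ∑ α, F α ^ 2]

lemma rm_dir (F : Fin 4 → ℝ) (hF : 0 < ∑ α, F α ^ 2) (S : Fin 3 → Fin 4 → ℝ) (hS : Dir S) :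
    Dir fun j => rm F (S j) := by
  obtain ⟨h1, h2, h3, h4⟩ := hS
  have hA : (∑ α, F α ^ 2) ≠ 0 := hF.ne'
  constructor
  · simp only [rm, Matrix.cons_val]
    rw [← add_div, ← add_div, div_eq_zero_iff]
    left
    linear_combination F 0 * h1 - F 1 * h2 - F 2 * h3 - F 3 * h4
  · simp only [rm, Matrix.cons_val]
    rw [← add_div, ← sub_div, div_eq_zero_iff]
    left
    linear_combination F 0 * h2 + F 1 * h1 + F 2 * h4 - F 3 * h3
  · simp only [rm, Matrix.cons_val]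
    rw [← add_div, ← sub_div, div_eq_zero_iff]
    left
    linear_combination F 0 * h3 - F 1 * h4 + F 2 * h1 + F 3 * h2
  · simp only [rm, Matrix.cons_val]
    rw [← add_div, ← sub_div, div_eq_zero_iff]
    left
    linear_combination F 0 * h4 + F 1 * h3 - F 2 * h2 + F 3 * h1

lemma rm_inner (F : Fin 4 → ℝ) (hF : 0 < ∑ α, F α ^ 2) (a b : Fin 4 → ℝ) :
    ∑ α, a α * b α = (∑ α, F α ^ 2) * ∑ α, rm F a α * rm F b α := by
  have hA : (∑ α, F α ^ 2) ≠ 0 := hF.ne'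
  have e : ∑ α, rm F a α * rm F b α = ((∑ α, F α ^ 2) * ∑ α, a α * b α) / (∑ α, F α ^ 2) ^ 2 := by
    rw [Fin.sum_univ_four (fun α => rm F a α * rm F b α)]
    simp only [rm, Matrix.cons_val]
    rw [div_mul_div_comm, div_mul_div_comm, div_mul_div_comm, div_mul_div_comm, ← add_div,
      ← add_div, ← add_div, ← sq]
    congr 1
    rw [Fin.sum_univ_four, Fin.sum_univ_four]
    ring
  rw [e]
  field_simp

lemma rm_zero (F : Fin 4 → ℝ) (hF : 0 < ∑ α, F α ^ 2) (a : Fin 4 → ℝ) :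
    ∑ α, F α * a α = (∑ α, F α ^ 2) * rm F a 0 := by
  have hA : (∑ α, F α ^ 2) ≠ 0 := hF.ne'
  simp only [rm, Matrix.cons_val]
  rw [mul_div_cancel₀ _ hA, Fin.sum_univ_four]
  ring

/-- scaled jets -/
noncomputable def scl (t : ℝ) (s : SJ) : SJ where
  η k := t * s.η k
  H k j := t ^ 2 * s.H k j
  y k := t ^ 3 * s.y k
  ξ := t ^ 2 * s.ξ
  D := t ^ 4 * s.D

lemma scl_N (t : ℝ) (s : SJ) : (scl t s).N = t ^ 2 * s.N := by
  simp only [SJ.N, scl, Fin.sum_univ_three]; ring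

lemma scl_q (t : ℝ) (s : SJ) : (scl t s).q = t ^ 2 * s.q := by
  simp only [SJ.q, scl_N]
  simp only [scl]; ring

lemma scl_xp (t : ℝ) (s : SJ) (k : Fin 3) : (scl t s).xp k = t ^ 3 * s.xp k := by
  simp only [SJ.xp, scl]; ring

lemma scl_He (t : ℝ) (s : SJ) (k : Fin 3) : (scl t s).He k = t ^ 3 * s.He k := by
  simp only [SJ.He, scl, Fin.sum_univ_three]; ring

lemma scl_qp (t : ℝ) (s : SJ) (k : Fin 3) : (scl t s).qp k = t ^ 3 * s.qp k := by
  simp only [SJ.qp, scl_xp, scl_He]; ring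

lemma scl_B0 (t : ℝ) (s : SJ) : (scl t s).B0 = t ^ 4 * s.B0 := by
  simp only [SJ.B0, scl_He]
  simp only [scl, Fin.sum_univ_three]; ring

lemma scl_BB (t : ℝ) (s : SJ) : (scl t s).BB = t ^ 4 * s.BB := by
  simp only [SJ.BB, scl_B0, scl_N, scl_q]; ring

lemma scl_Bm (t : ℝ) (s : SJ) (k j : Fin 3) : (scl t s).Bm k j = t ^ 2 * s.Bm k j := by
  simp only [SJ.Bm, scl_N]
  simp only [scl]
  split_ifs <;> ring

lemma scl_Bs (t : ℝ) (s : SJ) : (scl t s).Bs = t ^ 4 * s.Bs := by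
  simp only [SJ.Bs, scl_Bm]
  simp only [Fin.sum_univ_three]; ring

lemma scl_is (t : ℝ) (s : SJ) (h : IsSJ s) : IsSJ (scl t s) := by
  have t2 : 0 ≤ t ^ 2 := sq_nonneg t
  have t4 : 0 ≤ t ^ 4 := by positivity
  have t6 : 0 ≤ t ^ 6 := by positivity
  constructor
  · intro k j
    simp only [scl]
    rw [h.symm k j]
  · rw [scl_N]
    have := h.tr
    simp only [Fin.sum_univ_three] at this ⊢
    simp only [scl]
    linear_combination t ^ 2 * this
  · rw [scl_q]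
    exact mul_nonneg t2 h.q0
  · simp only [scl]
    exact mul_nonneg t4 h.D0
  · have e1 : ∑ k, (scl t s).y k ^ 2 = t ^ 6 * ∑ k, s.y k ^ 2 := by
      simp only [scl, Fin.sum_univ_three]; ring
    have e2 : 12 / 5 * (scl t s).ξ * (scl t s).D = t ^ 6 * (12 / 5 * s.ξ * s.D) := by
      simp only [scl]; ring
    rw [e1, e2]
    exact mul_le_mul_of_nonneg_left h.ky t6
  · rw [scl_Bs, scl_BB]
    have := mul_le_mul_of_nonneg_left h.kB t4
    linarith
  · have e1 : ∑ k, (scl t s).qp k ^ 2 = t ^ 6 * ∑ k, s.qp k ^ 2 := by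
      simp only [scl_qp, Fin.sum_univ_three]; ring
    have e2 : 1000 * (scl t s).q * (scl t s).BB = t ^ 6 * (1000 * s.q * s.BB) := by
      rw [scl_q, scl_BB]; ring
    rw [e1, e2]
    exact mul_le_mul_of_nonneg_left h.kq t6

lemma mk_eq (F : Fin 4 → ℝ) (hF : 0 < ∑ α, F α ^ 2) (S : Fin 3 → Fin 4 → ℝ)
    (T : Fin 3 → Fin 3 → Fin 4 → ℝ) (t : ℝ) :
    mkSJ F S T t = scl t (nSJ (fun j => rm F (S j)) (fun k j => rm F (T k j))) := by
  have hA : (∑ α, F α ^ 2) ≠ 0 := hF.ne'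
  have n1 : ∑ α, (![1, 0, 0, 0] : Fin 4 → ℝ) α ^ 2 = 1 := by
    rw [Fin.sum_univ_four]; simp
  have n2 : ∀ a : Fin 4 → ℝ, ∑ α, (![1, 0, 0, 0] : Fin 4 → ℝ) α * a α = a 0 := by
    intro a
    rw [Fin.sum_univ_four]; simp
  unfold mkSJ scl nSJ mkSJ
  simp only [SJ.mk.injEq]
  refine ⟨?_, ?_, ?_, ?_, ?_⟩
  · funext k
    rw [n1, n2, rm_zero F hF (S k)]
    field_simp
  · funext k j
    rw [n1, n2, n2, Finset.sum_add_distrib, Finset.sum_add_distrib, n2, rm_zero F hF (S k),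
      rm_zero F hF (S j), rm_zero F hF (T k j), rm_inner F hF (S k) (S j)]
    field_simp
  · funext k
    rw [n1, Finset.sum_congr rfl (fun j _ => rm_inner F hF (S j) (T k j)), ← Finset.mul_sum]
    field_simp
  · rw [n1]
    have e : ∑ j, ∑ α, S j α ^ 2 = (∑ α, F α ^ 2) * ∑ j, ∑ α, rm F (S j) α ^ 2 := by
      rw [Finset.mul_sum]
      apply Finset.sum_congr rfl
      intro j _
      have := rm_inner F hF (S j) (S j)
      simp only [← sq] at this
      exact this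
    rw [e]
    field_simp
  · rw [n1]
    have e : ∑ k, ∑ j, ∑ α, T k j α ^ 2 =
        (∑ α, F α ^ 2) * ∑ k, ∑ j, ∑ α, rm F (T k j) α ^ 2 := by
      rw [Finset.mul_sum]
      apply Finset.sum_congr rfl
      intro k _
      rw [Finset.mul_sum]
      apply Finset.sum_congr rfl
      intro j _
      have := rm_inner F hF (T k j) (T k j)
      simp only [← sq] at this
      exact this
    rw [e]
    field_simp

end JetNormX

theorem pr_JetNorm : S_JetNorm := by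
  intro h F S T t hF hN
  rw [JetNormX.mk_eq F hF S T t]
  apply JetNormX.scl_is
  apply h
  refine ⟨JetNormX.rm_dir F hF S hN.dS, fun k => JetNormX.rm_dir F hF (T k) (hN.dT k), ?_⟩
  intro k j α
  have : T k j = T j k := by
    funext β
    exact hN.sT k j β
  rw [this]

end Pool.Agent.Work.MP_440970_an.BH

end

section

set_option autoImplicit false

/-!
# The bound for the gradient of `q`
-/

open MeasureTheory Set Filter Topology
open scoped ContDiff ENNReal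

namespace Pool.Agent.Work.MP_440970_an.BH

namespace JetWX

theorem cs (P W : Fin 3 → Fin 3 → ℝ) :
    (∑ j, ∑ l, P j l * W j l) ^ 2 ≤ (∑ j, ∑ l, P j l ^ 2) * ∑ j, ∑ l, W j l ^ 2 := by
  have h := Finset.sum_mul_sq_le_sq_mul_sq (Finset.univ : Finset (Fin 3 × Fin 3))
    (fun z => P z.1 z.2) (fun z => W z.1 z.2)
  rwa [Fintype.sum_prod_type, Fintype.sum_prod_type, Fintype.sum_prod_type] at h

theorem N0 (s : SJ) : 0 ≤ s.N := Finset.sum_nonneg fun _ _ => sq_nonneg _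

end JetWX

open JetWX in
theorem pr_JetW (h1 : S_JetD) (h2 : S_JetL) (h3 : S_JetP) : S_JetW := by
  intro S T hn
  have hq := (h1 S T hn).2.1
  have hL := h2 S T hn
  obtain ⟨hp, hW⟩ := h3 S T hn
  have hN := N0 (nSJ S T)
  have hR : 0 ≤ ∑ k, ∑ j, nR S T k j ^ 2 :=
    Finset.sum_nonneg fun _ _ => Finset.sum_nonneg fun _ _ => sq_nonneg _
  have hT : 0 ≤ ∑ k, ∑ j, ∑ l, nT T k j l ^ 2 :=
    Finset.sum_nonneg fun _ _ => Finset.sum_nonneg fun _ _ => Finset.sum_nonneg fun _ _ =>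
      sq_nonneg _
  have hq0 : 0 ≤ (nSJ S T).q := by
    rw [hq]
    exact Finset.sum_nonneg fun _ _ => Finset.sum_nonneg fun _ _ => sq_nonneg _
  have hNq : 0 ≤ ((nSJ S T).N + (nSJ S T).q) * (nSJ S T).q :=
    mul_nonneg (add_nonneg hN hq0) hq0
  have hB : 0 ≤ (nSJ S T).BB := by nlinarith
  have hW2 : ∑ k, ∑ j, ∑ l, nW S T k j l ^ 2 ≤ 2 * (nSJ S T).BB := by nlinarith
  have hk : ∀ k, (nSJ S T).qp k ^ 2 ≤ 4 * (nSJ S T).q * ∑ j, ∑ l, nW S T k j l ^ 2 := by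
    intro k
    have h := cs (nP S) (nW S T k)
    rw [← hq] at h
    rw [hp k]
    nlinarith
  calc ∑ k, (nSJ S T).qp k ^ 2 ≤ ∑ k, 4 * (nSJ S T).q * ∑ j, ∑ l, nW S T k j l ^ 2 :=
        Finset.sum_le_sum fun k _ => hk k
    _ = 4 * (nSJ S T).q * ∑ k, ∑ j, ∑ l, nW S T k j l ^ 2 := by rw [Finset.mul_sum]
    _ ≤ 4 * (nSJ S T).q * (2 * (nSJ S T).BB) := by gcongr
    _ ≤ 1000 * (nSJ S T).q * (nSJ S T).BB := by
        have := mul_nonneg hq0 hB
        nlinarith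

end Pool.Agent.Work.MP_440970_an.BH

end

section

set_option autoImplicit false

/-!
# Bounds for the derivatives of the field of a point charge (item KerB)
-/

open MeasureTheory Set Filter Topology
open scoped ContDiff ENNReal

namespace Pool.Agent.Work.MP_440970_an.BH

namespace KerBX

theorem abs_le_r (x : E3) (i : Fin 3) : |x i| ≤ √(x 0 ^ 2 + x 1 ^ 2 + x 2 ^ 2) := by
  apply Real.abs_le_sqrt
  have h0 := sq_nonneg (x 0)
  have h1 := sq_nonneg (x 1)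
  have h2 := sq_nonneg (x 2)
  fin_cases i
  · change x 0 ^ 2 ≤ _
    linarith
  · change x 1 ^ 2 ≤ _
    linarith
  · change x 2 ^ 2 ≤ _
    linarith

theorem norm_le_r (x : E3) : ‖x‖ ≤ √(x 0 ^ 2 + x 1 ^ 2 + x 2 ^ 2) :=
  (pi_norm_le_iff_of_nonneg (Real.sqrt_nonneg _)).2 fun i => abs_le_r x i

theorem ite_le (p : Prop) [Decidable p] (a : ℝ) (h : |a| ≤ 1) :
    |(if p then a else 0 : ℝ)| ≤ 1 := by
  split_ifs
  · exact h
  · simp

end KerBX

open KerBX in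
theorem pr_KerB (h1 : S_Ker) : S_KerB := by
  refine ⟨24, fun x hx => ?_⟩
  obtain ⟨-, hd1, hd2⟩ := h1 x hx _ rfl
  have hr0 : 0 < √(x 0 ^ 2 + x 1 ^ 2 + x 2 ^ 2) :=
    lt_of_lt_of_le (norm_pos_iff.2 hx) (norm_le_r x)
  have hn := norm_le_r x
  have ha := abs_le_r x
  set r : ℝ := √(x 0 ^ 2 + x 1 ^ 2 + x 2 ^ 2) with hr
  have hu : ∀ i, |x i / r| ≤ 1 := fun i => by
    rw [abs_div, abs_of_pos hr0, div_le_one hr0]
    exact ha i
  constructor
  · intro i j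
    rw [hd1 i j]
    have hA : ((if i = j then (1 : ℝ) else 0) / r ^ 3 - 3 * x i * x j / r ^ 5) =
        ((if i = j then (1 : ℝ) else 0) - 3 * ((x i / r) * (x j / r))) / r ^ 3 := by
      field_simp
    have h3 : |(if i = j then (1 : ℝ) else 0) - 3 * ((x i / r) * (x j / r))| ≤ 4 := by
      have e1 : |(if i = j then (1 : ℝ) else 0)| ≤ 1 := ite_le _ 1 (by simp)
      have e2 : |(x i / r) * (x j / r)| ≤ 1 := by
        rw [abs_mul]
        exact mul_le_one₀ (hu i) (abs_nonneg _) (hu j)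
      rw [abs_le] at e1 e2 ⊢
      constructor <;> linarith [e1.1, e1.2, e2.1, e2.2]
    rw [hA, abs_div, abs_of_pos (pow_pos hr0 3), div_mul_eq_mul_div, div_le_iff₀ (pow_pos hr0 3)]
    have h4 : ‖x‖ ^ 3 ≤ r ^ 3 := pow_le_pow_left₀ (norm_nonneg _) hn 3
    calc _ ≤ 4 * r ^ 3 := mul_le_mul h3 h4 (by positivity) (by norm_num)
      _ ≤ 24 * r ^ 3 := by
        have : 0 < r ^ 3 := pow_pos hr0 3
        linarith
  · intro i j k
    rw [hd2 i j k]
    have hB : -3 * ((if i = j then x k else 0) + (if i = k then x j else 0) +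
        if j = k then x i else 0) / r ^ 5 + 15 * x i * x j * x k / r ^ 7 =
        (-3 * ((if i = j then x k / r else 0) + (if i = k then x j / r else 0) +
        if j = k then x i / r else 0) + 15 * ((x i / r) * (x j / r) * (x k / r))) / r ^ 4 := by
      have e : ∀ (p : Prop) [Decidable p] (a : ℝ), (if p then a / r else 0) =
          (if p then a else 0) / r := by
        intro p _ a
        split_ifs <;> simp
      rw [e, e, e]
      field_simp
    have h3 : |-3 * ((if i = j then x k / r else 0) + (if i = k then x j / r else 0) +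
        if j = k then x i / r else 0) + 15 * ((x i / r) * (x j / r) * (x k / r))| ≤ 24 := by
      have e1 : |(if i = j then x k / r else 0)| ≤ 1 := ite_le _ _ (hu k)
      have e2 : |(if i = k then x j / r else 0)| ≤ 1 := ite_le _ _ (hu j)
      have e3 : |(if j = k then x i / r else 0)| ≤ 1 := ite_le _ _ (hu i)
      have e4 : |(x i / r) * (x j / r) * (x k / r)| ≤ 1 := by
        rw [abs_mul, abs_mul]
        exact mul_le_one₀ (mul_le_one₀ (hu i) (abs_nonneg _) (hu j)) (abs_nonneg _) (hu k)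
      rw [abs_le] at e1 e2 e3 e4 ⊢
      constructor <;> linarith [e1.1, e1.2, e2.1, e2.2, e3.1, e3.2, e4.1, e4.2]
    rw [hB, abs_div, abs_of_pos (pow_pos hr0 4), div_mul_eq_mul_div, div_le_iff₀ (pow_pos hr0 4)]
    have h4 : ‖x‖ ^ 4 ≤ r ^ 4 := pow_le_pow_left₀ (norm_nonneg _) hn 4
    exact mul_le_mul h3 h4 (by positivity) (by norm_num)

end Pool.Agent.Work.MP_440970_an.BH

end

section

/-!
# [Mom]
-/

open MeasureTheory Set Filter Topology
open scoped ContDiff ENNReal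

namespace Pool.Agent.Work.MP_440970_an.BH

namespace MomX

theorem lim (a : ℂ) :
    Tendsto (fun z : ℂ => K (z - a) * ((‖z‖ : ℂ) ^ 3 / z)) (Bornology.cobounded ℂ) (𝓝 1) := by
  have h0 : ∀ᶠ z : ℂ in Bornology.cobounded ℂ, z ≠ 0 := Bornology.eventually_ne_cobounded 0
  have h1 : Tendsto (fun z : ℂ => (z - a) / z) (Bornology.cobounded ℂ) (𝓝 1) := by
    have h : Tendsto (fun z : ℂ => 1 - a * z⁻¹) (Bornology.cobounded ℂ) (𝓝 (1 - a * 0)) :=
      (tendsto_inv₀_cobounded.const_mul a).const_sub 1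
    rw [mul_zero, sub_zero] at h
    refine h.congr' ?_
    filter_upwards [h0] with z hz
    field_simp
  have h2 : Tendsto (fun z : ℂ => ((‖(z - a) / z‖ : ℝ) : ℂ)⁻¹ ^ 3) (Bornology.cobounded ℂ)
      (𝓝 1) := by
    have h : Tendsto (fun z : ℂ => ‖(z - a) / z‖) (Bornology.cobounded ℂ) (𝓝 ‖(1 : ℂ)‖) := h1.norm
    rw [norm_one] at h
    have h' : Tendsto (fun z : ℂ => ((‖(z - a) / z‖ : ℝ) : ℂ)) (Bornology.cobounded ℂ)
        (𝓝 ((1 : ℝ) : ℂ)) := (Complex.continuous_ofReal.tendsto 1).comp h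
    have h'' := (h'.inv₀ (by simp)).pow 3
    simpa using h''
  have h3 := h1.mul h2
  rw [one_mul] at h3
  refine h3.congr' ?_
  filter_upwards [h0] with z hz
  rw [norm_div, Complex.ofReal_div, K]
  simp only [div_eq_mul_inv, mul_inv, inv_inv, mul_pow, inv_pow]
  ring

theorem lower {n : ℕ} (a c : Fin n → ℂ) (hm : ∑ k, c k ≠ 0) : ∃ R : ℝ, ∀ z : ℂ, R ≤ ‖z‖ →
    ‖∑ k, c k‖ / 2 ≤ ‖∑ k, c k * K (z - a k)‖ * ‖z‖ ^ 2 := by
  have h1 : Tendsto (fun z : ℂ => ∑ k, c k * (K (z - a k) * ((‖z‖ : ℂ) ^ 3 / z)))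
      (Bornology.cobounded ℂ) (𝓝 (∑ k, c k * 1)) :=
    tendsto_finsetSum _ fun k _ => (lim (a k)).const_mul (c k)
  simp only [mul_one] at h1
  have h2 := h1.norm
  have hpos : 0 < ‖∑ k, c k‖ := norm_pos_iff.2 hm
  have h3 : ∀ᶠ z : ℂ in Bornology.cobounded ℂ, ‖∑ k, c k‖ / 2 <
      ‖∑ k, c k * (K (z - a k) * ((‖z‖ : ℂ) ^ 3 / z))‖ := h2.eventually_const_lt (by linarith)
  rw [← comap_norm_atTop, Filter.eventually_comap, Filter.eventually_atTop] at h3
  obtain ⟨R, hR⟩ := h3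
  refine ⟨max R 1, fun z hz => ?_⟩
  have hz1 : 1 ≤ ‖z‖ := (le_max_right _ _).trans hz
  have h4 := hR ‖z‖ ((le_max_left _ _).trans hz) z rfl
  have h5 : ∑ k, c k * (K (z - a k) * ((‖z‖ : ℂ) ^ 3 / z)) =
      (∑ k, c k * K (z - a k)) * ((‖z‖ : ℂ) ^ 3 / z) := by
    rw [Finset.sum_mul]
    exact Finset.sum_congr rfl fun k _ => by ring
  rw [h5, norm_mul, norm_div, norm_pow, Complex.norm_real, norm_norm] at h4
  have h6 : ‖z‖ ^ 3 / ‖z‖ = ‖z‖ ^ 2 := by
    field_simp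
  rw [h6] at h4
  exact h4.le

theorem big {n : ℕ} (a c : Fin n → ℂ) {p : ℝ} (hp : 0 < p) (hp2 : p < 1 / 2)
    (hm : ∑ k, c k ≠ 0) : ∃ e : ℝ, 0 < e ∧ ∃ R : ℝ, 1 ≤ R ∧ ∀ r : ℝ, R ≤ r →
    ENNReal.ofReal (e * r) ≤ np p fun z => ∑ k, c k * K (z - a k) := by
  obtain ⟨R, hR⟩ := lower a c hm
  have hpos : 0 < ‖∑ k, c k‖ := norm_pos_iff.2 hm
  set m := ‖∑ k, c k‖ with hmd
  refine ⟨(m / 2) ^ p / 4 * Real.pi, by positivity, max R 1, le_max_right _ _, fun r hr => ?_⟩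
  have hr1 : 1 ≤ r := (le_max_right _ _).trans hr
  have hrR : R ≤ r := (le_max_left _ _).trans hr
  have hr0 : 0 < r := by linarith
  have h1 : ∀ z ∈ Metric.ball ((3 * r : ℝ) : ℂ) r, ENNReal.ofReal ((m / 2) ^ p / (4 * r)) ≤
      ‖∑ k, c k * K (z - a k)‖ₑ ^ p := by
    intro z hz
    rw [Metric.mem_ball, dist_eq_norm] at hz
    have hn3 : ‖((3 * r : ℝ) : ℂ)‖ = 3 * r := by
      rw [Complex.norm_real, Real.norm_of_nonneg (by positivity)]
    have hz1 : r ≤ ‖z‖ := by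
      have := norm_sub_norm_le ((3 * r : ℝ) : ℂ) z
      rw [norm_sub_rev, hn3] at this
      linarith
    have hz2 : ‖z‖ ≤ 4 * r := by
      have := norm_sub_norm_le z ((3 * r : ℝ) : ℂ)
      rw [hn3] at this
      linarith
    have h2 := hR z (hrR.trans hz1)
    have hz0 : 0 < ‖z‖ := by linarith
    have h3 : m / 2 / ‖z‖ ^ 2 ≤ ‖∑ k, c k * K (z - a k)‖ := by
      rw [div_le_iff₀ (by positivity)]
      exact h2
    have h4 : (m / 2 / ‖z‖ ^ 2) ^ p ≤ ‖∑ k, c k * K (z - a k)‖ ^ p :=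
      Real.rpow_le_rpow (by positivity) h3 hp.le
    have h5 : (m / 2) ^ p / (4 * r) ≤ (m / 2 / ‖z‖ ^ 2) ^ p := by
      have h6 : (‖z‖ ^ 2) ^ p ≤ 4 * r := by
        rw [← Real.rpow_natCast, ← Real.rpow_mul hz0.le]
        calc ‖z‖ ^ (((2 : ℕ) : ℝ) * p) ≤ ‖z‖ ^ (1 : ℝ) :=
              Real.rpow_le_rpow_of_exponent_le (by linarith) (by push_cast; linarith)
          _ = ‖z‖ := Real.rpow_one _
          _ ≤ 4 * r := hz2
      have h7 : 0 < (‖z‖ ^ 2) ^ p := by positivity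
      rw [Real.div_rpow (x := m / 2) (y := ‖z‖ ^ 2) (by positivity) (by positivity)]
      gcongr
    calc ENNReal.ofReal ((m / 2) ^ p / (4 * r))
        ≤ ENNReal.ofReal (‖∑ k, c k * K (z - a k)‖ ^ p) := ENNReal.ofReal_le_ofReal (h5.trans h4)
      _ = ‖∑ k, c k * K (z - a k)‖ₑ ^ p := by
          rw [← ENNReal.ofReal_rpow_of_nonneg (norm_nonneg _) hp.le, ofReal_norm]
  calc ENNReal.ofReal ((m / 2) ^ p / 4 * Real.pi * r)
      = ENNReal.ofReal ((m / 2) ^ p / (4 * r)) * volume (Metric.ball ((3 * r : ℝ) : ℂ) r) := by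
        rw [Complex.volume_ball]
        have hpi : ((NNReal.pi : NNReal) : ℝ≥0∞) = ENNReal.ofReal Real.pi := by
          rw [ENNReal.ofReal, Real.toNNReal_of_nonneg Real.pi_pos.le]
          rfl
        rw [hpi, ← ENNReal.ofReal_pow hr0.le, ← ENNReal.ofReal_mul (by positivity),
          ← ENNReal.ofReal_mul (by positivity)]
        congr 1
        field_simp
    _ = ∫⁻ _ in Metric.ball ((3 * r : ℝ) : ℂ) r, ENNReal.ofReal ((m / 2) ^ p / (4 * r)) := by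
        rw [setLIntegral_const]
    _ ≤ ∫⁻ z in Metric.ball ((3 * r : ℝ) : ℂ) r, ‖∑ k, c k * K (z - a k)‖ₑ ^ p :=
        setLIntegral_mono' Metric.isOpen_ball.measurableSet h1
    _ ≤ np p fun z => ∑ k, c k * K (z - a k) := setLIntegral_le_lintegral _ _

end MomX

theorem pr_Mom : S_Mom := by
  intro n a c p hp hp2 hfin
  by_contra hm
  obtain ⟨e, he, R, hR1, hR⟩ := MomX.big a c hp hp2 hm
  set N := np p fun z => ∑ k, c k * K (z - a k) with hN
  have h1 := hR (max R ((N.toReal + 1) / e)) (le_max_left _ _)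
  have h2 : ENNReal.ofReal (N.toReal + 1) ≤ N := by
    refine le_trans (ENNReal.ofReal_le_ofReal ?_) h1
    have h3 := le_max_right R ((N.toReal + 1) / e)
    rw [div_le_iff₀ he] at h3
    linarith
  have h3 := ENNReal.toReal_mono hfin.ne h2
  rw [ENNReal.toReal_ofReal (by positivity)] at h3
  linarith

end Pool.Agent.Work.MP_440970_an.BH

end

section

/-!
# [NJeta] normalised data of the components of `η`
-/

open MeasureTheory Set Filter Topology
open scoped ContDiff ENNReal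

namespace Pool.Agent.Work.MP_440970_an.BH

namespace NJetaX

theorem le_two : (2 : WithTop ℕ∞) ≤ ((⊤ : ℕ∞) : WithTop ℕ∞) :=
  WithTop.coe_le_coe.2 (le_top : (2 : ℕ∞) ≤ ⊤)

theorem le_three : (2 : WithTop ℕ∞) + 1 ≤ ((⊤ : ℕ∞) : WithTop ℕ∞) := by
  have h : ((3 : ℕ∞) : WithTop ℕ∞) ≤ ((⊤ : ℕ∞) : WithTop ℕ∞) := WithTop.coe_le_coe.2 le_top
  exact h

/-- normalised data of `CC F k` -/
theorem njCC (h1 : S_Harm) {F : Fin 4 → E3 → ℝ} {U : Set E3} (hF : Fld F U) {x : E3} (hx : x ∈ U)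
    (k : Fin 3) : NJ (CC F k) x (CC F k x)
      (fun i => x 0 * ∑ α, (pd i (F α) x * pd k (F α) x + F α x * pd i (pd k (F α)) x))
      (2 * x 0 ^ 2 * ∑ j, ∑ α, pd j (F α) x * pd k (pd j (F α)) x) := by
  obtain ⟨ha, hb⟩ := h1 F U hF x hx
  have hsm : ∀ α, ContDiffAt ℝ ∞ (F α) x := fun α =>
    (hF.smooth α x hx).contDiffAt (hF.op.mem_nhds hx)
  have hs2 : ∀ α, ContDiffAt ℝ 2 (F α) x := fun α => (hsm α).of_le le_two
  have n1 : ∀ α, NJ (F α) x (F α x) (fun i => x 0 * pd i (F α) x) 0 := fun α =>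
    (NJ.of (hs2 α)).congr rfl (fun _ => rfl) (by rw [ha, mul_zero])
  have n2 : ∀ α, NJ (pd k (F α)) x (pd k (F α) x) (fun i => x 0 * pd i (pd k (F α)) x) 0 :=
    fun α => (NJ.of (pd_contDiffAt (n := ∞) k (hsm α) le_three)).congr rfl
      (fun _ => rfl) (by rw [hb, mul_zero])
  have n3 := NJ.sum (Finset.univ : Finset (Fin 4)) (fun α _ => (n1 α).mul (n2 α))
  refine n3.congr rfl (fun i => ?_) ?_
  · rw [Finset.mul_sum]
    refine Finset.sum_congr rfl fun α _ => ?_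
    ring
  · rw [Finset.sum_comm (s := (Finset.univ : Finset (Fin 3))), Finset.mul_sum]
    refine Finset.sum_congr rfl fun α _ => ?_
    rw [mul_zero, mul_zero, add_zero, zero_add, Finset.mul_sum, Finset.mul_sum]
    refine Finset.sum_congr rfl fun i _ => ?_
    rw [pd_comm i k (hs2 α)]
    ring

/-- the algebraic identity for the Laplacian -/
theorem alg (t A G W C c0 c1 c2 E0 E1 E2 : ℝ) (hA : A ≠ 0) :
    t * C * (-(A ^ 2)⁻¹ * (2 * (t ^ 2 * G)) + 2 * (A ^ 3)⁻¹ *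
        ((2 * (t * c0)) ^ 2 + (2 * (t * c1)) ^ 2 + (2 * (t * c2)) ^ 2)) +
      A⁻¹ * (t * (2 * t ^ 2 * W) + C * 0 + 2 * (t * 1 * (t * E0) + t * 0 * (t * E1) +
        t * 0 * (t * E2))) +
      2 * ((t * (t * E0) + C * (t * 1)) * (-(A ^ 2)⁻¹ * (2 * (t * c0))) +
        (t * (t * E1) + C * (t * 0)) * (-(A ^ 2)⁻¹ * (2 * (t * c1))) +
        (t * (t * E2) + C * (t * 0)) * (-(A ^ 2)⁻¹ * (2 * (t * c2)))) =
    2 * (t ^ 2 * (E0 / A - 2 * c0 * C / A ^ 2)) +
      (t ^ 3 * (2 * W) / A - 2 * (t ^ 2 * G / A) * (t * C / A)) -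
      4 * (t ^ 2 * (E0 / A - 2 * C * c0 / A ^ 2) * (t * c0 / A) +
        t ^ 2 * (E1 / A - 2 * C * c1 / A ^ 2) * (t * c1 / A) +
        t ^ 2 * (E2 / A - 2 * C * c2 / A ^ 2) * (t * c2 / A)) := by
  field_simp
  ring

end NJetaX

theorem pr_NJeta (h1 : S_Harm) (h2 : S_NJA) : S_NJeta := by
  intro F U hF x hx hA k
  have hsm : ∀ α, ContDiffAt ℝ ∞ (F α) x := fun α =>
    (hF.smooth α x hx).contDiffAt (hF.op.mem_nhds hx)
  have hs2 : ∀ α, ContDiffAt ℝ 2 (F α) x := fun α => (hsm α).of_le NJetaX.le_two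
  have n := ((NJ.height x).mul (NJetaX.njCC h1 hF hx k)).mul ((h2 F U hF x hx).inv hA.ne')
  have hf : (fun y => (sj F y).η k) = fun y => y 0 * CC F k y * (AA F y)⁻¹ := rfl
  have hE : ∀ i, ∑ α, (pd k (F α) x * pd i (F α) x + F α x * pd k (pd i (F α)) x) =
      ∑ α, (pd i (F α) x * pd k (F α) x + F α x * pd i (pd k (F α)) x) := by
    intro i
    refine Finset.sum_congr rfl fun α _ => ?_
    rw [pd_comm k i (hs2 α)]
    ring
  have hH : ∀ i j, (sj F x).H i j = x 0 ^ 2 * ((∑ α, (pd i (F α) x * pd j (F α) x +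
      F α x * pd i (pd j (F α)) x)) / AA F x - 2 * CC F i x * CC F j x / AA F x ^ 2) :=
    fun i j => rfl
  have hη : ∀ i, (sj F x).η i = x 0 * CC F i x / AA F x := fun i => rfl
  have hy : (sj F x).y k = x 0 ^ 3 * (2 * ∑ j, ∑ α, pd j (F α) x * pd k (pd j (F α)) x) /
      AA F x := rfl
  have hξ : (sj F x).ξ = x 0 ^ 2 * GG F x / AA F x := rfl
  rw [hf]
  refine n.congr ?_ (fun i => ?_) ?_
  · rw [hη]
    rfl
  · rw [hH, hη]
    have hA' := hA.ne'
    field_simp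
    ring
  · simp only [SJ.xp, SJ.He, hH, hη, hy, hξ, hE, Fin.sum_univ_three]
    have e00 : e0 0 = 1 := by simp [e0]
    have e01 : e0 1 = 0 := by simp [e0]
    have e02 : e0 2 = 0 := by simp [e0]
    simp only [e00, e01, e02]
    exact NJetaX.alg _ _ _ _ _ _ _ _ _ _ _ hA.ne'

end Pool.Agent.Work.MP_440970_an.BH

end

section

/-!
# [NJq] the normalised data of `q`
-/

open MeasureTheory Set Filter Topology
open scoped ContDiff ENNReal

namespace Pool.Agent.Work.MP_440970_an.BH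

namespace NJqX

theorem e00 : e0 0 = 1 := by simp [e0]

theorem e01 : e0 1 = 0 := by simp [e0]

theorem e02 : e0 2 = 0 := by simp [e0]

theorem q_eq (s : SJ) : s.ξ + (-(3 / 2)) * ∑ k, s.η k * s.η k = s.q := by
  simp only [SJ.q, SJ.N, Fin.sum_univ_three]
  ring

theorem grad_eq (s : SJ) (i : Fin 3) : s.x1 i + (-(3 / 2)) * ∑ k,
    (s.η k * (e0 i * s.η k + s.H i k) + s.η k * (e0 i * s.η k + s.H i k)) = s.q1 i := by
  simp only [SJ.q1, SJ.qp, SJ.x1, SJ.q, SJ.N, SJ.He, Fin.sum_univ_three]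
  ring

theorem lap_eq (s : SJ) : s.Lx + (-(3 / 2)) * ∑ k,
    (s.η k * (2 * s.H 0 k + s.xp k - 4 * s.He k) + s.η k * (2 * s.H 0 k + s.xp k - 4 * s.He k) +
      2 * ∑ i, (e0 i * s.η k + s.H i k) * (e0 i * s.η k + s.H i k)) = s.Lq := by
  simp only [SJ.Lq, SJ.Lx, SJ.B0, SJ.qp, SJ.q, SJ.N, SJ.He, Fin.sum_univ_three, e00, e01, e02]
  ring

end NJqX

theorem pr_NJq (h1 : S_NJxi) (h2 : S_NJeta) : S_NJq := by
  intro F U hF x hx hA
  have hN := NJ.sum (x := x) Finset.univ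
    (fun k _ => (h2 F U hF x hx hA k).mul (h2 F U hF x hx hA k))
  have h := ((h1 F U hF x hx hA).add (hN.const_mul (-(3 / 2)))).congr
    (NJqX.q_eq (sj F x)) (NJqX.grad_eq (sj F x)) (NJqX.lap_eq (sj F x))
  refine h.congr_fun (Filter.Eventually.of_forall fun y => ?_)
  exact (NJqX.q_eq (sj F y)).symm

end Pool.Agent.Work.MP_440970_an.BH

end

section

/-!
# Normalised data of the powers of the modulus
-/

open MeasureTheory Set Filter Topology
open scoped ContDiff ENNReal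

namespace Pool.Agent.Work.MP_440970_an.BH

namespace NJwX

theorem eta_eq (F : Fin 4 → E3 → ℝ) (x : E3) (i : Fin 3) :
    (sj F x).η i = x 0 * CC F i x / AA F x := rfl

theorem xi_eq (F : Fin 4 → E3 → ℝ) (x : E3) :
    (sj F x).ξ = x 0 ^ 2 * GG F x / AA F x := rfl

end NJwX

open NJwX in
theorem pr_NJw (h1 : S_NJA) : S_NJw := by
  intro F U h x hx hA p
  have hN := (h1 F U h x hx).rpow hA (p / 2)
  have e1 : AA F x ^ (p / 2 - 1) = AA F x ^ (p / 2) / AA F x := Real.rpow_sub_one hA.ne' _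
  have e2 : AA F x ^ (p / 2 - 2) = AA F x ^ (p / 2) / AA F x ^ 2 := by
    rw [Real.rpow_sub hA, Real.rpow_two]
  refine hN.congr rfl (fun i => ?_) ?_
  · rw [eta_eq, e1]
    field_simp
  · unfold SJ.q SJ.N
    simp only [eta_eq, xi_eq, Fin.sum_univ_three]
    rw [e1, e2]
    generalize AA F x ^ (p / 2) = w
    generalize GG F x = g
    generalize CC F 0 x = c0
    generalize CC F 1 x = c1
    generalize CC F 2 x = c2
    generalize AA F x = A at *
    have : A ≠ 0 := hA.ne'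
    field_simp
    ring

end Pool.Agent.Work.MP_440970_an.BH

end

section

/-!
# Normalised data of `ξ`
-/

open MeasureTheory Set Filter Topology
open scoped ContDiff ENNReal

namespace Pool.Agent.Work.MP_440970_an.BH

namespace NJxiX

variable {F : Fin 4 → E3 → ℝ} {U : Set E3} {x : E3}

theorem smoothPd (h : Fld F U) (hx : x ∈ U) (j : Fin 3) (α : Fin 4) :
    ContDiffAt ℝ 2 (pd j (F α)) x :=
  pd_contDiffAt j ((h.smooth α x hx).contDiffAt (h.op.mem_nhds hx)) (WithTop.coe_le_coe.2 le_top)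

/-- `∑ S T` -/
noncomputable def ST (F : Fin 4 → E3 → ℝ) (k : Fin 3) (x : E3) : ℝ :=
  ∑ j, ∑ α, pd j (F α) x * pd k (pd j (F α)) x

/-- `|T|²` -/
noncomputable def TT (F : Fin 4 → E3 → ℝ) (x : E3) : ℝ :=
  ∑ k, ∑ j, ∑ α, pd k (pd j (F α)) x ^ 2

theorem njGG (h1 : S_Harm) (h : Fld F U) (hx : x ∈ U) :
    NJ (GG F) x (GG F x) (fun i => x 0 * (2 * ST F i x)) (2 * (x 0 ^ 2 * TT F x)) := by
  have hH := (h1 F U h x hx).2
  have hF := fun (j : Fin 3) (α : Fin 4) =>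
    (NJ.of (smoothPd h hx j α)).mul (NJ.of (smoothPd h hx j α))
  have hS := NJ.sum Finset.univ fun j _ => NJ.sum Finset.univ fun α _ => hF j α
  have e : GG F = fun y => ∑ j, ∑ α, pd j (F α) y * pd j (F α) y := by
    funext y
    unfold GG
    exact Finset.sum_congr rfl fun j _ => Finset.sum_congr rfl fun α _ => pow_two _
  rw [e]
  refine hS.congr rfl (fun i => ?_) ?_
  · unfold ST
    simp only [Finset.mul_sum]
    exact Finset.sum_congr rfl fun j _ => Finset.sum_congr rfl fun α _ => by ring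
  · have e2 : TT F x = ∑ j, ∑ α, ∑ i, pd i (pd j (F α)) x ^ 2 := by
      unfold TT
      rw [Finset.sum_comm]
      refine Finset.sum_congr rfl fun j _ => ?_
      rw [Finset.sum_comm]
    rw [e2, Finset.mul_sum, Finset.mul_sum]
    refine Finset.sum_congr rfl fun j _ => ?_
    rw [Finset.mul_sum, Finset.mul_sum]
    refine Finset.sum_congr rfl fun α _ => ?_
    rw [hH j α, mul_zero, mul_zero, add_zero, zero_add]
    congr 1
    rw [Finset.mul_sum]
    exact Finset.sum_congr rfl fun i _ => by ring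

end NJxiX

open NJxiX in
theorem pr_NJxi (h1 : S_Harm) (h2 : S_NJA) : S_NJxi := by
  intro F U h x hx hA
  have hG := njGG h1 h hx
  have hI := (h2 F U h x hx).inv hA.ne'
  have hH := (NJ.height x).mul (NJ.height x)
  have hP := (hH.mul hG).mul hI
  have e : (fun y => (sj F y).ξ) = fun y => (y 0 * y 0) * GG F y * (AA F y)⁻¹ := by
    funext y
    show y 0 ^ 2 * GG F y / AA F y = _
    rw [div_eq_mul_inv, pow_two]
  rw [e]
  have exi : (sj F x).ξ = x 0 ^ 2 * GG F x / AA F x := rfl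
  have eeta : ∀ i, (sj F x).η i = x 0 * CC F i x / AA F x := fun _ => rfl
  have ey : ∀ i, (sj F x).y i = x 0 ^ 3 * (2 * ST F i x) / AA F x := fun _ => rfl
  have eD : (sj F x).D = x 0 ^ 4 * TT F x / AA F x := rfl
  have hA0 : AA F x ≠ 0 := hA.ne'
  refine hP.congr ?_ (fun i => ?_) ?_
  · rw [exi]
    field_simp
  · unfold SJ.x1 SJ.xp
    rw [exi, eeta, ey]
    generalize AA F x = A at *
    field_simp
    ring
  · unfold SJ.Lx SJ.xp
    simp only [Fin.sum_univ_three, exi, eeta, ey, eD]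
    have e00 : e0 0 = 1 := rfl
    have e01 : e0 1 = 0 := rfl
    have e02 : e0 2 = 0 := rfl
    rw [e00, e01, e02]
    generalize GG F x = g
    generalize CC F 0 x = c0
    generalize CC F 1 x = c1
    generalize CC F 2 x = c2
    generalize ST F 0 x = s0
    generalize ST F 1 x = s1
    generalize ST F 2 x = s2
    generalize TT F x = T
    generalize AA F x = A at *
    field_simp
    ring

end Pool.Agent.Work.MP_440970_an.BH

end
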