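import Mathlib
import Pool.Agent.Work.MP_440970_an.FX.Prog
import Pool.Agent.Work.MP_440970_an.FX.Sem
import Pool.Agent.Work.MP_440970_an.FC.Stmts

/-! Bundle of small proof modules (one section per former module). -/

section

/-!
# Homogeneous functions `N ^ s * f`
-/

open Set Filter Topology
open scoped ContDiff

namespace Pool.Agent.Work.MP_440970_an.SC

variable {N f : (Fin 8 → ℝ) → ℝ} {s p : ℝ} {d : ℕ}

theorem hom_smul (N2 : ∀ (c : ℝ) z, N (c • z) = c ^ 2 * N z)
    (hf : ∀ (c : ℝ) z, f (c • z) = c ^ d * f z) (Npos : ∀ z, z ≠ 0 → 0 < N z)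
    (hp : 2 * s + d = p) {c : ℝ} (hc : 0 < c) {z : Fin 8 → ℝ} (hz : z ≠ 0) :
    N (c • z) ^ s * f (c • z) = c ^ p * (N z ^ s * f z) := by
  rw [N2, hf, Real.mul_rpow (by positivity) (Npos z hz).le, ← hp, Real.rpow_add hc,
    Real.rpow_mul hc.le, Real.rpow_natCast]
  norm_num
  ring

theorem hom_bound (Nc : Continuous N) (fc : Continuous f)
    (N2 : ∀ (c : ℝ) z, N (c • z) = c ^ 2 * N z)
    (hf : ∀ (c : ℝ) z, f (c • z) = c ^ d * f z) (Npos : ∀ z, z ≠ 0 → 0 < N z)
    (hd : 0 < d) (hp : 2 * s + d = p) (p0 : 0 < p) :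
    ∃ C, ∀ z, |N z ^ s * f z| ≤ C * ‖z‖ ^ p := by
  have hK : IsCompact (Metric.sphere (0 : Fin 8 → ℝ) 1) := isCompact_sphere 0 1
  have hcont : ContinuousOn (fun z => |N z ^ s * f z|) (Metric.sphere (0 : Fin 8 → ℝ) 1) := by
    intro z hz
    have hz0 : z ≠ 0 := by
      rintro rfl
      simp at hz
    exact (((Nc.continuousAt.rpow_const (Or.inl (Npos z hz0).ne')).mul
      fc.continuousAt).abs).continuousWithinAt
  obtain ⟨C, hC⟩ := hK.bddAbove_image hcont
  refine ⟨C, fun z => ?_⟩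
  by_cases hz : z = 0
  · subst hz
    have h0 : f 0 = 0 := by
      have := hf 0 0
      rw [zero_smul, zero_pow hd.ne', zero_mul] at this
      exact this
    rw [h0, norm_zero, Real.zero_rpow p0.ne']
    simp
  · have hn : 0 < ‖z‖ := norm_pos_iff.mpr hz
    set u : Fin 8 → ℝ := ‖z‖⁻¹ • z with hu
    have hu0 : u ≠ 0 := smul_ne_zero (inv_ne_zero hn.ne') hz
    have hzu : z = ‖z‖ • u := by
      rw [hu, smul_smul, mul_inv_cancel₀ hn.ne', one_smul]
    have hus : u ∈ Metric.sphere (0 : Fin 8 → ℝ) 1 := by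
      rw [mem_sphere_zero_iff_norm, hu, norm_smul, norm_inv, norm_norm, inv_mul_cancel₀ hn.ne']
    have h1 : |N u ^ s * f u| ≤ C := hC ⟨u, hus, rfl⟩
    have h2 : N z ^ s * f z = ‖z‖ ^ p * (N u ^ s * f u) := by
      conv_lhs => rw [hzu]
      exact hom_smul N2 hf Npos hp hn hu0
    rw [h2, abs_mul, abs_of_nonneg (Real.rpow_nonneg hn.le p), mul_comm]
    exact mul_le_mul_of_nonneg_right h1 (Real.rpow_nonneg hn.le p)

theorem hom_cont (Nc : Continuous N) (fc : Continuous f)
    (N2 : ∀ (c : ℝ) z, N (c • z) = c ^ 2 * N z)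
    (hf : ∀ (c : ℝ) z, f (c • z) = c ^ d * f z) (Npos : ∀ z, z ≠ 0 → 0 < N z)
    (hd : 0 < d) (hp : 2 * s + d = p) (p0 : 0 < p) :
    Continuous (fun z => N z ^ s * f z) := by
  rw [continuous_iff_continuousAt]
  intro z
  by_cases hz : z = 0
  · subst hz
    obtain ⟨C, hC⟩ := hom_bound Nc fc N2 hf Npos hd hp p0
    have h0 : f 0 = 0 := by
      have := hf 0 0
      rw [zero_smul, zero_pow hd.ne', zero_mul] at this
      exact this
    rw [ContinuousAt, h0, mul_zero]
    have ht : Tendsto (fun z : Fin 8 → ℝ => C * ‖z‖ ^ p) (𝓝 0) (𝓝 0) := by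
      have h1 : Tendsto (fun z : Fin 8 → ℝ => ‖z‖) (𝓝 0) (𝓝 0) := by
        have := (continuous_norm (E := Fin 8 → ℝ)).tendsto 0
        simpa using this
      have h2 := (h1.rpow_const (p := p) (Or.inr p0.le)).const_mul C
      simpa [Real.zero_rpow p0.ne'] using h2
    rw [tendsto_zero_iff_abs_tendsto_zero]
    exact squeeze_zero (fun z => abs_nonneg _) hC ht
  · exact (Nc.continuousAt.rpow_const (Or.inl (Npos z hz).ne')).mul fc.continuousAt

theorem hom_diff {n : WithTop ℕ∞} (Nd : ContDiff ℝ n N) (fd : ContDiff ℝ n f)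
    (Npos : ∀ z, z ≠ 0 → 0 < N z) {z : Fin 8 → ℝ} (hz : z ≠ 0) :
    ContDiffAt ℝ n (fun z => N z ^ s * f z) z :=
  (Nd.contDiffAt.rpow_const_of_ne (Npos z hz).ne').mul fd.contDiffAt

end Pool.Agent.Work.MP_440970_an.SC

end

section

/-!
# Products of integer matrices through packed rows
-/

open Finset

namespace Pool.Agent.Work.MP_440970_an.SC

/-- digits of a sum of small digits -/
theorem digit_sum (B : ℕ) (hB : 0 < B) (g : ℕ → ℕ) (n : ℕ) (hg : ∀ j < n, g j < B) :
    ∀ j < n, (∑ i ∈ range n, g i * B ^ i) / B ^ j % B = g j := by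
  induction n generalizing g with
  | zero => intro j hj; omega
  | succ n ih =>
    intro j hj
    have h0 : ∑ i ∈ range (n + 1), g i * B ^ i
        = g 0 + B * ∑ i ∈ range n, g (i + 1) * B ^ i := by
      rw [Finset.sum_range_succ', pow_zero, mul_one, add_comm, Finset.mul_sum]
      congr 1
      exact Finset.sum_congr rfl fun i _ => by ring
    cases j with
    | zero =>
      rw [h0, pow_zero, Nat.div_one, Nat.add_mul_mod_self_left, Nat.mod_eq_of_lt (hg 0 hj)]
    | succ j =>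
      have h1 := ih (fun i => g (i + 1)) (fun i hi => hg (i + 1) (by omega)) j (by omega)
      rw [h0, pow_succ', ← Nat.div_div_eq_div_mul, Nat.add_mul_div_left _ _ hB,
        Nat.div_eq_of_lt (hg 0 (by omega)), zero_add]
      exact h1

/-- one row of `Uᵀ U` from packed rows with offset `o` -/
theorem row_digits (B n m o D : ℕ) (d : ℕ → ℕ → ℕ) (hd : ∀ k < m, ∀ j < n, d k j ≤ 2 * o)
    (hD : m * o ^ 2 ≤ D) (hB : 2 * D < B) (u : ℕ → ℕ)
    (hu : ∀ k < m, u k = ∑ j ∈ range n, d k j * B ^ j) (i : ℕ) (hi : i < n) (X : ℕ)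
    (hX : X = (∑ k ∈ range m, d k i * u k) + (m * o ^ 2 + D) * ∑ j ∈ range n, B ^ j
      - (o * (∑ k ∈ range m, u k) + o * (∑ k ∈ range m, d k i) * ∑ j ∈ range n, B ^ j)) :
    ∀ j < n, ((X / B ^ j % B : ℕ) : ℤ)
      = D + ∑ k ∈ range m, ((d k i : ℤ) - o) * ((d k j : ℤ) - o) := by
  have hb : ∀ j < n, |∑ k ∈ range m, ((d k i : ℤ) - o) * ((d k j : ℤ) - o)| ≤ D := by
    intro j hj
    calc |∑ k ∈ range m, ((d k i : ℤ) - o) * ((d k j : ℤ) - o)|
        ≤ ∑ k ∈ range m, |((d k i : ℤ) - o) * ((d k j : ℤ) - o)| := Finset.abs_sum_le_sum_abs _ _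
      _ ≤ ∑ k ∈ range m, (o : ℤ) ^ 2 := by
          refine Finset.sum_le_sum fun k hk => ?_
          have hk' := Finset.mem_range.mp hk
          have h1 := hd k hk' i hi
          have h2 := hd k hk' j hj
          rw [abs_mul, sq]
          refine mul_le_mul ?_ ?_ (abs_nonneg _) (by positivity)
          · rw [abs_le]; constructor <;> omega
          · rw [abs_le]; constructor <;> omega
      _ = (m : ℤ) * o ^ 2 := by simp
      _ ≤ D := by exact_mod_cast hD
  set g : ℕ → ℕ := fun j => (D + ∑ k ∈ range m, ((d k i : ℤ) - o) * ((d k j : ℤ) - o)).toNat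
    with hg
  have hgc : ∀ j < n, ((g j : ℕ) : ℤ)
      = D + ∑ k ∈ range m, ((d k i : ℤ) - o) * ((d k j : ℤ) - o) := by
    intro j hj
    have := (abs_le.mp (hb j hj)).1
    simp only [hg]
    exact Int.toNat_of_nonneg (by linarith)
  have hgB : ∀ j < n, g j < B := by
    intro j hj
    have h1 := hgc j hj
    have h2 := (abs_le.mp (hb j hj)).2
    have : ((g j : ℕ) : ℤ) < B := by rw [h1]; linarith [(show (2 * D : ℤ) < B by exact_mod_cast hB)]
    exact_mod_cast this
  have key : ((∑ j ∈ range n, g j * B ^ j : ℕ) : ℤ)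
      + (o * (∑ k ∈ range m, u k) + o * (∑ k ∈ range m, d k i) * ∑ j ∈ range n, B ^ j : ℕ)
      = ((∑ k ∈ range m, d k i * u k) + (m * o ^ 2 + D) * ∑ j ∈ range n, B ^ j : ℕ) := by
    have e1 : ((∑ j ∈ range n, g j * B ^ j : ℕ) : ℤ)
        = ∑ j ∈ range n, (D + ∑ k ∈ range m, ((d k i : ℤ) - o) * ((d k j : ℤ) - o))
          * (B : ℤ) ^ j := by
      push_cast
      exact Finset.sum_congr rfl fun j hj => by rw [hgc j (Finset.mem_range.mp hj)]
    have e2 : ((∑ k ∈ range m, u k : ℕ) : ℤ)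
        = ∑ j ∈ range n, (∑ k ∈ range m, (d k j : ℤ)) * (B : ℤ) ^ j := by
      push_cast
      rw [Finset.sum_congr rfl fun k hk => by rw [hu k (Finset.mem_range.mp hk)]]
      push_cast
      rw [Finset.sum_comm]
      exact Finset.sum_congr rfl fun j _ => by rw [Finset.sum_mul]
    have e3 : ((∑ k ∈ range m, d k i * u k : ℕ) : ℤ)
        = ∑ j ∈ range n, (∑ k ∈ range m, (d k i : ℤ) * (d k j : ℤ)) * (B : ℤ) ^ j := by
      push_cast
      rw [Finset.sum_congr rfl fun k hk => by rw [hu k (Finset.mem_range.mp hk)]]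
      push_cast
      simp_rw [Finset.mul_sum]
      rw [Finset.sum_comm]
      exact Finset.sum_congr rfl fun j _ => by
        rw [Finset.sum_mul]
        exact Finset.sum_congr rfl fun k _ => by ring
    rw [e1]
    push_cast at e2 e3 ⊢
    rw [e2, e3, Finset.mul_sum (range n), Finset.mul_sum (range n), Finset.mul_sum (range n),
      ← Finset.sum_add_distrib, ← Finset.sum_add_distrib, ← Finset.sum_add_distrib]
    refine Finset.sum_congr rfl fun j _ => ?_
    have e4 : ∑ k ∈ range m, ((d k i : ℤ) - o) * ((d k j : ℤ) - o)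
        = ∑ k ∈ range m, (d k i : ℤ) * (d k j : ℤ) - o * ∑ k ∈ range m, (d k i : ℤ)
          - o * ∑ k ∈ range m, (d k j : ℤ) + m * o ^ 2 := by
      rw [Finset.mul_sum, Finset.mul_sum, ← Finset.sum_sub_distrib, ← Finset.sum_sub_distrib]
      have : (m : ℤ) * o ^ 2 = ∑ k ∈ range m, (o : ℤ) ^ 2 := by simp
      rw [this, ← Finset.sum_add_distrib]
      exact Finset.sum_congr rfl fun k _ => by ring
    rw [e4]
    ring
  have hXg : X = ∑ j ∈ range n, g j * B ^ j := by
    have key' : (∑ j ∈ range n, g j * B ^ j)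
        + (o * (∑ k ∈ range m, u k) + o * (∑ k ∈ range m, d k i) * ∑ j ∈ range n, B ^ j)
        = (∑ k ∈ range m, d k i * u k) + (m * o ^ 2 + D) * ∑ j ∈ range n, B ^ j := by
      exact_mod_cast key
    rw [hX, ← key', Nat.add_sub_cancel]
  intro j hj
  rw [hXg, digit_sum B (by omega) g n hgB j hj, hgc j hj]

end Pool.Agent.Work.MP_440970_an.SC

end

section

/-!
# Splitting the kernel check into several files: definitions
-/

set_option autoImplicit false

namespace Pool.Agent.Work.MP_440970_an.FX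

/-- the first `n` elements -/
noncomputable def pre (n : ℕ) : LL → LL :=
  Nat.rec (motive := fun _ => LL → LL) (fun _ => LL.Z)
    (fun _ ih l => LL.rec (motive := fun _ => LL) LL.Z (fun a t _ => LL.C a (ih t)) l) n

/-- all but the first `n` elements -/
noncomputable def suf (n : ℕ) : LL → LL :=
  Nat.rec (motive := fun _ => LL → LL) (fun l => l)
    (fun _ ih l => LL.rec (motive := fun _ => LL) LL.Z (fun _ t _ => ih t) l) n

/-- the list of the polynomials of `grm` -/
noncomputable def grl (W b D d : ℕ) (us cs : NL) : LL :=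
  grs W (Nat.sub (Nat.shiftLeft (nat_lit 1) W) (nat_lit 1)) D d (sumN us)
    (Nat.shiftLeft (sumN us) b) (Nat.shiftLeft (ones W cs) b)
    (Nat.mul (Nat.add (Nat.shiftLeft (len us) (Nat.mul (nat_lit 2) b)) D) (ones W cs))
    us (kys idn d cs) cs (nat_lit 0)

end Pool.Agent.Work.MP_440970_an.FX

end

section

/-!
# Soundness of the kernel program: squares
-/

set_option autoImplicit false

open Finset

namespace Pool.Agent.Work.MP_440970_an.FX

/-! ### lists of numbers -/

/-- elements of a list -/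
def nth : NL → ℕ → ℕ
  | NL.Z, _ => 0
  | NL.C a _, 0 => a
  | NL.C _ l, i + 1 => nth l i

theorem len_Z : len NL.Z = 0 := rfl

theorem len_C (a : ℕ) (l : NL) : len (NL.C a l) = len l + 1 := rfl

theorem sumN_eq (l : NL) : sumN l = ∑ k ∈ range (len l), nth l k := by
  induction l with
  | Z => rfl
  | C a l ih =>
    have h : sumN (NL.C a l) = a + sumN l := rfl
    rw [h, ih, len_C, Finset.sum_range_succ']
    simp only [nth]
    ring

theorem ones_eq (W : ℕ) (l : NL) : ones W l = ∑ j ∈ range (len l), (2 ^ W) ^ j := by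
  induction l with
  | Z => rfl
  | C a l ih =>
    have h : ones W (NL.C a l) = 1 + (ones W l) <<< W := rfl
    rw [h, ih, len_C, Finset.sum_range_succ', Nat.shiftLeft_eq, Finset.sum_mul, pow_zero, add_comm]
    congr 1

theorem allM_mem (M : ℕ) (l : NL) (h : allM M l = true) :
    ∀ k < len l, nth l k &&& M = nth l k := by
  induction l with
  | Z => intro k hk; rw [len_Z] at hk; omega
  | C u l ih =>
    have h1 : allM M (NL.C u l) =
        Bool.rec (motive := fun _ => Bool) false (allM M l) (Nat.beq (Nat.land u M) u) := rfl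
    rw [h1] at h
    cases h2 : Nat.beq (Nat.land u M) u with
    | false => rw [h2] at h; exact absurd h (by simp)
    | true =>
      rw [h2] at h
      intro k hk
      cases k with
      | zero => exact Nat.eq_of_beq_eq_true h2
      | succ k => exact ih h k (by rw [len_C] at hk; omega)

theorem col_eq (m s : ℕ) (l : NL) :
    col m s l = ∑ k ∈ range (len l), ((nth l k >>> s) &&& m) * nth l k := by
  induction l with
  | Z => rfl
  | C u l ih =>
    have h : col m s (NL.C u l) = ((u >>> s) &&& m) * u + col m s l := rfl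
    rw [h, ih, len_C, Finset.sum_range_succ']
    simp only [nth]
    ring

theorem len_kys (f : ℕ → ℕ) (d : ℕ) (l : NL) : len (kys f d l) = len l := by
  induction l with
  | Z => rfl
  | C a l ih =>
    have h : kys f d (NL.C a l) = NL.C (key f d a) (kys f d l) := rfl
    rw [h, len_C, len_C, ih]

theorem nth_kys (f : ℕ → ℕ) (d : ℕ) (l : NL) : ∀ j < len l, nth (kys f d l) j = key f d (nth l j) := by
  induction l with
  | Z => intro j hj; rw [len_Z] at hj; omega
  | C a l ih =>
    have h : kys f d (NL.C a l) = NL.C (key f d a) (kys f d l) := rfl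
    intro j hj
    rw [h]
    cases j with
    | zero => rfl
    | succ j => exact ih j (by rw [len_C] at hj; omega)

/-! ### digits -/

theorem land_mask (a W : ℕ) : a &&& (2 ^ W - 1) = a % 2 ^ W := Nat.and_two_pow_sub_one_eq_mod a W

theorem digits_expand (B : ℕ) : ∀ (n u : ℕ), u < B ^ n →
    u = ∑ j ∈ range n, u / B ^ j % B * B ^ j := by
  intro n
  induction n with
  | zero => intro u hu; simp at hu; simp [hu]
  | succ n ih =>
    intro u hu
    have hB : 0 < B := by
      rcases Nat.eq_zero_or_pos B with h | h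
      · subst h; simp at hu
      · exact h
    have h1 : u / B < B ^ n := by
      rw [Nat.div_lt_iff_lt_mul hB]
      rwa [pow_succ] at hu
    have h2 := ih (u / B) h1
    rw [Finset.sum_range_succ', pow_zero, Nat.div_one, mul_one]
    have h3 : ∑ j ∈ range n, u / B ^ (j + 1) % B * B ^ (j + 1) = B * (u / B) := by
      conv_rhs => rw [h2, Finset.mul_sum]
      refine Finset.sum_congr rfl fun j _ => ?_
      rw [pow_succ', ← Nat.div_div_eq_div_mul]
      ring
    rw [h3]
    exact (Nat.div_add_mod u B).symm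

theorem geo (B : ℕ) (hB : 0 < B) (n : ℕ) : (B - 1) * (∑ j ∈ range n, B ^ j) + 1 = B ^ n := by
  induction n with
  | zero => simp
  | succ n ih =>
    rw [Finset.sum_range_succ, pow_succ, mul_add]
    obtain ⟨c, rfl⟩ : ∃ c, B = c + 1 := ⟨B - 1, by omega⟩
    simp only [Nat.add_sub_cancel] at ih ⊢
    nlinarith [ih]

/-- the digits of numbers with `u &&& ((2 ^ (b + 1) - 1) * ones) = u` -/
theorem digits_small (W b n u : ℕ) (hbW : 2 ^ (b + 1) ≤ 2 ^ W)
    (hu : u &&& ((2 ^ (b + 1) - 1) * ∑ j ∈ range n, (2 ^ W) ^ j) = u) :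
    u < (2 ^ W) ^ n ∧ ∀ j < n, u / (2 ^ W) ^ j % 2 ^ W ≤ 2 ^ (b + 1) - 1 := by
  set M := (2 ^ (b + 1) - 1) * ∑ j ∈ range n, (2 ^ W) ^ j with hM
  have hpos : 0 < 2 ^ (b + 1) := by positivity
  have hWpos : 0 < 2 ^ W := by positivity
  have hM' : M = ∑ j ∈ range n, (2 ^ (b + 1) - 1) * (2 ^ W) ^ j := by
    rw [hM, Finset.mul_sum]
  have hMlt : M < (2 ^ W) ^ n := by
    have h1 : M + 1 ≤ (2 ^ W) ^ n := by
      have h2 : M ≤ (2 ^ W - 1) * ∑ j ∈ range n, (2 ^ W) ^ j :=
        Nat.mul_le_mul_right _ (by omega)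
      have h3 : (2 ^ W - 1) * (∑ j ∈ range n, (2 ^ W) ^ j) + 1 = (2 ^ W) ^ n := by
        exact geo (2 ^ W) hWpos n
      omega
    omega
  have hule : u ≤ M := by
    rw [← hu]
    exact Nat.and_le_right
  refine ⟨hule.trans_lt hMlt, fun j hj => ?_⟩
  have hd := SC.digit_sum (2 ^ W) hWpos (fun _ => 2 ^ (b + 1) - 1) n
    (fun j _ => by show 2 ^ (b + 1) - 1 < 2 ^ W; omega) j hj
  rw [← hM'] at hd
  have h4 : u / (2 ^ W) ^ j % 2 ^ W = (u / (2 ^ W) ^ j % 2 ^ W) &&& (M / (2 ^ W) ^ j % 2 ^ W) := by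
    conv_lhs => rw [← hu]
    rw [← pow_mul, ← Nat.shiftRight_eq_div_pow, ← Nat.shiftRight_eq_div_pow,
      ← Nat.shiftRight_eq_div_pow, Nat.shiftRight_and_distrib, Nat.and_mod_two_pow]
  rw [h4, hd]
  exact Nat.and_le_right

/-! ### rows -/

theorem ev_row (x : ℕ → ℂ) (W D k : ℕ) (ks : NL) : ∀ g : ℕ,
    ev x (row W (2 ^ W - 1) D k ks g) =
      mon x k * ∑ j ∈ range (len ks), (((g / (2 ^ W) ^ j % 2 ^ W : ℕ) : ℂ) - D) * mon x (nth ks j) := by
  induction ks with
  | Z => intro g; simp [row, len_Z]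
  | C k' l ih =>
    intro g
    have h : row W (2 ^ W - 1) D k (NL.C k' l) g =
        PL.C (k * k') (g &&& (2 ^ W - 1)) D (row W (2 ^ W - 1) D k l (g >>> W)) := rfl
    rw [h, ev_C, ih, mon_mul, len_C, Finset.sum_range_succ', land_mask, Nat.shiftRight_eq_div_pow]
    simp only [nth, pow_zero, Nat.div_one]
    have h2 : ∀ j, g / 2 ^ W / (2 ^ W) ^ j = g / (2 ^ W) ^ (j + 1) := by
      intro j
      rw [Nat.div_div_eq_div_mul, pow_succ']
    simp only [h2]
    ring

theorem evL_grs (x : ℕ → ℂ) (W m D d S oS o1 c : ℕ) (us ks cs : NL) : ∀ s : ℕ,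
    evL x (grs W m D d S oS o1 c us ks cs s) =
      ∑ i ∈ range (len cs), ev x (row W m D (key br d (nth cs i)) ks
        (grw m S oS o1 c us (s + W * i))) := by
  induction cs with
  | Z => intro s; simp [grs, len_Z, evL]
  | C e l ih =>
    intro s
    have h : grs W m D d S oS o1 c us ks (NL.C e l) s =
        LL.C (row W m D (key br d e) ks (grw m S oS o1 c us s))
          (grs W m D d S oS o1 c us ks l (s + W)) := rfl
    rw [h, evL, ih, len_C, Finset.sum_range_succ']
    simp only [nth, mul_zero, add_zero]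
    rw [add_comm]
    congr 1
    refine Finset.sum_congr rfl fun i _ => ?_
    congr 2
    ring_nf

/-- validity -/
theorem gok_imp {W b D : ℕ} {us cs : NL} (h : gok W b D us cs = true) :
    (len us + 1) * 2 ^ (b + 1) ≤ 2 ^ W ∧ 2 * D + 1 ≤ 2 ^ W ∧ len us * 2 ^ (2 * b) ≤ D ∧
      allM ((2 ^ (b + 1) - 1) * ones W cs) us = true := by
  have h0 : gok W b D us cs = Bool.rec (motive := fun _ => Bool) false
    (Bool.rec (motive := fun _ => Bool) false
      (Bool.rec (motive := fun _ => Bool) false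
        (allM ((2 <<< b - 1) * ones W cs) us)
        (Nat.ble (len us <<< (2 * b)) D))
      (Nat.ble (2 * D + 1) (1 <<< W)))
    (Nat.ble ((len us + 1) <<< (b + 1)) (1 <<< W)) := rfl
  rw [h0] at h
  cases h1 : Nat.ble ((len us + 1) <<< (b + 1)) (1 <<< W) with
  | false => rw [h1] at h; exact absurd h (by simp)
  | true =>
    rw [h1] at h
    cases h2 : Nat.ble (2 * D + 1) (1 <<< W) with
    | false => rw [h2] at h; exact absurd h (by simp)
    | true =>
      rw [h2] at h
      cases h3 : Nat.ble (len us <<< (2 * b)) D with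
      | false => rw [h3] at h; exact absurd h (by simp)
      | true =>
        rw [h3] at h
        have e1 := Nat.le_of_ble_eq_true h1
        have e2 := Nat.le_of_ble_eq_true h2
        have e3 := Nat.le_of_ble_eq_true h3
        rw [Nat.shiftLeft_eq, Nat.shiftLeft_eq, one_mul] at e1
        rw [Nat.shiftLeft_eq, one_mul] at e2
        rw [Nat.shiftLeft_eq] at e3
        refine ⟨e1, e2, e3, ?_⟩
        have e4 : 2 <<< b - 1 = 2 ^ (b + 1) - 1 := by
          rw [Nat.shiftLeft_eq, pow_succ, mul_comm]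
        rw [e4] at h
        exact h

theorem grm_eq (W b D d : ℕ) (us cs : NL) : grm W b D d us cs =
    sm (grs W (1 <<< W - 1) D d (sumN us) (sumN us <<< b) (ones W cs <<< b)
      ((len us <<< (2 * b) + D) * ones W cs) us (kys idn d cs) cs 0) := rfl

theorem ev_grm (x : ℕ → ℂ) (hx : x 15 = 0) (hc : ∀ v < 16, x (br v) = (starRingEnd ℂ) (x v))
    (W b D d : ℕ) (us cs : NL) (h : gok W b D us cs = true) :
    ∃ U : ℕ → ℕ → ℝ, ev x (grm W b D d us cs) = ((∑ k ∈ range (len us),
      ‖∑ j ∈ range (len cs), (U k j : ℂ) * mc x idn d (nth cs j)‖ ^ 2 : ℝ) : ℂ) := by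
  obtain ⟨h1, h2, h3, h4⟩ := gok_imp h
  rw [ones_eq] at h4
  set n := len cs with hn
  set B := 2 ^ W with hB
  set o := 2 ^ b with ho
  have hBpos : 0 < B := by positivity
  have ho2 : 2 ^ (b + 1) = 2 * o := by rw [pow_succ, mul_comm]
  have hoo : 2 ^ (2 * b) = o ^ 2 := by rw [ho, ← pow_mul]; ring_nf
  have hopos : 0 < o := by positivity
  rw [ho2] at h1 h4
  rw [hoo] at h3
  have hbW : 2 ^ (b + 1) ≤ 2 ^ W := by
    rw [ho2]
    refine le_trans ?_ h1
    exact Nat.le_mul_of_pos_left _ (by omega)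
  have hall := allM_mem _ _ h4
  have hdig : ∀ k < len us, nth us k < B ^ n ∧ ∀ j < n, nth us k / B ^ j % B ≤ 2 * o - 1 := by
    intro k hk
    have := digits_small W b n (nth us k) hbW (by rw [ho2]; exact hall k hk)
    rw [ho2] at this
    exact this
  set dd : ℕ → ℕ → ℕ := fun k j => nth us k / B ^ j % B with hdd
  have hd : ∀ k < len us, ∀ j < n, dd k j ≤ 2 * o := fun k hk j hj =>
    ((hdig k hk).2 j hj).trans (by omega)
  have hu : ∀ k < len us, nth us k = ∑ j ∈ range n, dd k j * B ^ j := fun k hk =>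
    digits_expand B n _ (hdig k hk).1
  have hS : ∀ i < n, sumN us / B ^ i % B = ∑ k ∈ range (len us), dd k i := by
    intro i hi
    have e1 : sumN us = ∑ j ∈ range n, (∑ k ∈ range (len us), dd k j) * B ^ j := by
      rw [sumN_eq, Finset.sum_congr rfl fun k hk => hu k (Finset.mem_range.1 hk),
        Finset.sum_comm]
      exact Finset.sum_congr rfl fun j _ => by rw [Finset.sum_mul]
    rw [e1]
    refine SC.digit_sum B hBpos _ n (fun j hj => ?_) i hi
    calc ∑ k ∈ range (len us), dd k j ≤ ∑ k ∈ range (len us), (2 * o) :=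
          Finset.sum_le_sum fun k hk => hd k (Finset.mem_range.1 hk) j hj
      _ = len us * (2 * o) := by simp
      _ < (len us + 1) * (2 * o) := by nlinarith
      _ ≤ B := h1
  have hX : ∀ i < n, ∀ j < n, ((grw (B - 1) (sumN us) (o * sumN us) (o * ∑ j ∈ range n, B ^ j)
      ((len us * o ^ 2 + D) * ∑ j ∈ range n, B ^ j) us (W * i) / B ^ j % B : ℕ) : ℤ) =
      D + ∑ k ∈ range (len us), ((dd k i : ℤ) - o) * ((dd k j : ℤ) - o) := by
    intro i hi
    refine SC.row_digits B n (len us) o D dd hd h3 (by omega) (nth us) hu i hi _ ?_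
    have e1 : ∀ a : ℕ, (a >>> (W * i)) &&& (B - 1) = a / B ^ i % B := by
      intro a
      rw [hB, land_mask, Nat.shiftRight_eq_div_pow, ← pow_mul]
    have e2 : grw (B - 1) (sumN us) (o * sumN us) (o * ∑ j ∈ range n, B ^ j)
      ((len us * o ^ 2 + D) * ∑ j ∈ range n, B ^ j) us (W * i) =
      (col (B - 1) (W * i) us + (len us * o ^ 2 + D) * ∑ j ∈ range n, B ^ j) -
      (o * sumN us + ((sumN us >>> (W * i)) &&& (B - 1)) * (o * ∑ j ∈ range n, B ^ j)) := rfl
    rw [e2, e1, hS i hi, col_eq, sumN_eq]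
    simp only [e1]
    congr 2
    ring
  -- the value
  refine ⟨fun k j => (dd k j : ℝ) - o, ?_⟩
  set zz : ℕ → ℂ := fun j => mc x idn d (nth cs j) with hzz
  rw [grm_eq, ev_sm]
  have g1 : 1 <<< W - 1 = B - 1 := by rw [Nat.shiftLeft_eq, one_mul]
  have g2 : sumN us <<< b = o * sumN us := by rw [Nat.shiftLeft_eq, mul_comm]
  have g3 : ones W cs <<< b = o * ∑ j ∈ range n, B ^ j := by
    rw [Nat.shiftLeft_eq, mul_comm, ones_eq]
  have g4 : (len us <<< (2 * b) + D) * ones W cs = (len us * o ^ 2 + D) * ∑ j ∈ range n, B ^ j := by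
    rw [Nat.shiftLeft_eq, ones_eq, hoo]
  rw [g1, g2, g3, g4, evL_grs]
  have hrow : ∀ i ∈ range n, ev x (row W (B - 1) D (key br d (nth cs i)) (kys idn d cs)
      (grw (B - 1) (sumN us) (o * sumN us) (o * ∑ j ∈ range n, B ^ j)
      ((len us * o ^ 2 + D) * ∑ j ∈ range n, B ^ j) us (0 + W * i))) =
      (starRingEnd ℂ) (zz i) * ∑ j ∈ range n, (∑ k ∈ range (len us),
        (((dd k i : ℝ) - o : ℝ) : ℂ) * (((dd k j : ℝ) - o : ℝ) : ℂ)) * zz j := by
    intro i hi
    have hi' := Finset.mem_range.1 hi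
    rw [ev_row, len_kys, mon_key x hx br br_lt, mc_br x hc, zero_add]
    congr 1
    refine Finset.sum_congr rfl fun j hj => ?_
    have hj' := Finset.mem_range.1 hj
    rw [nth_kys idn d cs j hj', mon_key x hx idn idn_lt]
    congr 1
    have e := hX i hi' j hj'
    rw [← hB]
    generalize (grw (B - 1) (sumN us) (o * sumN us) (o * ∑ j ∈ range n, B ^ j)
      ((len us * o ^ 2 + D) * ∑ j ∈ range n, B ^ j) us (W * i) / B ^ j % B) = G at e ⊢
    have e' := congrArg (fun t : ℤ => (t : ℂ)) e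
    push_cast at e' ⊢
    rw [e']
    ring
  rw [Finset.sum_congr rfl hrow]
  push_cast
  have hsq : ∀ k, ((‖∑ j ∈ range n, ((dd k j : ℂ) - o) * zz j‖ : ℝ) : ℂ) ^ 2 =
      (starRingEnd ℂ) (∑ j ∈ range n, ((dd k j : ℂ) - o) * zz j) *
        ∑ j ∈ range n, ((dd k j : ℂ) - o) * zz j := by
    intro k
    rw [mul_comm, Complex.mul_conj, Complex.normSq_eq_norm_sq]
    push_cast
    rfl
  have hfin : ∀ k ∈ range (len us), ((‖∑ j ∈ range n, ((dd k j : ℂ) - o) * zz j‖ : ℝ) : ℂ) ^ 2 =
      ∑ i ∈ range n, ∑ j ∈ range n, (starRingEnd ℂ) (zz i) *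
        (((dd k i : ℂ) - o) * ((dd k j : ℂ) - o) * zz j) := by
    intro k _
    rw [hsq, map_sum, Finset.sum_mul]
    refine Finset.sum_congr rfl fun i _ => ?_
    rw [Finset.mul_sum]
    refine Finset.sum_congr rfl fun j _ => ?_
    rw [map_mul, map_sub]
    simp only [map_natCast]
    ring
  rw [Finset.sum_congr rfl hfin]
  simp only [Finset.mul_sum, Finset.sum_mul]
  rw [Finset.sum_comm' (s := range (len us)) (t := fun _ => range n) (t' := range n)
    (s' := fun _ => range (len us)) (by simp)]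
  refine Finset.sum_congr rfl fun i _ => ?_
  rw [Finset.sum_comm]

/-- [G] the polynomials `grm` are nonnegative -/
theorem nn_grm (x : ℕ → ℂ) (hx : x 15 = 0) (hc : ∀ v < 16, x (br v) = (starRingEnd ℂ) (x v))
    (W b D d : ℕ) (us cs : NL) (h : gok W b D us cs = true) :
    ∃ r : ℝ, 0 ≤ r ∧ ev x (grm W b D d us cs) = r := by
  obtain ⟨U, hU⟩ := ev_grm x hx hc W b D d us cs h
  exact ⟨_, Finset.sum_nonneg fun k _ => by positivity, hU⟩

/-! ### items -/

theorem ev_mt (x : ℕ → ℂ) (k p n : ℕ) : ev x (mt k p n) = ((p : ℂ) - n) * mon x k := by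
  simp [mt]

theorem nn_itm (x : ℕ → ℂ) (hx : x 15 = 0) (hc : ∀ v < 16, x (br v) = (starRingEnd ℂ) (x v))
    (d s r a b : ℕ) : ∃ t : ℝ, 0 ≤ t ∧ ev x (itm d s r a b) = t := by
  have hk : ∀ a b, mon x (key br d a * key idn d b) =
      (starRingEnd ℂ) (mc x idn d a) * mc x idn d b := by
    intro a b
    rw [mon_mul, mon_key x hx br br_lt, mon_key x hx idn idn_lt, mc_br x hc]
  have hsq : ∀ z : ℂ, (starRingEnd ℂ) z * z = ((‖z‖ ^ 2 : ℝ) : ℂ) := by
    intro z
    rw [mul_comm, Complex.mul_conj, Complex.normSq_eq_norm_sq]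
  have h0 : itm d s r a b = Bool.rec (motive := fun _ => PL)
    (mrg (mrg (mt (key br d a * key idn d a) r 0)
        (mt (key br d b * key idn d b) r 0))
      (Bool.rec (motive := fun _ => PL)
        (mrg (mt (key br d a * key idn d b) 0 r)
          (mt (key br d b * key idn d a) 0 r))
        (mrg (mt (key br d a * key idn d b) r 0)
          (mt (key br d b * key idn d a) r 0))
        (Nat.beq s 1)))
    (mt (key br d a * key idn d a) r 0)
    (Nat.beq s 0) := rfl
  set z := mc x idn d a with hz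
  set w := mc x idn d b with hw
  cases e0 : Nat.beq s 0 with
  | true =>
    rw [h0, e0]
    refine ⟨r * ‖z‖ ^ 2, by positivity, ?_⟩
    show ev x (mt (key br d a * key idn d a) r 0) = _
    rw [ev_mt, hk, hsq]
    push_cast
    ring
  | false =>
    cases e1 : Nat.beq s 1 with
    | true =>
      rw [h0, e0, e1]
      refine ⟨r * ‖z + w‖ ^ 2, by positivity, ?_⟩
      show ev x (mrg (mrg (mt (key br d a * key idn d a) r 0)
        (mt (key br d b * key idn d b) r 0)) (mrg (mt (key br d a * key idn d b) r 0)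
          (mt (key br d b * key idn d a) r 0))) = _
      rw [ev_mrg, ev_mrg, ev_mrg, ev_mt, ev_mt, ev_mt, ev_mt, hk, hk, hk, hk]
      have := hsq (z + w)
      rw [map_add] at this
      push_cast at this ⊢
      linear_combination (r : ℂ) * this
    | false =>
      rw [h0, e0, e1]
      refine ⟨r * ‖z - w‖ ^ 2, by positivity, ?_⟩
      show ev x (mrg (mrg (mt (key br d a * key idn d a) r 0)
        (mt (key br d b * key idn d b) r 0)) (mrg (mt (key br d a * key idn d b) 0 r)
          (mt (key br d b * key idn d a) 0 r))) = _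
      rw [ev_mrg, ev_mrg, ev_mrg, ev_mt, ev_mt, ev_mt, ev_mt, hk, hk, hk, hk]
      have := hsq (z - w)
      rw [map_sub] at this
      push_cast at this ⊢
      linear_combination (r : ℂ) * this

/-- [I] the items are nonnegative -/
theorem nn_its (x : ℕ → ℂ) (hx : x 15 = 0) (hc : ∀ v < 16, x (br v) = (starRingEnd ℂ) (x v))
    (d : ℕ) (l : IL) : ∃ r : ℝ, 0 ≤ r ∧ ev x (its d l) = r := by
  rw [its, ev_sm]
  induction l with
  | Z => exact ⟨0, le_rfl, by simp [itl, evL]⟩
  | C s r a b l ih =>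
    obtain ⟨t, ht, h1⟩ := ih
    obtain ⟨u, hu, h2⟩ := nn_itm x hx hc d s r a b
    have h : itl d (IL.C s r a b l) = LL.C (itm d s r a b) (itl d l) := rfl
    refine ⟨u + t, by positivity, ?_⟩
    rw [h, evL, h1, h2]
    push_cast
    ring

end Pool.Agent.Work.MP_440970_an.FX

end

section

/-!
# Splitting the kernel check into several files
-/

set_option autoImplicit false

namespace Pool.Agent.Work.MP_440970_an.FX

theorem evL_pre_suf (x : ℕ → ℂ) (n : ℕ) (l : LL) :
    evL x (pre n l) + evL x (suf n l) = evL x l := by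
  induction n generalizing l with
  | zero => exact zero_add _
  | succ n ih =>
    cases l with
    | Z =>
      show evL x LL.Z + evL x LL.Z = evL x LL.Z
      simp [evL]
    | C a t =>
      show ev x a + evL x (pre n t) + evL x (suf n t) = ev x a + evL x t
      rw [add_assoc, ih]

theorem ev_grm_eq (x : ℕ → ℂ) (W b D d : ℕ) (us cs : NL) :
    ev x (grm W b D d us cs) = evL x (grl W b D d us cs) :=
  ev_sm x _

/-- one part of a block -/
theorem part (x : ℕ → ℂ) (n : ℕ) (l : LL) (G : PL) (h : eqP (sm (pre n l)) G = true) :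
    evL x l = ev x G + evL x (suf n l) := by
  have h1 := ev_eqP x _ _ h
  rw [ev_sm] at h1
  rw [← h1, evL_pre_suf]

/-- the last part of a block -/
theorem last (x : ℕ → ℂ) (l : LL) (G : PL) (h : eqP (sm l) G = true) :
    evL x l = ev x G := by
  have h1 := ev_eqP x _ _ h
  rwa [ev_sm] at h1

end Pool.Agent.Work.MP_440970_an.FX

end

section

/-!
# Flux certificates for gradient fields: assembly
-/

open MeasureTheory Set Filter Topology
open scoped ContDiff ENNReal

namespace Pool.Agent.Work.MP_440970_an.FC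

open BH

/-- the consequences of a flux certificate -/
def S_All : Prop := ∀ (p : ℝ) (M : J8 → ℝ) (Y : Fin 3 → J8 → ℝ), 0 < p → p < 1 / 2 →
  FCert p M Y → 0 < gb M Y ![0, 1, 0] → ¬ TOnto p ∧ ∃ ε : ℝ, 0 < ε ∧ ∀ f ∈ spanR,
    ∫⁻ z : ℂ, ‖f z‖ₑ ^ p < ⊤ →
    ENNReal.ofReal ε ≤ ∫⁻ z : ℂ, ‖(Metric.ball (0 : ℂ) 1).indicator (fun _ => (-1 : ℂ)) z - f z‖ₑ ^ p

theorem asm (h1 : S_NotOnto) (h2 : S_RNot) : S_All := by
  intro p M Y hp hp2 hc hg
  exact ⟨h1 p M Y _ hp (by linarith) hc hg, h2 p M Y hp hp2 hc hg⟩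

end Pool.Agent.Work.MP_440970_an.FC

end

section

/-!
# Flux certificates: item ChainG (chain rule for normalised data)
-/

open MeasureTheory Set Filter Topology
open scoped ContDiff ENNReal

namespace Pool.Agent.Work.MP_440970_an.FC

open BH

namespace ChainGX

theorem vec (u : J8) : u = ∑ k, u k • (Pi.single k (1 : ℝ) : J8) := by
  funext j
  rw [Finset.sum_apply]
  simp [Pi.single_apply]

theorem chain1 {G : J8 → ℝ} {g : E3 → J8} {y : E3} (hG : DifferentiableAt ℝ G (g y))
    (hg : ∀ k, DifferentiableAt ℝ (fun y => g y k) y) (i : Fin 3) :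
    pd i (fun y => G (g y)) y = ∑ k, pz k G (g y) * pd i (fun y => g y k) y := by
  have hg' : DifferentiableAt ℝ g y := differentiableAt_pi.2 hg
  have h1 : fderiv ℝ (fun y => G (g y)) y = (fderiv ℝ G (g y)).comp (fderiv ℝ g y) :=
    (hG.hasFDerivAt.comp y hg'.hasFDerivAt).fderiv
  have h2 : ∀ k, pd i (fun y => g y k) y = fderiv ℝ g y (Pi.single i 1) k := by
    intro k
    have h3 := (hasFDerivAt_pi'.1 hg'.hasFDerivAt k).fderiv
    unfold pd
    rw [h3]
    rfl
  unfold pd pz
  rw [h1, ContinuousLinearMap.comp_apply]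
  conv_lhs => rw [vec (fderiv ℝ g y (Pi.single i 1))]
  rw [map_sum]
  refine Finset.sum_congr rfl fun k _ => ?_
  rw [map_smul, smul_eq_mul, mul_comm]
  congr 1
  exact (h2 k).symm

theorem pz_smooth {M : J8 → ℝ} {z : J8} (hM : ContDiffAt ℝ 2 M z) (k : Fin 8) :
    ContDiffAt ℝ 1 (pz k M) z :=
  (hM.fderiv_right (m := 1) (by norm_num)).clm_apply contDiffAt_const

end ChainGX

open ChainGX in
theorem pr_ChainG : S_ChainG := by
  intro M g x v l h hM
  have hg2 : ContDiffAt ℝ 2 g x := contDiffAt_pi.2 fun k => (h k).smooth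
  refine ⟨hM.comp x hg2, rfl, fun i => ?_, ?_⟩
  · rw [chain1 (hM.differentiableAt (by norm_num)) (fun k => (h k).differentiableAt) i,
      Finset.mul_sum]
    refine Finset.sum_congr rfl fun k _ => ?_
    rw [← (h k).grad i]
    ring
  · have hev : ∀ᶠ y in 𝓝 x, DifferentiableAt ℝ M (g y) := by
      have h1 : ∀ᶠ z in 𝓝 (g x), ContDiffAt ℝ 2 M z := hM.eventually (by simp)
      filter_upwards [hg2.continuousAt.eventually h1] with y hy
      exact hy.differentiableAt (by norm_num)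
    have hev2 : ∀ᶠ y in 𝓝 x, ∀ k, DifferentiableAt ℝ (fun y => g y k) y :=
      eventually_all.2 fun k => ev_diff (h k).smooth
    have hsec : ∀ i, pd i (pd i fun y => M (g y)) x =
        ∑ k, ((∑ l, pz l (pz k M) (g x) * pd i (fun y => g y l) x) * pd i (fun y => g y k) x
          + pz k M (g x) * pd i (pd i fun y => g y k) x) := by
      intro i
      have h1 : pd i (fun y => M (g y)) =ᶠ[𝓝 x]
          fun y => ∑ k, pz k M (g y) * pd i (fun y => g y k) y := by
        filter_upwards [hev, hev2] with y h2 h3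
        exact chain1 h2 h3 i
      have hd : ∀ k, DifferentiableAt ℝ (pz k M) (g x) := fun k =>
        (pz_smooth hM k).differentiableAt (by norm_num)
      have hgx : DifferentiableAt ℝ g x := hg2.differentiableAt (by norm_num)
      have hd2 : ∀ k, DifferentiableAt ℝ (fun y => pz k M (g y)) x := fun k =>
        (hd k).comp x hgx
      have hd3 : ∀ k ∈ (Finset.univ : Finset (Fin 8)), DifferentiableAt ℝ
          ((fun k y => pz k M (g y) * pd i (fun y => g y k) y : Fin 8 → E3 → ℝ) k) x :=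
        fun k _ => (hd2 k).mul (diff_pd i (h k).smooth)
      rw [pd_congr h1, pd_sum Finset.univ
        (fun k y => pz k M (g y) * pd i (fun y => g y k) y : Fin 8 → E3 → ℝ) i hd3]
      refine Finset.sum_congr rfl fun k _ => ?_
      rw [pd_mul i (hd2 k) (diff_pd i (h k).smooth),
        chain1 (hd k) (fun l => (h l).differentiableAt) i]
      ring
    simp only [hsec]
    have e1 : x 0 ^ 2 * ∑ i, ∑ k, ((∑ l, pz l (pz k M) (g x) * pd i (fun y => g y l) x) *
        pd i (fun y => g y k) x + pz k M (g x) * pd i (pd i fun y => g y k) x) =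
        (∑ i, ∑ k, ∑ l, pz l (pz k M) (g x) * (v i l * v i k)) +
        ∑ k, pz k M (g x) * (x 0 ^ 2 * ∑ i, pd i (pd i fun y => g y k) x) := by
      have e2 : ∀ k, pz k M (g x) * (x 0 ^ 2 * ∑ i, pd i (pd i fun y => g y k) x) =
          ∑ i, x 0 ^ 2 * (pz k M (g x) * pd i (pd i fun y => g y k) x) := by
        intro k
        rw [Finset.mul_sum, Finset.mul_sum]
        refine Finset.sum_congr rfl fun i _ => ?_
        ring
      simp only [e2]
      rw [Finset.sum_comm (f := fun k i => x 0 ^ 2 * (pz k M (g x) * pd i (pd i fun y => g y k) x)),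
        ← Finset.sum_add_distrib, Finset.mul_sum]
      refine Finset.sum_congr rfl fun i _ => ?_
      rw [Finset.mul_sum, ← Finset.sum_add_distrib]
      refine Finset.sum_congr rfl fun k _ => ?_
      rw [mul_add, Finset.sum_mul, Finset.mul_sum]
      congr 1
      refine Finset.sum_congr rfl fun l' _ => ?_
      rw [← (h l').grad i, ← (h k).grad i]
      ring
    rw [e1]
    congr 1
    · rw [Finset.sum_comm]
      have e3 : ∀ k : Fin 8, ∑ i, ∑ l', pz l' (pz k M) (g x) * (v i l' * v i k) =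
          ∑ l', pz l' (pz k M) (g x) * ∑ i, v i l' * v i k := by
        intro k
        rw [Finset.sum_comm]
        refine Finset.sum_congr rfl fun l' _ => ?_
        rw [Finset.mul_sum]
      simp only [e3]
      rw [Finset.sum_comm]
    · refine Finset.sum_congr rfl fun k _ => ?_
      rw [(h k).lap]

end Pool.Agent.Work.MP_440970_an.FC

end

section

open MeasureTheory Set Filter Topology
open scoped ContDiff ENNReal

namespace Pool.Agent.Work.MP_440970_an.FC

open BH

namespace ChainYX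

theorem single_sum (w : J8) : w = ∑ k, w k • (Pi.single k (1 : ℝ) : J8) := by
  funext j
  simp [Finset.sum_apply, Pi.single_apply]

theorem fderiv_apply (G : J8 → ℝ) (z w : J8) : fderiv ℝ G z w = ∑ k, pz k G z * w k := by
  conv_lhs => rw [single_sum w]
  rw [map_sum]
  refine Finset.sum_congr rfl fun k _ => ?_
  rw [map_smul, smul_eq_mul, mul_comm]
  rfl

end ChainYX

theorem pr_ChainY : S_ChainY := by
  intro G g x v l hg hG
  have hgs : ∀ k, ContDiffAt ℝ 1 (fun y => g y k) x := fun k => (hg k).smooth.of_le (by norm_num)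
  have hgc : ContDiffAt ℝ 1 g x := contDiffAt_pi.2 hgs
  refine ⟨hG.comp x hgc, fun i => ?_⟩
  have h1 : fderiv ℝ (fun y => G (g y)) x = (fderiv ℝ G (g x)).comp (fderiv ℝ g x) :=
    fderiv_comp x (hG.differentiableAt (by norm_num)) (hgc.differentiableAt (by norm_num))
  have h2 : pd i (fun y => G (g y)) x = ∑ k, pz k G (g x) * pd i (fun y => g y k) x := by
    show fderiv ℝ (fun y => G (g y)) x (Pi.single i 1) = _
    rw [h1, ContinuousLinearMap.comp_apply, ChainYX.fderiv_apply]
    refine Finset.sum_congr rfl fun k _ => ?_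
    congr 1
    rw [fderiv_pi (fun k => (hgs k).differentiableAt (by norm_num))]
    rfl
  rw [h2, Finset.mul_sum]
  refine Finset.sum_congr rfl fun k _ => ?_
  have h3 := (hg k).grad i
  rw [← h3]
  ring

end Pool.Agent.Work.MP_440970_an.FC

end

section

/-!
# Flux certificates: continuity of the integrals over the horizontal planes
-/

open MeasureTheory Set Filter Topology
open scoped ContDiff ENNReal

namespace Pool.Agent.Work.MP_440970_an.FC

open BH

namespace ContX

theorem cp_cont : Continuous fun q : ℝ × ℂ => cp q.1 q.2 := by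
  unfold cp
  refine continuous_pi fun i => ?_
  fin_cases i
  · exact continuous_fst
  · exact Complex.continuous_re.comp continuous_snd
  · exact Complex.continuous_im.comp continuous_snd

theorem jet_contOn {F : Fin 3 → E3 → ℝ} {U : Set E3} (h : SW F U) : ContinuousOn (jet F) U := by
  have h1 : ∀ i, ContinuousOn (F i) U := fun i => (h.smooth i).continuousOn
  have h2 : ∀ i j, ContinuousOn (fun x : E3 => x 0 * pd i (F j) x) U := fun i j =>
    ((continuous_apply (0 : Fin 3)).continuousOn).mul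
      (pd_contDiffOn (m := 0) i h.op (h.smooth j) (by simp)).continuousOn
  refine continuousOn_pi.2 fun k => ?_
  fin_cases k
  · exact h1 0
  · exact h1 1
  · exact h1 2
  · exact h2 0 1
  · exact h2 0 2
  · exact h2 1 1
  · exact h2 1 2
  · exact h2 2 2

theorem cp_mem {F : Fin 3 → E3 → ℝ} {U : Set E3} {b : ℂ → ℝ} (h : Nic F U b) {t : ℝ}
    (ht : 0 ≤ t) (z : ℂ) : cp t z ∈ U := h.sub _ ht

/-- joint continuity of the jet -/
theorem jet_cp {F : Fin 3 → E3 → ℝ} {U : Set E3} {b : ℂ → ℝ} (h : Nic F U b) :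
    ContinuousOn (fun q : ℝ × ℂ => jet F (cp q.1 q.2)) (Ici 0 ×ˢ univ) :=
  (jet_contOn h.sw).comp cp_cont.continuousOn fun q hq => cp_mem h hq.1 q.2

theorem jet_cont_z {F : Fin 3 → E3 → ℝ} {U : Set E3} {b : ℂ → ℝ} (h : Nic F U b) {t : ℝ}
    (ht : 0 ≤ t) : Continuous fun z : ℂ => jet F (cp t z) := by
  rw [← continuousOn_univ]
  refine (jet_cp h).comp (f := fun z : ℂ => (t, z)) (by fun_prop) fun z _ => ?_
  exact ⟨ht, mem_univ _⟩

theorem jet_cont_t {F : Fin 3 → E3 → ℝ} {U : Set E3} {b : ℂ → ℝ} (h : Nic F U b) (z : ℂ) :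
    ContinuousOn (fun t : ℝ => jet F (cp t z)) (Ici 0) := by
  refine (jet_cp h).comp (f := fun t : ℝ => (t, z)) (by fun_prop) fun t ht => ?_
  exact ⟨ht, mem_univ _⟩

theorem jet_int {F : Fin 3 → E3 → ℝ} {U : Set E3} {b : ℂ → ℝ} (h : Nic F U b) {t : ℝ}
    (ht : 0 ≤ t) : Integrable fun z : ℂ => ‖jet F (cp t z)‖ := by
  refine h.intb.mono' (jet_cont_z h ht).norm.aestronglyMeasurable (Eventually.of_forall fun z => ?_)
  rw [norm_norm]
  exact h.bd t z ht

end ContX

open ContX

theorem pr_Cont : S_Cont := by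
  intro p G e C hG hC hL F U b h
  have hb : ∀ t : ℝ, 0 ≤ t → ∀ z : ℂ,
      ‖G (jet F (cp t z) + jt e) - G (jt e)‖ ≤ C * ‖jet F (cp t z)‖ := fun t _ z => (hL _).1
  have hb2 : ∀ t : ℝ, 0 ≤ t → ∀ z : ℂ,
      ‖G (jet F (cp t z) + jt e) - G (jt e)‖ ≤ C * b z := fun t ht z =>
    (hb t ht z).trans (mul_le_mul_of_nonneg_left (h.bd t z ht) hC)
  have hcz : ∀ t : ℝ, 0 ≤ t → Continuous fun z : ℂ => G (jet F (cp t z) + jt e) - G (jt e) :=
    fun t ht => (hG.comp ((jet_cont_z h ht).add continuous_const)).sub continuous_const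
  have hct : ∀ z : ℂ, ContinuousOn (fun t : ℝ => G (jet F (cp t z) + jt e) - G (jt e)) (Ici 0) :=
    fun z => (hG.comp_continuousOn ((jet_cont_t h z).add continuousOn_const)).sub
      continuousOn_const
  have hi : Integrable fun z : ℂ => C * b z := h.intb.const_mul C
  refine ⟨fun t ht => ?_, ?_, ?_⟩
  · exact hi.mono' (hcz t ht).aestronglyMeasurable (Eventually.of_forall (hb2 t ht))
  · refine continuousOn_of_dominated (bound := fun z => C * b z) (fun t ht => ?_) (fun t ht => ?_)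
      hi (Eventually.of_forall hct)
    · exact (hcz t ht).aestronglyMeasurable
    · exact Eventually.of_forall (hb2 t ht)
  · have h0 : Tendsto (fun t : ℝ => C * ∫ z : ℂ, ‖jet F (cp t z)‖) atTop (𝓝 0) := by
      have h1 := h.far.const_mul C
      rwa [mul_zero] at h1
    refine squeeze_zero_norm' ?_ h0
    filter_upwards [eventually_ge_atTop 0] with t ht
    unfold mm
    refine (norm_integral_le_integral_norm _).trans ?_
    rw [← integral_const_mul]
    exact integral_mono_of_nonneg (Eventually.of_forall fun z => norm_nonneg _)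
      ((jet_int h ht).const_mul C) (Eventually.of_forall (hb t ht))

end Pool.Agent.Work.MP_440970_an.FC

end

section

/-!
# Item Gen: generic perturbations have no zero jets
-/

open MeasureTheory Set Filter Topology
open scoped ContDiff ENNReal

namespace Pool.Agent.Work.MP_440970_an.FC

open BH

namespace GenX

/-- the parameters for which the jet vanishes at `x` -/
noncomputable def Psi (F : Fin 3 → E3 → ℝ) (x : E3) : Fin 8 → ℝ :=
  ![-F 0 x - ((pd 1 (F 1) x + pd 2 (F 2) x) * x 0 - pd 0 (F 1) x * x 1 - pd 0 (F 2) x * x 2),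
    -F 1 x + (pd 0 (F 1) x * x 0 + pd 1 (F 1) x * x 1 + pd 1 (F 2) x * x 2),
    -F 2 x + (pd 0 (F 2) x * x 0 + pd 1 (F 2) x * x 1 + pd 2 (F 2) x * x 2),
    -pd 0 (F 1) x, -pd 0 (F 2) x, -pd 1 (F 1) x, -pd 1 (F 2) x, -pd 2 (F 2) x]

lemma convex_half : Convex ℝ half :=
  convex_halfSpace_gt ⟨fun _ _ => rfl, fun _ _ => rfl⟩ 0

lemma smooth {F : Fin 3 → E3 → ℝ} (hF : SW F half) : ContDiffOn ℝ 1 (Psi F) half := by
  have hf : ∀ i, ContDiffOn ℝ 1 (F i) half := fun i => (hF.smooth i).of_le (by norm_cast)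
  have hp : ∀ k i, ContDiffOn ℝ 1 (pd k (F i)) half := fun k i =>
    pd_contDiffOn (m := 1) k hF.op ((hF.smooth i).of_le (m := 2) (by norm_cast)) (by norm_num)
  have hc : ∀ j : Fin 3, ContDiffOn ℝ 1 (fun y : E3 => y j) half := fun j =>
    (contDiff_apply ℝ ℝ j).contDiffOn
  rw [contDiffOn_pi]
  intro k
  fin_cases k
  · exact (hf 0).neg.sub (((((hp 1 1).add (hp 2 2)).mul (hc 0)).sub ((hp 0 1).mul (hc 1))).sub
      ((hp 0 2).mul (hc 2)))
  · exact (hf 1).neg.add ((((hp 0 1).mul (hc 0)).add ((hp 1 1).mul (hc 1))).add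
      ((hp 1 2).mul (hc 2)))
  · exact (hf 2).neg.add ((((hp 0 2).mul (hc 0)).add ((hp 1 2).mul (hc 1))).add
      ((hp 2 2).mul (hc 2)))
  · exact (hp 0 1).neg
  · exact (hp 0 2).neg
  · exact (hp 1 1).neg
  · exact (hp 1 2).neg
  · exact (hp 2 2).neg

lemma dense {F : Fin 3 → E3 → ℝ} (hF : SW F half) : Dense (Psi F '' half)ᶜ := by
  refine (smooth hF).dense_compl_image_of_dimH_lt_finrank convex_half subset_rfl ?_
  have h2 : dimH half ≤ 3 := by
    have := dimH_mono (subset_univ half)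
    rw [Real.dimH_univ_pi_fin] at this
    exact_mod_cast this
  refine lt_of_le_of_lt h2 ?_
  rw [Module.finrank_fin_fun]
  norm_num

/-- the symmetric matrix with trace zero given by the parameters -/
def Amat (q : Fin 8 → ℝ) : Fin 3 → Fin 3 → ℝ :=
  ![![-q 5 - q 7, q 3, q 4], ![q 3, q 5, q 6], ![q 4, q 6, q 7]]

end GenX

open GenX in
theorem pr_Gen : S_Gen := by
  intro F e ε hF hε
  obtain ⟨q, hq, hd⟩ := (dense hF).exists_dist_lt ![e 0, e 1, e 2, 0, 0, 0, 0, 0] (half_pos hε)
  have hk : ∀ k : Fin 8, |q k - (![e 0, e 1, e 2, 0, 0, 0, 0, 0] : Fin 8 → ℝ) k| < ε / 2 := by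
    intro k
    refine lt_of_le_of_lt ?_ hd
    rw [dist_comm, ← Real.dist_eq]
    exact dist_le_pi_dist q _ k
  have h0 : |q 0 - e 0| < ε / 2 := hk 0
  have h1 : |q 1 - e 1| < ε / 2 := hk 1
  have h2 : |q 2 - e 2| < ε / 2 := hk 2
  have h3 : |q 3 - 0| < ε / 2 := hk 3
  have h4 : |q 4 - 0| < ε / 2 := hk 4
  have h5 : |q 5 - 0| < ε / 2 := hk 5
  have h6 : |q 6 - 0| < ε / 2 := hk 6
  have h7 : |q 7 - 0| < ε / 2 := hk 7
  rw [abs_lt] at h3 h4 h5 h6 h7
  refine ⟨![q 0, q 1, q 2], Amat q, ?_, ?_, ?_, ?_, ?_⟩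
  · intro i j
    fin_cases i <;> fin_cases j <;> rfl
  · simp only [Amat, Fin.sum_univ_three]
    show -q 5 - q 7 + q 5 + q 7 = 0
    ring
  · intro i
    fin_cases i
    · exact h0.trans (by linarith)
    · exact h1.trans (by linarith)
    · exact h2.trans (by linarith)
  · intro i j
    fin_cases i <;> fin_cases j <;> simp [Amat, abs_lt] <;> constructor <;> linarith
  · intro x hx h
    have hx0 : 0 < x 0 := hx
    refine hq ⟨x, hx, ?_⟩
    have g0 := congrFun h 0
    have g1 := congrFun h 1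
    have g2 := congrFun h 2
    have g3 := congrFun h 3
    have g4 := congrFun h 4
    have g5 := congrFun h 5
    have g6 := congrFun h 6
    have g7 := congrFun h 7
    simp only [Pi.add_apply, Pi.zero_apply, jet, jp, Amat, Fin.sum_univ_three] at g0 g1 g2 g3 g4 g5 g6 g7
    simp at g0 g1 g2 g3 g4 g5 g6 g7
    have k3 : q 3 = -pd 0 (F 1) x := by
      have : x 0 * (pd 0 (F 1) x + q 3) = 0 := by linarith
      rcases mul_eq_zero.1 this with h | h <;> linarith
    have k4 : q 4 = -pd 0 (F 2) x := by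
      have : x 0 * (pd 0 (F 2) x + q 4) = 0 := by linarith
      rcases mul_eq_zero.1 this with h | h <;> linarith
    have k5 : q 5 = -pd 1 (F 1) x := by
      have : x 0 * (pd 1 (F 1) x + q 5) = 0 := by linarith
      rcases mul_eq_zero.1 this with h | h <;> linarith
    have k6 : q 6 = -pd 1 (F 2) x := by
      have : x 0 * (pd 1 (F 2) x + q 6) = 0 := by linarith
      rcases mul_eq_zero.1 this with h | h <;> linarith
    have k7 : q 7 = -pd 2 (F 2) x := by
      have : x 0 * (pd 2 (F 2) x + q 7) = 0 := by linarith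
      rcases mul_eq_zero.1 this with h | h <;> linarith
    rw [k3, k4, k5, k7] at g0
    rw [k3, k5, k6] at g1
    rw [k4, k6, k7] at g2
    funext k
    fin_cases k
    · show -F 0 x - ((pd 1 (F 1) x + pd 2 (F 2) x) * x 0 - pd 0 (F 1) x * x 1 -
        pd 0 (F 2) x * x 2) = q 0
      linarith
    · show -F 1 x + (pd 0 (F 1) x * x 0 + pd 1 (F 1) x * x 1 + pd 1 (F 2) x * x 2) = q 1
      linarith
    · show -F 2 x + (pd 0 (F 2) x * x 0 + pd 1 (F 2) x * x 1 + pd 2 (F 2) x * x 2) = q 2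
      linarith
    · exact k3.symm
    · exact k4.symm
    · exact k5.symm
    · exact k6.symm
    · exact k7.symm

end Pool.Agent.Work.MP_440970_an.FC

end

section

/-!
# [Grad]
-/

open MeasureTheory Set Filter Topology
open scoped ContDiff ENNReal

namespace Pool.Agent.Work.MP_440970_an.FC

open BH

namespace GradX

/-- value, gradient and Laplacian of `f` at `x` -/
structure LJ (f : E3 → ℝ) (x : E3) (a : ℝ) (v : E3) (l : ℝ) : Prop where
  smooth : ContDiffAt ℝ 2 f x
  val : f x = a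
  grad : ∀ i, pd i f x = v i
  lap : ∑ i, pd i (pd i f) x = l

section LJ

variable {f g : E3 → ℝ} {x : E3} {a b l m : ℝ} {v w : E3}

theorem LJ.differentiableAt (h : LJ f x a v l) : DifferentiableAt ℝ f x :=
  h.smooth.differentiableAt (by norm_num)

theorem LJ.congr (h : LJ f x a v l) {a' l' : ℝ} {v' : E3} (ha : a = a') (hv : ∀ i, v i = v' i)
    (hl : l = l') : LJ f x a' v' l' :=
  ⟨h.smooth, h.val.trans ha, fun i => (h.grad i).trans (hv i), h.lap.trans hl⟩

theorem LJ.const (c : ℝ) (x : E3) : LJ (fun _ => c) x c (fun _ => 0) 0 := by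
  refine ⟨contDiffAt_const, rfl, fun i => pd_const i c x, ?_⟩
  have h : ∀ i : Fin 3, pd i (pd i fun _ : E3 => c) x = 0 := by
    intro i
    have h1 : (pd i fun _ : E3 => c) = fun _ => (0 : ℝ) := by
      funext y
      exact pd_const i c y
    rw [h1]
    exact pd_const i 0 x
  simp only [h, Finset.sum_const_zero]

theorem LJ.coord (j : Fin 3) (x : E3) :
    LJ (fun y => y j) x (x j) (fun i => if i = j then 1 else 0) 0 := by
  refine ⟨(contDiff_apply ℝ ℝ j).contDiffAt, rfl, fun i => pd_coord i j x, ?_⟩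
  have h : ∀ i : Fin 3, pd i (pd i fun y : E3 => y j) x = 0 := by
    intro i
    have h1 : (pd i fun y : E3 => y j) = fun _ => if i = j then (1 : ℝ) else 0 := by
      funext y
      exact pd_coord i j y
    rw [h1]
    exact pd_const i _ x
  simp only [h, Finset.sum_const_zero]

theorem LJ.add (hf : LJ f x a v l) (hg : LJ g x b w m) :
    LJ (fun y => f y + g y) x (a + b) (fun i => v i + w i) (l + m) := by
  refine ⟨hf.smooth.add hg.smooth, by rw [hf.val, hg.val], fun i => ?_, ?_⟩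
  · rw [pd_add i hf.differentiableAt hg.differentiableAt, hf.grad, hg.grad]
  · rw [← hf.lap, ← hg.lap, ← Finset.sum_add_distrib]
    refine Finset.sum_congr rfl fun i _ => ?_
    have h : pd i (fun y => f y + g y) =ᶠ[𝓝 x] fun y => pd i f y + pd i g y := by
      filter_upwards [ev_diff hf.smooth, ev_diff hg.smooth] with y h1 h2
      exact pd_add i h1 h2
    rw [pd_congr h, pd_add i (diff_pd i hf.smooth) (diff_pd i hg.smooth)]

theorem LJ.mul (hf : LJ f x a v l) (hg : LJ g x b w m) :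
    LJ (fun y => f y * g y) x (a * b) (fun i => a * w i + b * v i)
      (a * m + b * l + 2 * ∑ i, v i * w i) := by
  refine ⟨hf.smooth.mul hg.smooth, by rw [hf.val, hg.val], fun i => ?_, ?_⟩
  · rw [pd_mul i hf.differentiableAt hg.differentiableAt, ← hf.grad, ← hg.grad, hf.val, hg.val]
  · have h : ∀ i, pd i (pd i fun y => f y * g y) x =
        a * pd i (pd i g) x + b * pd i (pd i f) x + 2 * (pd i f x * pd i g x) := by
      intro i
      have h : pd i (fun y => f y * g y) =ᶠ[𝓝 x] fun y => f y * pd i g y + g y * pd i f y := by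
        filter_upwards [ev_diff hf.smooth, ev_diff hg.smooth] with y h1 h2
        exact pd_mul i h1 h2
      have e1 : DifferentiableAt ℝ (fun y => f y * pd i g y) x :=
        hf.differentiableAt.mul (diff_pd i hg.smooth)
      have e2 : DifferentiableAt ℝ (fun y => g y * pd i f y) x :=
        hg.differentiableAt.mul (diff_pd i hf.smooth)
      rw [pd_congr h, pd_add i e1 e2,
        pd_mul i hf.differentiableAt (diff_pd i hg.smooth),
        pd_mul i hg.differentiableAt (diff_pd i hf.smooth), hf.val, hg.val]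
      ring
    simp only [h]
    rw [← hf.lap, ← hg.lap, Finset.sum_add_distrib, Finset.sum_add_distrib, ← Finset.mul_sum,
      ← Finset.mul_sum, ← Finset.mul_sum]
    have h2 : ∑ i, v i * w i = ∑ i, pd i f x * pd i g x :=
      Finset.sum_congr rfl fun i _ => by rw [← hf.grad, ← hg.grad]
    rw [h2]

theorem LJ.const_mul (c : ℝ) (hf : LJ f x a v l) :
    LJ (fun y => c * f y) x (c * a) (fun i => c * v i) (c * l) := by
  refine ((LJ.const c x).mul hf).congr rfl (fun i => ?_) ?_
  · ring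
  · simp

theorem LJ.sum {ι : Type*} (u : Finset ι) {f : ι → E3 → ℝ} {a l : ι → ℝ} {v : ι → E3}
    (h : ∀ k ∈ u, LJ (f k) x (a k) (v k) (l k)) :
    LJ (fun y => ∑ k ∈ u, f k y) x (∑ k ∈ u, a k) (fun i => ∑ k ∈ u, v k i) (∑ k ∈ u, l k) := by
  classical
  induction u using Finset.induction_on with
  | empty => simpa using LJ.const 0 x
  | insert k u hk ih =>
    have h1 := (h k (Finset.mem_insert_self _ _)).add
      (ih fun j hj => h j (Finset.mem_insert_of_mem hj))
    simp only [Finset.sum_insert hk]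
    exact h1

end LJ

/-- the square of the distance -/
def rho (x y : E3) : ℝ := ∑ i, (y i - x i) ^ 2

theorem rho_cont (x : E3) : Continuous (rho x) := by
  unfold rho
  fun_prop

/-- the function of Bernstein -/
noncomputable def WW (u : E3 → ℝ) (x : E3) (r ε : ℝ) (y : E3) : ℝ :=
  (r ^ 2 + -1 * rho x y) * (r ^ 2 + -1 * rho x y) * (∑ i, pd i u y * pd i u y) +
    12 * r ^ 2 * (u y * u y) + ε * rho x y

theorem LJ_rho (x y : E3) : LJ (rho x) y (rho x y) (fun i => 2 * (y i - x i)) 6 := by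
  have h : ∀ j : Fin 3, LJ (fun y : E3 => (y j + -x j) * (y j + -x j)) y
      ((y j - x j) ^ 2) (fun i => 2 * (y j - x j) * if i = j then 1 else 0) 2 := by
    intro j
    have h1 := (LJ.coord j y).add (LJ.const (-x j) y)
    refine (h1.mul h1).congr (by ring) (fun i => by ring) ?_
    simp only [add_zero, mul_zero, zero_add, mul_ite, mul_one, Finset.sum_ite_eq',
      Finset.mem_univ, if_true]
  have h2 := LJ.sum Finset.univ fun k _ => h k
  have h3 : rho x = fun y => ∑ k, (y k + -x k) * (y k + -x k) := by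
    funext z
    exact Finset.sum_congr rfl fun i _ => by ring
  rw [h3]
  refine h2.congr ?_ (fun i => ?_) ?_
  · exact Finset.sum_congr rfl fun i _ => by ring
  · fin_cases i <;> simp
  · simp
    norm_num

theorem two_le : (2 : WithTop ℕ∞) ≤ ((⊤ : ℕ∞) : WithTop ℕ∞) := by
  have h : ((2 : ℕ∞) : WithTop ℕ∞) ≤ ((⊤ : ℕ∞) : WithTop ℕ∞) := WithTop.coe_le_coe.2 le_top
  exact h

theorem three_le : (2 : WithTop ℕ∞) + 1 ≤ ((⊤ : ℕ∞) : WithTop ℕ∞) := by
  have h : ((3 : ℕ∞) : WithTop ℕ∞) ≤ ((⊤ : ℕ∞) : WithTop ℕ∞) := WithTop.coe_le_coe.2 le_top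
  exact h

/-- the derivatives of a harmonic function are harmonic -/
theorem harm_pd {u : E3 → ℝ} {y : E3}
    (h : ∀ᶠ z in 𝓝 y, ContDiffAt ℝ ∞ u z ∧ ∑ i, pd i (pd i u) z = 0) (i : Fin 3) :
    ∑ j, pd j (pd j (pd i u)) y = 0 := by
  have h2 : ∀ j k : Fin 3, pd j (pd k u) =ᶠ[𝓝 y] pd k (pd j u) := by
    intro j k
    filter_upwards [h] with z hz
    exact pd_comm j k (hz.1.of_le two_le)
  have hy := h.self_of_nhds.1
  have hy1 : ∀ j, ContDiffAt ℝ ∞ (pd j u) y := fun j => pd_contDiffAt j hy (by simp)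
  have hy2 : ∀ j k, ContDiffAt ℝ ∞ (pd k (pd j u)) y := fun j k => pd_contDiffAt k (hy1 j) (by simp)
  have h3 : ∀ j, pd j (pd j (pd i u)) y = pd i (pd j (pd j u)) y := by
    intro j
    have h4 : pd j (pd j (pd i u)) y = pd j (pd i (pd j u)) y := pd_congr (h2 j i)
    rw [h4]
    exact pd_comm j i ((hy1 j).of_le two_le)
  simp only [h3]
  rw [← pd_sum]
  · have h5 : (fun z => ∑ j, pd j (pd j u) z) =ᶠ[𝓝 y] fun _ => 0 := h.mono fun z hz => hz.2
    rw [pd_congr h5, pd_const]
  · intro k _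
    exact (hy2 k k).differentiableAt (by simp)

/-- second derivative test -/
theorem test2 {F : E3 → ℝ} {y : E3} (hF : ContDiffAt ℝ 2 F y) (hm : IsLocalMax F y)
    (j : Fin 3) : pd j (pd j F) y ≤ 0 := by
  by_contra hpos
  push Not at hpos
  set L : ℝ → E3 := fun t => y + t • (Pi.single j 1 : E3) with hL
  have hL0 : L 0 = y := by simp [hL]
  have hLd : ∀ t, HasDerivAt L (Pi.single j 1) t := by
    intro t
    have h := ((hasDerivAt_id t).smul_const (Pi.single j (1 : ℝ) : E3)).const_add y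
    rw [one_smul] at h
    exact h
  have hLc : Tendsto L (𝓝 0) (𝓝 y) := by
    have h := (hLd 0).continuousAt.tendsto
    rwa [hL0] at h
  have hD : ∀ (G : E3 → ℝ) (t : ℝ), DifferentiableAt ℝ G (L t) →
      HasDerivAt (fun s => G (L s)) (pd j G (L t)) t := fun G t hG =>
    hG.hasFDerivAt.comp_hasDerivAt t (hLd t)
  have hm1 : IsLocalMax (fun t => F (L t)) 0 := by
    have h := hLc.eventually hm
    filter_upwards [h] with t ht
    rw [hL0]
    exact ht
  have he : deriv (fun t => F (L t)) =ᶠ[𝓝 0] fun t => pd j F (L t) := by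
    filter_upwards [hLc.eventually (ev_diff hF)] with t ht
    exact (hD F t ht).deriv
  have hd0 : deriv (fun t => F (L t)) 0 = 0 := hm1.deriv_eq_zero
  have hdd : deriv (deriv fun t => F (L t)) 0 = pd j (pd j F) y := by
    rw [he.deriv_eq, (hD (pd j F) 0 (by rw [hL0]; exact diff_pd j hF)).deriv, hL0]
  have hFd : DifferentiableAt ℝ F (L 0) := by
    rw [hL0]
    exact hF.differentiableAt (by norm_num)
  have hmin : IsLocalMin (fun t => F (L t)) 0 :=
    isLocalMin_of_deriv_deriv_pos (by rw [hdd]; exact hpos) hd0 (hD F 0 hFd).continuousAt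
  have hconst : (fun t => F (L t)) =ᶠ[𝓝 0] fun _ => F (L 0) := by
    filter_upwards [hm1, hmin] with t h1 h2
    exact le_antisymm h1 h2
  have h0 : deriv (deriv fun t => F (L t)) 0 = 0 := by
    rw [hconst.deriv.deriv_eq]
    simp
  rw [hdd] at h0
  exact hpos.ne' h0

/-- the function of Bernstein is subharmonic -/
theorem lapW {u : E3 → ℝ} {x y : E3} {r ε : ℝ} (hε : 0 < ε)
    (h : ∀ᶠ z in 𝓝 y, ContDiffAt ℝ ∞ u z ∧ ∑ i, pd i (pd i u) z = 0) (hs : rho x y ≤ r ^ 2) :
    ContDiffAt ℝ 2 (WW u x r ε) y ∧ 0 < ∑ i, pd i (pd i (WW u x r ε)) y := by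
  have hy := h.self_of_nhds
  have hu : LJ u y (u y) (fun i => pd i u y) 0 :=
    ⟨hy.1.of_le two_le, rfl, fun _ => rfl, hy.2⟩
  have hp : ∀ i, LJ (pd i u) y (pd i u y) (fun j => pd j (pd i u) y) 0 := fun i =>
    ⟨pd_contDiffAt i hy.1 three_le, rfl, fun _ => rfl, harm_pd h i⟩
  have hr := LJ_rho x y
  have hs1 := (LJ.const (r ^ 2) y).add (hr.const_mul (-1))
  have hg := LJ.sum Finset.univ fun k _ => (hp k).mul (hp k)
  have hW := (((hs1.mul hs1).mul hg).add ((hu.mul hu).const_mul (12 * r ^ 2))).add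
    (hr.const_mul ε)
  have hW' : LJ (WW u x r ε) y _ _ _ := hW
  refine ⟨hW'.smooth, ?_⟩
  rw [hW'.lap]
  have key : 0 < ∑ i, ∑ j, 2 * ((r ^ 2 - rho x y) * pd j (pd i u) y -
      4 * (y j - x j) * pd i u y) ^ 2 + 12 * (r ^ 2 - rho x y) * (∑ i, pd i u y ^ 2) +
      6 * ε := by
    have h1 : 0 ≤ r ^ 2 - rho x y := by linarith
    have h2 : 0 ≤ ∑ i, pd i u y ^ 2 := Finset.sum_nonneg fun i _ => sq_nonneg _
    have h3 : 0 ≤ ∑ i, ∑ j, 2 * ((r ^ 2 - rho x y) * pd j (pd i u) y -
      4 * (y j - x j) * pd i u y) ^ 2 := Finset.sum_nonneg fun i _ =>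
        Finset.sum_nonneg fun j _ => by positivity
    positivity
  refine key.trans_eq ?_
  unfold rho
  simp only [Fin.sum_univ_three]
  ring

theorem main (u : E3 → ℝ) (x : E3) (r A ε : ℝ) (hr : 0 < r) (hε : 0 < ε)
    (h : ∀ y : E3, ∑ i, (y i - x i) ^ 2 ≤ r ^ 2 → ContDiffAt ℝ ∞ u y ∧
      ∑ i, pd i (pd i u) y = 0 ∧ |u y| ≤ A) :
    r ^ 4 * ∑ i, pd i u x ^ 2 ≤ 12 * r ^ 2 * A ^ 2 + ε * r ^ 2 := by
  set B : Set E3 := {y | rho x y ≤ r ^ 2} with hB
  have hxB : x ∈ B := by
    show rho x x ≤ r ^ 2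
    simp [rho]
    positivity
  have hBc : IsCompact B := by
    refine Metric.isCompact_of_isClosed_isBounded (isClosed_le (rho_cont x) continuous_const) ?_
    rw [Metric.isBounded_iff_subset_closedBall x]
    refine ⟨r, fun y hy => ?_⟩
    rw [Metric.mem_closedBall, dist_pi_le_iff hr.le]
    intro i
    rw [Real.dist_eq]
    refine abs_le_of_sq_le_sq ?_ hr.le
    exact (Finset.single_le_sum (f := fun i => (y i - x i) ^ 2) (fun j _ => sq_nonneg _)
      (Finset.mem_univ i)).trans hy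
  have hWc : ContinuousOn (WW u x r ε) B := by
    intro y hy
    have h1 := (h y hy).1
    have h2 : ∀ i, ContinuousAt (pd i u) y := fun i =>
      (pd_contDiffAt (m := 0) i h1 (by simp)).continuousAt
    have h3 := (rho_cont x).continuousAt (x := y)
    have h4 := h1.continuousAt
    refine ContinuousAt.continuousWithinAt ?_
    unfold WW
    fun_prop
  obtain ⟨y, hyB, hy⟩ := hBc.exists_isMaxOn ⟨x, hxB⟩ hWc
  have hyr : rho x y = r ^ 2 := by
    by_contra hne
    have hlt : rho x y < r ^ 2 := lt_of_le_of_ne hyB hne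
    have hev : ∀ᶠ z in 𝓝 y, rho x z < r ^ 2 :=
      (rho_cont x).continuousAt.eventually_lt continuousAt_const hlt
    have hmax : IsLocalMax (WW u x r ε) y := by
      filter_upwards [hev] with z hz
      exact hy hz.le
    obtain ⟨h1, h2⟩ := lapW (u := u) (x := x) (y := y) (r := r) hε
      (hev.mono fun z hz => ⟨(h z hz.le).1, (h z hz.le).2.1⟩) hlt.le
    have h3 : ∑ i, pd i (pd i (WW u x r ε)) y ≤ 0 :=
      Finset.sum_nonpos fun i _ => test2 h1 hmax i
    linarith
  have h1 := hy hxB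
  have h2 : WW u x r ε x ≤ WW u x r ε y := h1
  have hx0 : rho x x = 0 := by simp [rho]
  have h3 : WW u x r ε x = r ^ 4 * ∑ i, pd i u x ^ 2 + 12 * r ^ 2 * (u x * u x) := by
    unfold WW
    rw [hx0]
    have h4 : ∑ i, pd i u x * pd i u x = ∑ i, pd i u x ^ 2 :=
      Finset.sum_congr rfl fun i _ => by ring
    rw [h4]
    ring
  have h4 : WW u x r ε y = 12 * r ^ 2 * (u y * u y) + ε * r ^ 2 := by
    unfold WW
    rw [hyr]
    ring
  have h5 : u y * u y ≤ A ^ 2 := by
    have h6 := (h y hyB).2.2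
    have h7 : u y * u y = |u y| ^ 2 := by rw [sq_abs]; ring
    rw [h7]
    exact pow_le_pow_left₀ (abs_nonneg _) h6 2
  have h6 : 0 ≤ 12 * r ^ 2 * (u x * u x) := by
    have := mul_self_nonneg (u x)
    positivity
  have h7 : 12 * r ^ 2 * (u y * u y) ≤ 12 * r ^ 2 * A ^ 2 := by gcongr
  rw [h3, h4] at h2
  linarith

end GradX

theorem pr_Grad : S_Grad := by
  refine ⟨4, by norm_num, fun u x r A hr h i => ?_⟩
  have h1 : r ^ 4 * ∑ i, pd i u x ^ 2 ≤ 12 * r ^ 2 * A ^ 2 := by
    refine le_of_forall_pos_le_add fun δ hδ => ?_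
    have h2 := GradX.main u x r A (δ / r ^ 2) hr (by positivity) h
    have h3 : δ / r ^ 2 * r ^ 2 = δ := by field_simp
    linarith
  have h2 : pd i u x ^ 2 ≤ ∑ i, pd i u x ^ 2 :=
    Finset.single_le_sum (f := fun i => pd i u x ^ 2) (fun j _ => sq_nonneg _) (Finset.mem_univ i)
  have hA : 0 ≤ A := (abs_nonneg _).trans (h x (by simp; positivity)).2.2
  have h3 : r ^ 2 * (r * |pd i u x|) ^ 2 ≤ r ^ 2 * (4 * A) ^ 2 := by
    have h4 : r ^ 2 * (r * |pd i u x|) ^ 2 = r ^ 4 * pd i u x ^ 2 := by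
      rw [mul_pow, sq_abs]
      ring
    rw [h4]
    have h5 : r ^ 4 * pd i u x ^ 2 ≤ r ^ 4 * ∑ i, pd i u x ^ 2 := by gcongr
    have h6 : 0 ≤ r ^ 2 * A ^ 2 := by positivity
    linarith
  have h4 : (r * |pd i u x|) ^ 2 ≤ (4 * A) ^ 2 := le_of_mul_le_mul_left h3 (by positivity)
  have h5 : r * |pd i u x| ≤ 4 * A := by
    refine le_of_sq_le_sq ?_ (by positivity)
    exact h4
  rw [le_div_iff₀ hr]
  linarith

end Pool.Agent.Work.MP_440970_an.FC

end

section

/-! Item HpJen: the boundary inequality for systems in `H^p`. -/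

open MeasureTheory Set Filter Topology
open scoped ContDiff ENNReal

namespace Pool.Agent.Work.MP_440970_an.FC

open BH

namespace HpJenX

theorem sft_cp (τ : ℝ) (z : ℂ) : sft τ (cp 0 z) = cp τ z := by
  ext i
  fin_cases i <;> simp [sft, cp, e0]

theorem cp_cont (τ : ℝ) : Continuous fun z : ℂ => cp τ z := by
  unfold cp
  refine continuous_pi fun i => ?_
  fin_cases i
  · exact continuous_const
  · exact Complex.continuous_re
  · exact Complex.continuous_im

theorem jt_cont : Continuous jt := by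
  unfold jt
  refine continuous_pi fun i => ?_
  fin_cases i <;> first
    | exact continuous_const
    | exact continuous_apply _

theorem gb_cont {p : ℝ} {M : J8 → ℝ} {Y : Fin 3 → J8 → ℝ} (h : FCert p M Y) :
    Continuous (gb M Y) := by
  unfold gb
  exact (h.cM.comp jt_cont).sub ((h.cY 0).comp jt_cont)

theorem jt_add (v e : Fin 3 → ℝ) : jt (fun i => v i + e i) = jt v + jt e := by
  ext k
  fin_cases k <;> simp [jt]

theorem jt_norm (v : Fin 3 → ℝ) (p : ℝ) (hp : 0 < p) : ‖jt v‖ ^ p ≤ ∑ i, |v i| ^ p := by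
  have h0 : 0 ≤ ∑ i, |v i| ^ p := Finset.sum_nonneg fun i _ => Real.rpow_nonneg (abs_nonneg _) _
  have h1 : ∀ i, |v i| ≤ (∑ i, |v i| ^ p) ^ (1 / p) := by
    intro i
    calc |v i| = (|v i| ^ p) ^ (1 / p) := by
          rw [← Real.rpow_mul (abs_nonneg _), mul_one_div_cancel hp.ne', Real.rpow_one]
      _ ≤ _ := Real.rpow_le_rpow (Real.rpow_nonneg (abs_nonneg _) _)
          (Finset.single_le_sum (f := fun i => |v i| ^ p)
            (fun i _ => Real.rpow_nonneg (abs_nonneg _) _) (Finset.mem_univ i)) (by positivity)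
  have h2 : ‖jt v‖ ≤ (∑ i, |v i| ^ p) ^ (1 / p) := by
    rw [pi_norm_le_iff_of_nonneg (Real.rpow_nonneg h0 _)]
    intro k
    rw [Real.norm_eq_abs]
    have h3 : (0 : ℝ) ≤ (∑ i, |v i| ^ p) ^ (1 / p) := Real.rpow_nonneg h0 _
    fin_cases k
    · exact h1 0
    · exact h1 1
    · exact h1 2
    all_goals simpa [jt] using h3
  calc ‖jt v‖ ^ p ≤ ((∑ i, |v i| ^ p) ^ (1 / p)) ^ p :=
        Real.rpow_le_rpow (norm_nonneg _) h2 hp.le
    _ = _ := by rw [← Real.rpow_mul h0, one_div_mul_cancel hp.ne', Real.rpow_one]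

theorem le_Mx (u : E3 → ℝ) (t : ℝ) (z : ℂ) (ht : 0 < t) : ‖u (cp t z)‖ₑ ≤ Mx u z := by
  unfold Mx
  exact le_iSup_of_le t (le_iSup_of_le z (le_iSup_of_le ht (le_iSup_of_le
    (by rw [sub_self, norm_zero]; exact ht) le_rfl)))

theorem abs_le (p : ℝ) (hp : 0 < p) (u : E3 → ℝ) (t : ℝ) (z : ℂ) (ht : 0 < t)
    (hfin : Mx u z ^ p < ⊤) : |u (cp t z)| ^ p ≤ (Mx u z ^ p).toReal := by
  have h1 : ‖u (cp t z)‖ₑ ^ p ≤ Mx u z ^ p := ENNReal.rpow_le_rpow (le_Mx u t z ht) hp.le
  have h2 := ENNReal.toReal_mono hfin.ne h1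
  rwa [← ENNReal.toReal_rpow, toReal_enorm, Real.norm_eq_abs] at h2

end HpJenX

open HpJenX in
theorem pr_HpJen (h1 : S_HpNic) (h2 : S_Nice) (h3 : S_Lip) (h4 : S_MxMeas) : S_HpJen := by
  intro p M Y hp hp1 hC u hu hS f hf hlim e he
  obtain ⟨CM, hCM, hM⟩ := h3 p M e hp hp1 he hC.cM
    (fun z hz => (hC.sM z hz).of_le (by norm_num)) hC.bM
  obtain ⟨CY, hCY, hY⟩ := h3 p (Y 0) e hp hp1 he (hC.cY 0) (fun z hz => hC.sY 0 z hz)
    (by obtain ⟨C, h⟩ := hC.bY; exact ⟨C, fun z => h 0 z⟩)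
  set τ : ℕ → ℝ := fun n => 1 / ((n : ℝ) + 1) with hτ
  have hτ0 : ∀ n, 0 < τ n := fun n => by simp only [hτ]; positivity
  have hτl : Tendsto τ atTop (𝓝[>] 0) :=
    tendsto_nhdsWithin_iff.mpr ⟨tendsto_one_div_add_atTop_nhds_zero_nat,
      Eventually.of_forall hτ0⟩
  set F : ℕ → ℂ → ℝ := fun n z => gb M Y (fun i => u i (cp (τ n) z) + e i) - gb M Y e with hF
  have hfin : ∀ i, ∀ᵐ z : ℂ, Mx (u i) z ^ p < ⊤ := fun i =>
    ae_lt_top ((h4 (u i)).pow_const p) (hS i).ne
  have key : ∀ (v : Fin 3 → ℝ), |gb M Y (fun i => v i + e i) - gb M Y e| ≤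
      (CM + CY) * ∑ i, |v i| ^ p := by
    intro v
    have hv := jt_norm v p hp
    have hm := (hM (jt v)).2
    have hy := (hY (jt v)).2
    have h5 : gb M Y (fun i => v i + e i) - gb M Y e =
        (M (jt v + jt e) - M (jt e)) - (Y 0 (jt v + jt e) - Y 0 (jt e)) := by
      simp only [gb, jt_add]; ring
    rw [h5]
    calc |(M (jt v + jt e) - M (jt e)) - (Y 0 (jt v + jt e) - Y 0 (jt e))|
        ≤ |M (jt v + jt e) - M (jt e)| + |Y 0 (jt v + jt e) - Y 0 (jt e)| := abs_sub _ _
      _ ≤ CM * ‖jt v‖ ^ p + CY * ‖jt v‖ ^ p := add_le_add hm hy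
      _ = (CM + CY) * ‖jt v‖ ^ p := by ring
      _ ≤ _ := mul_le_mul_of_nonneg_left hv (by linarith)
  have hpos : ∀ n, 0 ≤ ∫ z, F n z := by
    intro n
    obtain ⟨b, hb⟩ := h1 p u hp hp1 hu hS (τ n) (hτ0 n)
    have := h2 p M Y hp hp1 hC _ _ b hb e he
    simp only [sft_cp] at this
    exact this
  have hT : Tendsto (fun n => ∫ z, F n z) atTop
      (𝓝 (∫ z : ℂ, (gb M Y (fun i => f i z + e i) - gb M Y e))) := by
    refine tendsto_integral_of_dominated_convergence
      (fun z => (CM + CY) * ∑ i, (Mx (u i) z ^ p).toReal) ?_ ?_ ?_ ?_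
    · intro n
      apply Continuous.aestronglyMeasurable
      refine ((gb_cont hC).comp ?_).sub continuous_const
      refine continuous_pi fun i => ?_
      refine Continuous.add ?_ continuous_const
      exact (hu.smooth i).continuousOn.comp_continuous (cp_cont (τ n)) fun z => by
        show 0 < cp (τ n) z 0
        simpa [cp] using hτ0 n
    · refine Integrable.const_mul ?_ _
      refine integrable_finsetSum _ fun i _ => ?_
      exact integrable_toReal_of_lintegral_ne_top ((h4 (u i)).pow_const p).aemeasurable (hS i).ne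
    · intro n
      filter_upwards [ae_all_iff.mpr hfin] with z hz
      rw [Real.norm_eq_abs]
      refine (key fun i => u i (cp (τ n) z)).trans ?_
      exact mul_le_mul_of_nonneg_left (Finset.sum_le_sum fun i _ =>
        abs_le p hp (u i) (τ n) z (hτ0 n) (hz i)) (by linarith)
    · filter_upwards [hlim] with z hz
      refine Tendsto.sub_const ?_ _
      refine ((gb_cont hC).tendsto _).comp ?_
      rw [tendsto_pi_nhds]
      intro i
      exact ((hz i).comp hτl).add_const _
  exact ge_of_tendsto' hT hpos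

end Pool.Agent.Work.MP_440970_an.FC

end

section

/-!
# [HpJet]
-/

open MeasureTheory Set Filter Topology
open scoped ContDiff ENNReal

namespace Pool.Agent.Work.MP_440970_an.FC

open BH

namespace HpJetX

theorem two_le : (2 : WithTop ℕ∞) ≤ ((⊤ : ℕ∞) : WithTop ℕ∞) := by
  have h : ((2 : ℕ∞) : WithTop ℕ∞) ≤ ((⊤ : ℕ∞) : WithTop ℕ∞) := WithTop.coe_le_coe.2 le_top
  exact h

/-- the components of a Stein-Weiss system are harmonic -/
theorem harm {F : Fin 3 → E3 → ℝ} {U : Set E3} (h : SW F U) {y : E3} (hy : y ∈ U) (i : Fin 3) :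
    ∑ j, pd j (pd j (F i)) y = 0 := by
  have hev : ∀ᶠ z in 𝓝 y, z ∈ U := h.op.mem_nhds hy
  have hs : ∀ j, ContDiffAt ℝ ∞ (F j) y := fun j =>
    (h.smooth j y hy).contDiffAt (h.op.mem_nhds hy)
  have hs1 : ∀ j k, ContDiffAt ℝ ∞ (pd k (F j)) y := fun j k => pd_contDiffAt k (hs j) (by simp)
  have h3 : ∀ j, pd j (pd j (F i)) y = pd i (pd j (F j)) y := by
    intro j
    have h4 : pd j (pd j (F i)) y = pd j (pd i (F j)) y :=
      pd_congr (hev.mono fun z hz => h.curl z hz j i)
    rw [h4]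
    exact pd_comm j i ((hs j).of_le two_le)
  simp only [h3]
  rw [← pd_sum]
  · have h5 : (fun z => ∑ j, pd j (F j) z) =ᶠ[𝓝 y] fun _ => 0 := hev.mono fun z hz => h.div z hz
    rw [pd_congr h5, pd_const]
  · intro k _
    exact (hs1 k k).differentiableAt (by simp)

theorem geo {h : ℝ} (hh : 0 < h) (z : ℂ) {y : E3}
    (hy : ∑ i, (y i - cp h z i) ^ 2 ≤ (h / 4) ^ 2) :
    3 / 4 * h ≤ y 0 ∧ ‖(⟨y 1, y 2⟩ : ℂ) - z‖ < y 0 ∧ cp (y 0) ⟨y 1, y 2⟩ = y := by
  rw [Fin.sum_univ_three] at hy
  have e0 : cp h z 0 = h := rfl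
  have e1 : cp h z 1 = z.re := rfl
  have e2 : cp h z 2 = z.im := rfl
  rw [e0, e1, e2] at hy
  have h0 : 3 / 4 * h ≤ y 0 := by
    have h1 : |y 0 - h| ≤ h / 4 :=
      abs_le_of_sq_le_sq (by nlinarith [sq_nonneg (y 1 - z.re), sq_nonneg (y 2 - z.im)])
        (by positivity)
    have h2 := (abs_le.1 h1).1
    linarith
  refine ⟨h0, ?_, ?_⟩
  · have h1 : ‖(⟨y 1, y 2⟩ : ℂ) - z‖ ≤ h / 4 := by
      refine le_of_sq_le_sq ?_ (by positivity)
      rw [Complex.sq_norm, Complex.normSq_apply]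
      simp only [Complex.sub_re, Complex.sub_im]
      nlinarith [sq_nonneg (y 0 - h)]
    linarith
  · funext i
    fin_cases i <;> rfl

theorem jb {u : Fin 3 → E3 → ℝ} (hu : SW u half) {C1 : ℝ} (hC1 : 0 < C1)
    (h1 : ∀ (u : E3 → ℝ) (x : E3) (r A : ℝ), 0 < r →
      (∀ y : E3, ∑ i, (y i - x i) ^ 2 ≤ r ^ 2 → ContDiffAt ℝ ∞ u y ∧
        ∑ i, pd i (pd i u) y = 0 ∧ |u y| ≤ A) → ∀ i, |pd i u x| ≤ C1 * A / r)
    {τ t A : ℝ} (hτ : 0 < τ) (ht : 0 ≤ t) (z : ℂ)
    (hA : ∀ i, ∀ y : E3, ∑ i, (y i - cp (t + τ) z i) ^ 2 ≤ ((t + τ) / 4) ^ 2 → |u i y| ≤ A) :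
    ‖jet (fun i x => u i (sft τ x)) (cp t z)‖ ≤ (1 + 4 * C1) * A := by
  have hh : 0 < t + τ := by linarith
  have hy0 : sft τ (cp t z) = cp (t + τ) z := by
    funext i
    fin_cases i <;> simp [sft, cp, BH.e0]
  have hA0 : ∀ i, |u i (cp (t + τ) z)| ≤ A := fun i => hA i _ (by simp; positivity)
  have hAn : 0 ≤ A := (abs_nonneg _).trans (hA0 0)
  have hg : ∀ i j, |pd j (u i) (cp (t + τ) z)| ≤ C1 * A / ((t + τ) / 4) := by
    intro i j
    refine h1 (u i) (cp (t + τ) z) ((t + τ) / 4) A (by positivity) (fun y hy => ?_) j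
    have h2 := (geo hh z hy).1
    have hyh : y ∈ half := by
      show 0 < y 0
      have : 0 < 3 / 4 * (t + τ) := by positivity
      linarith
    exact ⟨(hu.smooth i y hyh).contDiffAt (hu.op.mem_nhds hyh), harm hu hyh i, hA i y hy⟩
  have e1 : ∀ i, |u i (sft τ (cp t z))| ≤ (1 + 4 * C1) * A := by
    intro i
    rw [hy0]
    have h2 : 0 ≤ 4 * C1 * A := by positivity
    linarith [hA0 i]
  have e2 : ∀ i j, |(cp t z) 0 * pd j (fun x => u i (sft τ x)) (cp t z)| ≤ (1 + 4 * C1) * A := by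
    intro i j
    have e3 : cp t z 0 = t := rfl
    rw [pd_sft, hy0, e3, abs_mul, abs_of_nonneg ht]
    have h2 : t * |pd j (u i) (cp (t + τ) z)| ≤ t * (C1 * A / ((t + τ) / 4)) := by
      gcongr
      exact hg i j
    have h3 : t * (C1 * A / ((t + τ) / 4)) = 4 * C1 * A * (t / (t + τ)) := by
      field_simp
    have h4 : t / (t + τ) ≤ 1 := by
      rw [div_le_one hh]
      linarith
    have h5 : 4 * C1 * A * (t / (t + τ)) ≤ 4 * C1 * A * 1 := by gcongr
    linarith
  rw [pi_norm_le_iff_of_nonneg (by positivity)]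
  intro k
  rw [Real.norm_eq_abs]
  fin_cases k
  exacts [e1 0, e1 1, e1 2, e2 1 0, e2 2 0, e2 1 1, e2 2 1, e2 2 2]

end HpJetX

theorem pr_HpJet (h1 : S_Grad) (h2 : S_MaxP) : S_HpJet := by
  intro p u hp hu hfin
  obtain ⟨C1, hC1, hG⟩ := h1
  choose C2 hC2 hM using fun i => h2 p (u i) hp (hfin i)
  set q : ℝ := (3 / 4 : ℝ) ^ (-(2 / p)) with hq
  have hq0 : 0 < q := by positivity
  set D : ℝ := ∑ i, C2 i with hD
  have hD0 : 0 ≤ D := Finset.sum_nonneg fun i _ => hC2 i
  have hCD : ∀ i, C2 i ≤ D := fun i =>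
    Finset.single_le_sum (f := C2) (fun j _ => hC2 j) (Finset.mem_univ i)
  refine ⟨(1 + 4 * C1) * (1 + D * q), by positivity, fun τ t z hτ ht => ?_⟩
  have hh : 0 < t + τ := by linarith
  constructor
  · by_cases htop : ∑ i, Mx (u i) z = ⊤
    · rw [htop, ENNReal.mul_top]
      · exact le_top
      · rw [ne_eq, ENNReal.ofReal_eq_zero, not_le]
        positivity
    · have h3 := HpJetX.jb hu hC1 hG (A := (∑ i, Mx (u i) z).toReal) hτ ht z (by
        intro i y hy
        obtain ⟨g1, g2, g3⟩ := HpJetX.geo hh z hy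
        have hy0 : 0 < y 0 := by
          have : 0 < 3 / 4 * (t + τ) := by positivity
          linarith
        have h4 : ‖u i y‖ₑ ≤ Mx (u i) z := by
          have h5 : ‖u i (cp (y 0) ⟨y 1, y 2⟩)‖ₑ ≤ Mx (u i) z := by
            unfold Mx
            exact le_iSup₂_of_le (y 0) ⟨y 1, y 2⟩ (le_iSup₂_of_le hy0 g2 le_rfl)
          rwa [g3] at h5
        have h5 : Mx (u i) z ≤ ∑ i, Mx (u i) z :=
          Finset.single_le_sum (f := fun i => Mx (u i) z) (fun j _ => zero_le)
            (Finset.mem_univ i)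
        have h6 := ENNReal.toReal_mono htop (h4.trans h5)
        rwa [toReal_enorm, Real.norm_eq_abs] at h6)
      rw [← ofReal_norm]
      calc ENNReal.ofReal ‖jet (fun i x => u i (sft τ x)) (cp t z)‖
          ≤ ENNReal.ofReal ((1 + 4 * C1) * (1 + D * q) * (∑ i, Mx (u i) z).toReal) := by
            refine ENNReal.ofReal_le_ofReal (h3.trans ?_)
            have h4 : 0 ≤ (∑ i, Mx (u i) z).toReal := ENNReal.toReal_nonneg
            have h5 : 0 ≤ D * q := by positivity
            have h6 : 0 ≤ (1 + 4 * C1) * (D * q) * (∑ i, Mx (u i) z).toReal := by positivity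
            linarith
        _ = ENNReal.ofReal ((1 + 4 * C1) * (1 + D * q)) * ∑ i, Mx (u i) z := by
            rw [ENNReal.ofReal_mul (by positivity), ENNReal.ofReal_toReal htop]
  · have h3 := HpJetX.jb hu hC1 hG (A := D * q * (t + τ) ^ (-(2 / p))) hτ ht z (by
      intro i y hy
      obtain ⟨g1, g2, g3⟩ := HpJetX.geo hh z hy
      have hy1 : 0 < 3 / 4 * (t + τ) := by positivity
      have hy0 : 0 < y 0 := by linarith
      have h4 := hM i (y 0) ⟨y 1, y 2⟩ hy0
      rw [g3] at h4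
      have h5 : (y 0) ^ (-(2 / p)) ≤ (3 / 4 * (t + τ)) ^ (-(2 / p)) := by
        refine Real.rpow_le_rpow_of_nonpos hy1 g1 ?_
        have : 0 < 2 / p := by positivity
        linarith
      have h6 : (3 / 4 * (t + τ)) ^ (-(2 / p)) = q * (t + τ) ^ (-(2 / p)) :=
        Real.mul_rpow (by norm_num) hh.le
      calc |u i y| ≤ C2 i * (y 0) ^ (-(2 / p)) := h4
        _ ≤ D * (q * (t + τ) ^ (-(2 / p))) := by
            rw [← h6]
            exact mul_le_mul (hCD i) h5 (by positivity) hD0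
        _ = D * q * (t + τ) ^ (-(2 / p)) := by ring)
    refine h3.trans ?_
    have h4 : 0 ≤ (1 + 4 * C1) * (t + τ) ^ (-(2 / p)) := by positivity
    linarith

end Pool.Agent.Work.MP_440970_an.FC

end
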