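import Pool.Agent.Work.MP_440970_an.FC.Stmts

/-! Bundle of small proof modules (one section per former module). -/

section

/-!
# Flux certificates for gradient fields: item Lip
-/

open MeasureTheory Set Filter Topology
open scoped ContDiff ENNReal

namespace Pool.Agent.Work.MP_440970_an.FC

open BH

namespace LipX

theorem jt_ne {e : Fin 3 → ℝ} (he : e ≠ 0) : jt e ≠ 0 := by
  intro h
  apply he
  funext i
  fin_cases i
  · exact congrFun h 0
  · exact congrFun h 1
  · exact congrFun h 2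

theorem far (p : ℝ) (G : J8 → ℝ) (a : J8) (hp : 0 < p) (hp1 : p < 1) (K₀ r : ℝ) (hK : 0 ≤ K₀)
    (hr : 0 < r) (hG : ∀ z, |G z| ≤ K₀ * ‖z‖ ^ p) (v : J8) (hv : r ≤ ‖v‖) :
    |G (v + a) - G a| ≤ 2 * K₀ * (1 + ‖a‖ / r) ^ p * ‖v‖ ^ p ∧
    |G (v + a) - G a| ≤ 2 * K₀ * (1 + ‖a‖ / r) ^ p * r ^ (p - 1) * ‖v‖ := by
  have ha : ‖a‖ ≤ ‖a‖ / r * ‖v‖ := by
    rw [div_mul_eq_mul_div, le_div_iff₀ hr]
    exact mul_le_mul_of_nonneg_left hv (norm_nonneg a)
  have hvpos : 0 < ‖v‖ := lt_of_lt_of_le hr hv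
  have h1 : ‖v + a‖ ^ p ≤ (1 + ‖a‖ / r) ^ p * ‖v‖ ^ p := by
    rw [← Real.mul_rpow (by positivity) (by positivity)]
    refine Real.rpow_le_rpow (norm_nonneg _) ?_ hp.le
    refine (norm_add_le v a).trans ?_
    linarith
  have h2 : ‖a‖ ^ p ≤ (1 + ‖a‖ / r) ^ p * ‖v‖ ^ p := by
    rw [← Real.mul_rpow (by positivity) (by positivity)]
    refine Real.rpow_le_rpow (norm_nonneg _) ?_ hp.le
    linarith
  have h3 : |G (v + a) - G a| ≤ 2 * K₀ * (1 + ‖a‖ / r) ^ p * ‖v‖ ^ p := by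
    calc |G (v + a) - G a| ≤ |G (v + a)| + |G a| := abs_sub _ _
      _ ≤ K₀ * ‖v + a‖ ^ p + K₀ * ‖a‖ ^ p := add_le_add (hG _) (hG _)
      _ ≤ K₀ * ((1 + ‖a‖ / r) ^ p * ‖v‖ ^ p) + K₀ * ((1 + ‖a‖ / r) ^ p * ‖v‖ ^ p) :=
        add_le_add (mul_le_mul_of_nonneg_left h1 hK) (mul_le_mul_of_nonneg_left h2 hK)
      _ = _ := by ring
  refine ⟨h3, h3.trans ?_⟩
  have h4 : ‖v‖ ^ p = ‖v‖ ^ (p - 1) * ‖v‖ := by
    rw [← Real.rpow_add_one hvpos.ne']
    congr 1
    ring
  have h5 : ‖v‖ ^ (p - 1) ≤ r ^ (p - 1) := Real.rpow_le_rpow_of_nonpos hr hv (by linarith)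
  rw [h4, mul_assoc (2 * K₀ * (1 + ‖a‖ / r) ^ p)]
  refine mul_le_mul_of_nonneg_left ?_ (by positivity)
  exact mul_le_mul_of_nonneg_right h5 (norm_nonneg v)

end LipX

theorem pr_Lip : S_Lip := by
  intro p G e hp hp1 he hGc hG1 hGb
  obtain ⟨C₀, hC₀⟩ := hGb
  obtain ⟨K, t, ht, hK⟩ := (hG1 (jt e) (LipX.jt_ne he)).exists_lipschitzOnWith
  obtain ⟨r', hr', hball⟩ := Metric.mem_nhds_iff.mp ht
  set a := jt e with ha
  set r : ℝ := min (r' / 2) 1 with hr
  have hrpos : 0 < r := lt_min (by positivity) one_pos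
  have hr1 : r ≤ 1 := min_le_right _ _
  have hr2 : r < r' := lt_of_le_of_lt (min_le_left _ _) (by linarith)
  set K₀ : ℝ := max C₀ 0 with hK₀
  have hK₀0 : 0 ≤ K₀ := le_max_right _ _
  have hG0 : ∀ z, |G z| ≤ K₀ * ‖z‖ ^ p := fun z =>
    (hC₀ z).trans (mul_le_mul_of_nonneg_right (le_max_left _ _) (by positivity))
  set K₁ : ℝ := 2 * K₀ * (1 + ‖a‖ / r) ^ p with hK₁
  have hK₁0 : 0 ≤ K₁ := by positivity
  have hK₂0 : 0 ≤ K₁ * r ^ (p - 1) := by positivity
  refine ⟨K + K₁ + K₁ * r ^ (p - 1), by positivity, fun v => ?_⟩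
  have hvp : 0 ≤ ‖v‖ ^ p := by positivity
  have hv0 : 0 ≤ ‖v‖ := norm_nonneg v
  have hKn : (0 : ℝ) ≤ K := K.2
  rcases le_total ‖v‖ r with hv | hv
  · have h1 : |G (v + a) - G a| ≤ K * ‖v‖ := by
      have h := hK.dist_le_mul (v + a) (hball (by
        rw [Metric.mem_ball, dist_eq_norm, add_sub_cancel_right]
        linarith)) a (hball (Metric.mem_ball_self hr'))
      rw [Real.dist_eq, dist_eq_norm, add_sub_cancel_right] at h
      exact h
    have h2 : ‖v‖ ≤ ‖v‖ ^ p := by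
      have h := Real.rpow_le_rpow_of_exponent_ge' (norm_nonneg v) (hv.trans hr1) hp.le hp1.le
      rwa [Real.rpow_one] at h
    constructor
    · nlinarith [mul_nonneg hK₁0 hv0, mul_nonneg hK₂0 hv0]
    · nlinarith [mul_nonneg hK₁0 hvp, mul_nonneg hK₂0 hvp, mul_le_mul_of_nonneg_left h2 hKn]
  · obtain ⟨h1, h2⟩ := LipX.far p G a hp hp1 K₀ r hK₀0 hrpos hG0 v hv
    constructor
    · nlinarith [mul_nonneg hK₁0 hv0, mul_nonneg hKn hv0]
    · nlinarith [mul_nonneg hKn hvp, mul_nonneg hK₂0 hvp]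

end Pool.Agent.Work.MP_440970_an.FC

end

section

/-! Item MaxP: pointwise decay from the maximal function. -/

open MeasureTheory Set Filter Topology
open scoped ContDiff ENNReal

namespace Pool.Agent.Work.MP_440970_an.FC

open BH

namespace MaxPX

theorem le_Mx (u : E3 → ℝ) (t : ℝ) (z z' : ℂ) (ht : 0 < t) (h : z' ∈ Metric.ball z t) :
    ‖u (cp t z)‖ₑ ≤ Mx u z' := by
  have h1 : ‖z - z'‖ < t := by
    rw [← dist_eq_norm, dist_comm]
    exact h
  unfold Mx
  exact le_iSup_of_le t (le_iSup_of_le z (le_iSup_of_le ht (le_iSup_of_le h1 le_rfl)))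

theorem ball_le (p : ℝ) (u : E3 → ℝ) (hp : 0 < p) (t : ℝ) (z : ℂ) (ht : 0 < t) :
    ‖u (cp t z)‖ₑ ^ p * (ENNReal.ofReal t ^ 2 * NNReal.pi) ≤ ∫⁻ z, Mx u z ^ p := by
  calc ‖u (cp t z)‖ₑ ^ p * (ENNReal.ofReal t ^ 2 * NNReal.pi)
      = ∫⁻ _ in Metric.ball z t, ‖u (cp t z)‖ₑ ^ p := by
        rw [setLIntegral_const, Complex.volume_ball]
    _ ≤ ∫⁻ z' in Metric.ball z t, Mx u z' ^ p :=
        setLIntegral_mono' Metric.isOpen_ball.measurableSet fun z' hz' =>
          ENNReal.rpow_le_rpow (le_Mx u t z z' ht hz') hp.le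
    _ ≤ _ := setLIntegral_le_lintegral _ _

end MaxPX

theorem pr_MaxP : S_MaxP := by
  intro p u hp hS
  refine ⟨((∫⁻ z, Mx u z ^ p).toReal / Real.pi) ^ (1 / p), by positivity, ?_⟩
  intro t z ht
  have h1 := ENNReal.toReal_mono hS.ne (MaxPX.ball_le p u hp t z ht)
  rw [ENNReal.toReal_mul, ENNReal.toReal_mul, ENNReal.toReal_pow, ENNReal.toReal_ofReal ht.le,
    ← ENNReal.toReal_rpow, toReal_enorm, Real.norm_eq_abs, ENNReal.coe_toReal,
    NNReal.coe_real_pi] at h1
  set S := (∫⁻ z, Mx u z ^ p).toReal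
  have hS0 : 0 ≤ S := ENNReal.toReal_nonneg
  have h2 : |u (cp t z)| ^ p ≤ S / Real.pi * (t ^ 2)⁻¹ := by
    have hpi := Real.pi_pos
    rw [div_mul_eq_mul_div, le_div_iff₀ hpi, ← div_eq_mul_inv, le_div_iff₀ (by positivity)]
    linarith
  calc |u (cp t z)| = (|u (cp t z)| ^ p) ^ (1 / p) := by
        rw [← Real.rpow_mul (abs_nonneg _), mul_one_div_cancel hp.ne', Real.rpow_one]
    _ ≤ (S / Real.pi * (t ^ 2)⁻¹) ^ (1 / p) :=
        Real.rpow_le_rpow (by positivity) h2 (by positivity)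
    _ = (S / Real.pi) ^ (1 / p) * ((t ^ 2)⁻¹) ^ (1 / p) :=
        Real.mul_rpow (by positivity) (by positivity)
    _ = _ := by
        congr 1
        rw [← Real.rpow_natCast t 2, ← Real.rpow_neg ht.le, ← Real.rpow_mul ht.le]
        congr 1
        push_cast
        ring

end Pool.Agent.Work.MP_440970_an.FC

end

section

open MeasureTheory Set Filter Topology
open scoped ContDiff ENNReal

namespace Pool.Agent.Work.MP_440970_an.FC

open BH

theorem pr_MxMeas : S_MxMeas := by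
  intro u
  have hl : LowerSemicontinuous (Mx u) := by
    intro z a ha
    unfold Mx at ha
    simp only [lt_iSup_iff] at ha
    obtain ⟨t, w, ht, hw, h⟩ := ha
    have ho : ∀ᶠ z' : ℂ in 𝓝 z, ‖w - z'‖ < t := by
      have hc : Continuous fun z' : ℂ => ‖w - z'‖ := by fun_prop
      exact hc.continuousAt.eventually_lt continuousAt_const hw
    filter_upwards [ho] with z' hz'
    unfold Mx
    simp only [lt_iSup_iff]
    exact ⟨t, w, ht, hz', h⟩
  exact hl.measurable

end Pool.Agent.Work.MP_440970_an.FC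

end

section

/-!
# Item Nice
-/

open MeasureTheory Set Filter Topology
open scoped ContDiff ENNReal

namespace Pool.Agent.Work.MP_440970_an.FC

open BH

namespace NiceX

lemma jet_add (F : Fin 3 → E3 → ℝ) (e : Fin 3 → ℝ) (z : ℂ) :
    jet F (cp 0 z) + jt e = jt (fun i => F i (cp 0 z) + e i) := by
  have h0 : cp 0 z 0 = 0 := rfl
  funext k
  fin_cases k <;> simp [jet, jt, h0]

end NiceX

open NiceX in
theorem pr_Nice (h1 : S_Lip) (h2 : S_Cont) (h3 : S_Slab) (h4 : S_OneD) : S_Nice := by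
  intro p M Y hp0 hp1 hc F U b hF e he
  obtain ⟨C1, hC1, hL1⟩ := h1 p M e hp0 hp1 he hc.cM
    (fun z hz => (hc.sM z hz).of_le (by norm_num)) hc.bM
  obtain ⟨C2, hC2, hL2⟩ := h1 p (Y 0) e hp0 hp1 he (hc.cY 0) (fun z hz => hc.sY 0 z hz)
    (by obtain ⟨C, h⟩ := hc.bY; exact ⟨C, fun z => h 0 z⟩)
  obtain ⟨hI1, hc1, ht1⟩ := h2 p M e C1 hc.cM hC1 hL1 F U b hF
  obtain ⟨hI2, hc2, ht2⟩ := h2 p (Y 0) e C2 (hc.cY 0) hC2 hL2 F U b hF
  have key := h4 (mm M F e) (mm (Y 0) F e) hc1 hc2 ht1 ht2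
    fun θ hθ => h3 p M Y hp0 hp1 hc F U b hF e θ he hθ
  have h5 : mm M F e 0 - mm (Y 0) F e 0 =
      ∫ z : ℂ, (gb M Y (fun i => F i (cp 0 z) + e i) - gb M Y e) := by
    unfold mm
    rw [← integral_sub (hI1 0 le_rfl) (hI2 0 le_rfl)]
    refine integral_congr_ae (Eventually.of_forall fun z => ?_)
    simp only [jet_add, gb]
    ring
  rw [← h5]
  exact key

end Pool.Agent.Work.MP_440970_an.FC

end

section

/-!
# The operator is not onto
-/

open MeasureTheory Set Filter Topology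
open scoped ContDiff ENNReal

namespace Pool.Agent.Work.MP_440970_an.FC

open BH

namespace NotOntoX

lemma jt_zero : jt 0 = 0 := by
  funext k
  fin_cases k <;> simp [jt]

lemma gb_zero {p : ℝ} {M : J8 → ℝ} {Y : Fin 3 → J8 → ℝ} (hp : 0 < p) (h : FCert p M Y) :
    gb M Y 0 = 0 := by
  obtain ⟨C, hC⟩ := h.bM
  obtain ⟨D, hD⟩ := h.bY
  have h1 := hC 0
  have h2 := hD 0 0
  rw [norm_zero, Real.zero_rpow hp.ne', mul_zero] at h1 h2
  have h3 : M 0 = 0 := abs_nonpos_iff.1 h1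
  have h4 : Y 0 0 = 0 := abs_nonpos_iff.1 h2
  rw [gb, jt_zero, h3, h4, sub_zero]

end NotOntoX

open NotOntoX in
theorem pr_NotOnto (h1 : S_HpJen) : S_NotOnto := by
  intro p M Y e hp hp1 hF hg hT
  have he : e ≠ 0 := by
    rintro rfl
    rw [gb_zero hp hF] at hg
    exact lt_irrefl _ hg
  have hmeas : ∀ i : Fin 3, Measurable ((Metric.ball (0 : ℂ) 1).indicator fun _ => -e i) :=
    fun i => measurable_const.indicator Metric.isOpen_ball.measurableSet
  obtain ⟨u, hu, hsw, hlim⟩ := hT (fun i => (Metric.ball (0 : ℂ) 1).indicator fun _ => -e i) hmeas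
    (by
      intro i
      have h2 : ∀ z : ℂ, ‖(Metric.ball (0 : ℂ) 1).indicator (fun _ => -e i) z‖ₑ ^ p =
          (Metric.ball (0 : ℂ) 1).indicator (fun _ => ‖-e i‖ₑ ^ p) z := by
        intro z
        by_cases hz : z ∈ Metric.ball (0 : ℂ) 1
        · rw [indicator_of_mem hz, indicator_of_mem hz]
        · rw [indicator_of_notMem hz, indicator_of_notMem hz, enorm_zero,
            ENNReal.zero_rpow_of_pos hp]
      simp only [h2]
      rw [lintegral_indicator_const Metric.isOpen_ball.measurableSet]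
      exact ENNReal.mul_lt_top (ENNReal.rpow_lt_top_of_nonneg hp.le enorm_ne_top)
        measure_ball_lt_top)
  have h3 := h1 p M Y hp hp1 hF u hsw (fun i => (hu i).max)
    (fun i => (Metric.ball (0 : ℂ) 1).indicator fun _ => -e i) hmeas hlim e he
  have h4 : ∀ z : ℂ, gb M Y (fun i => (Metric.ball (0 : ℂ) 1).indicator (fun _ => -e i) z + e i) -
      gb M Y e = (Metric.ball (0 : ℂ) 1).indicator (fun _ => -gb M Y e) z := by
    intro z
    by_cases hz : z ∈ Metric.ball (0 : ℂ) 1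
    · simp only [indicator_of_mem hz]
      have h5 : (fun i => -e i + e i) = (0 : Fin 3 → ℝ) := by
        funext i
        simp
      rw [h5, gb_zero hp hF, zero_sub]
    · simp only [indicator_of_notMem hz, zero_add]
      exact sub_self _
  simp only [h4] at h3
  rw [integral_indicator_const _ Metric.isOpen_ball.measurableSet] at h3
  have h6 : 0 < (volume : Measure ℂ).real (Metric.ball (0 : ℂ) 1) := by
    rw [Measure.real]
    exact ENNReal.toReal_pos (Metric.measure_ball_pos _ _ one_pos).ne' measure_ball_lt_top.ne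
  rw [smul_eq_mul] at h3
  nlinarith [mul_pos h6 hg]

end Pool.Agent.Work.MP_440970_an.FC

end

section

open MeasureTheory Set Filter Topology
open scoped ContDiff ENNReal

namespace Pool.Agent.Work.MP_440970_an.FC

open BH

namespace OneDX

/-- smooth step -/
noncomputable def rho (s : ℝ) : ℝ := Real.smoothTransition (s - 1)

noncomputable def uu (s : ℝ) : ℝ := s * rho s

noncomputable def vv : ℝ → ℝ := deriv rho

noncomputable def du : ℝ → ℝ := deriv uu

noncomputable def ww : ℝ → ℝ := deriv du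

theorem rho_smooth : ContDiff ℝ ∞ rho := by
  have h1 : ContDiff ℝ ∞ (fun s : ℝ => s - 1) := contDiff_id.sub contDiff_const
  exact Real.smoothTransition.contDiff.comp h1

theorem rho_zero {s : ℝ} (h : s ≤ 1) : rho s = 0 :=
  Real.smoothTransition.zero_of_nonpos (by linarith)

theorem rho_one {s : ℝ} (h : 2 ≤ s) : rho s = 1 :=
  Real.smoothTransition.one_of_one_le (by linarith)

theorem rho_nonneg (s : ℝ) : 0 ≤ rho s := Real.smoothTransition.nonneg _

theorem rho_le (s : ℝ) : rho s ≤ 1 := Real.smoothTransition.le_one _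

theorem uu_smooth : ContDiff ℝ ∞ uu := contDiff_id.mul rho_smooth

theorem du_smooth : ContDiff ℝ ∞ du := by
  have := uu_smooth
  exact (contDiff_infty_iff_deriv.1 this).2

theorem vv_smooth : ContDiff ℝ ∞ vv := (contDiff_infty_iff_deriv.1 rho_smooth).2

theorem ww_smooth : ContDiff ℝ ∞ ww := (contDiff_infty_iff_deriv.1 du_smooth).2

theorem rho_hd (s : ℝ) : HasDerivAt rho (vv s) s :=
  ((contDiff_infty_iff_deriv.1 rho_smooth).1 s).hasDerivAt

theorem uu_hd (s : ℝ) : HasDerivAt uu (du s) s :=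
  ((contDiff_infty_iff_deriv.1 uu_smooth).1 s).hasDerivAt

theorem du_hd (s : ℝ) : HasDerivAt du (ww s) s :=
  ((contDiff_infty_iff_deriv.1 du_smooth).1 s).hasDerivAt

theorem vv_zero {s : ℝ} (h : s < 1 ∨ 2 < s) : vv s = 0 := by
  rcases h with h | h
  · have : rho =ᶠ[𝓝 s] fun _ => (0 : ℝ) := by
      filter_upwards [Iio_mem_nhds h] with t ht using rho_zero (le_of_lt ht)
    simp only [vv]
    rw [this.deriv_eq]; simp
  · have : rho =ᶠ[𝓝 s] fun _ => (1 : ℝ) := by
      filter_upwards [Ioi_mem_nhds h] with t ht using rho_one (le_of_lt ht)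
    simp only [vv]
    rw [this.deriv_eq]; simp

theorem du_low {s : ℝ} (h : s < 1) : du s = 0 := by
  have : uu =ᶠ[𝓝 s] fun _ => (0 : ℝ) := by
    filter_upwards [Iio_mem_nhds h] with t ht
    simp [uu, rho_zero (le_of_lt ht)]
  simp only [du]
  rw [this.deriv_eq]; simp

theorem du_high {s : ℝ} (h : 2 < s) : du s = 1 := by
  have : uu =ᶠ[𝓝 s] fun t => t := by
    filter_upwards [Ioi_mem_nhds h] with t ht
    simp [uu, rho_one (le_of_lt ht)]
  simp only [du]
  rw [this.deriv_eq]; simp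

theorem ww_zero {s : ℝ} (h : s < 1 ∨ 2 < s) : ww s = 0 := by
  rcases h with h | h
  · have : du =ᶠ[𝓝 s] fun _ => (0 : ℝ) := by
      filter_upwards [Iio_mem_nhds h] with t ht using du_low ht
    simp only [ww]
    rw [this.deriv_eq]; simp
  · have : du =ᶠ[𝓝 s] fun _ => (1 : ℝ) := by
      filter_upwards [Ioi_mem_nhds h] with t ht using du_high ht
    simp only [ww]
    rw [this.deriv_eq]; simp

theorem cont_int {f : ℝ → ℝ} {a b : ℝ} (ha : 0 < a) (hf : ContinuousOn f (Ici 0))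
    (h0 : ∀ x, x < a ∨ b < x → f x = 0) : IntegrableOn f (Ioi 0) := by
  have h1 : IntegrableOn f (Icc a b) :=
    (hf.mono (fun x hx => (le_of_lt (lt_of_lt_of_le ha hx.1) : (0 : ℝ) ≤ x))).integrableOn_Icc
  refine h1.of_forall_sdiff_eq_zero measurableSet_Ioi ?_
  intro x hx
  apply h0
  by_contra hc
  push Not at hc
  exact hx.2 ⟨hc.1, hc.2⟩

theorem ww_int : IntegrableOn ww (Ioi 0) :=
  cont_int (a := 1) (b := 2) one_pos ww_smooth.continuous.continuousOn
    (fun _ h => ww_zero h)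

theorem vv_int : IntegrableOn vv (Ioi 0) :=
  cont_int (a := 1) (b := 2) one_pos vv_smooth.continuous.continuousOn
    (fun _ h => vv_zero h)

theorem int_ww : ∫ s in Ioi (0 : ℝ), ww s = 1 := by
  have h := integral_Ioi_of_hasDerivAt_of_tendsto (f := du) (f' := ww) (a := 0) (m := 1)
    du_smooth.continuous.continuousWithinAt (fun x _ => du_hd x) ww_int ?_
  · rw [h, du_low (by norm_num), sub_zero]
  · apply tendsto_const_nhds.congr'
    filter_upwards [Ioi_mem_atTop (2 : ℝ)] with s hs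
    exact (du_high hs).symm

theorem int_vv : ∫ s in Ioi (0 : ℝ), vv s = 1 := by
  have h := integral_Ioi_of_hasDerivAt_of_tendsto (f := rho) (f' := vv) (a := 0) (m := 1)
    rho_smooth.continuous.continuousWithinAt (fun x _ => rho_hd x) vv_int ?_
  · rw [h, rho_zero (by norm_num), sub_zero]
  · apply tendsto_const_nhds.congr'
    filter_upwards [Ioi_mem_atTop (2 : ℝ)] with s hs
    exact (rho_one (le_of_lt hs)).symm

/-- the test function -/
noncomputable def th (d B t : ℝ) : ℝ := rho (t / d) - rho (t / B)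

theorem hd_div {f f' : ℝ → ℝ} (h : ∀ s, HasDerivAt f (f' s) s) (c t : ℝ) :
    HasDerivAt (fun s => f (s / c)) (1 / c * f' (t / c)) t := by
  have h1 : HasDerivAt (fun s : ℝ => s / c) (1 / c) t := (hasDerivAt_id t).div_const c
  have h2 := (h (t / c)).comp t h1
  rw [mul_comm]
  exact h2

theorem th_smooth (d B : ℝ) : ContDiff ℝ ∞ (th d B) := by
  have h1 : ∀ c : ℝ, ContDiff ℝ ∞ (fun s : ℝ => s / c) := fun c => contDiff_id.div_const c
  exact (rho_smooth.comp (h1 d)).sub (rho_smooth.comp (h1 B))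

theorem th_zero {d B : ℝ} (hd : 0 < d) (hB : 2 * d ≤ B) {t : ℝ} (h : t ∉ Icc d (2 * B)) :
    th d B t = 0 := by
  have hB0 : 0 < B := by linarith
  simp only [mem_Icc, not_and_or, not_le] at h
  rcases h with h | h
  · have h1 : t / d ≤ 1 := by rw [div_le_one hd]; exact h.le
    have h2 : t / B ≤ 1 := by rw [div_le_one hB0]; linarith
    simp [th, rho_zero h1, rho_zero h2]
  · have h1 : 2 ≤ t / d := by rw [le_div_iff₀ hd]; linarith
    have h2 : 2 ≤ t / B := by rw [le_div_iff₀ hB0]; linarith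
    simp [th, rho_one h1, rho_one h2]

theorem th_test {d B : ℝ} (hd : 0 < d) (hB : 2 * d ≤ B) : TestT (th d B) := by
  have hB0 : 0 < B := by linarith
  refine ⟨th_smooth d B, ?_, ?_, ?_⟩
  · exact HasCompactSupport.intro (isCompact_Icc (a := d) (b := 2 * B))
      (fun x hx => th_zero hd hB hx)
  · have h1 : tsupport (th d B) ⊆ Icc d (2 * B) := by
      apply closure_minimal _ isClosed_Icc
      intro x hx
      by_contra hc
      exact hx (th_zero hd hB hc)
    intro x hx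
    exact lt_of_lt_of_le hd (h1 hx).1
  · intro t
    rcases le_total t B with h | h
    · have h2 : t / B ≤ 1 := by rw [div_le_one hB0]; exact h
      simp [th, rho_zero h2, rho_nonneg]
    · have h1 : 2 ≤ t / d := by rw [le_div_iff₀ hd]; linarith
      simp [th, rho_one h1, rho_le]

theorem deriv_th (d B t : ℝ) : deriv (th d B) t = 1 / d * vv (t / d) - 1 / B * vv (t / B) :=
  ((hd_div rho_hd d t).sub (hd_div rho_hd B t)).deriv

theorem mul_th {d B : ℝ} (hd : 0 < d) (hB : 0 < B) :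
    (fun s => s * th d B s) = fun s => d * uu (s / d) - B * uu (s / B) := by
  funext s
  simp only [th, uu]
  field_simp

theorem deriv_mul_th {d B : ℝ} (hd : 0 < d) (hB : 0 < B) :
    deriv (fun s => s * th d B s) = fun t => du (t / d) - du (t / B) := by
  rw [mul_th hd hB]
  funext t
  have h1 := ((hd_div uu_hd d t).const_mul d).sub ((hd_div uu_hd B t).const_mul B)
  rw [show (fun s => d * uu (s / d) - B * uu (s / B)) =
    (fun s => d * uu (s / d)) - (fun s => B * uu (s / B)) from rfl, h1.deriv]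
  field_simp

theorem deriv2_mul_th {d B : ℝ} (hd : 0 < d) (hB : 0 < B) (t : ℝ) :
    deriv (deriv fun s => s * th d B s) t = 1 / d * ww (t / d) - 1 / B * ww (t / B) := by
  rw [deriv_mul_th hd hB]
  exact ((hd_div du_hd d t).sub (hd_div du_hd B t)).deriv

/-- the integrand at scale `c` -/
noncomputable def gg (m y : ℝ → ℝ) (c t : ℝ) : ℝ := m t * ww (t / c) - y t * vv (t / c)

theorem gg_int {m y : ℝ → ℝ} (hm : ContinuousOn m (Ici 0)) (hy : ContinuousOn y (Ici 0))
    {c : ℝ} (hc : 0 < c) : IntegrableOn (gg m y c) (Ioi 0) := by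
  apply cont_int (a := c) (b := 2 * c) hc
  · have h1 : Continuous (fun t : ℝ => ww (t / c)) :=
      ww_smooth.continuous.comp (continuous_id.div_const c)
    have h2 : Continuous (fun t : ℝ => vv (t / c)) :=
      vv_smooth.continuous.comp (continuous_id.div_const c)
    exact (hm.mul h1.continuousOn).sub (hy.mul h2.continuousOn)
  · intro x hx
    have h : x / c < 1 ∨ 2 < x / c := by
      rcases hx with hx | hx
      · left; rw [div_lt_one hc]; exact hx
      · right; rw [lt_div_iff₀ hc]; exact hx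
    simp [gg, ww_zero h, vv_zero h]

/-- the functional at scale `c` -/
noncomputable def Ph (m y : ℝ → ℝ) (c : ℝ) : ℝ :=
  ∫ s in Ioi (0 : ℝ), (m (c * s) * ww s - y (c * s) * vv s)

theorem Ph_eq (m y : ℝ → ℝ) {c : ℝ} (hc : 0 < c) :
    Ph m y c = 1 / c * ∫ t in Ioi (0 : ℝ), gg m y c t := by
  have h := integral_comp_mul_left_Ioi (gg m y c) 0 hc
  rw [mul_zero, smul_eq_mul, inv_eq_one_div] at h
  rw [← h]
  apply integral_congr_ae
  refine Eventually.of_forall fun s => ?_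
  simp only [gg]
  rw [mul_div_cancel_left₀ _ hc.ne']

theorem diff_nonneg {m y : ℝ → ℝ} (hm : ContinuousOn m (Ici 0)) (hy : ContinuousOn y (Ici 0))
    (h : ∀ θ, TestT θ → 0 ≤ ∫ t in Ioi (0 : ℝ), (m t * deriv (deriv fun s => s * θ s) t -
      y t * deriv θ t)) {d B : ℝ} (hd : 0 < d) (hB : 2 * d ≤ B) :
    0 ≤ Ph m y d - Ph m y B := by
  have hB0 : 0 < B := by linarith
  have h1 := h _ (th_test hd hB)
  have h2 : (∫ t in Ioi (0 : ℝ), (m t * deriv (deriv fun s => s * th d B s) t -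
      y t * deriv (th d B) t)) = Ph m y d - Ph m y B := by
    rw [Ph_eq m y hd, Ph_eq m y hB0, ← integral_const_mul, ← integral_const_mul,
      ← integral_sub ((gg_int hm hy hd).const_mul _) ((gg_int hm hy hB0).const_mul _)]
    apply integral_congr_ae
    refine Eventually.of_forall fun t => ?_
    simp only [gg, deriv2_mul_th hd hB0, deriv_th]
    ring
  rwa [h2] at h1

theorem meas {m y : ℝ → ℝ} (hm : ContinuousOn m (Ici 0)) (hy : ContinuousOn y (Ici 0))
    {c : ℝ} (hc : 0 < c) : AEStronglyMeasurable (fun s => m (c * s) * ww s - y (c * s) * vv s)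
    (volume.restrict (Ioi 0)) := by
  apply ContinuousOn.aestronglyMeasurable _ measurableSet_Ioi
  have h1 : MapsTo (fun s : ℝ => c * s) (Ioi 0) (Ici 0) := fun s hs => by
    have : (0 : ℝ) < s := hs
    exact (mul_pos hc this).le
  have h2 : ContinuousOn (fun s : ℝ => c * s) (Ioi 0) := (continuous_const.mul continuous_id).continuousOn
  exact ((hm.comp h2 h1).mul ww_smooth.continuous.continuousOn).sub
    ((hy.comp h2 h1).mul vv_smooth.continuous.continuousOn)

theorem bnd {a b w v K L : ℝ} (ha : |a| ≤ K) (hb : |b| ≤ L) :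
    ‖a * w - b * v‖ ≤ K * |w| + L * |v| := by
  rw [Real.norm_eq_abs]
  calc |a * w - b * v| ≤ |a * w| + |b * v| := abs_sub _ _
    _ = |a| * |w| + |b| * |v| := by rw [abs_mul, abs_mul]
    _ ≤ K * |w| + L * |v| := by gcongr

theorem Ph_top {m y : ℝ → ℝ} (hm : ContinuousOn m (Ici 0)) (hy : ContinuousOn y (Ici 0))
    (hm0 : Tendsto m atTop (𝓝 0)) (hy0 : Tendsto y atTop (𝓝 0)) :
    Tendsto (Ph m y) atTop (𝓝 0) := by
  have key : Tendsto (fun c => ∫ s, (m (c * s) * ww s - y (c * s) * vv s)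
      ∂(volume.restrict (Ioi (0 : ℝ)))) atTop (𝓝 (∫ s, (0 : ℝ) ∂(volume.restrict (Ioi (0 : ℝ))))) := by
    apply tendsto_integral_filter_of_dominated_convergence (fun s => 1 * |ww s| + 1 * |vv s|)
    · filter_upwards [Ioi_mem_atTop (0 : ℝ)] with c hc using meas hm hy hc
    · have e1 : ∀ᶠ x in atTop, |m x| ≤ 1 := by
        have := (hm0.abs).eventually (Iic_mem_nhds (show |(0 : ℝ)| < 1 by simp))
        exact this
      have e2 : ∀ᶠ x in atTop, |y x| ≤ 1 := by
        have := (hy0.abs).eventually (Iic_mem_nhds (show |(0 : ℝ)| < 1 by simp))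
        exact this
      obtain ⟨C, hC⟩ := eventually_atTop.1 (e1.and e2)
      filter_upwards [Ioi_mem_atTop (0 : ℝ), Ici_mem_atTop C] with c hc hcC
      refine (ae_restrict_iff' measurableSet_Ioi).2 (Eventually.of_forall fun s hs => ?_)
      by_cases h : s < 1
      · simp only [ww_zero (Or.inl h), vv_zero (Or.inl h)]
        simp
      · push Not at h
        have h3 : C ≤ c * s := by
          have hc0 : (0 : ℝ) < c := hc
          have : c ≤ c * s := le_mul_of_one_le_right hc0.le h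
          exact le_trans hcC this
        exact bnd (hC _ h3).1 (hC _ h3).2
    · exact ((ww_int.abs.const_mul 1).add (vv_int.abs.const_mul 1))
    · refine (ae_restrict_iff' measurableSet_Ioi).2 (Eventually.of_forall fun s hs => ?_)
      have h1 : Tendsto (fun c : ℝ => c * s) atTop atTop := tendsto_id.atTop_mul_const hs
      have h2 := ((hm0.comp h1).mul_const (ww s)).sub ((hy0.comp h1).mul_const (vv s))
      simpa using h2
  rw [integral_zero] at key
  exact key

theorem Ph_zero {m y : ℝ → ℝ} (hm : ContinuousOn m (Ici 0)) (hy : ContinuousOn y (Ici 0)) :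
    Tendsto (Ph m y) (𝓝[>] 0) (𝓝 (m 0 - y 0)) := by
  have hl : (∫ s, (m 0 * ww s - y 0 * vv s) ∂(volume.restrict (Ioi (0 : ℝ)))) = m 0 - y 0 := by
    rw [integral_sub (ww_int.const_mul _) (vv_int.const_mul _), integral_const_mul,
      integral_const_mul, int_ww, int_vv, mul_one, mul_one]
  rw [← hl]
  have hpt : ∀ f : ℝ → ℝ, ContinuousOn f (Ici 0) → Tendsto f (𝓝[≥] 0) (𝓝 (f 0)) := fun f hf =>
    hf 0 self_mem_Ici
  apply tendsto_integral_filter_of_dominated_convergence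
    (fun s => (|m 0| + 1) * |ww s| + (|y 0| + 1) * |vv s|)
  · filter_upwards [self_mem_nhdsWithin] with c hc using meas hm hy hc
  · have e1 : ∀ᶠ x in 𝓝[≥] (0 : ℝ), |m x| ≤ |m 0| + 1 :=
      ((hpt m hm).abs).eventually (ge_mem_nhds (by linarith))
    have e2 : ∀ᶠ x in 𝓝[≥] (0 : ℝ), |y x| ≤ |y 0| + 1 :=
      ((hpt y hy).abs).eventually (ge_mem_nhds (by linarith))
    have e3 := e1.and e2
    rw [eventually_iff, mem_nhdsGE_iff_exists_Ico_subset] at e3
    obtain ⟨δ, hδ, hsub⟩ := e3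
    have hδ0 : (0 : ℝ) < δ := hδ
    have e4 : ∀ᶠ c in 𝓝[>] (0 : ℝ), c < δ / 3 :=
      nhdsWithin_le_nhds (Iio_mem_nhds (show (0 : ℝ) < δ / 3 by positivity))
    filter_upwards [self_mem_nhdsWithin, e4] with c hc hc3
    have hc0 : (0 : ℝ) < c := hc
    refine (ae_restrict_iff' measurableSet_Ioi).2 (Eventually.of_forall fun s hs => ?_)
    have hs0 : (0 : ℝ) < s := hs
    by_cases h : 2 < s
    · simp only [ww_zero (Or.inr h), vv_zero (Or.inr h)]
      simp
    · push Not at h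
      have h3 : c * s ∈ Ico (0 : ℝ) δ := by
        refine ⟨(mul_pos hc0 hs0).le, ?_⟩
        have : c * s ≤ c * 2 := mul_le_mul_of_nonneg_left h hc0.le
        linarith
      exact bnd (hsub h3).1 (hsub h3).2
  · exact ((ww_int.abs.const_mul _).add (vv_int.abs.const_mul _))
  · refine (ae_restrict_iff' measurableSet_Ioi).2 (Eventually.of_forall fun s hs => ?_)
    have hs0 : (0 : ℝ) < s := hs
    have h1 : Tendsto (fun c : ℝ => c * s) (𝓝[>] 0) (𝓝[≥] 0) := by
      apply tendsto_nhdsWithin_of_tendsto_nhds_of_eventually_within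
      · have : Tendsto (fun c : ℝ => c * s) (𝓝 0) (𝓝 (0 * s)) := tendsto_id.mul_const s
        rw [zero_mul] at this
        exact this.mono_left nhdsWithin_le_nhds
      · filter_upwards [self_mem_nhdsWithin] with c hc
        have hc0 : (0 : ℝ) < c := hc
        exact (mul_pos hc0 hs0).le
    exact (((hpt m hm).comp h1).mul_const (ww s)).sub (((hpt y hy).comp h1).mul_const (vv s))

end OneDX

theorem pr_OneD : S_OneD := by
  intro m y hm hy hm0 hy0 h
  have h1 : ∀ d : ℝ, 0 < d → 0 ≤ OneDX.Ph m y d := by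
    intro d hd
    have h2 : Tendsto (fun B => OneDX.Ph m y d - OneDX.Ph m y B) atTop
        (𝓝 (OneDX.Ph m y d - 0)) := tendsto_const_nhds.sub (OneDX.Ph_top hm hy hm0 hy0)
    rw [sub_zero] at h2
    refine ge_of_tendsto h2 ?_
    filter_upwards [Ici_mem_atTop (2 * d)] with B hB
    exact OneDX.diff_nonneg hm hy h hd hB
  refine ge_of_tendsto (OneDX.Ph_zero hm hy) ?_
  filter_upwards [self_mem_nhdsWithin] with d hd using h1 d hd

end Pool.Agent.Work.MP_440970_an.FC

end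

section

/-!
# Item RFfar: behaviour of the field of real point charges at infinity
-/

set_option autoImplicit false

open MeasureTheory Set Filter Topology
open scoped ContDiff ENNReal

namespace Pool.Agent.Work.MP_440970_an.FC

open BH

namespace RFfarX

/-- kernels which are smooth away from the origin, with decay of the derivatives -/
structure KP (P : E3 → ℝ) (C : ℝ) : Prop where
  sm : ∀ x : E3, x ≠ 0 → ContDiffAt ℝ ∞ P x
  b1 : ∀ x : E3, x ≠ 0 → ∀ j, |pd j P x| * ‖x‖ ^ 3 ≤ C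
  b2 : ∀ x : E3, x ≠ 0 → ∀ j k, |pd k (pd j P) x| * ‖x‖ ^ 4 ≤ C

theorem two_le_infty : (1 : WithTop ℕ∞) + 1 ≤ ((⊤ : ℕ∞) : WithTop ℕ∞) :=
  WithTop.coe_le_coe.mpr (le_top : ((1 : ℕ∞) + 1) ≤ ⊤)

theorem norm_fderiv_le {f : E3 → ℝ} {z : E3} {B : ℝ} (hB : 0 ≤ B) (h : ∀ i, |pd i f z| ≤ B) :
    ‖fderiv ℝ f z‖ ≤ 3 * B := by
  apply ContinuousLinearMap.opNorm_le_bound _ (by positivity)
  intro w
  have e : w = w 0 • (Pi.single 0 1 : E3) + w 1 • (Pi.single 1 1 : E3) +
      w 2 • (Pi.single 2 1 : E3) := by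
    ext i
    fin_cases i <;> simp
  have e2 : fderiv ℝ f z w = w 0 * pd 0 f z + w 1 * pd 1 f z + w 2 * pd 2 f z := by
    conv_lhs => rw [e]
    simp only [map_add, map_smul, smul_eq_mul]
    rfl
  rw [e2, Real.norm_eq_abs]
  have hw : ∀ i, |w i| ≤ ‖w‖ := fun i => by
    have := norm_le_pi_norm w i
    rwa [Real.norm_eq_abs] at this
  have ht : ∀ i, |w i * pd i f z| ≤ ‖w‖ * B := fun i => by
    rw [abs_mul]
    exact mul_le_mul (hw i) (h i) (abs_nonneg _) (norm_nonneg _)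
  calc |w 0 * pd 0 f z + w 1 * pd 1 f z + w 2 * pd 2 f z|
      ≤ |w 0 * pd 0 f z| + |w 1 * pd 1 f z| + |w 2 * pd 2 f z| := abs_add_three _ _ _
    _ ≤ ‖w‖ * B + ‖w‖ * B + ‖w‖ * B := add_le_add (add_le_add (ht 0) (ht 1)) (ht 2)
    _ = 3 * B * ‖w‖ := by ring

theorem hz_eq (a : ℂ) (x : E3) : hz a x = x - ![0, a.re, a.im] := rfl

theorem norm_shift_le (a : ℂ) : ‖(![0, a.re, a.im] : E3)‖ ≤ ‖a‖ := by
  rw [pi_norm_le_iff_of_nonneg (norm_nonneg a)]
  intro i
  fin_cases i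
  · simp
  · simpa using Complex.abs_re_le_norm a
  · simpa using Complex.abs_im_le_norm a

/-- mean value inequality for a horizontal translation -/
theorem mvt {f : E3 → ℝ} {u : E3} {a : ℂ} {B : ℝ} (hB : 0 ≤ B) (ha : ‖a‖ ≤ ‖u‖ / 2)
    (hd : ∀ z : E3, ‖u‖ / 2 ≤ ‖z‖ → DifferentiableAt ℝ f z)
    (hb : ∀ z : E3, ‖u‖ / 2 ≤ ‖z‖ → ∀ i, |pd i f z| ≤ B) :
    |f (hz a u) - f u| ≤ 3 * B * ‖a‖ := by
  have hzz : ∀ z ∈ Metric.closedBall u (‖u‖ / 2), ‖u‖ / 2 ≤ ‖z‖ := by
    intro z hzz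
    rw [mem_closedBall_iff_norm'] at hzz
    have := norm_sub_norm_le u z
    linarith
  have h1 := Convex.norm_image_sub_le_of_norm_fderiv_le (𝕜 := ℝ) (f := f) (C := 3 * B)
    (s := Metric.closedBall u (‖u‖ / 2)) (x := u) (y := hz a u)
    (fun z h => hd z (hzz z h)) (fun z h => norm_fderiv_le hB (hb z (hzz z h)))
    (convex_closedBall _ _) (Metric.mem_closedBall_self (by positivity)) (by
      rw [hz_eq, mem_closedBall_iff_norm, sub_sub_cancel_left, norm_neg]
      exact (norm_shift_le a).trans ha)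
  rw [Real.norm_eq_abs] at h1
  refine h1.trans ?_
  rw [hz_eq, sub_sub_cancel_left, norm_neg]
  exact mul_le_mul_of_nonneg_left (norm_shift_le a) (by positivity)

/-- bounds for a kernel -/
theorem KP.bounds {P : E3 → ℝ} {C : ℝ} (h : KP P C) (hC : 0 ≤ C) {u : E3} (hu : 0 < ‖u‖) {a : ℂ}
    (ha : ‖a‖ ≤ ‖u‖ / 2) :
    |P (hz a u) - P u| ≤ 24 * C * ‖a‖ / ‖u‖ ^ 3 ∧
    (∀ j, |pd j P (hz a u) - pd j P u| ≤ 48 * C * ‖a‖ / ‖u‖ ^ 4) := by
  have hz0 : ∀ z : E3, ‖u‖ / 2 ≤ ‖z‖ → z ≠ 0 := by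
    intro z hz h0
    rw [h0, norm_zero] at hz
    linarith
  have h1 : ∀ z : E3, ‖u‖ / 2 ≤ ‖z‖ → ∀ j, |pd j P z| ≤ 8 * C / ‖u‖ ^ 3 := by
    intro z hz j
    rw [le_div_iff₀ (by positivity)]
    have h2 := h.b1 z (hz0 z hz) j
    have h3 : ‖u‖ ^ 3 ≤ 8 * ‖z‖ ^ 3 := by
      calc ‖u‖ ^ 3 ≤ (2 * ‖z‖) ^ 3 := by gcongr; linarith
        _ = 8 * ‖z‖ ^ 3 := by ring
    calc |pd j P z| * ‖u‖ ^ 3 ≤ |pd j P z| * (8 * ‖z‖ ^ 3) := by gcongr
      _ = 8 * (|pd j P z| * ‖z‖ ^ 3) := by ring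
      _ ≤ 8 * C := by gcongr
  have h2 : ∀ z : E3, ‖u‖ / 2 ≤ ‖z‖ → ∀ j k, |pd k (pd j P) z| ≤ 16 * C / ‖u‖ ^ 4 := by
    intro z hz j k
    rw [le_div_iff₀ (by positivity)]
    have h2 := h.b2 z (hz0 z hz) j k
    have h3 : ‖u‖ ^ 4 ≤ 16 * ‖z‖ ^ 4 := by
      calc ‖u‖ ^ 4 ≤ (2 * ‖z‖) ^ 4 := by gcongr; linarith
        _ = 16 * ‖z‖ ^ 4 := by ring
    calc |pd k (pd j P) z| * ‖u‖ ^ 4 ≤ |pd k (pd j P) z| * (16 * ‖z‖ ^ 4) := by gcongr
      _ = 16 * (|pd k (pd j P) z| * ‖z‖ ^ 4) := by ring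
      _ ≤ 16 * C := by gcongr
  refine ⟨?_, fun j => ?_⟩
  · refine (mvt (B := 8 * C / ‖u‖ ^ 3) (by positivity) ha (fun z hz =>
      (h.sm z (hz0 z hz)).differentiableAt (by norm_num)) h1).trans (le_of_eq ?_)
    ring
  · refine (mvt (B := 16 * C / ‖u‖ ^ 4) (by positivity) ha (fun z hz =>
      (pd_contDiffAt (m := 1) j (h.sm z (hz0 z hz)) two_le_infty).differentiableAt (by norm_num))
      fun z hz k => h2 z hz j k).trans (le_of_eq ?_)
    ring

theorem diff_hz {P : E3 → ℝ} {a : ℂ} {y : E3} (h : DifferentiableAt ℝ P (hz a y)) :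
    DifferentiableAt ℝ (fun y => P (hz a y)) y := by
  have h1 : DifferentiableAt ℝ (fun y : E3 => y - ![0, a.re, a.im]) y :=
    differentiableAt_id.sub_const _
  exact DifferentiableAt.comp y (g := P) (f := fun y : E3 => y - ![0, a.re, a.im]) h h1

/-- derivative of a sum of translated kernels -/
theorem pd_fam {n : ℕ} {a : Fin n → ℂ} {r : Fin n → ℝ} {P : E3 → ℝ} {y : E3}
    (hP : ∀ k, DifferentiableAt ℝ P (hz (a k) y)) (j : Fin 3) :
    pd j (fun y => ∑ k, r k * P (hz (a k) y)) y = ∑ k, r k * pd j P (hz (a k) y) := by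
  have h1 : ∀ k, DifferentiableAt ℝ (fun y => r k * P (hz (a k) y)) y := fun k =>
    (diff_hz (hP k)).const_mul _
  rw [pd_sum Finset.univ (fun k y => r k * P (hz (a k) y)) j fun k _ => h1 k]
  refine Finset.sum_congr rfl fun k _ => ?_
  rw [pd_const_mul j (r k) (diff_hz (hP k)), pd_hz]

/-- a weighted sum -/
theorem wsum {n : ℕ} {r p : Fin n → ℝ} {B : ℝ} (hp : ∀ k, |p k| ≤ B) :
    |∑ k, r k * p k| ≤ (∑ k, |r k|) * B := by
  rw [Finset.sum_mul]
  refine (Finset.abs_sum_le_sum_abs _ _).trans (Finset.sum_le_sum fun k _ => ?_)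
  rw [abs_mul]
  exact mul_le_mul_of_nonneg_left (hp k) (abs_nonneg _)

theorem wsum_sub {n : ℕ} {r p : Fin n → ℝ} {p0 : ℝ} (hr : ∑ k, r k = 0) :
    ∑ k, r k * p k = ∑ k, r k * (p k - p0) := by
  have h1 : ∑ k, r k * (p k - p0) = ∑ k, r k * p k - (∑ k, r k) * p0 := by
    rw [Finset.sum_mul, ← Finset.sum_sub_distrib]
    exact Finset.sum_congr rfl fun k _ => by ring
  rw [h1, hr]
  ring

end RFfarX

open RFfarX in
theorem pr_RFfar (h1 : S_Ker) (h2 : S_KerB) : S_RFfar := by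
  intro n a c hc
  obtain ⟨C, hCb⟩ := h2
  have hC : 0 ≤ C := by
    have h : (Pi.single 0 1 : E3) ≠ 0 := by
      intro h
      have := congrFun h 0
      simp at this
    refine le_trans ?_ ((hCb _ h).1 0 0)
    positivity
  have hKE : ∀ i, KP (EE i) C := fun i =>
    ⟨fun x hx => (h1 x hx _ rfl).1 i, fun x hx j => (hCb x hx).1 i j,
      fun x hx j k => (hCb x hx).2 i j k⟩
  set A : ℝ := ∑ k, ‖a k‖ with hA
  have hA0 : 0 ≤ A := Finset.sum_nonneg fun k _ => norm_nonneg _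
  have haA : ∀ k, ‖a k‖ ≤ A := fun k =>
    Finset.single_le_sum (f := fun k => ‖a k‖) (fun k _ => norm_nonneg _) (Finset.mem_univ k)
  set W : ℝ := ∑ k, |c k| with hW
  have hW0 : 0 ≤ W := Finset.sum_nonneg fun k _ => by positivity
  refine ⟨W * (48 * C * (A + 1)), 2 * A + 1, by linarith, ?_⟩
  intro u _ hxR i
  have hu0 : 0 < ‖u‖ := by linarith
  have hau : ∀ k, ‖a k‖ ≤ ‖u‖ / 2 := fun k => by linarith [haA k]
  have hne : ∀ y : E3, A < ‖y‖ → ∀ k, hz (a k) y ≠ 0 := by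
    intro y hy k h0
    rw [hz_eq, sub_eq_zero] at h0
    have h4 := norm_shift_le (a k)
    rw [← h0] at h4
    linarith [haA k]
  have hdP : ∀ y : E3, y ≠ 0 → DifferentiableAt ℝ (EE i) y :=
    fun y hy => ((hKE i).sm y hy).differentiableAt (by norm_num)
  have hAu : A < ‖u‖ := by linarith
  have hfin : ∀ (D B : ℝ) (m : ℕ), |D| ≤ W * (B / ‖u‖ ^ m) → B ≤ 48 * C * (A + 1) →
      |D| * ‖u‖ ^ m ≤ W * (48 * C * (A + 1)) := by
    intro D B m hD hB
    calc |D| * ‖u‖ ^ m ≤ W * (B / ‖u‖ ^ m) * ‖u‖ ^ m := by gcongr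
      _ = W * B := by field_simp
      _ ≤ W * (48 * C * (A + 1)) := by gcongr
  refine ⟨?_, fun j => ?_⟩
  · apply hfin _ (24 * C * A) 3
    · have e : RF a c i u = ∑ k, c k * EE i (hz (a k) u) := rfl
      rw [e, wsum_sub (p0 := EE i u) hc]
      apply wsum
      intro k
      refine ((hKE i).bounds hC hu0 (hau k)).1.trans ?_
      gcongr
      exact haA k
    · nlinarith [mul_nonneg hC hA0]
  · apply hfin _ (48 * C * A) 4
    · have e : pd j (RF a c i) u = ∑ k, c k * pd j (EE i) (hz (a k) u) :=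
        pd_fam (fun k => hdP _ (hne u hAu k)) j
      rw [e, wsum_sub (p0 := pd j (EE i) u) hc]
      apply wsum
      intro k
      refine (((hKE i).bounds hC hu0 (hau k)).2 j).trans ?_
      gcongr
      exact haA k
    · nlinarith [mul_nonneg hC hA0]

end Pool.Agent.Work.MP_440970_an.FC

end

section

/-!
# Item RFsw: the field of real point charges is a Stein-Weiss system
-/

open MeasureTheory Set Filter Topology
open scoped ContDiff ENNReal

namespace Pool.Agent.Work.MP_440970_an.FC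

open BH

namespace RFswX

theorem isOpen_half : IsOpen half := isOpen_lt continuous_const (continuous_apply 0)

theorem hz_zero (a : ℂ) (x : E3) : hz a x 0 = x 0 := by
  unfold hz
  simp

theorem hz_ne (a : ℂ) {x : E3} (hx : x ∈ half) : hz a x ≠ 0 := by
  intro h
  have h1 : hz a x 0 = 0 := by rw [h]; rfl
  rw [hz_zero] at h1
  exact absurd h1 (ne_of_gt hx)

theorem contDiff_hz (a : ℂ) : ContDiff ℝ ∞ (hz a) := by
  unfold hz
  fun_prop

theorem smooth_term (h1 : S_Ker) (a : ℂ) (i : Fin 3) {x : E3} (hx : x ∈ half) :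
    ContDiffAt ℝ ∞ (fun y => EE i (hz a y)) x :=
  ((h1 (hz a x) (hz_ne a hx) _ rfl).1 i).comp x (contDiff_hz a).contDiffAt

theorem diff_term (h1 : S_Ker) (a : ℂ) (i : Fin 3) {x : E3} (hx : x ∈ half) :
    DifferentiableAt ℝ (fun y => EE i (hz a y)) x :=
  (smooth_term h1 a i hx).differentiableAt (by norm_num)

theorem pd_RF (h1 : S_Ker) {n : ℕ} (a : Fin n → ℂ) (c : Fin n → ℝ) (i j : Fin 3) {x : E3}
    (hx : x ∈ half) : pd j (RF a c i) x = ∑ k, c k * pd j (EE i) (hz (a k) x) := by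
  have h : (RF a c i) = fun y => ∑ k ∈ Finset.univ, c k * EE i (hz (a k) y) := rfl
  rw [h, pd_sum Finset.univ (fun k y => c k * EE i (hz (a k) y)) j
    (fun k _ => (diff_term h1 (a k) i hx).const_mul (c k))]
  refine Finset.sum_congr rfl fun k _ => ?_
  rw [pd_const_mul j (c k) (diff_term h1 (a k) i hx), pd_hz]

theorem norm_pos {x : E3} (hx : x ≠ 0) : 0 < x 0 ^ 2 + x 1 ^ 2 + x 2 ^ 2 := by
  by_contra hc
  apply hx
  have h0 : x 0 ^ 2 = 0 := by nlinarith [sq_nonneg (x 0), sq_nonneg (x 1), sq_nonneg (x 2)]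
  have h1 : x 1 ^ 2 = 0 := by nlinarith [sq_nonneg (x 0), sq_nonneg (x 1), sq_nonneg (x 2)]
  have h2 : x 2 ^ 2 = 0 := by nlinarith [sq_nonneg (x 0), sq_nonneg (x 1), sq_nonneg (x 2)]
  funext i
  fin_cases i
  · exact pow_eq_zero_iff (two_ne_zero) |>.mp h0
  · exact pow_eq_zero_iff (two_ne_zero) |>.mp h1
  · exact pow_eq_zero_iff (two_ne_zero) |>.mp h2

theorem div_zero (h1 : S_Ker) {x : E3} (hx : x ≠ 0) : ∑ i, pd i (EE i) x = 0 := by
  have h2 := (h1 x hx _ rfl).2.1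
  have hp := norm_pos hx
  have hs : 0 < √(x 0 ^ 2 + x 1 ^ 2 + x 2 ^ 2) := Real.sqrt_pos.mpr hp
  have hq : √(x 0 ^ 2 + x 1 ^ 2 + x 2 ^ 2) ^ 2 = x 0 ^ 2 + x 1 ^ 2 + x 2 ^ 2 :=
    Real.sq_sqrt hp.le
  simp only [h2, Fin.sum_univ_three, if_true]
  generalize √(x 0 ^ 2 + x 1 ^ 2 + x 2 ^ 2) = r at hs hq
  field_simp
  linear_combination 3 * hq

theorem symm (h1 : S_Ker) {x : E3} (hx : x ≠ 0) (i j : Fin 3) :
    pd i (EE j) x = pd j (EE i) x := by
  have h2 := (h1 x hx _ rfl).2.1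
  rw [h2 j i, h2 i j]
  have h3 : (if j = i then (1 : ℝ) else 0) = if i = j then 1 else 0 := by
    by_cases h : i = j
    · rw [if_pos h, if_pos h.symm]
    · rw [if_neg h, if_neg (fun h' => h h'.symm)]
  rw [h3]
  ring

end RFswX

open RFswX in
theorem pr_RFsw (h1 : S_Ker) : S_RFsw := by
  intro n a c
  refine ⟨isOpen_half, fun i => ?_, fun x hx i j => ?_, fun x hx => ?_⟩
  · intro x hx
    refine ContDiffAt.contDiffWithinAt ?_
    unfold RF
    exact ContDiffAt.sum fun k _ => contDiffAt_const.mul (smooth_term h1 (a k) i hx)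
  · rw [pd_RF h1 a c j i hx, pd_RF h1 a c i j hx]
    refine Finset.sum_congr rfl fun k _ => ?_
    rw [symm h1 (hz_ne (a k) hx) i j]
  · simp only [pd_RF h1 a c _ _ hx]
    rw [Finset.sum_comm]
    refine Finset.sum_eq_zero fun k _ => ?_
    rw [← Finset.mul_sum, div_zero h1 (hz_ne (a k) hx), mul_zero]

end Pool.Agent.Work.MP_440970_an.FC

end

section

/-!
# Item RNot: the real span is not dense
-/

set_option autoImplicit false

open MeasureTheory Set Filter Topology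
open scoped ContDiff ENNReal

namespace Pool.Agent.Work.MP_440970_an.FC

open BH

namespace RNotX

theorem jt_add (v e : Fin 3 → ℝ) : jt (fun i => v i + e i) = jt v + jt e := by
  funext k
  fin_cases k <;> simp [jt]

theorem jt_norm_le (v : Fin 3 → ℝ) (r : ℝ) (hr : 0 ≤ r) (h : ∀ i, |v i| ≤ r) : ‖jt v‖ ≤ r := by
  rw [pi_norm_le_iff_of_nonneg hr]
  intro k
  have h0 := h 0
  have h1 := h 1
  have h2 := h 2
  fin_cases k <;> simp [jt, Real.norm_eq_abs, h0, h1, h2, hr]

/-- the two bounds for the boundary function -/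
theorem bounds {p : ℝ} {M : J8 → ℝ} {Y : Fin 3 → J8 → ℝ} (h3 : S_Lip) (hp : 0 < p) (hp1 : p < 1)
    (hc : FCert p M Y) (e : Fin 3 → ℝ) (he : e ≠ 0) :
    ∃ K : ℝ, 0 < K ∧ (∀ v, |gb M Y v| ≤ K * ‖jt v‖ ^ p) ∧
      ∀ v, |gb M Y (fun i => v i + e i) - gb M Y e| ≤ K * ‖jt v‖ ^ p := by
  obtain ⟨C1, hC1⟩ := hc.bM
  obtain ⟨C2, hC2⟩ := hc.bY
  obtain ⟨C3, hC3, hL3⟩ := h3 p M e hp hp1 he hc.cM (fun z hz => (hc.sM z hz).of_le (by norm_num))
    hc.bM
  obtain ⟨C4, hC4, hL4⟩ := h3 p (Y 0) e hp hp1 he (hc.cY 0) (fun z hz => hc.sY 0 z hz)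
    ⟨C2, fun z => hC2 0 z⟩
  have hn : ∀ v : Fin 3 → ℝ, 0 ≤ ‖jt v‖ ^ p := fun v => Real.rpow_nonneg (norm_nonneg _) _
  refine ⟨|C1| + |C2| + C3 + C4 + 1, by positivity, fun v => ?_, fun v => ?_⟩
  · have a1 := hC1 (jt v)
    have a2 := hC2 0 (jt v)
    have a3 : |gb M Y v| ≤ |M (jt v)| + |Y 0 (jt v)| := by
      unfold gb
      exact abs_sub _ _
    have a4 : C1 * ‖jt v‖ ^ p ≤ |C1| * ‖jt v‖ ^ p :=
      mul_le_mul_of_nonneg_right (le_abs_self _) (hn v)
    have a5 : C2 * ‖jt v‖ ^ p ≤ |C2| * ‖jt v‖ ^ p :=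
      mul_le_mul_of_nonneg_right (le_abs_self _) (hn v)
    have a6 : 0 ≤ C3 * ‖jt v‖ ^ p := mul_nonneg hC3 (hn v)
    have a7 : 0 ≤ C4 * ‖jt v‖ ^ p := mul_nonneg hC4 (hn v)
    have a8 := hn v
    nlinarith
  · have a1 := (hL3 (jt v)).2
    have a2 := (hL4 (jt v)).2
    have a3 : |gb M Y (fun i => v i + e i) - gb M Y e| ≤
        |M (jt v + jt e) - M (jt e)| + |Y 0 (jt v + jt e) - Y 0 (jt e)| := by
      unfold gb
      rw [jt_add]
      have : M (jt v + jt e) - Y 0 (jt v + jt e) - (M (jt e) - Y 0 (jt e)) =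
        (M (jt v + jt e) - M (jt e)) - (Y 0 (jt v + jt e) - Y 0 (jt e)) := by ring
      rw [this]
      exact abs_sub _ _
    have a4 : 0 ≤ |C1| * ‖jt v‖ ^ p := mul_nonneg (abs_nonneg _) (hn v)
    have a5 : 0 ≤ |C2| * ‖jt v‖ ^ p := mul_nonneg (abs_nonneg _) (hn v)
    have a8 := hn v
    nlinarith

theorem ind_ne (z : ℂ) : ‖(Metric.ball (0 : ℂ) 1).indicator (fun _ => (-1 : ℂ)) z‖ =
    (Metric.ball (0 : ℂ) 1).indicator (fun _ => (1 : ℝ)) z := by
  by_cases hz : z ∈ Metric.ball (0 : ℂ) 1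
  · rw [indicator_of_mem hz, indicator_of_mem hz, norm_neg, norm_one]
  · rw [indicator_of_notMem hz, indicator_of_notMem hz, norm_zero]

/-- real part of the kernel -/
theorem kre (z : ℂ) : (z / (‖z‖ : ℂ) ^ 3).re = Kv z 1 := by
  have : (z / (‖z‖ : ℂ) ^ 3) = z / ((‖z‖ ^ 3 : ℝ) : ℂ) := by push_cast; rfl
  rw [this, Complex.div_ofReal_re]
  simp [Kv]

theorem kim (z : ℂ) : (z / (‖z‖ : ℂ) ^ 3).im = Kv z 2 := by
  have : (z / (‖z‖ : ℂ) ^ 3) = z / ((‖z‖ ^ 3 : ℝ) : ℂ) := by push_cast; rfl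
  rw [this, Complex.div_ofReal_im]
  simp [Kv]

theorem bf0 {n : ℕ} (a : Fin n → ℂ) (c : Fin n → ℝ) (z : ℂ) : bf a c z 0 = 0 := by
  simp [bf, Kv]

theorem bf1 {n : ℕ} (a : Fin n → ℂ) (c : Fin n → ℝ) (z : ℂ) :
    bf a c z 1 = (∑ k, (c k : ℂ) * ((z - a k) / (‖z - a k‖ : ℂ) ^ 3)).re := by
  rw [Complex.re_sum]
  unfold bf
  refine Finset.sum_congr rfl fun k _ => ?_
  rw [Complex.re_ofReal_mul, kre]

theorem bf2 {n : ℕ} (a : Fin n → ℂ) (c : Fin n → ℝ) (z : ℂ) :
    bf a c z 2 = (∑ k, (c k : ℂ) * ((z - a k) / (‖z - a k‖ : ℂ) ^ 3)).im := by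
  rw [Complex.im_sum]
  unfold bf
  refine Finset.sum_congr rfl fun k _ => ?_
  rw [Complex.im_ofReal_mul, kim]

theorem measf {n : ℕ} (a : Fin n → ℂ) (c : Fin n → ℝ) :
    Measurable fun z : ℂ => ∑ k, (c k : ℂ) * ((z - a k) / (‖z - a k‖ : ℂ) ^ 3) := by
  fun_prop

end RNotX

open RNotX in
theorem pr_RNot (h1 : S_RJen) (h2 : S_RMom) (h3 : S_Lip) : S_RNot := by
  intro p M Y hp hp2 hc hg
  have he : (![0, 1, 0] : Fin 3 → ℝ) ≠ 0 := by
    intro h
    have := congrFun h 1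
    simp at this
  obtain ⟨K, hK, hb1, hb2⟩ := bounds h3 hp (by linarith) hc ![0, 1, 0] he
  set e : Fin 3 → ℝ := ![0, 1, 0] with hedef
  set Q : Set ℂ := Metric.ball (0 : ℂ) 1 with hQ
  have hQm : MeasurableSet Q := Metric.isOpen_ball.measurableSet
  have hQt : volume Q ≠ ⊤ := measure_ball_lt_top.ne
  set δ : ℝ := (volume Q).toReal with hδ
  have hδ0 : 0 < δ := ENNReal.toReal_pos (Metric.measure_ball_pos volume 0 one_pos).ne' hQt
  refine ⟨gb M Y e * δ / K, by positivity, fun f hf hfn => ?_⟩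
  unfold spanR at hf
  rw [Submodule.mem_span_set'] at hf
  obtain ⟨n, c, b, hb⟩ := hf
  choose a ha using fun k => (b k).2
  have hfe : f = fun z => ∑ k, (c k : ℂ) * ((z - a k) / (‖z - a k‖ : ℂ) ^ 3) := by
    rw [← hb]
    funext z
    rw [Finset.sum_apply]
    refine Finset.sum_congr rfl fun k _ => ?_
    rw [Pi.smul_apply, ← ha k, Complex.real_smul]
  by_cases htop : ∫⁻ z : ℂ, ‖Q.indicator (fun _ => (-1 : ℂ)) z - f z‖ₑ ^ p = ⊤
  · rw [htop]
    exact le_top
  have hsum := h2 n a c p hp hp2 (by rw [hfe] at hfn; exact hfn)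
  obtain ⟨i1, i2⟩ := h1 p M Y hp hp2 hc n a c hsum e he
  have hfm : Measurable f := by
    rw [hfe]
    exact measf a c
  have hgm : Measurable (Q.indicator (fun _ => (-1 : ℂ))) := measurable_const.indicator hQm
  have hm : Measurable fun z => ‖Q.indicator (fun _ => (-1 : ℂ)) z - f z‖ ^ p :=
    (hgm.sub hfm).norm.pow_const p
  have hlin : ∫⁻ z, ENNReal.ofReal (‖Q.indicator (fun _ => (-1 : ℂ)) z - f z‖ ^ p) =
      ∫⁻ z : ℂ, ‖Q.indicator (fun _ => (-1 : ℂ)) z - f z‖ₑ ^ p := by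
    refine lintegral_congr fun z => ?_
    rw [← ENNReal.ofReal_rpow_of_nonneg (norm_nonneg _) hp.le, ofReal_norm]
  have hint : Integrable fun z => ‖Q.indicator (fun _ => (-1 : ℂ)) z - f z‖ ^ p := by
    refine ⟨hm.aestronglyMeasurable, ?_⟩
    rw [hasFiniteIntegral_iff_ofReal (Eventually.of_forall fun z =>
      Real.rpow_nonneg (norm_nonneg _) _), hlin]
    exact lt_top_iff_ne_top.2 htop
  have hb0 : ∀ z, ‖jt (bf a c z)‖ ≤ ‖f z‖ := by
    intro z
    refine jt_norm_le _ _ (norm_nonneg _) fun i => ?_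
    fin_cases i
    · simp only [Fin.zero_eta, bf0, abs_zero]
      exact norm_nonneg _
    · simp only [Fin.mk_one]
      rw [bf1, hfe]
      exact Complex.abs_re_le_norm _
    · simp only [Fin.reduceFinMk]
      rw [bf2, hfe]
      exact Complex.abs_im_le_norm _
  have hb3 : ∀ z, ‖jt (fun i => bf a c z i + e i)‖ ≤ ‖f z + 1‖ := by
    intro z
    refine jt_norm_le _ _ (norm_nonneg _) fun i => ?_
    fin_cases i
    · simp only [Fin.zero_eta, bf0, hedef]
      simp
    · have : bf a c z 1 + e 1 = (f z + 1).re := by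
        rw [bf1, hfe, hedef]
        simp
      simp only [Fin.mk_one]
      rw [this]
      exact Complex.abs_re_le_norm _
    · have : bf a c z 2 + e 2 = (f z + 1).im := by
        rw [bf2, hfe, hedef]
        simp
      simp only [Fin.reduceFinMk]
      rw [this]
      exact Complex.abs_im_le_norm _
  have hpt : ∀ z, gb M Y (fun i => bf a c z i + e i) - gb M Y e ≤
      K * ‖Q.indicator (fun _ => (-1 : ℂ)) z - f z‖ ^ p -
        Q.indicator (fun _ => gb M Y e) z := by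
    intro z
    by_cases hz : z ∈ Q
    · rw [indicator_of_mem hz, indicator_of_mem hz]
      have e1 : ‖-1 - f z‖ = ‖f z + 1‖ := by
        rw [← norm_neg]
        congr 1
        ring
      rw [e1]
      have h4 := hb1 (fun i => bf a c z i + e i)
      have h5 : ‖jt (fun i => bf a c z i + e i)‖ ^ p ≤ ‖f z + 1‖ ^ p :=
        Real.rpow_le_rpow (norm_nonneg _) (hb3 z) hp.le
      have h6 := le_abs_self (gb M Y (fun i => bf a c z i + e i))
      have h7 := mul_le_mul_of_nonneg_left h5 hK.le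
      linarith
    · rw [indicator_of_notMem hz, indicator_of_notMem hz, zero_sub, norm_neg, sub_zero]
      have h4 := hb2 (bf a c z)
      have h5 : ‖jt (bf a c z)‖ ^ p ≤ ‖f z‖ ^ p :=
        Real.rpow_le_rpow (norm_nonneg _) (hb0 z) hp.le
      have h6 := le_abs_self (gb M Y (fun i => bf a c z i + e i) - gb M Y e)
      have h7 := mul_le_mul_of_nonneg_left h5 hK.le
      linarith
  have j2 : Integrable fun z : ℂ => Q.indicator (fun _ => gb M Y e) z :=
    (integrable_indicator_iff hQm).2 (integrableOn_const hQt)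
  have k2 : ∫ z, Q.indicator (fun _ => gb M Y e) z = δ * gb M Y e := by
    rw [integral_indicator hQm, setIntegral_const, smul_eq_mul]
    rfl
  have k1 := integral_mono i1 ((hint.const_mul K).sub j2) hpt
  have k3 : ∫ z, (K * ‖Q.indicator (fun _ => (-1 : ℂ)) z - f z‖ ^ p -
      Q.indicator (fun _ => gb M Y e) z) =
      K * (∫ z, ‖Q.indicator (fun _ => (-1 : ℂ)) z - f z‖ ^ p) - δ * gb M Y e := by
    rw [integral_sub (hint.const_mul K) j2, k2, integral_const_mul]
  have k4 : 0 ≤ K * (∫ z, ‖Q.indicator (fun _ => (-1 : ℂ)) z - f z‖ ^ p) - δ * gb M Y e := by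
    rw [← k3]
    exact i2.trans k1
  have k5 : gb M Y e * δ / K ≤ ∫ z, ‖Q.indicator (fun _ => (-1 : ℂ)) z - f z‖ ^ p := by
    rw [div_le_iff₀ hK]
    linarith
  refine (ENNReal.ofReal_le_ofReal k5).trans ?_
  rw [ofReal_integral_eq_lintegral_ofReal hint (Eventually.of_forall fun z =>
      Real.rpow_nonneg (norm_nonneg _) _), hlin]

end Pool.Agent.Work.MP_440970_an.FC

end

section

/-!
# Item SWpf: the perturbed field is a Stein-Weiss system
-/

open MeasureTheory Set Filter Topology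
open scoped ContDiff ENNReal

namespace Pool.Agent.Work.MP_440970_an.FC

open BH

namespace SWpfX

variable {F : Fin 3 → E3 → ℝ} {U : Set E3}

theorem diffAt (hF : SW F U) {x : E3} (hx : x ∈ U) (i : Fin 3) : DifferentiableAt ℝ (F i) x :=
  (((hF.smooth i) x hx).contDiffAt (hF.op.mem_nhds hx)).differentiableAt (by simp)

theorem diff_coord (j : Fin 3) (x : E3) : DifferentiableAt ℝ (fun y : E3 => y j) x :=
  (ContinuousLinearMap.proj (R := ℝ) (φ := fun _ : Fin 3 => ℝ) j).differentiableAt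

theorem pd_pf (hF : SW F U) (e : Fin 3 → ℝ) (A : Fin 3 → Fin 3 → ℝ) {x : E3} (hx : x ∈ U)
    (i k : Fin 3) : pd k (pf F e A i) x = pd k (F i) x + A i k := by
  have h1 := diffAt hF hx i
  have h2 : ∀ j : Fin 3, DifferentiableAt ℝ (fun y : E3 => A i j * y j) x := fun j =>
    (diff_coord j x).const_mul (A i j)
  have h3 : DifferentiableAt ℝ (fun y : E3 => ∑ j, A i j * y j) x :=
    DifferentiableAt.fun_sum fun j _ => h2 j
  have h4 : DifferentiableAt ℝ (fun y : E3 => F i y + e i) x := h1.add_const _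
  show pd k (fun y => F i y + e i + ∑ j, A i j * y j) x = _
  rw [pd_add k h4 h3, pd_add k h1 (differentiableAt_const _), pd_const, pd_sum _ _ _ fun j _ => h2 j,
    add_zero]
  congr 1
  have h5 : ∀ j : Fin 3, pd k (fun y : E3 => A i j * y j) x = if k = j then A i j else 0 := by
    intro j
    rw [pd_const_mul k (A i j) (diff_coord j x), pd_coord]
    split_ifs <;> simp
  simp only [h5, Finset.sum_ite_eq, Finset.mem_univ, if_true]

end SWpfX

theorem pr_SWpf : S_SWpf := by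
  intro F U e A hF hsym htr
  refine ⟨⟨hF.op, fun i => ?_, fun x hx i j => ?_, fun x hx => ?_⟩, fun x hx => ?_⟩
  · have h1 : ContDiffOn ℝ ∞ (fun y : E3 => F i y + e i) U := (hF.smooth i).add contDiffOn_const
    have h2 : ContDiffOn ℝ ∞ (fun y : E3 => ∑ j, A i j * y j) U := by
      refine ContDiffOn.sum fun j _ => ?_
      exact contDiffOn_const.mul (contDiff_apply ℝ ℝ j).contDiffOn
    exact h1.add h2
  · rw [SWpfX.pd_pf hF e A hx, SWpfX.pd_pf hF e A hx, hF.curl x hx, hsym]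
  · simp only [SWpfX.pd_pf hF e A hx, Finset.sum_add_distrib, hF.div x hx, htr, add_zero]
  · have h10 := hsym 1 0
    have h20 := hsym 2 0
    have h21 := hsym 2 1
    funext k
    simp only [jet, SWpfX.pd_pf hF e A hx, Pi.add_apply, jp]
    fin_cases k <;> simp [pf, h10, h20, h21] <;> ring

end Pool.Agent.Work.MP_440970_an.FC

end

section

/-!
# The weak inequality for functions of the height
-/

open MeasureTheory Set Filter Topology
open scoped ContDiff ENNReal

namespace Pool.Agent.Work.MP_440970_an.FC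

open BH

namespace SlabX

theorem half_open : IsOpen half := isOpen_lt continuous_const (continuous_apply 0)

theorem cp_cont : Continuous fun q : ℝ × ℂ => cp q.1 q.2 := by
  refine continuous_pi fun i => ?_
  fin_cases i
  · exact continuous_fst
  · exact Complex.continuous_re.comp continuous_snd
  · exact Complex.continuous_im.comp continuous_snd

theorem jet_cont {F : Fin 3 → E3 → ℝ} {U : Set E3} (hF : SW F U) : ContinuousOn (jet F) U := by
  have hp : ∀ i j, ContinuousOn (pd i (F j)) U := fun i j =>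
    (pd_contDiffOn i hF.op (hF.smooth j) (m := 0) (by simp)).continuousOn
  have hc : ContinuousOn (fun x : E3 => x 0) U := (continuous_apply 0).continuousOn
  refine continuousOn_pi.2 fun k => ?_
  fin_cases k
  · exact (hF.smooth 0).continuousOn
  · exact (hF.smooth 1).continuousOn
  · exact (hF.smooth 2).continuousOn
  · exact hc.mul (hp 0 1)
  · exact hc.mul (hp 0 2)
  · exact hc.mul (hp 1 1)
  · exact hc.mul (hp 1 2)
  · exact hc.mul (hp 2 2)

/-- the basic pointwise estimate -/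
theorem bound {m y0 y1 y2 q0 q1 q2 q3 a b a1 b1 a2 b2 D B P : ℝ} (hm : |m| ≤ D) (hy0 : |y0| ≤ D) (hy1 : |y1| ≤ D) (hy2 : |y2| ≤ D)
    (h0 : |q0| ≤ B) (h1 : |q1| ≤ B) (h2 : |q2| ≤ B) (h3 : |q3| ≤ B) (ha : |a| ≤ P)
    (hb : |b| ≤ P) (ha1 : |a1| ≤ P) (hb1 : |b1| ≤ P) (ha2 : |a2| ≤ P) (hb2 : |b2| ≤ P) :
    |m * (q2 * (a * b) + q3 * (a2 * b + a * b2)) -
      (y0 * (q1 * (a * b)) + y1 * (q0 * (a1 * b)) + y2 * (q0 * (a * b1)))| ≤
      6 * B * P ^ 2 * D := by
  have e : ∀ {x y X Y : ℝ}, |x| ≤ X → |y| ≤ Y → |x * y| ≤ X * Y := fun {x y X Y} hx hy => by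
    rw [abs_mul]
    exact mul_le_mul hx hy (abs_nonneg _) ((abs_nonneg _).trans hx)
  have s : ∀ {x y X Y : ℝ}, |x| ≤ X → |y| ≤ Y → |x + y| ≤ X + Y := fun {x y X Y} hx hy =>
    (abs_add_le _ _).trans (add_le_add hx hy)
  have f1 := e hm (s (e h2 (e ha hb)) (e h3 (s (e ha2 hb) (e ha hb2))))
  have f2 := s (s (e hy0 (e h1 (e ha hb))) (e hy1 (e h0 (e ha1 hb)))) (e hy2 (e h0 (e ha hb1)))
  refine (abs_sub _ _).trans ((add_le_add f1 f2).trans (le_of_eq ?_))
  ring

end SlabX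

open SlabX in
theorem pr_Slab (h1 : S_SlabW) (h2 : S_TestR) (h3 : S_Vol) (h4 : S_Lip) : S_Slab := by
  intro p M Y hp0 hp1 hc F U b hN e θ he hθ
  have hsub : half ⊆ U := fun x hx => hN.sub x (le_of_lt hx)
  have hF : SW F half := ⟨half_open, fun i => (hN.sw.smooth i).mono hsub,
    fun x hx => hN.sw.curl x (hsub hx), fun x hx => hN.sw.div x (hsub hx)⟩
  -- Lipschitz constants
  obtain ⟨CM, hCM0, hCM⟩ := h4 p M e hp0 hp1 he hc.cM
    (fun z hz => (hc.sM z hz).of_le (by norm_num)) hc.bM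
  have hbY : ∀ i, ∃ C, ∀ z, |Y i z| ≤ C * ‖z‖ ^ p := fun i => by
    obtain ⟨C, hC⟩ := hc.bY
    exact ⟨C, hC i⟩
  have hCY : ∀ i, ∃ C, 0 ≤ C ∧ LipAt p (Y i) e C := fun i =>
    h4 p (Y i) e hp0 hp1 he (hc.cY i) (hc.sY i) (hbY i)
  choose CY hCY0 hCY using hCY
  obtain ⟨C, hC0, hCMC, hCYC⟩ : ∃ C : ℝ, 0 ≤ C ∧ CM ≤ C ∧ ∀ i, CY i ≤ C := by
    refine ⟨CM + ∑ i, CY i, add_nonneg hCM0 (Finset.sum_nonneg fun i _ => hCY0 i),
      le_add_of_nonneg_right (Finset.sum_nonneg fun i _ => hCY0 i), fun i => ?_⟩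
    have := Finset.single_le_sum (fun j _ => hCY0 j) (Finset.mem_univ i)
    linarith
  have hb0 : ∀ z, 0 ≤ b z := fun z => (norm_nonneg _).trans (hN.bd 0 z le_rfl)
  -- the cut-off function
  let bump : ContDiffBump (0 : ℝ) := ⟨1, 2, one_pos, one_lt_two⟩
  obtain ⟨ψ, hψs, hψc, hψn, hψ1⟩ : ∃ ψ : ℝ → ℝ, ContDiff ℝ ∞ ψ ∧ HasCompactSupport ψ ∧
      (∀ s, 0 ≤ ψ s) ∧ ψ 0 = 1 :=
    ⟨bump, bump.contDiff, bump.hasCompactSupport, fun s => bump.nonneg,
      bump.one_of_mem_closedBall (Metric.mem_closedBall_self zero_le_one)⟩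
  have hψ1s : ContDiff ℝ ∞ (deriv ψ) := ((contDiff_infty_iff_deriv (𝕜 := ℝ)).1 hψs).2
  have hψ2s : ContDiff ℝ ∞ (deriv (deriv ψ)) := ((contDiff_infty_iff_deriv (𝕜 := ℝ)).1 hψ1s).2
  obtain ⟨P, hP0, hPa, hPb, hPc⟩ : ∃ P : ℝ, 0 ≤ P ∧ (∀ s, |ψ s| ≤ P) ∧ (∀ s, |deriv ψ s| ≤ P) ∧
      ∀ s, |deriv (deriv ψ) s| ≤ P := by
    obtain ⟨P0, h0⟩ := hψc.exists_bound_of_continuous hψs.continuous
    obtain ⟨P1, h1'⟩ := hψc.deriv.exists_bound_of_continuous hψ1s.continuous
    obtain ⟨P2, h2'⟩ := hψc.deriv.deriv.exists_bound_of_continuous hψ2s.continuous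
    have n0 := (norm_nonneg _).trans (h0 0)
    have n1 := (norm_nonneg _).trans (h1' 0)
    have n2 := (norm_nonneg _).trans (h2' 0)
    refine ⟨P0 + P1 + P2, by positivity, fun s => ?_, fun s => ?_, fun s => ?_⟩
    · have := h0 s
      rw [Real.norm_eq_abs] at this
      linarith
    · have := h1' s
      rw [Real.norm_eq_abs] at this
      linarith
    · have := h2' s
      rw [Real.norm_eq_abs] at this
      linarith
  -- the functions of the height
  set q1 : ℝ → ℝ := deriv θ with hq1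
  set q2 : ℝ → ℝ := deriv (deriv fun s => s * θ s) with hq2
  set q3 : ℝ → ℝ := fun s => s * θ s with hq3
  have hq3s : ContDiff ℝ ∞ q3 := contDiff_id.mul hθ.smooth
  have hq1s : ContDiff ℝ ∞ q1 := ((contDiff_infty_iff_deriv (𝕜 := ℝ)).1 hθ.smooth).2
  have hq2s : ContDiff ℝ ∞ q2 := ((contDiff_infty_iff_deriv (𝕜 := ℝ)).1
    ((contDiff_infty_iff_deriv (𝕜 := ℝ)).1 hq3s).2).2
  have hq3c : HasCompactSupport q3 := hθ.comp.mul_left
  have hz : ∀ t, t ∉ tsupport θ → θ t = 0 ∧ q1 t = 0 ∧ q2 t = 0 ∧ q3 t = 0 := by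
    intro t ht
    have e1 : θ =ᶠ[𝓝 t] fun _ => 0 := notMem_tsupport_iff_eventuallyEq.1 ht
    have e2 : q3 =ᶠ[𝓝 t] fun _ => 0 := by
      filter_upwards [e1] with s hs
      simp only [hq3, hs, mul_zero]
    refine ⟨e1.self_of_nhds, ?_, ?_, e2.self_of_nhds⟩
    · rw [hq1, e1.deriv_eq]
      simp
    · have e3 : deriv q3 =ᶠ[𝓝 t] fun _ => 0 := by
        filter_upwards [eventually_eventually_nhds.2 e2] with s hs
        have e4 : q3 =ᶠ[𝓝 s] fun _ => 0 := hs
        rw [e4.deriv_eq]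
        simp
      rw [hq2, e3.deriv_eq]
      simp
  obtain ⟨B, hB0, hBa, hBb, hBc, hBd⟩ : ∃ B : ℝ, 0 ≤ B ∧ (∀ s, |θ s| ≤ B) ∧ (∀ s, |q1 s| ≤ B) ∧
      (∀ s, |q2 s| ≤ B) ∧ ∀ s, |q3 s| ≤ B := by
    obtain ⟨P0, g0⟩ := hθ.comp.exists_bound_of_continuous hθ.smooth.continuous
    obtain ⟨P1, g1⟩ := hθ.comp.deriv.exists_bound_of_continuous hq1s.continuous
    obtain ⟨P2, g2⟩ := hq3c.deriv.deriv.exists_bound_of_continuous hq2s.continuous
    obtain ⟨P3, g3⟩ := hq3c.exists_bound_of_continuous hq3s.continuous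
    have n0 := (norm_nonneg _).trans (g0 0)
    have n1 := (norm_nonneg _).trans (g1 0)
    have n2 := (norm_nonneg _).trans (g2 0)
    have n3 := (norm_nonneg _).trans (g3 0)
    refine ⟨P0 + P1 + P2 + P3, by positivity, fun s => ?_, fun s => ?_, fun s => ?_, fun s => ?_⟩
    · have := g0 s
      rw [Real.norm_eq_abs] at this
      linarith
    · have := g1 s
      rw [Real.norm_eq_abs] at this
      linarith
    · have := g2 s
      rw [Real.norm_eq_abs] at this
      linarith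
    · have := g3 s
      rw [Real.norm_eq_abs] at this
      linarith
  -- the differences
  set DM : ℝ × ℂ → ℝ := fun q => M (jet F (cp q.1 q.2) + jt e) - M (jt e) with hDM
  set DY : Fin 3 → ℝ × ℂ → ℝ := fun i q => Y i (jet F (cp q.1 q.2) + jt e) - Y i (jt e) with hDY
  have hDMb : ∀ t z, 0 < t → |DM (t, z)| ≤ C * b z := fun t z ht => by
    refine ((hCM (jet F (cp t z))).1).trans ?_
    exact mul_le_mul hCMC (hN.bd t z ht.le) (norm_nonneg _) hC0
  have hDYb : ∀ i t z, 0 < t → |DY i (t, z)| ≤ C * b z := fun i t z ht => by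
    refine ((hCY i (jet F (cp t z))).1).trans ?_
    exact mul_le_mul (hCYC i) (hN.bd t z ht.le) (norm_nonneg _) hC0
  have hHo : IsOpen {q : ℝ × ℂ | 0 < q.1} := isOpen_lt continuous_const continuous_fst
  have hjc : ContinuousOn (fun q : ℝ × ℂ => jet F (cp q.1 q.2)) {q : ℝ × ℂ | 0 < q.1} :=
    (jet_cont hF).comp cp_cont.continuousOn fun q hq => hq
  have hDMc : ContinuousOn DM {q : ℝ × ℂ | 0 < q.1} :=
    (hc.cM.comp_continuousOn (hjc.add continuousOn_const)).sub continuousOn_const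
  have hDYc : ∀ i, ContinuousOn (DY i) {q : ℝ × ℂ | 0 < q.1} := fun i =>
    ((hc.cY i).comp_continuousOn (hjc.add continuousOn_const)).sub continuousOn_const
  -- the approximating integrands
  let f : ℝ → ℝ × ℂ → ℝ := fun R q =>
    DM q * (q2 q.1 * (ψ (q.2.re / R) * ψ (q.2.im / R)) +
      q3 q.1 * (deriv (deriv ψ) (q.2.re / R) / R ^ 2 * ψ (q.2.im / R) +
        ψ (q.2.re / R) * (deriv (deriv ψ) (q.2.im / R) / R ^ 2))) -
      (DY 0 q * (q1 q.1 * (ψ (q.2.re / R) * ψ (q.2.im / R))) +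
        DY 1 q * (θ q.1 * (deriv ψ (q.2.re / R) / R * ψ (q.2.im / R))) +
        DY 2 q * (θ q.1 * (ψ (q.2.re / R) * (deriv ψ (q.2.im / R) / R))))
  let f0 : ℝ × ℂ → ℝ := fun q => DM q * q2 q.1 - DY 0 q * q1 q.1
  have hpos : ∀ R : ℝ, 0 < R → 0 ≤ ∫ q, f R q := by
    intro R hR
    obtain ⟨hT, hTd⟩ := h2 θ ψ R hθ hψs hψc hψn hR
    have e1 := h1 p M Y hc F hF e (tR θ ψ R) hT
    rw [← h3.1.integral_comp h3.2] at e1
    refine e1.trans (le_of_eq ?_)
    change ∫ q : ℝ × ℂ, _ ∂(volume.prod volume) = ∫ q : ℝ × ℂ, f R q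
    congr 1
    funext q
    obtain ⟨d0, d1, d2, dl⟩ := hTd (cp q.1 q.2)
    rw [Fin.sum_univ_three, d0, d1, d2, dl]
    rfl
  have hbd : ∀ R : ℝ, 1 ≤ R → ∀ q : ℝ × ℂ,
      ‖f R q‖ ≤ (tsupport θ).indicator (fun _ => 6 * B * P ^ 2 * C) q.1 * b q.2 := by
    intro R hR q
    by_cases hq : q.1 ∈ tsupport θ
    · rw [indicator_of_mem hq, Real.norm_eq_abs]
      have ht : 0 < q.1 := hθ.supp hq
      have hR0 : 0 < R := by linarith
      have hdiv : ∀ {x : ℝ}, |x| ≤ P → |x / R| ≤ P := fun {x} hx => by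
        rw [abs_div, abs_of_pos hR0]
        exact (div_le_self (abs_nonneg _) hR).trans hx
      have hdiv2 : ∀ {x : ℝ}, |x| ≤ P → |x / R ^ 2| ≤ P := fun {x} hx => by
        rw [abs_div, abs_of_pos (by positivity : 0 < R ^ 2)]
        exact (div_le_self (abs_nonneg _) (one_le_pow₀ hR)).trans hx
      have := bound (hDMb q.1 q.2 ht) (hDYb 0 q.1 q.2 ht)
        (hDYb 1 q.1 q.2 ht) (hDYb 2 q.1 q.2 ht) (hBa q.1) (hBb q.1) (hBc q.1) (hBd q.1)
        (hPa (q.2.re / R)) (hPa (q.2.im / R)) (hdiv (hPb (q.2.re / R))) (hdiv (hPb (q.2.im / R)))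
        (hdiv2 (hPc (q.2.re / R))) (hdiv2 (hPc (q.2.im / R)))
      refine this.trans (le_of_eq ?_)
      ring
    · rw [indicator_of_notMem hq, zero_mul]
      obtain ⟨z0, z1, z2, z3⟩ := hz q.1 hq
      have : f R q = 0 := by
        simp only [f, z0, z1, z2, z3]
        ring
      rw [this, norm_zero]
  have hgi : Integrable fun q : ℝ × ℂ =>
      (tsupport θ).indicator (fun _ => 6 * B * P ^ 2 * C) q.1 * b q.2 := by
    refine Integrable.mul_prod (f := (tsupport θ).indicator fun _ => 6 * B * P ^ 2 * C) ?_ hN.intb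
    refine (integrable_indicator_iff (isClosed_tsupport θ).measurableSet).2 ?_
    exact integrableOn_const (hθ.comp.isCompact.measure_lt_top.ne)
  have hcr : ∀ R : ℝ, ∀ g : ℝ → ℝ, Continuous g → Continuous fun q : ℝ × ℂ => g (q.2.re / R) :=
    fun R g hg => hg.comp ((Complex.continuous_re.comp continuous_snd).div_const R)
  have hci : ∀ R : ℝ, ∀ g : ℝ → ℝ, Continuous g → Continuous fun q : ℝ × ℂ => g (q.2.im / R) :=
    fun R g hg => hg.comp ((Complex.continuous_im.comp continuous_snd).div_const R)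
  have hct : ∀ g : ℝ → ℝ, Continuous g → Continuous fun q : ℝ × ℂ => g q.1 :=
    fun g hg => hg.comp continuous_fst
  have hfc : ∀ R : ℝ, ContinuousOn (f R) {q : ℝ × ℂ | 0 < q.1} := by
    intro R
    have c0 := hcr R ψ hψs.continuous
    have c1 := hci R ψ hψs.continuous
    have c2 := hcr R _ hψ1s.continuous
    have c3 := hci R _ hψ1s.continuous
    have c4 := hcr R _ hψ2s.continuous
    have c5 := hci R _ hψ2s.continuous
    have t0 := hct θ hθ.smooth.continuous
    have t1 := hct q1 hq1s.continuous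
    have t2 := hct q2 hq2s.continuous
    have t3 := hct q3 hq3s.continuous
    refine (hDMc.mul ?_).sub ((((hDYc 0).mul ?_).add ((hDYc 1).mul ?_)).add ((hDYc 2).mul ?_))
    · exact ((t2.mul (c0.mul c1)).add (t3.mul (((c4.div_const _).mul c1).add
        (c0.mul (c5.div_const _))))).continuousOn
    · exact (t1.mul (c0.mul c1)).continuousOn
    · exact (t0.mul ((c2.div_const _).mul c1)).continuousOn
    · exact (t0.mul (c0.mul (c3.div_const _))).continuousOn
  have hfm : ∀ R : ℝ, AEStronglyMeasurable (f R) := by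
    intro R
    have e1 : f R = {q : ℝ × ℂ | 0 < q.1}.indicator (f R) := by
      refine (indicator_eq_self.2 fun q hq => ?_).symm
      by_contra hn
      have h5 : q.1 ∉ tsupport θ := fun h => hn (hθ.supp h)
      obtain ⟨z0, z1, z2, z3⟩ := hz q.1 h5
      apply hq
      simp only [f, z0, z1, z2, z3]
      ring
    rw [e1]
    exact (aestronglyMeasurable_indicator_iff hHo.measurableSet).2
      ((hfc R).aestronglyMeasurable hHo.measurableSet)
  have hlim : ∀ q : ℝ × ℂ, Tendsto (fun n : ℕ => f ((n : ℝ) + 1) q) atTop (𝓝 (f0 q)) := by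
    intro q
    have hR : Tendsto (fun n : ℕ => (n : ℝ) + 1) atTop atTop :=
      tendsto_atTop_add_const_right _ _ tendsto_natCast_atTop_atTop
    have hdiv : ∀ x : ℝ, Tendsto (fun n : ℕ => x / ((n : ℝ) + 1)) atTop (𝓝 0) := fun x =>
      hR.const_div_atTop x
    have hg : ∀ g : ℝ → ℝ, Continuous g → ∀ x : ℝ,
        Tendsto (fun n : ℕ => g (x / ((n : ℝ) + 1))) atTop (𝓝 (g 0)) := fun g hg x =>
      (hg.tendsto 0).comp (hdiv x)
    have hinv : Tendsto (fun n : ℕ => ((n : ℝ) + 1)⁻¹) atTop (𝓝 0) := hR.inv_tendsto_atTop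
    have hinv2 : Tendsto (fun n : ℕ => (((n : ℝ) + 1) ^ 2)⁻¹) atTop (𝓝 0) := by
      have := hinv.mul hinv
      simp only [mul_zero] at this
      refine this.congr fun n => ?_
      rw [sq, mul_inv]
    have a0 := hg ψ hψs.continuous q.2.re
    have b0 := hg ψ hψs.continuous q.2.im
    have a1 := (hg _ hψ1s.continuous q.2.re).mul hinv
    have b1 := (hg _ hψ1s.continuous q.2.im).mul hinv
    have a2 := (hg _ hψ2s.continuous q.2.re).mul hinv2
    have b2 := (hg _ hψ2s.continuous q.2.im).mul hinv2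
    simp only [← div_eq_mul_inv] at a1 b1 a2 b2
    have key := ((((a0.mul b0).const_mul (q2 q.1)).add (((a2.mul b0).add (a0.mul b2)).const_mul
      (q3 q.1))).const_mul (DM q)).sub (((((a0.mul b0).const_mul (q1 q.1)).const_mul (DY 0 q)).add
      (((a1.mul b0).const_mul (θ q.1)).const_mul (DY 1 q))).add
      (((a0.mul b1).const_mul (θ q.1)).const_mul (DY 2 q)))
    have e9 : f0 q = DM q * (q2 q.1 * (ψ 0 * ψ 0) + q3 q.1 * (deriv (deriv ψ) 0 * 0 * ψ 0 +
        ψ 0 * (deriv (deriv ψ) 0 * 0))) - (DY 0 q * (q1 q.1 * (ψ 0 * ψ 0)) +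
        DY 1 q * (θ q.1 * (deriv ψ 0 * 0 * ψ 0)) + DY 2 q * (θ q.1 * (ψ 0 * (deriv ψ 0 * 0)))) := by
      simp only [f0, hψ1]
      ring
    rw [e9]
    exact key
  have hconv : Tendsto (fun n : ℕ => ∫ q, f ((n : ℝ) + 1) q) atTop (𝓝 (∫ q, f0 q)) := by
    refine tendsto_integral_of_dominated_convergence _ (fun n => hfm _) hgi (fun n => ?_) ?_
    · refine Eventually.of_forall fun q => hbd _ ?_ q
      have : (0 : ℝ) ≤ n := n.cast_nonneg
      linarith
    · exact Eventually.of_forall hlim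
  have h0 : 0 ≤ ∫ q, f0 q := ge_of_tendsto' hconv fun n => hpos _ (by positivity)
  have hf0b : ∀ q : ℝ × ℂ,
      ‖f0 q‖ ≤ (tsupport θ).indicator (fun _ => 6 * B * P ^ 2 * C) q.1 * b q.2 := fun q =>
    le_of_tendsto' (hlim q).norm fun n => hbd _ (by
      have : (0 : ℝ) ≤ n := n.cast_nonneg
      linarith) q
  have hf0m : AEStronglyMeasurable f0 :=
    aestronglyMeasurable_of_tendsto_ae atTop (fun n : ℕ => hfm ((n : ℝ) + 1))
      (Eventually.of_forall hlim)
  have hf0i : Integrable f0 := hgi.mono' hf0m (Eventually.of_forall hf0b)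
  have hcpt : ∀ t : ℝ, Continuous fun z : ℂ => ((t, z) : ℝ × ℂ) := fun t =>
    continuous_const.prodMk continuous_id
  have hi : ∀ g : ℝ × ℂ → ℝ, ContinuousOn g {q : ℝ × ℂ | 0 < q.1} →
      (∀ t z, 0 < t → |g (t, z)| ≤ C * b z) → ∀ t, 0 < t → Integrable fun z => g (t, z) := by
    intro g hgc hgb t ht
    have hm : Continuous fun z => g (t, z) :=
      hgc.comp_continuous (hcpt t) fun z => ht
    exact (hN.intb.const_mul C).mono' hm.aestronglyMeasurable
      (Eventually.of_forall fun z => hgb t z ht)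
  have e5 : ∫ q, f0 q = ∫ t : ℝ, (mm M F e t * q2 t - mm (Y 0) F e t * q1 t) := by
    have e6 : ∫ q, f0 q = ∫ t : ℝ, ∫ z : ℂ, f0 (t, z) := integral_prod _ hf0i
    rw [e6]
    congr 1
    funext t
    by_cases ht : 0 < t
    · have i1 := hi DM hDMc hDMb t ht
      have i2 := hi (DY 0) (hDYc 0) (hDYb 0) t ht
      change ∫ z : ℂ, (DM (t, z) * q2 t - DY 0 (t, z) * q1 t) = _
      rw [integral_sub (i1.mul_const _) (i2.mul_const _), integral_mul_const, integral_mul_const]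
      rfl
    · have h5 : t ∉ tsupport θ := fun h => ht (hθ.supp h)
      obtain ⟨z0, z1, z2, z3⟩ := hz t h5
      simp only [f0, z1, z2, mul_zero, sub_zero, integral_zero]
  rw [e5] at h0
  refine h0.trans (le_of_eq ?_)
  refine (setIntegral_eq_integral_of_forall_compl_eq_zero fun t ht => ?_).symm
  have h5 : t ∉ tsupport θ := fun h => ht (hθ.supp h)
  obtain ⟨z0, z1, z2, z3⟩ := hz t h5
  rw [z1, z2, mul_zero, mul_zero, sub_zero]

end Pool.Agent.Work.MP_440970_an.FC

end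

section

/-!
# Flux certificates for gradient fields: item Vol
-/

open MeasureTheory Set Filter Topology
open scoped ContDiff ENNReal

namespace Pool.Agent.Work.MP_440970_an.FC

open BH

namespace VolX

/-- the complex plane as a function space -/
lemma mp1 : MeasurePreserving ((MeasurableEquiv.finTwoArrow (α := ℝ)).symm ∘
    Complex.measurableEquivRealProd) (volume : Measure ℂ) volume :=
  (volume_preserving_finTwoArrow ℝ).symm.comp Complex.volume_preserving_equiv_real_prod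

/-- the product -/
lemma mp2 : MeasurePreserving (fun q : ℝ × ℂ => cp q.1 q.2) (volume.prod volume) volume := by
  have h1 : MeasurePreserving (Prod.map (id : ℝ → ℝ)
      ((MeasurableEquiv.finTwoArrow (α := ℝ)).symm ∘ Complex.measurableEquivRealProd))
      ((volume : Measure ℝ).prod (volume : Measure ℂ))
      ((volume : Measure ℝ).prod (volume : Measure (Fin 2 → ℝ))) :=
    (MeasurePreserving.id (volume : Measure ℝ)).prod mp1
  have h2 := ((volume_preserving_piFinSuccAbove (fun _ : Fin 3 => ℝ) 0).symm _).comp h1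
  have h3 : (fun q : ℝ × ℂ => cp q.1 q.2) =
      ((MeasurableEquiv.piFinSuccAbove (fun _ : Fin 3 => ℝ) 0).symm ∘ Prod.map (id : ℝ → ℝ)
      ((MeasurableEquiv.finTwoArrow (α := ℝ)).symm ∘ Complex.measurableEquivRealProd)) := by
    funext q
    funext i
    fin_cases i <;> rfl
  rw [h3]
  exact h2

lemma cont_cp : Continuous (fun q : ℝ × ℂ => cp q.1 q.2) := by
  refine continuous_pi fun i => ?_
  fin_cases i
  · exact continuous_fst
  · exact Complex.continuous_re.comp continuous_snd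
  · exact Complex.continuous_im.comp continuous_snd

lemma inj_cp : Function.Injective (fun q : ℝ × ℂ => cp q.1 q.2) := by
  rintro ⟨t, z⟩ ⟨t', z'⟩ h
  have h0 : t = t' := congrFun h 0
  have h1 : z.re = z'.re := congrFun h 1
  have h2 : z.im = z'.im := congrFun h 2
  rw [h0, Complex.ext h1 h2]

end VolX

open VolX in
theorem pr_Vol : S_Vol := ⟨mp2, cont_cp.measurableEmbedding inj_cp⟩

end Pool.Agent.Work.MP_440970_an.FC

end
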