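import Pool.Agent.Work.MP_440970_an.FC.Stmts
import Pool.Agent.Work.MP_440970_an.FX.Lam
import Pool.Agent.Work.MP_440970_an.Bdx.B01

/-! Bundle of small proof modules (one section per former module). -/

section

/-!
# The weak inequality for fields without zero jets
-/

open MeasureTheory Set Filter Topology
open scoped ContDiff ENNReal

namespace Pool.Agent.Work.MP_440970_an.FC

open BH

namespace Weak0X

theorem half_open : IsOpen half := isOpen_lt continuous_const (continuous_apply 0)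

theorem tsup_pd (i : Fin 3) (f : E3 → ℝ) : tsupport (pd i f) ⊆ tsupport f :=
  tsupport_fderiv_apply_subset ℝ (Pi.single i (1 : ℝ) : E3)

theorem comp_pd (i : Fin 3) {f : E3 → ℝ} (h : HasCompactSupport f) :
    HasCompactSupport (pd i f) :=
  h.fderiv_apply ℝ (Pi.single i (1 : ℝ) : E3)

theorem smooth_pd (i : Fin 3) {f : E3 → ℝ} (h : ContDiff ℝ ∞ f) : ContDiff ℝ ∞ (pd i f) :=
  contDiff_iff_contDiffAt.2 fun _ => pd_contDiffAt i h.contDiffAt (by simp)

end Weak0X

open Weak0X in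
theorem pr_Weak0 (h1 : S_JetNJ) (h2 : S_ChainG) (h3 : S_ChainY) (h4 : S_Ibp) : S_Weak0 := by
  intro p M Y hc F hF hne φ hφ
  have hm : ∀ x ∈ half, NJ (fun y => M (jet F y)) x (M (jet F x))
      (fun i => ∑ k, pz k M (jet F x) * Am (jet F x) (tau F x) i k)
      (LM M (jet F x) (tau F x)) := fun x hx =>
    h2 M (jet F) x (Am (jet F x) (tau F x)) (Bm (tau F x)) (h1 F half hF x hx)
      (hc.sM _ (hne x hx))
  have hy : ∀ i, ∀ x ∈ half, ContDiffAt ℝ 1 (fun y => Y i (jet F y)) x ∧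
      x 0 * pd i (fun y => Y i (jet F y)) x =
        ∑ k, pz k (Y i) (jet F x) * Am (jet F x) (tau F x) i k := fun i x hx => by
    obtain ⟨ha, hb⟩ := h3 (Y i) (jet F) x (Am (jet F x) (tau F x)) (Bm (tau F x))
      (h1 F half hF x hx) (hc.sY i _ (hne x hx))
    exact ⟨ha, hb i⟩
  set m : E3 → ℝ := fun x => M (jet F x) with hmdef
  set y : Fin 3 → E3 → ℝ := fun i x => Y i (jet F x) with hydef
  set ψ : E3 → ℝ := fun x => x 0 * φ x with hψdef
  have hψs : ContDiff ℝ ∞ ψ := (contDiff_apply ℝ ℝ (0 : Fin 3)).mul hφ.smooth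
  have hψc : HasCompactSupport ψ := hφ.comp.mul_left
  have hψt : tsupport ψ ⊆ half :=
    (closure_mono (Function.support_mul_subset_right _ _)).trans hφ.supp
  have hm2 : ContDiffOn ℝ 2 m half := fun x hx => (hm x hx).smooth.contDiffWithinAt
  have hm1 : ContDiffOn ℝ 1 m half := hm2.of_le (by norm_num)
  have hpm : ∀ i, ContDiffOn ℝ 1 (pd i m) half := fun i =>
    pd_contDiffOn i half_open hm2 (by norm_num)
  have hy1 : ∀ i, ContDiffOn ℝ 1 (y i) half := fun i x hx => (hy i x hx).1.contDiffWithinAt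
  have ha : ∀ i, _ := fun i => h4 (pd i ψ) m half i half_open
    ((smooth_pd i hψs).of_le (by simp)) (comp_pd i hψc) ((tsup_pd i ψ).trans hψt) hm1
  have hb : ∀ i, _ := fun i => h4 ψ (pd i m) half i half_open
    (hψs.of_le (by simp)) hψc hψt (hpm i)
  have hd : ∀ i, _ := fun i => h4 φ (y i) half i half_open
    (hφ.smooth.of_le (by simp)) hφ.comp hφ.supp (hy1 i)
  have key : ∀ x, 0 ≤ (∑ i, ψ x * pd i (pd i m) x) + ∑ i, φ x * pd i (y i) x := by
    intro x
    by_cases hx : x ∈ half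
    · have hx0 : 0 < x 0 := hx
      have e1 : x 0 ^ 2 * ∑ i, pd i (pd i m) x = LM M (jet F x) (tau F x) := (hm x hx).lap
      have e2 : x 0 * ∑ i, pd i (y i) x = LY Y (jet F x) (tau F x) := by
        rw [Finset.mul_sum]
        exact Finset.sum_congr rfl fun i _ => (hy i x hx).2
      have e3 := hc.pos _ (hne x hx) (tau F x)
      rw [← e1, ← e2] at e3
      have e4 : 0 ≤ x 0 * ∑ i, pd i (pd i m) x + ∑ i, pd i (y i) x := by
        have e5 : 0 ≤ x 0 * (x 0 * ∑ i, pd i (pd i m) x + ∑ i, pd i (y i) x) := by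
          linarith
        exact nonneg_of_mul_nonneg_right e5 hx0
      have e6 : (∑ i, ψ x * pd i (pd i m) x) + ∑ i, φ x * pd i (y i) x =
          φ x * (x 0 * ∑ i, pd i (pd i m) x + ∑ i, pd i (y i) x) := by
        rw [← Finset.mul_sum, ← Finset.mul_sum]
        simp only [hψdef]
        ring
      rw [e6]
      exact mul_nonneg (hφ.nonneg x) e4
    · have h0 : φ x = 0 := by
        by_contra h
        exact hx (hφ.supp (subset_tsupport _ h))
      have h0' : ψ x = 0 := by simp only [hψdef, h0, mul_zero]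
      simp [h0, h0']
  have e7 : ∫ x, (m x * lt φ x - ∑ i, y i x * pd i φ x) =
      (∑ i, ∫ x, pd i (pd i ψ) x * m x) - ∑ i, ∫ x, pd i φ x * y i x := by
    rw [← integral_finsetSum _ fun i _ => (ha i).1, ← integral_finsetSum _ fun i _ => (hd i).1,
      ← integral_sub (integrable_finsetSum _ fun i _ => (ha i).1)
        (integrable_finsetSum _ fun i _ => (hd i).1)]
    congr 1
    funext x
    unfold lt
    rw [Finset.mul_sum]
    congr 1
    · exact Finset.sum_congr rfl fun i _ => mul_comm _ _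
    · exact Finset.sum_congr rfl fun i _ => mul_comm _ _
  have e8 : ∀ i, ∫ x, pd i (pd i ψ) x * m x = ∫ x, ψ x * pd i (pd i m) x := fun i => by
    rw [(ha i).2.2, (hb i).2.2, neg_neg]
  have e9 : ∀ i, ∫ x, pd i φ x * y i x = -∫ x, φ x * pd i (y i) x := fun i => (hd i).2.2
  change 0 ≤ ∫ x, (m x * lt φ x - ∑ i, y i x * pd i φ x)
  rw [e7]
  simp only [e8, e9, Finset.sum_neg_distrib, sub_neg_eq_add]
  rw [← integral_finsetSum _ fun i _ => (hb i).2.1, ← integral_finsetSum _ fun i _ => (hd i).2.1,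
    ← integral_add (integrable_finsetSum _ fun i _ => (hb i).2.1)
      (integrable_finsetSum _ fun i _ => (hd i).2.1)]
  exact integral_nonneg key

end Pool.Agent.Work.MP_440970_an.FC

end

section

/-!
# Flux certificates from the polynomial inequality
-/

set_option autoImplicit false

open Finset
open scoped ContDiff

namespace Pool.Agent.Work.MP_440970_an.FX

open FC SC

theorem U_smul (v : ℕ) (c : ℝ) (z : J8) : U v (c • z) = c * U v z := by
  unfold U
  rw [Finset.mul_sum]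
  refine Finset.sum_congr rfl fun k _ => ?_
  simp only [Pi.smul_apply, smul_eq_mul]
  push_cast
  ring

theorem mf_smul (f : ℕ → ℕ) (d c : ℕ) (t : ℝ) (z : J8) :
    mf f d c (t • z) = (t : ℂ) ^ d * mf f d c z := by
  induction d generalizing c with
  | zero => simp [mf]
  | succ d ih =>
    show U (f (c % 16)) (t • z) * mf f d (c / 16) (t • z) =
      (t : ℂ) ^ (d + 1) * (U (f (c % 16)) z * mf f d (c / 16) z)
    rw [ih, U_smul]
    ring

theorem pf_smul (f : ℕ → ℕ) (d : ℕ) (q : PL) (t : ℝ) (z : J8) :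
    pf f d q (t • z) = (t : ℂ) ^ d * pf f d q z := by
  induction q with
  | Z => simp [pf]
  | C c p n l ih =>
    show ((p : ℂ) - n) * mf f d c (t • z) + pf f d l (t • z) =
      (t : ℂ) ^ d * (((p : ℂ) - n) * mf f d c z + pf f d l z)
    rw [ih, mf_smul]
    ring

section

variable (d e : ℕ) (qN qP qR qS : PL)

theorem Nf_smul (t : ℝ) (z : J8) : Nf qN (t • z) = t ^ 2 * Nf qN z := by
  unfold Nf
  rw [pf_smul, ← Complex.ofReal_pow, Complex.re_ofReal_mul]

theorem Pf_smul (t : ℝ) (z : J8) : Pf d qP (t • z) = t ^ d * Pf d qP z := by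
  unfold Pf
  rw [pf_smul, ← Complex.ofReal_pow, Complex.re_ofReal_mul]

theorem Rf_smul (i : Fin 3) (t : ℝ) (z : J8) :
    Rf e qR qS i (t • z) = t ^ e * Rf e qR qS i z := by
  fin_cases i
  · show (pf idn e qR (t • z)).re = t ^ e * (pf idn e qR z).re
    rw [pf_smul, ← Complex.ofReal_pow, Complex.re_ofReal_mul]
  · show (pf idn e qS (t • z)).re = t ^ e * (pf idn e qS z).re
    rw [pf_smul, ← Complex.ofReal_pow, Complex.re_ofReal_mul]
  · show (pf idn e qS (t • z)).im = t ^ e * (pf idn e qS z).im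
    rw [pf_smul, ← Complex.ofReal_pow, Complex.im_ofReal_mul]

theorem cd_re {f : J8 → ℂ} (hf : Sm f) : ContDiff ℝ ∞ fun z => (f z).re :=
  Complex.reCLM.contDiff.comp hf

theorem cd_im {f : J8 → ℂ} (hf : Sm f) : ContDiff ℝ ∞ fun z => (f z).im :=
  Complex.imCLM.contDiff.comp hf

theorem cd_Nf : ContDiff ℝ ∞ (Nf qN) := cd_re (sm_pf idn 2 qN)

theorem cd_Pf : ContDiff ℝ ∞ (Pf d qP) := cd_re (sm_pf idn d qP)

theorem cd_Rf (i : Fin 3) : ContDiff ℝ ∞ (Rf e qR qS i) := by
  fin_cases i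
  · exact cd_re (sm_pf idn e qR)
  · exact cd_re (sm_pf idn e qS)
  · exact cd_im (sm_pf idn e qS)

theorem le_inf (n : ℕ) : (n : WithTop ℕ∞) ≤ ∞ := by
  exact_mod_cast le_top

theorem fcert_of (σ τ : ℕ) (s p : ℝ) (hτ : 0 < τ) (hs : (σ : ℝ) = -s * τ)
    (hp : 2 * s + d = p) (he : e = d + 2) (p0 : 0 < p) (hd : 0 < d)
    (hN : ∀ z, (pf idn 2 qN z).im = 0) (Npos : ∀ z, z ≠ 0 → 0 < Nf qN z)
    (hpos : ∀ z w, 0 ≤ (ev (X z w) (lam σ τ d e qN qP qR qS)).re) :
    FCert p (fun z => Nf qN z ^ s * Pf d qP z)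
      (fun i z => Nf qN z ^ (s - 1) * Rf e qR qS i z) := by
  have hp' : 2 * (s - 1) + (e : ℝ) = p := by
    rw [he]
    push_cast
    linarith
  have he0 : 0 < e := by omega
  have N2 : ContDiff ℝ 2 (Nf qN) := (cd_Nf qN).of_le (le_inf 2)
  have P2 : ContDiff ℝ 2 (Pf d qP) := (cd_Pf d qP).of_le (le_inf 2)
  have R1 : ∀ i, ContDiff ℝ 1 (Rf e qR qS i) := fun i => (cd_Rf e qR qS i).of_le (le_inf 1)
  refine ⟨?_, ?_, ?_, ?_, ?_, ?_, ?_⟩
  · exact hom_cont N2.continuous P2.continuous (Nf_smul qN) (Pf_smul d qP) Npos hd hp p0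
  · intro i
    exact hom_cont N2.continuous (R1 i).continuous (Nf_smul qN) (Rf_smul e qR qS i) Npos he0 hp' p0
  · intro z hz
    exact hom_diff N2 P2 Npos hz
  · intro i z hz
    exact hom_diff (N2.of_le (by norm_num)) (R1 i) Npos hz
  · exact hom_bound N2.continuous P2.continuous (Nf_smul qN) (Pf_smul d qP) Npos hd hp p0
  · have h := fun i => hom_bound N2.continuous (R1 i).continuous (Nf_smul qN)
      (Rf_smul e qR qS i) Npos he0 hp' p0
    choose C hC using h
    refine ⟨∑ i, |C i|, fun i z => (hC i z).trans ?_⟩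
    refine mul_le_mul_of_nonneg_right ?_ (Real.rpow_nonneg (norm_nonneg z) p)
    exact (le_abs_self _).trans
      (Finset.single_le_sum (f := fun i => |C i|) (fun j _ => abs_nonneg _) (Finset.mem_univ i))
  · intro z hz w
    have h1 := LM_formula (s := s) N2 P2 (fun y hy => Npos y hy) hz w
    have h2 := LY_formula (s := s) (R := Rf e qR qS) N2 R1 (fun y hy => Npos y hy) hz w
    rw [h1, h2, ← mul_add]
    refine mul_nonneg (Real.rpow_nonneg (Npos z hz).le _) ?_
    have h3 := hpos z w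
    rw [lam_re σ τ d e qN qP qR qS hN s hs z w] at h3
    have h4 : (0 : ℝ) < 2 * (τ : ℝ) ^ 2 := by
      have : (0 : ℝ) < τ := by exact_mod_cast hτ
      positivity
    exact nonneg_of_mul_nonneg_right h3 h4

end

end Pool.Agent.Work.MP_440970_an.FX

end
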